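import Pool.Agent.MP_b834b3_ag.g.SpecA

/-! Genus twenty: pairs of planes with dependent conditions. -/

namespace Pool.Agent.MP_b834b3_ag.G20

open Algebra Matrix Module

namespace Bf

variable {F : Type} [Field F]

/-- The row space. -/
def rs (M : Matrix (Fin 4) (Fin 9) F) : Submodule F (Fin 9 → F) := LinearMap.range M.vecMulLinear

theorem mem_rs {M : Matrix (Fin 4) (Fin 9) F} {v : Fin 9 → F} : v ∈ rs M ↔ ∃ c, c ᵥ* M = v :=
  Iff.rfl

theorem vec_at {M : Matrix (Fin 4) (Fin 9) F} {f : Fin 4 → Fin 9} (h : M.submatrix id f = 1)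
    (c : Fin 4 → F) (k : Fin 4) : (c ᵥ* M) (f k) = c k := by
  have : (c ᵥ* M) (f k) = (c ᵥ* M.submatrix id f) k := rfl
  rw [this, h, vecMul_one]

theorem rank_rs {M : Matrix (Fin 4) (Fin 9) F} {f : Fin 4 → Fin 9} (h : M.submatrix id f = 1) :
    finrank F (rs M) = 4 := by
  have hi : Function.Injective M.vecMulLinear := fun c c' e => funext fun k => by
    rw [← vec_at h c k, ← vec_at h c' k]; exact congrFun e _
  rw [rs, LinearMap.finrank_range_of_inj hi, finrank_fin_fun]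

theorem row_at {M : Matrix (Fin 4) (Fin 9) F} {f : Fin 4 → Fin 9} (h : M.submatrix id f = 1)
    (C : Matrix (Fin 4) (Fin 4) F) (k : Fin 4) : (Mᵀ * C * M) (f k) = C k ᵥ* M := by
  have e : Mᵀ (f k) = Pi.single k 1 := by
    funext j
    have : Mᵀ (f k) j = (M.submatrix id f) j k := rfl
    rw [this, h, one_apply, Pi.single_apply]
  have e1 : (Mᵀ * C * M) (f k) = (Mᵀ (f k) ᵥ* C) ᵥ* M := rfl
  rw [e1, e, single_one_vecMul]
  rfl

theorem two_le [CharZero F] {M M' : Matrix (Fin 4) (Fin 9) F} {f : Fin 4 → Fin 9}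
    (h : M.submatrix id f = 1) {C C' : Matrix (Fin 4) (Fin 4) F} (hC : Cᵀ = -C) (h0 : C ≠ 0)
    (e : Mᵀ * C * M = M'ᵀ * C' * M') : 2 ≤ finrank F (rs M ⊓ rs M' : Submodule F (Fin 9 → F)) := by
  obtain ⟨i, j, hij⟩ : ∃ i j, C i j ≠ 0 := by
    by_contra hn
    push Not at hn
    exact h0 (Matrix.ext hn)
  have sk : ∀ a b, C b a = -C a b := fun a b => congrFun (congrFun hC a) b
  have dg : ∀ a, C a a = 0 := fun a => by
    have := sk a a
    have h2 : (2 : F) * C a a = 0 := by linear_combination this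
    exact (mul_eq_zero.1 h2).resolve_left two_ne_zero
  have hm : ∀ k, C k ᵥ* M ∈ rs M ⊓ rs M' := fun k =>
    ⟨⟨C k, rfl⟩, ⟨(M'ᵀ * C') (f k), by rw [← row_at h, e]; rfl⟩⟩
  have li : LinearIndependent F
      (![⟨_, hm i⟩, ⟨_, hm j⟩] : Fin 2 → (rs M ⊓ rs M' : Submodule F (Fin 9 → F))) := by
    rw [LinearIndependent.pair_iff]
    intro s t hst
    have h1 : s • (C i ᵥ* M) + t • (C j ᵥ* M) = 0 := congrArg Subtype.val hst
    have h2 := congrFun h1 (f j)
    have h3 := congrFun h1 (f i)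
    simp only [Pi.add_apply, Pi.smul_apply, vec_at h, smul_eq_mul, Pi.zero_apply, dg, sk i j,
      mul_zero, add_zero, zero_add, mul_neg, neg_eq_zero] at h2 h3
    exact ⟨(mul_eq_zero.1 h2).resolve_right hij, (mul_eq_zero.1 h3).resolve_right hij⟩
  simpa using li.fintype_card_le_finrank

theorem ent_mem {Ω : Type} [Field Ω] (L : Subfield Ω) {h : Matrix (Fin 4) (Fin 4) Ω}
    {M : Matrix (Fin 4) (Fin 9) Ω} (hd : h.det ≠ 0) (h1 : ∀ a b, h a b ∈ L)
    (h2 : ∀ a b, (h * M) a b ∈ L) (a : Fin 4) (b : Fin 9) : M a b ∈ L := by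
  let h0 : Matrix (Fin 4) (Fin 4) L := of fun a b => ⟨h a b, h1 a b⟩
  let R0 : Matrix (Fin 4) (Fin 9) L := of fun a b => ⟨(h * M) a b, h2 a b⟩
  have e1 : h0.map L.subtype = h := rfl
  have e2 : R0.map L.subtype = h * M := rfl
  have hd0 : h0.det ≠ 0 := fun e => hd (by
    rw [← e1, ← RingHom.mapMatrix_apply, ← RingHom.map_det, e, map_zero])
  have e3 : (h0⁻¹ * R0).map L.subtype = M := by
    rw [Matrix.map_mul, e2, ← e1, ← Matrix.mul_assoc, ← Matrix.map_mul,
      nonsing_inv_mul _ (isUnit_iff_ne_zero.2 hd0), Matrix.map_one _ (map_zero _) (map_one _),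
      Matrix.one_mul]
  rw [← e3]
  exact ((h0⁻¹ * R0) a b).2

theorem ent_cl {Ω : Type} [Field Ω] [Algebra F Ω] {M : Matrix (Fin 4) (Fin 9) F}
    {f r : Fin 4 → Fin 9} (h : M.submatrix id f = 1) (hr : Function.Injective r)
    {G : Matrix (Fin 9) (Fin 9) F} (hG : G.det ≠ 0) (hm : ∀ k, G (r k) ∈ rs M)
    {T : Matrix (Fin 9) (Fin 9) Ω} (hT : T.det ≠ 0) (hs : ∀ k c, T (r k) c ≠ 0 → ∃ j, r j = c)
    (a : Fin 4) (b : Fin 9) :
    algebraMap F Ω (M a b) ∈ Subfield.closure (ent (T * G.map (algebraMap F Ω))) := by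
  have h' : (M.map (algebraMap F Ω)).submatrix id f = 1 := by
    rw [submatrix_map, h, Matrix.map_one _ (map_zero _) (map_one _)]
  have hA : (T * G.map (algebraMap F Ω)).det ≠ 0 := by
    rw [det_mul, ← RingHom.mapMatrix_apply, ← RingHom.map_det]
    exact mul_ne_zero hT ((map_ne_zero _).2 hG)
  have hm' : ∀ k, (T * G.map (algebraMap F Ω)) (r k) ∈ rs (M.map (algebraMap F Ω)) := by
    intro k
    have e : (T * G.map (algebraMap F Ω)) (r k) = T (r k) ᵥ* G.map (algebraMap F Ω) := rfl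
    rw [e, vecMul_eq_sum]
    refine Submodule.sum_mem _ fun c _ => ?_
    by_cases h0 : T (r k) c = 0
    · rw [h0, zero_smul]; exact Submodule.zero_mem _
    obtain ⟨j, rfl⟩ := hs k c h0
    obtain ⟨x, hx⟩ := mem_rs.1 (hm j)
    refine Submodule.smul_mem _ _ (mem_rs.2 ⟨algebraMap F Ω ∘ x, funext fun i => ?_⟩)
    rw [← RingHom.map_vecMul, hx]
    rfl
  generalize T * G.map (algebraMap F Ω) = A at hA hm'
  choose g hg using fun k => mem_rs.1 (hm' k)
  have he : ∀ a b, A a b ∈ Subfield.closure (ent A) := fun a b =>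
    Subfield.subset_closure ⟨(a, b), rfl⟩
  have hR : ∀ k, (of g * M.map (algebraMap F Ω)) k = A (r k) := hg
  refine ent_mem _ (h := of g) (M := M.map (algebraMap F Ω)) (fun h0 => ?_) (fun a b => ?_)
    (fun a b => ?_) a b
  · obtain ⟨c, hc, hc0⟩ := exists_vecMul_eq_zero_iff.2 h0
    have li := (linearIndependent_rows_of_det_ne_zero hA).comp r hr
    refine hc (funext (Fintype.linearIndependent_iff.1 li c ?_))
    have e : c ᵥ* (of g * M.map (algebraMap F Ω)) = 0 := by rw [← vecMul_vecMul, hc0, zero_vecMul]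
    rw [vecMul_eq_sum] at e
    rw [← e]
    exact Finset.sum_congr rfl fun k _ => by rw [hR k]; rfl
  · rw [of_apply, ← vec_at h' (g a) b, hg]
    exact he _ _
  · rw [hR]
    exact he _ _

theorem zero_of [Algebra K F] (hF : FormS) {M : Matrix (Fin 4) (Fin 9) F} (hI : Iso M)
    {G : Matrix (Fin 9) (Fin 9) F} {a b : Fin 9} (ha : G a ∈ rs M) (hb : G b ∈ rs M) (i : Fin 3) :
    (G * fm F i * Gᵀ) a b = 0 := by
  obtain ⟨x, hx⟩ := mem_rs.1 ha
  obtain ⟨y, hy⟩ := mem_rs.1 hb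
  have h : M * fm F i * Mᵀ = 0 := hI i
  rw [hF.mul, ← hx, ← hy, vecMul_vecMul, ← mulVec_transpose M y, dotProduct_mulVec, vecMul_vecMul,
    h, vecMul_zero, zero_dotProduct]

theorem count [Algebra K F] (hF : FormS) (hP : PatS) {M M' : Matrix (Fin 4) (Fin 9) F}
    {f f' r r' : Fin 4 → Fin 9} (h : M.submatrix id f = 1) (h' : M'.submatrix id f' = 1)
    (hI : Iso M) (hI' : Iso M') (hr : Function.Injective r) (hr' : Function.Injective r')
    {G : Matrix (Fin 9) (Fin 9) F} (hG : G.det ≠ 0) (hm : ∀ k, G (r k) ∈ rs M)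
    (hm' : ∀ k, G (r' k) ∈ rs M') (S Z : Finset (Fin 9 × Fin 9)) (s0 : ∀ a, (a, a) ∈ S)
    (s1 : Cl S Z) (s2 : ∀ k c, (r k, c) ∈ S → ∃ j, r j = c)
    (s3 : ∀ k c, (r' k, c) ∈ S → ∃ j, r' j = c)
    (s4 : ∀ x ∈ Z, ((∃ j, r j = x.1) ∧ ∃ j, r j = x.2) ∨ ((∃ j, r' j = x.1) ∧ ∃ j, r' j = x.2))
    {δ : Type} [Fintype δ] {D : δ → F} (hD : AlgebraicIndependent K D)
    (hE : ∀ d, D d ∈ ent M ∪ ent M') : 27 + Fintype.card δ + S.card ≤ 3 * fre Z := by
  refine hP.all F δ G S Z D hG s0 s1 (fun i x hx => ?_) hD fun Ω _ _ T hT hd d => ?_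
  · rcases s4 x hx with ⟨⟨j, e⟩, j', e'⟩ | ⟨⟨j, e⟩, j', e'⟩
    · exact zero_of hF hI (e ▸ hm j) (e' ▸ hm j') i
    · exact zero_of hF hI' (e ▸ hm' j) (e' ▸ hm' j') i
  · rcases hE d with ⟨x, hx⟩ | ⟨x, hx⟩
    · rw [← hx]
      exact ent_cl h hr hG hm hd (fun k c h0 => s2 k c (by_contra fun hn => h0 (hT _ _ hn))) _ _
    · rw [← hx]
      exact ent_cl h' hr' hG hm' hd (fun k c h0 => s3 k c (by_contra fun hn => h0 (hT _ _ hn))) _ _

theorem not_le {W : Submodule F (Fin 9 → F)} {a : Fin 9} (h : a.val < finrank F W)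
    (v : Fin 9 → Fin 9 → F) : ¬ W ≤ Submodule.span F (Set.range fun b : {b // b < a} => v b) := by
  intro hle
  have h1 := (Submodule.finrank_mono hle).trans (finrank_range_le_card _)
  have h2 : ∀ a : Fin 9, Fintype.card {b // b < a} = a.val := by decide
  rw [h2] at h1
  omega

theorem not_le' {U U' : Submodule F (Fin 9 → F)} {a : Fin 9} (v : Fin 9 → Fin 9 → F)
    (w : Fin 9 → F) (hv : ∀ b, b < a → v b ∈ U ⊔ Submodule.span F {w})
    (h : finrank F (U ⊔ Submodule.span F {w} : Submodule F (Fin 9 → F)) <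
      finrank F (U ⊔ U' : Submodule F (Fin 9 → F))) :
    ¬ U' ≤ Submodule.span F (Set.range fun b : {b // b < a} => v b) := by
  intro hle
  have h1 : U ⊔ U' ≤ U ⊔ Submodule.span F {w} :=
    sup_le le_sup_left (hle.trans (Submodule.span_le.2 (by
      rintro _ ⟨b, rfl⟩
      exact hv b b.2)))
  exact absurd (Submodule.finrank_mono h1) (_root_.not_le.2 h)

theorem sup_zero (U : Submodule F (Fin 9 → F)) : U ⊔ Submodule.span F {0} = U := by simp

theorem sup_one (U : Submodule F (Fin 9 → F)) (w : Fin 9 → F) :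
    finrank F (U ⊔ Submodule.span F {w} : Submodule F (Fin 9 → F)) ≤ finrank F U + 1 := by
  refine (Submodule.finrank_add_le_finrank_add_finrank _ _).trans (Nat.add_le_add_left ?_ _)
  simpa using finrank_span_le_card ({w} : Set (Fin 9 → F))

theorem flag2 (hL : LinS) {U U' : Submodule F (Fin 9 → F)} (h : finrank F U = 4)
    (h' : finrank F U' = 4) (hI : finrank F (U ⊓ U' : Submodule F (Fin 9 → F)) = 2) :
    ∃ G : Matrix (Fin 9) (Fin 9) F, G.det ≠ 0 ∧ (∀ k, G (![0, 1, 2, 3] k) ∈ U) ∧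
      ∀ k, G (![0, 1, 4, 5] k) ∈ U' := by
  have hs := Submodule.finrank_sup_add_finrank_inf_eq U U'
  have ht : finrank F (⊤ : Submodule F (Fin 9 → F)) = 9 := by simp
  obtain ⟨G, hG, hW⟩ := hL.flag F ![U ⊓ U', U ⊓ U', U, U, U', U', ⊤, ⊤, ⊤] fun a v hv _ => by
    have v0 : (0 : Fin 9) < a → v 0 ∈ U := fun e => (hv 0 e).1
    have v1 : (1 : Fin 9) < a → v 1 ∈ U := fun e => (hv 1 e).1
    have v2 : (2 : Fin 9) < a → v 2 ∈ U := hv 2
    have v3 : (3 : Fin 9) < a → v 3 ∈ U := hv 3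
    have key : a ≤ 5 → ¬ U' ≤ Submodule.span F (Set.range fun b : {b // b < a} => v b) := by
      intro ha
      refine not_le' (U := U) v (v 4) (fun b hb => ?_) (by have := sup_one U (v 4); omega)
      have hb' : b = 0 ∨ b = 1 ∨ b = 2 ∨ b = 3 ∨ b = 4 := by omega
      rcases hb' with rfl | rfl | rfl | rfl | rfl
      · exact Submodule.mem_sup_left (v0 hb)
      · exact Submodule.mem_sup_left (v1 hb)
      · exact Submodule.mem_sup_left (v2 hb)
      · exact Submodule.mem_sup_left (v3 hb)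
      · exact Submodule.mem_sup_right (Submodule.mem_span_singleton_self _)
    fin_cases a
    · exact not_le (W := U ⊓ U') (by rw [hI]; decide) v
    · exact not_le (W := U ⊓ U') (by rw [hI]; decide) v
    · exact not_le (W := U) (by rw [h]; decide) v
    · exact not_le (W := U) (by rw [h]; decide) v
    · exact key (by decide)
    · exact key (by decide)
    · exact not_le (W := ⊤) (by rw [ht]; decide) v
    · exact not_le (W := ⊤) (by rw [ht]; decide) v
    · exact not_le (W := ⊤) (by rw [ht]; decide) v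
  refine ⟨G, hG, fun k => ?_, fun k => ?_⟩ <;> fin_cases k
  exacts [(hW 0).1, (hW 1).1, hW 2, hW 3, (hW 0).2, (hW 1).2, hW 4, hW 5]

theorem flag3 (hL : LinS) {U U' : Submodule F (Fin 9 → F)} (h : finrank F U = 4)
    (h' : finrank F U' = 4) (hI : finrank F (U ⊓ U' : Submodule F (Fin 9 → F)) = 3) :
    ∃ G : Matrix (Fin 9) (Fin 9) F, G.det ≠ 0 ∧ (∀ k, G (![0, 1, 2, 3] k) ∈ U) ∧
      ∀ k, G (![0, 1, 2, 4] k) ∈ U' := by
  have hs := Submodule.finrank_sup_add_finrank_inf_eq U U'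
  have ht : finrank F (⊤ : Submodule F (Fin 9 → F)) = 9 := by simp
  obtain ⟨G, hG, hW⟩ := hL.flag F ![U ⊓ U', U ⊓ U', U ⊓ U', U, U', ⊤, ⊤, ⊤, ⊤] fun a v hv _ => by
    have v0 : (0 : Fin 9) < a → v 0 ∈ U := fun e => (hv 0 e).1
    have v1 : (1 : Fin 9) < a → v 1 ∈ U := fun e => (hv 1 e).1
    have v2 : (2 : Fin 9) < a → v 2 ∈ U := fun e => (hv 2 e).1
    have v3 : (3 : Fin 9) < a → v 3 ∈ U := hv 3
    have key : a ≤ 4 → ¬ U' ≤ Submodule.span F (Set.range fun b : {b // b < a} => v b) := by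
      intro ha
      refine not_le' (U := U) v 0 (fun b hb => ?_) (by rw [sup_zero]; omega)
      have hb' : b = 0 ∨ b = 1 ∨ b = 2 ∨ b = 3 := by omega
      rcases hb' with rfl | rfl | rfl | rfl
      · exact Submodule.mem_sup_left (v0 hb)
      · exact Submodule.mem_sup_left (v1 hb)
      · exact Submodule.mem_sup_left (v2 hb)
      · exact Submodule.mem_sup_left (v3 hb)
    fin_cases a
    · exact not_le (W := U ⊓ U') (by rw [hI]; decide) v
    · exact not_le (W := U ⊓ U') (by rw [hI]; decide) v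
    · exact not_le (W := U ⊓ U') (by rw [hI]; decide) v
    · exact not_le (W := U) (by rw [h]; decide) v
    · exact key (by decide)
    · exact not_le (W := ⊤) (by rw [ht]; decide) v
    · exact not_le (W := ⊤) (by rw [ht]; decide) v
    · exact not_le (W := ⊤) (by rw [ht]; decide) v
    · exact not_le (W := ⊤) (by rw [ht]; decide) v
  refine ⟨G, hG, fun k => ?_, fun k => ?_⟩ <;> fin_cases k
  exacts [(hW 0).1, (hW 1).1, (hW 2).1, hW 3, (hW 0).2, (hW 1).2, (hW 2).2, hW 4]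

/-- Shapes and zero patterns: `n` is the dimension of the intersection. -/
def sh (n : ℕ) : Finset (Fin 9 × Fin 9) := Finset.univ.filter fun x =>
  (x.1.val < n → x.2.val < n) ∧ (x.1.val < 4 → x.2.val < 4) ∧
    (4 ≤ x.1.val → x.1.val < 8 - n → x.2.val < n ∨ (4 ≤ x.2.val ∧ x.2.val < 8 - n))

def zr (n : ℕ) : Finset (Fin 9 × Fin 9) := Finset.univ.filter fun x =>
  (x.1.val < 4 ∧ x.2.val < 4) ∨ ((x.1.val < n ∨ (4 ≤ x.1.val ∧ x.1.val < 8 - n)) ∧
    (x.2.val < n ∨ (4 ≤ x.2.val ∧ x.2.val < 8 - n)))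

theorem cl (n : ℕ) (hn : n ≤ 4) : Cl (sh n) (zr n) := by
  intro x hx c d h1 h2
  simp only [sh, zr, Finset.mem_filter, Finset.mem_univ, true_and] at hx h1 h2 ⊢
  omega

end Bf

open Bf

theorem bf (hF : FormS) (hL : LinS) (hP : PatS) : BfS := by
  intro F B _ _ _ _ β N N' f f' hadj hN hN' hI hI' hLI
  have : CharZero F := ((algebraMap K F).comp (algebraMap ℂ K)).charZero_iff
    (RingHom.injective _) |>.1 inferInstance
  have h : (N.map β).submatrix id f = 1 := by
    rw [submatrix_map, hN, Matrix.map_one _ (map_zero _) (map_one _)]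
  have h' : (N'.map β).submatrix id f' = 1 := by
    rw [submatrix_map, hN', Matrix.map_one _ (map_zero _) (map_one _)]
  have r1 := rank_rs h
  have r2 := rank_rs h'
  have h2 : 2 ≤ finrank F (rs (N.map β) ⊓ rs (N'.map β) : Submodule F (Fin 9 → F)) := by
    unfold LI at hLI
    push Not at hLI
    obtain ⟨C, C', hC, hC', e, h0⟩ := hLI
    by_cases c0 : C = 0
    · rw [inf_comm]
      exact two_le h' hC' (h0 c0) e.symm
    · exact two_le h hC c0 e
  have h4 : finrank F (rs (N.map β) ⊓ rs (N'.map β) : Submodule F (Fin 9 → F)) ≤ 4 :=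
    (Submodule.finrank_mono inf_le_right).trans r2.le
  by_cases h5 : finrank F (rs (N.map β) ⊓ rs (N'.map β) : Submodule F (Fin 9 → F)) = 4
  · left
    have e := Submodule.eq_of_le_of_finrank_eq (inf_le_right (a := rs (N.map β))) (h5.trans r2.symm)
    have hm : ∀ k, N'.map β k ∈ rs (N.map β) := fun k => by
      have : N'.map β k ∈ rs (N'.map β) := ⟨Pi.single k 1, single_one_vecMul k _⟩
      rw [← e] at this
      exact this.1
    choose g hg using fun k => mem_rs.1 (hm k)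
    exact ⟨of g, funext fun k => (hg k).symm⟩
  right
  have : (RingHom.ker β).IsPrime := RingHom.ker_isPrime β
  have hs : adjoin K (Ideal.Quotient.mkₐ K (RingHom.ker β) '' (ent N ∪ ent N')) = ⊤ := by
    rw [← AlgHom.map_adjoin, hadj, Algebra.map_top, AlgHom.range_eq_top]
    exact Ideal.Quotient.mkₐ_surjective K _
  have : Algebra.IsAlgebraic
      (adjoin K (Ideal.Quotient.mkₐ K (RingHom.ker β) '' (ent N ∪ ent N'))) (B ⧸ RingHom.ker β) :=
    ⟨fun x => isAlgebraic_algebraMap (⟨x, hs ▸ Algebra.mem_top⟩ :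
      adjoin K (Ideal.Quotient.mkₐ K (RingHom.ker β) '' (ent N ∪ ent N')))⟩
  obtain ⟨t, ht, hb⟩ := exists_isTranscendenceBasis_subset (R := K)
    (Ideal.Quotient.mkₐ K (RingHom.ker β) '' (ent N ∪ ent N'))
  have : Fintype t :=
    ((((Set.finite_range _).union (Set.finite_range _)).image _).subset ht).fintype
  have hD := hb.1.map' (f := Ideal.kerLiftAlg β) (Ideal.kerLiftAlg_injective β)
  have hE : ∀ d : t, (Ideal.kerLiftAlg β ∘ (↑)) d ∈ ent (N.map β) ∪ ent (N'.map β) := by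
    intro d
    obtain ⟨y, hy, e⟩ := ht d.2
    have e' : (Ideal.kerLiftAlg β ∘ (↑)) d = β y := by
      rw [Function.comp_apply, ← e]
      exact Ideal.kerLiftAlg_mk β y
    rw [e']
    rcases hy with ⟨x, rfl⟩ | ⟨x, rfl⟩
    · exact Or.inl ⟨x, rfl⟩
    · exact Or.inr ⟨x, rfl⟩
  have hc : Fintype.card t ≤ 1 := by
    have h6 : finrank F (rs (N.map β) ⊓ rs (N'.map β) : Submodule F (Fin 9 → F)) = 2 ∨
        finrank F (rs (N.map β) ⊓ rs (N'.map β) : Submodule F (Fin 9 → F)) = 3 := by omega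
    rcases h6 with h6 | h6
    · obtain ⟨G, hG, m1, m2⟩ := flag2 hL r1 r2 h6
      have := count hF hP h h' hI hI' (by decide) (by decide) hG m1 m2 (sh 2) (zr 2) (by decide)
        (cl 2 (by decide)) (by decide) (by decide) (by decide) (δ := t) hD hE
      rw [show (sh 2).card = 47 by decide, show fre (zr 2) = 25 by decide] at this
      omega
    · obtain ⟨G, hG, m1, m2⟩ := flag3 hL r1 r2 h6
      have := count hF hP h h' hI hI' (by decide) (by decide) hG m1 m2 (sh 3) (zr 3) (by decide)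
        (cl 3 (by decide)) (by decide) (by decide) (by decide) (δ := t) hD hE
      rw [show (sh 3).card = 53 by decide, show fre (zr 3) = 27 by decide] at this
      omega
  rw [← hb.cardinalMk_eq_trdeg, Cardinal.mk_fintype]
  exact_mod_cast hc

end Pool.Agent.MP_b834b3_ag.G20
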