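import Pool.Agent.MP_b834b3_ag.g.SpecB

/-! Genus twenty: closed ramification points lie in every set that is closed under rational
equivalence and contains the last cell. -/

namespace Pool.Agent.MP_b834b3_ag.G20

open Algebra Matrix

namespace Cg

theorem map_vecMul {R S m n : Type} [CommRing R] [CommRing S] [Algebra K R] [Algebra K S]
    [Fintype m] (σ : R →ₐ[K] S) (c : m → R) (M : Matrix m n R) :
    (σ ∘ c) ᵥ* M.map σ = σ ∘ (c ᵥ* M) := by
  funext i
  exact ((σ : R →+* S).map_vecMul M c i).symm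

theorem ker_map (hF : FormS) {R S : Type} [CommRing R] [CommRing S] [Algebra K R] [Algebra K S]
    (σ : R →ₐ[K] S) {c : Fin 4 → R} {M : Matrix (Fin 4) (Fin 9) R} {w : Fin 3 → R}
    (h : c ᵥ* M ᵥ* fw w = 0) : (σ ∘ c) ᵥ* M.map σ ᵥ* fw (σ ∘ w) = 0 := by
  rw [← (hF.map R S σ w).2, map_vecMul, map_vecMul, h]
  funext i
  simp

theorem sub_map {R S : Type} [CommRing R] [CommRing S] [Algebra K R] [Algebra K S]
    (σ : R →ₐ[K] S) {M : Matrix (Fin 4) (Fin 9) R} {f : Fin 4 → Fin 9}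
    (h : M.submatrix id f = 1) : (M.map σ).submatrix id f = 1 := by
  rw [submatrix_map, h]
  exact Matrix.map_one _ (map_zero σ) (map_one σ)

theorem rk_one (hB : Base) {F : Type} [Field F] {M : Matrix (Fin 4) (Fin 9) F}
    {f : Fin 4 → Fin 9} (h : M.submatrix id f = 1) : Rk M :=
  (hB.pt.rk_det F M).2 ⟨f, by rw [h, det_one]; exact one_ne_zero⟩

theorem fw_smul {R : Type} [CommRing R] [Algebra K R] (s : R) (w : Fin 3 → R) :
    fw (s • w) = s • fw w := by
  unfold fw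
  rw [Finset.smul_sum]
  exact Finset.sum_congr rfl fun i _ => by rw [Pi.smul_apply, smul_eq_mul, mul_smul]

theorem fw_one {R : Type} [CommRing R] [Algebra K R] : fw (![1, 0, 0] : Fin 3 → R) = fm R 0 := by
  unfold fw
  simp [Fin.sum_univ_three]

theorem core (hB : Base) (hS : SpecS) (hU : UniS) (hC : CurS) (G : Set Pt) (hV : VR G)
    (h3 : CellIn G 3) (E : Type) [Field E] [Algebra K E] [Algebra.IsAlgebraic K E]
    (N Ψ : Matrix (Fin 4) (Fin 9) E) (f : Fin 4 → Fin 9) (w : Fin 3 → E) (c : Fin 4 → E) (a : Fin 4)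
    (hf : N.submatrix id f = 1) (hI : Iso N) (hD : CcD N w c Ψ) (hc : c a = 1)
    (hn : cellOf N ≠ 3) : pt N ∈ G := by
  obtain ⟨R, _, _, _, _, _, ε, M, d, v, htr, hgen, hMf, hMI, hda, hker, hMε, -, hv⟩ :=
    hC E N f w c a hf hI hc hD.2.2.1
  have hRk : Rk N := rk_one hB hf
  let F := FractionRing R
  let ι : R →ₐ[K] F := IsScalarTower.toAlgHom K R F
  have hι : Function.Injective ι := IsFractionRing.injective R F
  let j : E →ₐ[K] F := ι.comp (IsScalarTower.toAlgHom K E R)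
  have hj : ∀ e, j e = ι (algebraMap E R e) := fun _ => rfl
  have hjO : ∀ (p : Pl F) (e : E), j e ∈ p.O := fun p e =>
    hB.pl.alg_mem F p _ ((Algebra.IsAlgebraic.isAlgebraic e).algHom j)
  have hMI' : Iso (M.map ι) := (hB.pt.iso_map R F ι M).1 hMI
  have hMf' : (M.map ι).submatrix id f = 1 := sub_map ι hMf
  have hMR : Rk (M.map ι) := rk_one hB hMf'
  have hd : (ι ∘ d) ≠ 0 := fun h => by
    have := congrFun h a
    simp [hda] at this
  have hk : (ι ∘ d) ᵥ* M.map ι ᵥ* fw ![ι v, j (w 1), j (w 2)] = 0 := by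
    have := ker_map hB.form ι hker
    have e : (ι ∘ ![v, algebraMap E R (w 1), algebraMap E R (w 2)]) =
        ![ι v, j (w 1), j (w 2)] := by
      funext i
      fin_cases i <;> rfl
    rwa [e] at this
  have hφ : ι v - j (w 0) ≠ 0 := by
    intro h0
    have hv0 : ι v = j (w 0) := sub_eq_zero.1 h0
    have e : (![ι v, j (w 1), j (w 2)] : Fin 3 → F) = j ∘ w := by
      funext i
      fin_cases i
      · exact hv0
      · rfl
      · rfl
    rw [e] at hk
    obtain ⟨⟨g, -, hg⟩, s, hs⟩ := hU F (N.map j) (M.map ι) (Ψ.map j) (j ∘ w) (j ∘ c) (ι ∘ d)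
      ((hB.pt.iso_map E F j N).1 hI) (rk_one hB (sub_map j hf)) hMI' hMR
      (hB.pt.cc_map E F j N Ψ w c hRk hD) hd hk
    have hg1 : g = 1 := by
      have h1 := hMf'
      rw [hg] at h1
      have h2 : (g * N.map j).submatrix id f = g * (N.map j).submatrix id f := rfl
      rw [h2, sub_map j hf, Matrix.mul_one] at h1
      exact h1
    rw [hg1, Matrix.one_mul] at hg
    have hds : ι ∘ d = s • (j ∘ c) := by
      refine sub_eq_zero.1 (hMR _ ?_)
      rw [sub_vecMul, hs, smul_vecMul, hg, sub_self]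
    have hs1 : s = 1 := by
      have := congrFun hds a
      simpa [hda, hc] using this.symm
    have hbot : (⊤ : Subalgebra E R) ≤ ⊥ := by
      rw [← hgen]
      refine Algebra.adjoin_le ?_
      rintro x ((⟨y, rfl⟩ | ⟨b, rfl⟩) | hx)
      · exact Algebra.mem_bot.2 ⟨N y.1 y.2, hι (congrFun (congrFun hg y.1) y.2).symm⟩
      · refine Algebra.mem_bot.2 ⟨c b, hι ?_⟩
        have := congrFun hds b
        rw [hs1, one_smul] at this
        exact this.symm
      · rw [Set.mem_singleton_iff.1 hx]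
        exact Algebra.mem_bot.2 ⟨w 0, hι hv0.symm⟩
    have : Algebra.IsAlgebraic E R := ⟨fun x => by
      obtain ⟨e, rfl⟩ := Algebra.mem_bot.1 (hbot (Algebra.mem_top (x := x)))
      exact isAlgebraic_algebraMap e⟩
    rw [trdeg_eq_zero] at htr
    exact zero_ne_one htr
  have hzero : ∀ p : Pl F, (ι v - j (w 0))⁻¹ ∉ p.O ↔
      ∃ h : ι v - j (w 0) ∈ p.O, p.π ⟨_, h⟩ = 0 := by
    intro p
    rw [hB.pl.zero F p, and_iff_right (inv_ne_zero hφ)]
    have e := inv_inv (ι v - j (w 0))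
    constructor
    · rintro ⟨h, h'⟩
      exact ⟨e ▸ h, h' ▸ congrArg p.π (Subtype.ext e.symm)⟩
    · rintro ⟨h, h'⟩
      exact ⟨e.symm ▸ h, h' ▸ congrArg p.π (Subtype.ext e)⟩
  refine hV F (M.map ι) (ι v - j (w 0)) (pt N) ⟨?_, hMI', hMR, hφ, ?_, ?_, ?_, ?_⟩
  · rw [trdeg_frac (k := K) R F, ← trdeg_add_eq K E (A := R), trdeg_eq_zero, htr, zero_add]
  · exact (hB.pt.alg E N).2 fun _ _ => Algebra.IsAlgebraic.isAlgebraic _
  · intro p N' hN' hp
    have hvO : ι v ∉ p.O := fun h => hp (sub_mem h (hjO p _))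
    obtain ⟨hv0, hvi, hπ⟩ := (hB.pl.zero F p _).1 hvO
    obtain ⟨c', hc', hk'⟩ := hS.ker F p (M.map ι) N'
      ![1, ⟨_, hvi⟩ * ⟨_, hjO p (w 1)⟩, ⟨_, hvi⟩ * ⟨_, hjO p (w 2)⟩] (ι ∘ d) hN' hd (by
        have e : (p.O.val ∘ ![1, ⟨_, hvi⟩ * ⟨_, hjO p (w 1)⟩, ⟨_, hvi⟩ * ⟨_, hjO p (w 2)⟩] :
            Fin 3 → F) = (ι v)⁻¹ • ![ι v, j (w 1), j (w 2)] := by
          funext i
          fin_cases i
          · exact (inv_mul_cancel₀ hv0).symm
          · rfl
          · rfl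
        rw [e, fw_smul, vecMul_smul, hk, smul_zero])
    have e : (p.π ∘ ![1, ⟨_, hvi⟩ * ⟨_, hjO p (w 1)⟩, ⟨_, hvi⟩ * ⟨_, hjO p (w 2)⟩] :
        Fin 3 → p.E) = ![1, 0, 0] := by
      funext i
      fin_cases i
      · exact map_one p.π
      · exact (map_mul p.π _ _).trans (by rw [hπ]; simp)
      · exact (map_mul p.π _ _).trans (by rw [hπ]; simp)
    rw [e, fw_one] at hk'
    have hc3 := hB.pt.cell_three p.E _ c' hc' hk'
    refine ⟨h3 p.E _ (hB.pl.iso F p _ N' hMI' hN') hN'.2 hc3, fun h => hn ?_⟩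
    have h1 : cellOf (N'.map p.π) = cellOf N := congrArg Prod.fst h
    rw [← h1, hc3]
  · intro p N' hN' hp
    obtain ⟨hφO, hπ⟩ := (hzero p).1 hp
    let τ₀ : E →ₐ[K] p.O := j.codRestrict p.O (hjO p)
    let τ : E →ₐ[K] p.E := p.π.comp τ₀
    obtain ⟨c', hc', hk'⟩ := hS.ker F p (M.map ι) N'
      ![⟨_, hφO⟩ + τ₀ (w 0), τ₀ (w 1), τ₀ (w 2)] (ι ∘ d) hN' hd (by
        have e : (p.O.val ∘ ![⟨_, hφO⟩ + τ₀ (w 0), τ₀ (w 1), τ₀ (w 2)] : Fin 3 → F) =
            ![ι v, j (w 1), j (w 2)] := by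
          funext i
          fin_cases i
          · exact sub_add_cancel (ι v) (j (w 0))
          · rfl
          · rfl
        rw [e, hk])
    have e : (p.π ∘ ![⟨_, hφO⟩ + τ₀ (w 0), τ₀ (w 1), τ₀ (w 2)] : Fin 3 → p.E) = τ ∘ w := by
      funext i
      fin_cases i
      · exact (map_add p.π _ _).trans (by rw [hπ, zero_add]; rfl)
      · rfl
      · rfl
    rw [e] at hk'
    obtain ⟨⟨g, hg0, hg⟩, -⟩ := hU p.E (N.map τ) (N'.map p.π) (Ψ.map τ) (τ ∘ w) (τ ∘ c) c'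
      ((hB.pt.iso_map E _ τ N).1 hI) (rk_one hB (sub_map τ hf))
      (hB.pl.iso F p _ N' hMI' hN') hN'.2 (hB.pt.cc_map E _ τ N Ψ w c hRk hD) hc' hk'
    left
    rw [hg, hB.pt.pt_mul _ g _ hg0, hB.pt.pt_map]
  · let ε' : R →ₐ[K] E := ε.restrictScalars K
    obtain ⟨p, α, hα, hP⟩ := hB.pl.ex F R ι (RingHom.ker ε') (RingHom.ker_isPrime ε') (by
      rw [(RingHom.injective_iff_ker_eq_bot ι).1 hι]
      exact bot_le)
    refine ⟨p, M.map α, ⟨⟨1, by simp, ?_⟩, rk_one hB (sub_map p.π (sub_map α hMf))⟩, ?_, ?_⟩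
    · rw [Matrix.one_mul]
      ext x y
      exact hα _
    · have e : (α (v - algebraMap E R (w 0)) : F) = ι v - j (w 0) := by rw [hα, map_sub, hj]
      refine (hzero p).2 ⟨e ▸ (α _).2, ?_⟩
      have h0 : p.π (α (v - algebraMap E R (w 0))) = 0 := by
        rw [hP, RingHom.mem_ker]
        change ε (v - algebraMap E R (w 0)) = 0
        rw [map_sub, hv, ε.commutes]
        exact sub_self _
      rw [← h0]
      exact congrArg p.π (Subtype.ext e.symm)
    · have h1 := hB.pt.pt_ker R p.E E (p.π.comp α) ε' M hP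
      have h2 : M.map ε' = N := hMε
      rw [h2] at h1
      exact h1

end Cg

/-- Closed ramification points lie in `G`. -/
theorem cg (hB : Base) (hS : SpecS) (hU : UniS) (hC : CurS) : CgS := by
  intro G hV h3 E _ _ _ N hI hR hc
  by_cases hn : cellOf N = 3
  · exact h3 E N hI hR hn
  obtain ⟨f, hf⟩ := (hB.pt.rk_det E N).1 hR
  have hg : ((N.submatrix id f)⁻¹).det ≠ 0 := by
    rw [det_nonsing_inv, Ring.inverse_eq_inv']
    exact inv_ne_zero hf
  have hp : pt (nm f N) = pt N := hB.pt.pt_mul E _ N hg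
  obtain ⟨w, c, Ψ, h1, h2, h4, ⟨b, h5⟩, h6⟩ : Cc (nm f N) := hB.pt.cc_mul E _ N hg hc
  obtain ⟨a, ha⟩ := Function.ne_iff.1 h2
  have ha' : c a ≠ 0 := ha
  rw [← hp]
  refine Cg.core hB hS hU hC G hV h3 E (nm f N) Ψ f w ((c a)⁻¹ • c) a (hB.pt.nm_one E f N hf).1
    (hB.pt.iso_mul E _ N hI) ⟨h1, smul_ne_zero (inv_ne_zero ha') h2, ?_, ⟨(c a)⁻¹ • b, ?_⟩, h6⟩
    (inv_mul_cancel₀ ha') fun h => hn ?_
  · rw [smul_vecMul, smul_vecMul, h4, smul_zero]
  · rw [smul_vecMul, smul_vecMul, h5]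
  · have h7 : cellOf (nm f N) = cellOf N := congrArg Prod.fst hp
    rw [← h7, h]

end Pool.Agent.MP_b834b3_ag.G20
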