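import Pool.Agent.MP_b834b3_ag.Rank

/-! The generic K3 surface of genus twenty in the Grassmannian of four-planes in nine-space. -/

namespace Pool.Agent.MP_b834b3_ag.G20

open AlgebraicGeometry CategoryTheory Matrix

/-- The coefficients of two alternating forms in nine variables. -/
abbrev Ix : Type := Fin 2 × {p : Fin 9 × Fin 9 // p.1 < p.2}

/-- The function field of the space of coefficients. -/
abbrev K : Type := RatFun Ix

/-- The entries above the diagonal: of the standard form of rank eight, and of two generic
forms. -/
noncomputable def up : Fin 3 → Matrix (Fin 9) (Fin 9) K :=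
  Fin.cons (of fun a b => if a < b ∧ a.val + b.val = 7 then 1 else 0)
    fun i => of fun a b => if h : a < b then RatFun.var (i, ⟨(a, b), h⟩) else 0

/-- The three alternating forms. -/
noncomputable def form (i : Fin 3) : Matrix (Fin 9) (Fin 9) K := up i - (up i)ᵀ

/-- The rows of `M` are isotropic for the three forms. -/
def Iso {R : Type} [CommRing R] [Algebra K R] (M : Matrix (Fin 4) (Fin 9) R) : Prop :=
  ∀ i, M * (form i).map (algebraMap K R) * Mᵀ = 0

/-- The matrix with the same row space that has the unit matrix in the columns `f`. -/
noncomputable def nm {R : Type} [CommRing R] (f : Fin 4 → Fin 9) (M : Matrix (Fin 4) (Fin 9) R) :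
    Matrix (Fin 4) (Fin 9) R := (M.submatrix id f)⁻¹ * M

/-- The standard chart of the Grassmannian that belongs to the columns `f`. -/
noncomputable def chart {L : Type} [Field L] [Algebra K L] (M : Matrix (Fin 4) (Fin 9) L)
    (f : Fin 4 → Fin 9) : Subalgebra K L :=
  Algebra.adjoin K (Set.range fun x : Fin 4 × Fin 9 => nm f M x.1 x.2)

/-- `L` is the function field of the surface of isotropic four-planes, and the rows of `M` span
the generic four-plane. -/
def IsGenField {L : Type} [Field L] [Algebra K L] (M : Matrix (Fin 4) (Fin 9) L) : Prop :=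
  Iso M ∧ M.submatrix id ![0, 1, 2, 3] = 1 ∧
    IntermediateField.adjoin K (Set.range fun x : Fin 4 × Fin 9 => M x.1 x.2) = ⊤ ∧
    Algebra.trdeg K L = 2

/-- `X` is the surface of isotropic four-planes: it is separated and glued from the standard
charts inside its function field. -/
def IsGeneric {X : Scheme.{0}} (s : X ⟶ Spec (CommRingCat.of K)) : Prop :=
  IsSeparated s ∧ ∃ (L : Type) (_ : Field L) (_ : Algebra K L) (M : Matrix (Fin 4) (Fin 9) L),
    IsGenField M ∧
      IsGlued (fun f : {f : Fin 4 → Fin 9 // (M.submatrix id f).det ≠ 0} => chart M f.1) s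

end Pool.Agent.MP_b834b3_ag.G20
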