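import Mathlib.Algebra.DualNumber
import Mathlib.RingTheory.Valuation.LocalSubring
import Mathlib.RingTheory.AlgebraicIndependent.TranscendenceBasis
import Pool.Agent.MP_b834b3_ag.Exist
import Pool.Agent.MP_b834b3_ag.g.Defs

/-! Genus twenty: statements of the general lemmas and of the linear algebra. -/

namespace Pool.Agent.MP_b834b3_ag.G20

open AlgebraicGeometry CategoryTheory Algebra IsLocalRing Limits MvPolynomial Matrix
open scoped TensorProduct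

/-- The Jacobian criterion. -/
def JacS : Prop := ∀ (ι σ : Type) [Fintype ι] [Fintype σ] (f : ι → MvPolynomial σ ℂ) (x : σ → ℂ),
  Fintype.card ι ≤ Fintype.card σ →
  (∀ ξ : σ → ℂ, (∀ s, TrivSqZeroExt.snd (aeval (fun i =>
    (TrivSqZeroExt.inl (x i) + TrivSqZeroExt.inr (ξ i) : DualNumber ℂ)) (f s)) = 0) → ξ = 0) →
  AlgebraicIndependent ℂ f

/-- Strata that are vector bundles over an open part of an affine space. -/
def VbS : Prop := ∀ (k K ι τ τ' r B : Type) [Field k] [Field K] [Fintype ι] [Fintype τ'] [Fintype r]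
  [DecidableEq r] [Algebra k K] [Algebra (MvPolynomial ι k) K] [IsFractionRing (MvPolynomial ι k) K]
  [IsScalarTower k (MvPolynomial ι k) K] [CommRing B] [Algebra K B] [Algebra k B]
  [IsScalarTower k K B] [FiniteType K B] (m : r → ι → MvPolynomial τ' k) (e : τ → B) (sec : τ' → τ)
  (ρ : τ → MvPolynomial τ' k) (Y : Scheme.{0}) (t : Y ⟶ Spec (CommRingCat.of K))
  [LocallyOfFiniteType t] [CompactSpace Y] (J : Spec (CommRingCat.of B) ⟶ Y) [IsOpenImmersion J]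
  (d : ℕ), J ≫ t = sp (algebraMap K B) → adjoin K (Set.range e) = ⊤ → (∀ v, ρ (sec v) = X v) →
  (∀ P ∈ St e sec ρ 1, ∀ s, ∑ i, algebraMap K B (cf k K i) * aeval (e ∘ sec) (m s i) ∈ P) →
  (∀ (L : Type) [Field L] [Algebra K L] [Algebra k L] [IsScalarTower k K L] (v : τ' → L),
    (∀ s, ∑ i, algebraMap K L (cf k K i) * aeval v (m s i) = 0) →
    ∃ χ : B →ₐ[K] L, ∀ x, χ (e x) = aeval v (ρ x)) →
  d + Fintype.card r = Fintype.card τ' →
  Nice (J '' {P | P.asIdeal ∈ St e sec ρ 1 ∧ ∃ p : r → ι, Function.Injective p ∧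
    aeval (e ∘ sec) (pdet m p) ∉ P.asIdeal}) d

/-- The valuation ring `O` of the field of the point `ξ` has the centre `z`. -/
def Ctr {Y : Scheme.{0}} {F : Type} [Field F] (ξ : Spec (CommRingCat.of F) ⟶ Y)
    (O : ValuationSubring F) (z : Y) : Prop :=
  ∃ μ : Spec (CommRingCat.of O) ⟶ Y, sp O.subtype ≫ μ = ξ ∧ μ (closedPoint O) = z

/-- The divisor of the norm of a function, described by valuations. -/
def VrelS : Prop := ∀ (k : Type) [Field k] (Y : Scheme.{0}) (t : Y ⟶ Spec (CommRingCat.of k))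
  [LocallyOfFiniteType t] [CompactSpace Y] (F : Type) [Field F] [Algebra k F]
  (ξ : Spec (CommRingCat.of F) ⟶ Y) (φ : F), ξ ≫ t = sp (algebraMap k F) →
  Order.height (ξ (closedPoint F)) = 3 → trdeg k F ≤ 3 → φ ≠ 0 →
  ∃ c : Y →₀ ℚ, IsPrincipal Y c ∧ (∀ z, c z ≠ 0 → Order.height z = 2 ∧
    ∃ O, Ctr ξ O z ∧ (φ ∉ O ∨ φ⁻¹ ∉ O)) ∧
    ∀ z, Order.height z = 2 → (∀ O, Ctr ξ O z → φ ∈ O) → (∃ O, Ctr ξ O z ∧ φ⁻¹ ∉ O) → c z ≠ 0

/-- Subadditivity of the transcendence degree. -/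
def AddS : Prop := ∀ (K A B D : Type) [Field K] [CommRing A] [CommRing B] [CommRing D] [IsDomain D]
  [Algebra K A] [Algebra K B] [Algebra K D] (f : B →ₐ[K] D) (g : A →ₐ[K] D) (m n : ℕ),
  (∀ d, ∃ r ∈ adjoin K (Set.range f ∪ Set.range g), ∃ s ∈ adjoin K (Set.range f ∪ Set.range g),
    s ≠ 0 ∧ s * d = r) →
  trdeg K (B ⧸ RingHom.ker f) ≤ m → trdeg K (A ⧸ RingHom.ker g) ≤ n → trdeg K D ≤ (m + n : ℕ)

/-- If the square is irreducible, the constants are algebraically closed. -/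
def Geo1S : Prop := ∀ (K L : Type) [Field K] [CharZero K] [Field L] [Algebra K L]
  (A : Subalgebra K L), (∀ z : L, ∃ a ∈ A, ∃ b ∈ A, b ≠ 0 ∧ z * b = a) → trdeg K L = 2 →
  (∀ P Q : Ideal (A ⊗[K] A), P.IsPrime → Q.IsPrime → trdeg K ((A ⊗[K] A) ⧸ P) = 4 →
    trdeg K ((A ⊗[K] A) ⧸ Q) = 4 → P = Q) →
  ∀ a : L, IsAlgebraic K a → a ∈ Set.range (algebraMap K L)

/-- There is one point over a closed point and the generic point. -/
def Geo2S : Prop := ∀ (K L B D : Type) [Field K] [CharZero K] [Field L] [Algebra K L] [CommRing B]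
  [Algebra K B] [FiniteType K B] [CommRing D] [Algebra K D] (A : Subalgebra K L) (f : B →ₐ[K] D)
  (g : A →ₐ[K] D), (∀ a : L, IsAlgebraic K a → a ∈ Set.range (algebraMap K L)) →
  adjoin K (Set.range f ∪ Set.range g) = ⊤ → ∀ P Q : Ideal D, P.IsPrime → Q.IsPrime →
  P.comap f = Q.comap f → trdeg K (B ⧸ P.comap f) = 0 → P.comap g = ⊥ → Q.comap g = ⊥ → P = Q

/-- A free compositum with a valuation ring over a given prime. -/
def CmpS : Prop := ∀ (K F L : Type) [Field K] [Field F] [Field L] [Algebra K F] [Algebra K L]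
  (O : Subalgebra K F) (P : Ideal O), P.IsPrime → (∀ x : F, x ∈ O ∨ x⁻¹ ∈ O) →
  ∃ (F' : Type) (_ : Field F') (_ : Algebra K F') (f : F →ₐ[K] F') (g : L →ₐ[K] F')
    (V : ValuationSubring F'),
    (∀ d, ∃ r ∈ adjoin K (Set.range f ∪ Set.range g), ∃ s ∈ adjoin K (Set.range f ∪ Set.range g),
      s ≠ 0 ∧ s * d = r) ∧
    (∀ (σ τ : Type) (s : σ → F) (t : τ → L), AlgebraicIndependent K s → AlgebraicIndependent K t →
      AlgebraicIndependent K (Sum.elim (f ∘ s) (g ∘ t))) ∧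
    (∀ a : O, f a ∈ V) ∧ (∀ a, g a ∈ V) ∧ ∀ a : O, V.valuation (f a) < 1 ↔ a ∈ P

/-- The entries of a matrix. -/
def ent {m n R : Type} (M : Matrix m n R) : Set R := Set.range fun x : m × n => M x.1 x.2

/-- Lemmas of linear algebra. -/
structure LinS : Prop where
  card : ∀ (R Ω ι ν : Type) [Field R] [Field Ω] [Algebra R Ω] [Fintype ι] [Fintype ν] (x : ι → Ω)
    (p : ν → Ω), AlgebraicIndependent R x →
    (∀ i, x i ∈ IntermediateField.adjoin R (Set.range p)) → Fintype.card ι ≤ Fintype.card ν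
  piv : ∀ (F r ι : Type) [Field F] [Fintype r] [DecidableEq r] [Fintype ι] (A : Matrix r ι F),
    (∀ c, c ᵥ* A = 0 → c = 0) ↔ ∃ p : r → ι, Function.Injective p ∧ (A.submatrix id p).det ≠ 0
  flag : ∀ (F : Type) [Field F] (W : Fin 9 → Submodule F (Fin 9 → F)),
    (∀ (a : Fin 9) (v : Fin 9 → Fin 9 → F), (∀ b, b < a → v b ∈ W b) →
      LinearIndependent F (fun b : {b // b < a} => v b) →
      ¬ W a ≤ Submodule.span F (Set.range fun b : {b // b < a} => v b)) →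
    ∃ G : Matrix (Fin 9) (Fin 9) F, G.det ≠ 0 ∧ ∀ a, G a ∈ W a
  flag0 : ∀ (F : Type) [Field F] (W : Fin 9 → Submodule F (Fin 9 → F)),
    (∀ a, a.val < Module.finrank F (W a)) →
    ∃ G : Matrix (Fin 9) (Fin 9) F, G.det ≠ 0 ∧ ∀ a, G a ∈ W a

/-- The forms over an algebra. -/
noncomputable def fm (R : Type) [CommRing R] [Algebra K R] (i : Fin 3) :
    Matrix (Fin 9) (Fin 9) R := (form i).map (algebraMap K R)

/-- A member of the net. -/
noncomputable def fw {R : Type} [CommRing R] [Algebra K R] (w : Fin 3 → R) :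
    Matrix (Fin 9) (Fin 9) R := ∑ i, w i • fm R i

/-- The shape of the forms. -/
structure FormS : Prop where
  skew : ∀ (R : Type) [CommRing R] [Algebra K R] (i : Fin 3), (fm R i)ᵀ = -fm R i
  diag : ∀ (R : Type) [CommRing R] [Algebra K R] (i : Fin 3) (u : Fin 9 → R),
    u ᵥ* fm R i ⬝ᵥ u = 0
  zero : ∀ (R : Type) [CommRing R] [Algebra K R] (u v : Fin 9 → R), u ᵥ* fm R 0 ⬝ᵥ v =
    u 0 * v 7 + u 1 * v 6 + u 2 * v 5 + u 3 * v 4 - u 4 * v 3 - u 5 * v 2 - u 6 * v 1 - u 7 * v 0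
  succ : ∀ (R : Type) [CommRing R] [Algebra K R] (i : Fin 2) (u v : Fin 9 → R),
    u ᵥ* fm R i.succ ⬝ᵥ v = ∑ p : {p : Fin 9 × Fin 9 // p.1 < p.2},
      algebraMap K R (cf ℂ K (i, p)) * (u p.1.1 * v p.1.2 - u p.1.2 * v p.1.1)
  entry : ∀ (R : Type) [CommRing R] [Algebra K R] (i : Fin 2)
    (p : {p : Fin 9 × Fin 9 // p.1 < p.2}), fm R i.succ p.1.1 p.1.2 = algebraMap K R (cf ℂ K (i, p))
  mul : ∀ (R m n : Type) [CommRing R] [Algebra K R] (A : Matrix m (Fin 9) R)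
    (B : Matrix n (Fin 9) R) (C : Matrix (Fin 9) (Fin 9) R) (a : m) (b : n),
    (A * C * Bᵀ) a b = A a ᵥ* C ⬝ᵥ B b
  map : ∀ (R S : Type) [CommRing R] [Algebra K R] [CommRing S] [Algebra K S] (σ : R →ₐ[K] S)
    (w : Fin 3 → R), (∀ i, (fm R i).map σ = fm S i) ∧ (fw w).map σ = fw (σ ∘ w)
  indep : AlgebraicIndependent ℂ (cf ℂ K : Ix → K)

/-- The stabilizer of the standard form has dimension 45. -/
def StS : Prop := ∀ (Ω : Type) [Field Ω] [Algebra K Ω] (G : Matrix (Fin 9) (Fin 9) Ω), G.det ≠ 0 →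
  ∃ q : Fin 45 → Ω, ∀ a b, G a b ∈ Subfield.closure (Set.range q ∪ ent (G * fm Ω 0 * Gᵀ))

/-- The count of parameters. -/
def MlS : Prop := ∀ (F Ω σ ν δ : Type) [Field F] [Field Ω] [Algebra K F] [Algebra F Ω] [Algebra K Ω]
  [IsScalarTower K F Ω] [Fintype σ] [Fintype ν] [Fintype δ] (G : Matrix (Fin 9) (Fin 9) F)
  (T : Matrix (Fin 9) (Fin 9) Ω) (t : σ → Ω) (p : ν → Ω) (D : δ → F), G.det ≠ 0 → T.det ≠ 0 →
  AlgebraicIndependent F t → (∀ s, t s ∈ Subfield.closure (ent T)) → AlgebraicIndependent K D →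
  (∀ d, algebraMap F Ω (D d) ∈ Subfield.closure (ent (T * G.map (algebraMap F Ω)))) →
  (∀ i a b, (T * G.map (algebraMap F Ω) * fm Ω i * (T * G.map (algebraMap F Ω))ᵀ) a b ∈
    Subfield.closure (Set.range p)) →
  27 + Fintype.card δ + Fintype.card σ ≤ Fintype.card ν

/-- The pattern `Z` of zeros is stable under matrices of the shape `S`. -/
def Cl (S Z : Finset (Fin 9 × Fin 9)) : Prop :=
  ∀ x ∈ Z, ∀ c d, (x.1, c) ∈ S → (x.2, d) ∈ S → c = d ∨ (c, d) ∈ Z ∨ (d, c) ∈ Z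

instance (S Z : Finset (Fin 9 × Fin 9)) : Decidable (Cl S Z) := by unfold Cl; infer_instance

/-- The number of free entries. -/
def fre (Z : Finset (Fin 9 × Fin 9)) : ℕ :=
  (Finset.univ.filter fun x : Fin 9 × Fin 9 => x.1 < x.2 ∧ x ∉ Z).card

/-- The count of parameters for patterns of zeros. -/
structure PatS : Prop where
  all : ∀ (F δ : Type) [Field F] [Algebra K F] [Fintype δ] (G : Matrix (Fin 9) (Fin 9) F)
    (S Z : Finset (Fin 9 × Fin 9)) (D : δ → F), G.det ≠ 0 → (∀ a, (a, a) ∈ S) → Cl S Z →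
    (∀ i, ∀ x ∈ Z, (G * fm F i * Gᵀ) x.1 x.2 = 0) → AlgebraicIndependent K D →
    (∀ (Ω : Type) [Field Ω] [Algebra F Ω] (T : Matrix (Fin 9) (Fin 9) Ω),
      (∀ a c, (a, c) ∉ S → T a c = 0) → T.det ≠ 0 →
      ∀ d, algebraMap F Ω (D d) ∈ Subfield.closure (ent (T * G.map (algebraMap F Ω)))) →
    27 + Fintype.card δ + S.card ≤ 3 * fre Z
  ker : ∀ (F : Type) [Field F] [Algebra K F] (G : Matrix (Fin 9) (Fin 9) F)
    (S Z Z' : Finset (Fin 9 × Fin 9)) (w : Fin 3 → F), G.det ≠ 0 → (∀ a, (a, a) ∈ S) → Cl S Z →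
    Cl S Z' → w ≠ 0 → (∀ i, ∀ x ∈ Z, (G * fm F i * Gᵀ) x.1 x.2 = 0) →
    (∀ x ∈ Z', (G * fw w * Gᵀ) x.1 x.2 = 0) → 27 + S.card ≤ 2 * fre Z + fre Z' + 2

/-- Orthogonal subspaces. -/
def Perp {F : Type} [Field F] [Algebra K F] (I S : Submodule F (Fin 9 → F)) : Prop :=
  ∀ i, ∀ u ∈ I, ∀ v ∈ S, u ᵥ* fm F i ⬝ᵥ v = 0

/-- Configurations that do not occur. -/
structure NoS : Prop where
  ker : ∀ (F : Type) [Field F] [Algebra K F] (w : Fin 3 → F) (k k' : Fin 9 → F), w ≠ 0 → k ≠ 0 →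
    k ᵥ* fw w = 0 → k' ᵥ* fw w = 0 → ∃ a : F, k' = a • k
  dim : ∀ (F : Type) [Field F] [Algebra K F] (w : Fin 3 → F) (k : Fin 9 → F)
    (I S : Submodule F (Fin 9 → F)), w ≠ 0 → k ≠ 0 → k ᵥ* fw w = 0 → k ∈ I → I ≤ S → Perp I S →
    ¬ (3 ≤ Module.finrank F I ∧ 5 ≤ Module.finrank F S) ∧
    ¬ (2 ≤ Module.finrank F I ∧ 6 ≤ Module.finrank F S)
  hyp : ∀ (F : Type) [Field F] [Algebra K F] (k : Fin 9 → F) (S : Submodule F (Fin 9 → F)),
    k ≠ 0 → k ∈ S → Perp (Submodule.span F {k}) S → Module.finrank F S ≤ 7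

/-- The tensor configuration does not occur. -/
def TrS : Prop := ∀ (F : Type) [Field F] [Algebra K F] (G : Matrix (Fin 9) (Fin 9) F)
  (w : Fin 3 → F), G.det ≠ 0 → w ≠ 0 → G 0 ᵥ* fw w = 0 →
  (∀ i (a b : Fin 4), (G * fm F i * Gᵀ) (![0, 1, 2, 3] a) (![0, 1, 2, 3] b) = 0) →
  (∀ i (a b : Fin 4), (G * fm F i * Gᵀ) (![0, 4, 5, 6] a) (![0, 4, 5, 6] b) = 0) →
  (∀ i (a b : Fin 3), (G * fm F i * Gᵀ) (![1, 2, 3] a) (![4, 5, 6] b) =
    (G * fm F i * Gᵀ) (![1, 2, 3] b) (![4, 5, 6] a)) → False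

/-- The rows are independent. -/
def Rk {F : Type} [Field F] (M : Matrix (Fin 4) (Fin 9) F) : Prop := ∀ c, c ᵥ* M = 0 → c = 0

/-- The plane contains the kernel of the form `w`, and `Ψ` is a tangent vector that keeps the
kernel in the plane. -/
def CcD {F : Type} [Field F] [Algebra K F] (M : Matrix (Fin 4) (Fin 9) F) (w : Fin 3 → F)
    (c : Fin 4 → F) (Ψ : Matrix (Fin 4) (Fin 9) F) : Prop :=
  w ≠ 0 ∧ c ≠ 0 ∧ c ᵥ* M ᵥ* fw w = 0 ∧ (∃ b, c ᵥ* Ψ = b ᵥ* M) ∧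
    (¬ ∃ B : Matrix (Fin 4) (Fin 4) F, Ψ = B * M) ∧
    ∀ i, Ψ * fm F i * Mᵀ + M * fm F i * Ψᵀ = 0

/-- A ramification point. -/
def Cc {F : Type} [Field F] [Algebra K F] (M : Matrix (Fin 4) (Fin 9) F) : Prop :=
  ∃ w c Ψ, CcD M w c Ψ

/-- A ramification point is the only plane through the kernel. -/
def UniS : Prop := ∀ (F : Type) [Field F] [Algebra K F] (M M' Ψ : Matrix (Fin 4) (Fin 9) F)
  (w : Fin 3 → F) (c c' : Fin 4 → F), Iso M → Rk M → Iso M' → Rk M' → CcD M w c Ψ →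
  c' ≠ 0 → c' ᵥ* M' ᵥ* fw w = 0 →
  (∃ g : Matrix (Fin 4) (Fin 4) F, g.det ≠ 0 ∧ M' = g * M) ∧ ∃ a : F, c' ᵥ* M' = a • (c ᵥ* M)

/-- The conditions of isotropy of the two planes are independent. -/
def LI {F : Type} [Field F] (N N' : Matrix (Fin 4) (Fin 9) F) : Prop :=
  ∀ C C' : Matrix (Fin 4) (Fin 4) F, Cᵀ = -C → C'ᵀ = -C' → Nᵀ * C * N = N'ᵀ * C' * N' →
    C = 0 ∧ C' = 0

/-- Pairs of planes with dependent conditions. -/
def BfS : Prop := ∀ (F B : Type) [Field F] [Algebra K F] [CommRing B] [Algebra K B]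
  (β : B →ₐ[K] F) (N N' : Matrix (Fin 4) (Fin 9) B) (f f' : Fin 4 → Fin 9),
  adjoin K (ent N ∪ ent N') = ⊤ → N.submatrix id f = 1 → N'.submatrix id f' = 1 →
  Iso (N.map β) → Iso (N'.map β) → ¬ LI (N.map β) (N'.map β) →
  (∃ g : Matrix (Fin 4) (Fin 4) F, N'.map β = g * N.map β) ∨ trdeg K (B ⧸ RingHom.ker β) ≤ 1

/-- A curve of ramification points. -/
def ExcS : Prop := ∃ (F : Type) (_ : Field F) (_ : Algebra K F) (N : Matrix (Fin 4) (Fin 9) F),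
  trdeg K F = 1 ∧ Iso N ∧ N.submatrix id ![0, 1, 2, 3] = 1 ∧
    (∃ a c, Transcendental K (N a c)) ∧ Cc N

end Pool.Agent.MP_b834b3_ag.G20
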