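import Mathlib.RingTheory.TensorProduct.MvPolynomial
import Mathlib.RingTheory.RingHom.Flat
import Mathlib.RingTheory.Flat.TorsionFree
import Mathlib.RingTheory.Flat.Localization
import Mathlib.RingTheory.Flat.FaithfullyFlat.Algebra
import Mathlib.RingTheory.Ideal.MinimalPrime.Localization
import Pool.Agent.MP_b834b3_ag.g.SpecA

/-! Genus twenty: a free compositum with a valuation ring over a given prime. -/

namespace Pool.Agent.MP_b834b3_ag.G20

open Algebra IsLocalRing MvPolynomial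
open scoped TensorProduct nonZeroDivisors

namespace Cmp

lemma flat_of_inj {A F : Type} [CommRing A] [IsDomain A] [Field F] (f : A →+* F)
    (hf : Function.Injective f) : f.Flat := by
  let := f.toAlgebra
  have : FaithfulSMul A F := (faithfulSMul_iff_algebraMap_injective A F).2 hf
  let := FractionRing.liftAlgebra A F
  have : Module.Flat A (FractionRing A) := IsLocalization.flat (FractionRing A) A⁰
  exact Module.Flat.trans A (FractionRing A) F

variable {K F L : Type} [Field K] [Field F] [Field L] [Algebra K F] [Algebra K L]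

lemma reg {σ τ : Type} {s : σ → F} {t : τ → L} (hs : AlgebraicIndependent K s)
    (ht : AlgebraicIndependent K t) {p : MvPolynomial (σ ⊕ τ) K} (hp : p ≠ 0) {y : F ⊗[K] L}
    (hy : aeval (Sum.elim (fun i => s i ⊗ₜ[K] (1 : L)) (fun j => (1 : F) ⊗ₜ[K] t j)) p * y = 0) :
    y = 0 := by
  have h1 : (Algebra.TensorProduct.map (aeval s : MvPolynomial σ K →ₐ[K] F)
      (aeval t : MvPolynomial τ K →ₐ[K] L)).Flat :=
    RingHom.Flat.tensorProductMap (flat_of_inj _ hs) (flat_of_inj _ ht)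
  let e := tensorEquivSum K σ τ K
  have he : (Algebra.TensorProduct.map (aeval s : MvPolynomial σ K →ₐ[K] F)
      (aeval t : MvPolynomial τ K →ₐ[K] L)).comp e.symm.toAlgHom =
      aeval (Sum.elim (fun i => s i ⊗ₜ[K] (1 : L)) (fun j => (1 : F) ⊗ₜ[K] t j)) := by
    refine MvPolynomial.algHom_ext fun i => ?_
    rcases i with i | i
    · have : e.symm (X (Sum.inl i)) = X i ⊗ₜ 1 :=
        e.symm_apply_eq.2 (tensorEquivSum_X_tmul_one i).symm
      simp [this]
    · have : e.symm (X (Sum.inr i)) = 1 ⊗ₜ X i :=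
        e.symm_apply_eq.2 (tensorEquivSum_one_tmul_X i).symm
      simp [this]
  have : IsDomain (MvPolynomial σ K ⊗[K] MvPolynomial τ K) := e.toMulEquiv.isDomain
  let := (Algebra.TensorProduct.map (aeval s : MvPolynomial σ K →ₐ[K] F)
      (aeval t : MvPolynomial τ K →ₐ[K] L)).toRingHom.toAlgebra
  have : Module.Flat (MvPolynomial σ K ⊗[K] MvPolynomial τ K) (F ⊗[K] L) := h1
  have hq : e.symm p ∈ (MvPolynomial σ K ⊗[K] MvPolynomial τ K)⁰ :=
    mem_nonZeroDivisors_of_ne_zero (by simpa using hp)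
  have hr := Module.Flat.isSMulRegular_of_nonZeroDivisors (M := F ⊗[K] L) hq
  rw [← he] at hy
  exact hr (a₁ := y) (a₂ := 0) (hy.trans (smul_zero _).symm)

lemma inj (O : Subalgebra K F) :
    Function.Injective (Algebra.TensorProduct.map O.val (AlgHom.id K L)) :=
  Module.Flat.rTensor_preserves_injective_linearMap (M := L) O.val.toLinearMap
    Subtype.val_injective

lemma frac {O : Subalgebra K F} (hO : ∀ x : F, x ∈ O ∨ x⁻¹ ∈ O) (x : F) :
    ∃ a c : O, c ≠ 0 ∧ (c : F) * x = a := by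
  by_cases h0 : x = 0
  · exact ⟨0, 1, one_ne_zero, by simp [h0]⟩
  rcases hO x with h | h
  · exact ⟨⟨x, h⟩, 1, one_ne_zero, by simp⟩
  · exact ⟨1, ⟨x⁻¹, h⟩, fun e => inv_ne_zero h0 (congrArg Subtype.val e), by simp [h0]⟩

lemma clear {O : Subalgebra K F} (hO : ∀ x : F, x ∈ O ∨ x⁻¹ ∈ O) (x : F ⊗[K] L) :
    ∃ (c : O) (r : O ⊗[K] L), c ≠ 0 ∧
      ((c : F) ⊗ₜ[K] (1 : L)) * x = Algebra.TensorProduct.map O.val (AlgHom.id K L) r := by
  induction x using TensorProduct.induction_on with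
  | zero => exact ⟨1, 0, one_ne_zero, by simp⟩
  | tmul x l =>
    obtain ⟨a, c, hc, e⟩ := frac hO x
    exact ⟨c, a ⊗ₜ l, hc, by simp [e]⟩
  | add x y hx hy =>
    obtain ⟨c, r, hc, e⟩ := hx
    obtain ⟨c', r', hc', e'⟩ := hy
    refine ⟨c * c', (c' ⊗ₜ 1) * r + (c ⊗ₜ 1) * r', mul_ne_zero hc hc', ?_⟩
    have h : (((c * c' : O) : F) ⊗ₜ[K] (1 : L)) =
        ((c : F) ⊗ₜ[K] (1 : L)) * ((c' : F) ⊗ₜ[K] (1 : L)) := by simp
    rw [h, map_add, map_mul, map_mul, ← e, ← e']
    simp only [Algebra.TensorProduct.map_tmul, Subalgebra.coe_val, map_one]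
    ring

lemma cancel {c : F} (hc : c ≠ 0) {y : F ⊗[K] L} (h : (c ⊗ₜ[K] (1 : L)) * y = 0) : y = 0 := by
  have e : (c⁻¹ ⊗ₜ[K] (1 : L)) * (c ⊗ₜ[K] (1 : L)) = 1 := by
    simp [inv_mul_cancel₀ hc, Algebra.TensorProduct.one_def]
  rw [← one_mul y, ← e, mul_assoc, h, mul_zero]

lemma quot {R : Type} [CommRing R] [Algebra K R] (Q : Ideal R) [Q.IsPrime] :
    ∃ (F' : Type) (_ : Field F') (_ : Algebra K F') (π : R →ₐ[K] F'),
      (∀ r, π r = 0 → r ∈ Q) ∧ ∀ d, ∃ x y, π y ≠ 0 ∧ π y * d = π x := by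
  refine ⟨FractionRing (R ⧸ Q), inferInstance, inferInstance,
    (IsScalarTower.toAlgHom K (R ⧸ Q) (FractionRing (R ⧸ Q))).comp (Ideal.Quotient.mkₐ K Q),
    fun r hr => Ideal.Quotient.eq_zero_iff_mem.1 ((map_eq_zero_iff _
      (IsFractionRing.injective (R ⧸ Q) (FractionRing (R ⧸ Q)))).1 hr), fun d => ?_⟩
  obtain ⟨x, y, hy, e⟩ := IsFractionRing.div_surjective (A := R ⧸ Q) d
  obtain ⟨x, rfl⟩ := Ideal.Quotient.mk_surjective x
  obtain ⟨y, rfl⟩ := Ideal.Quotient.mk_surjective y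
  have h0 := IsFractionRing.to_map_ne_zero_of_mem_nonZeroDivisors (K := FractionRing (R ⧸ Q)) hy
  refine ⟨x, y, h0, ?_⟩
  rw [← e]
  exact mul_div_cancel₀ _ h0

lemma val {R F' : Type} [CommRing R] [Field F'] (P : Ideal R) [P.IsPrime] (π : R →+* F')
    (h : ∀ r, r ∉ P → π r ≠ 0) : ∃ V : ValuationSubring F',
      (∀ r, π r ∈ V) ∧ ∀ r, V.valuation (π r) < 1 ↔ r ∈ P := by
  let ℓ : Localization.AtPrime P →+* F' :=
    IsLocalization.lift (M := P.primeCompl) (g := π) fun y => (h y.1 y.2).isUnit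
  have hℓ : ∀ r, ℓ (algebraMap _ _ r) = π r := fun r => IsLocalization.lift_eq _ r
  obtain ⟨V, hV, hloc⟩ := IsLocalRing.exists_factor_valuationRing ℓ
  refine ⟨V, fun r => hℓ r ▸ hV _, fun r => ?_⟩
  rw [← hℓ]
  refine (V.valuation_lt_one_iff ⟨_, hV _⟩).symm.trans ?_
  rw [mem_maximalIdeal, mem_nonunits_iff]
  refine (not_congr (isUnit_map_iff (ℓ.codRestrict V.toSubring hV) _)).trans ?_
  rw [IsLocalization.AtPrime.isUnit_to_map_iff (Localization.AtPrime P) P,
    Ideal.mem_primeCompl_iff, not_not]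

end Cmp

theorem cmp : CmpS := by
  intro K F L _ _ _ _ _ O P hP hO
  obtain ⟨P', hP', hl⟩ := Ideal.exists_isPrime_liesOver_of_faithfullyFlat (B := O ⊗[K] L) P
  obtain ⟨Q, hQ, hQP⟩ := Ideal.exists_minimalPrimes_le (I := ⊥) (J := P') bot_le
  have : Q.IsPrime := hQ.1.1
  have zd : ∀ r ∈ Q, ∃ r' : O ⊗[K] L, r' ≠ 0 ∧ r * r' = 0 := by
    intro r hr
    have := notMem_nonZeroDivisors_of_mem_mem_minimalPrimes hr hQ
    by_contra hc
    refine this (mem_nonZeroDivisors_iff_left.2 fun x hx => ?_)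
    by_contra h0
    exact hc ⟨x, h0, hx⟩
  obtain ⟨F', _, _, π, ker, sur⟩ := Cmp.quot (K := K) Q
  have ker' : ∀ r, r ∉ P' → π r ≠ 0 := by
    intro r hr h
    exact hr (hQP (ker r h))
  let f0 : O →ₐ[K] F' := π.comp Algebra.TensorProduct.includeLeft
  have hf0 : Function.Injective f0 := by
    refine (injective_iff_map_eq_zero _).2 fun a ha => ?_
    by_contra h0
    obtain ⟨r', h1, h2⟩ := zd _ (ker _ ha)
    refine h1 (Cmp.inj O ?_)
    rw [map_zero]
    refine Cmp.cancel (c := (a : F)) (fun e => h0 (Subtype.ext e)) ?_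
    have := congrArg (Algebra.TensorProduct.map O.val (AlgHom.id K L)) h2
    rw [map_mul, map_zero] at this
    exact this
  have : IsFractionRing O F := IsFractionRing.of_field O F fun z => by
    obtain ⟨a, c, hc, e⟩ := Cmp.frac hO z
    have hc' : (c : F) ≠ 0 := fun h => hc (Subtype.ext h)
    exact ⟨a, c, (eq_div_iff hc').2 ((mul_comm _ _).trans e)⟩
  let f : F →ₐ[K] F' := IsFractionRing.liftAlgHom (K := F) hf0
  have hf : ∀ a : O, f a = π (a ⊗ₜ 1) := fun a => IsFractionRing.lift_algebraMap hf0 a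
  let g : L →ₐ[K] F' := π.comp Algebra.TensorProduct.includeRight
  have hg : ∀ l : L, g l = π (1 ⊗ₜ l) := fun _ => rfl
  have hπ : ∀ (a : O) (l : L), π (a ⊗ₜ l) = f a * g l := by
    intro a l
    rw [hf, hg, ← map_mul]; simp
  obtain ⟨V, hV', hV⟩ := Cmp.val P' π.toRingHom ker'
  have adj : ∀ r, π r ∈ adjoin K (Set.range f ∪ Set.range g) := by
    intro r
    induction r using TensorProduct.induction_on with
    | zero => rw [map_zero]; exact zero_mem _
    | tmul a l =>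
      rw [hπ]
      exact mul_mem (subset_adjoin (Or.inl ⟨_, rfl⟩)) (subset_adjoin (Or.inr ⟨_, rfl⟩))
    | add x y hx hy => rw [map_add]; exact add_mem hx hy
  refine ⟨F', inferInstance, inferInstance, f, g, V, fun d => ?_, fun σ τ s t hs ht => ?_,
    fun a => hf a ▸ hV' _, fun l => hV' _, fun a => ?_⟩
  · obtain ⟨x, y, h0, e⟩ := sur d
    exact ⟨π x, adj x, π y, adj y, h0, e⟩
  · refine algebraicIndependent_iff.2 fun p hp => ?_
    by_contra h0
    let ψ : F ⊗[K] L →ₐ[K] F' := Algebra.TensorProduct.productMap f g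
    have e1 : ψ.comp (aeval (Sum.elim (fun i => s i ⊗ₜ[K] (1 : L))
        (fun j => (1 : F) ⊗ₜ[K] t j))) = aeval (Sum.elim (f ∘ s) (g ∘ t)) := by
      refine MvPolynomial.algHom_ext fun i => ?_
      rcases i with i | i <;> simp [ψ]
    have e2 : ∀ r, ψ (Algebra.TensorProduct.map O.val (AlgHom.id K L) r) = π r := by
      intro r
      induction r using TensorProduct.induction_on with
      | zero => simp
      | tmul a l => rw [hπ]; simp [ψ]
      | add x y hx hy => rw [map_add, map_add, hx, hy, map_add]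
    obtain ⟨c, r, hc, e⟩ := Cmp.clear hO (aeval (Sum.elim (fun i => s i ⊗ₜ[K] (1 : L))
        (fun j => (1 : F) ⊗ₜ[K] t j)) p)
    have e3 : π r = 0 := by
      rw [← e2, ← e, map_mul, ← AlgHom.comp_apply, e1, hp, mul_zero]
    obtain ⟨r', h1, h2⟩ := zd _ (ker _ e3)
    refine h1 (Cmp.inj O ?_)
    rw [map_zero]
    refine Cmp.reg hs ht h0 (Cmp.cancel (c := (c : F)) (fun h => hc (Subtype.ext h)) ?_)
    rw [← mul_assoc, e, ← map_mul, h2, map_zero]
  · rw [hf]
    exact (hV _).trans (Ideal.mem_of_liesOver P' P a).symm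

end Pool.Agent.MP_b834b3_ag.G20
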