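import Pool.Agent.MP_b834b3_ag.g.SpecC

/-! Genus twenty: a centre on the surface is the centre of a place. -/

namespace Pool.Agent.MP_b834b3_ag.G20

open AlgebraicGeometry CategoryTheory Algebra IsLocalRing Limits MvPolynomial Matrix

namespace Ctr

/-- Minors commute with homomorphisms. -/
theorem mn_map {R S : Type} [CommRing R] [CommRing S] (σ : R →+* S) (j : Fin 4)
    (N : Matrix (Fin 4) (Fin 9) R) : mn j (N.map σ) = σ (mn j N) := by
  rw [mn, mn, RingHom.map_det]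
  rfl

/-- A point of a chart with values in the ring of a place gives an integral basis. -/
theorem cen (hB : Base) {L : Type} [Field L] [Algebra K L] {M : Matrix (Fin 4) (Fin 9) L}
    (hC : ChAt M) {F : Type} [Field F] [Algebra K F] (p : Pl F) {N : Matrix (Fin 4) (Fin 9) F}
    {j : Fin 4} (hj : mn j N ≠ 0) (χ : Ach M j →ₐ[K] p.O)
    (hχ : (el M (ff j)).map (p.O.val.comp χ) = nm (ff j) N) :
    Cen p N ((el M (ff j)).map χ) := by
  refine ⟨⟨(N.submatrix id (ff j))⁻¹, ?_, hχ⟩, (hB.pt.rk_det _ _).2 ⟨ff j, ?_⟩⟩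
  · rw [Matrix.det_nonsing_inv, Ring.inverse_eq_inv]
    exact inv_ne_zero hj
  · have h1 : mn j (el M (ff j)) = 1 := by rw [mn, hC.one _ (hC.ne j), Matrix.det_one]
    have h2 := mn_map (p.π.comp χ).toRingHom j (el M (ff j))
    rw [h1, map_one] at h2
    exact ne_of_eq_of_ne h2 one_ne_zero

end Ctr

/-- Centres of valuation rings are centres of places. -/
theorem ctr_s (hB : Base) : CtrS := by
  intro L _ _ M X s 𝒜 F F' _ _ _ _ f N j χ V x hC hj hχ ⟨μ, hμ, hx⟩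
  have hm := 𝒜.mem x
  generalize (𝒜.key x).1 = j' at hm
  obtain ⟨α, hα⟩ := lift_chart (𝒜.ch j') μ (hx ▸ hm)
  have h1 : sp (f.comp χ).toRingHom ≫ 𝒜.ch j = sp (V.subtype.comp α) ≫ 𝒜.ch j' := by
    rw [← hμ, hα, sp_comp, Category.assoc]
  obtain ⟨h2, h3⟩ := 𝒜.tr j j' F' _ _ h1
  have e : (el M (ff j)).map (f.comp χ).toRingHom = (nm (ff j) N).map f.toRingHom := by
    rw [← hχ]
    rfl
  obtain ⟨-, hN⟩ := hB.pt.nm_one F (ff j) N hj
  have hj' : mn j' N ≠ 0 := by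
    rw [e, Ctr.mn_map, map_ne_zero, mn, hB.pt.det_nm] at h2
    exact (div_ne_zero_iff.1 h2).1
  have h4 : nm (ff j') (nm (ff j) N) = nm (ff j') N := by
    rw [← hB.pt.nm_mul F (ff j') _ (nm (ff j) N) hj, ← hN]
  rw [e, hB.pt.nm_map, h4] at h3
  have h5 : ∀ c, (α (algebraMap K _ c) : F') = algebraMap K F' c := fun c => by
    have h := congrArg (· ≫ s) h1
    simp only [Category.assoc, 𝒜.hs, ← sp_comp] at h
    exact (RingHom.congr_fun (sp_inj h) c).symm.trans ((f.comp χ).commutes c)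
  obtain ⟨p, hp, hv⟩ := hB.pl.ofVal F F' f V fun c => h5 c ▸ (α (algebraMap K _ c)).2
  have hI : Iso N := by
    rw [hN, ← hχ]
    exact hB.pt.iso_mul F _ _ ((hB.pt.iso_map _ F χ _).1 (hC.iso _ (hC.ne j)))
  obtain ⟨χ', hχ'⟩ := hC.univ j' F N hI hj'
  have h6 : ∀ a, f (χ' a) = α a := by
    have h : f.comp χ' = { V.subtype.comp α with commutes' := h5 } := by
      refine AlgHom.ext_of_adjoin_eq_top (hC.gen _) ?_
      rintro _ ⟨y, rfl⟩
      exact (congrArg f (congrFun₂ hχ' y.1 y.2)).trans (congrFun₂ h3 y.1 y.2).symm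
    exact fun a => AlgHom.congr_fun h a
  let γ : Ach M j' →ₐ[K] p.O := χ'.codRestrict p.O fun a => (hp _).2 (h6 a ▸ (α a).2)
  refine ⟨p, (el M (ff j')).map γ, hp, Ctr.cen hB hC p hj' γ hχ', ?_⟩
  refine (𝒜.key_ch j' p.E (p.π.comp γ)).symm.trans (congrArg 𝒜.key ?_)
  rw [← hx, hα]
  refine (Scheme.Hom.comp_apply _ _ _).trans ((congrArg (𝒜.ch j')
    (PrimeSpectrum.ext (Ideal.ext fun a => ?_))).trans (Scheme.Hom.comp_apply _ _ _).symm)
  change p.π (γ a) ∈ maximalIdeal p.E ↔ α a ∈ maximalIdeal V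
  rw [maximalIdeal_eq_bot, Ideal.mem_bot, hv, V.valuation_lt_one_iff, ← h6]
  rfl

end Pool.Agent.MP_b834b3_ag.G20
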