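import Pool.Agent.MP_b834b3_ag.g.SpecB

/-! Genus twenty: a curve of planes through kernels, through a given point. -/

namespace Pool.Agent.MP_b834b3_ag.G20

open Algebra MvPolynomial Matrix

namespace Cur

/-- Fewer equations than unknowns: there is a curve of solutions through a rational solution. -/
theorem curve {E τ ι : Type} [Field E] [Fintype τ] [Fintype ι]
    (hc : Fintype.card ι < Fintype.card τ) (x : τ → E) (g : ι → MvPolynomial τ E)
    (hg : ∀ i, aeval x (g i) = 0) :
    ∃ (R : Type) (_ : CommRing R) (_ : IsDomain R) (_ : Algebra E R) (ε : R →ₐ[E] E) (y : τ → R),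
      trdeg E R = 1 ∧ adjoin E (Set.range y) = ⊤ ∧ (∀ i, aeval y (g i) = 0) ∧
      ∀ t, ε (y t) = x t := by
  classical
  let e : MvPolynomial τ E →ₐ[E] E := aeval x
  have hP : (RingHom.ker e).IsPrime := RingHom.ker_isPrime e
  have hs : Function.Surjective e := fun c => ⟨C c, by simp [e]⟩
  have h0 : trdeg E (MvPolynomial τ E ⧸ RingHom.ker e) = 0 := by
    rw [(Ideal.quotientKerAlgEquivOfSurjective hs).trdeg_eq]
    exact trdeg_eq_zero
  obtain ⟨Q, hQ, hle, hm, n, hn, hcard⟩ := exists_min (Finset.univ.image g) (RingHom.ker e) (by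
    intro p hp
    obtain ⟨i, -, rfl⟩ := Finset.mem_image.1 hp
    exact hg i)
  have h1 : (Finset.univ.image g).card ≤ Fintype.card ι := Finset.card_image_le
  have hlt : Q < RingHom.ker e := by
    refine lt_of_le_of_ne hle fun h => ?_
    subst h
    rw [h0] at hn
    have : n = 0 := by exact_mod_cast hn.symm
    omega
  obtain ⟨r, hr, hQr, hrP, ht⟩ := exists_cover (K := E) hlt
  have hq : Ideal.Quotient.mkₐ E r = aeval fun t => Ideal.Quotient.mkₐ E r (X t) :=
    MvPolynomial.algHom_ext fun t => by simp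
  refine ⟨MvPolynomial τ E ⧸ r, inferInstance, inferInstance, inferInstance,
    Ideal.Quotient.liftₐ r e fun a ha => hrP.le ha, fun t => Ideal.Quotient.mkₐ E r (X t),
    by rw [← ht, h0, zero_add], ?_, fun i => ?_, fun t => aeval_X x t⟩
  · rw [← aeval_range, AlgHom.range_eq_top, ← hq]
    exact Ideal.Quotient.mkₐ_surjective E r
  · rw [← hq]
    exact Ideal.Quotient.eq_zero_iff_mem.2
      (hQr (hm _ (Finset.mem_image_of_mem g (Finset.mem_univ i))))

/-- The unknowns. -/
abbrev Un : Type := (Fin 4 × Fin 9) ⊕ Fin 4 ⊕ Unit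

/-- The equations. -/
abbrev Eqs (f : Fin 4 → Fin 9) : Type :=
  (Fin 4 × Fin 4) ⊕ Unit ⊕ (Fin 3 × {p : Fin 4 × Fin 4 // p.1 < p.2}) ⊕ {c // c ∉ Set.range f}

/-- The matrix of unknowns. -/
def mat {R : Type} (y : Un → R) : Matrix (Fin 4) (Fin 9) R := of fun a c => y (.inl (a, c))

/-- The coefficient vector. -/
def vec {R : Type} (y : Un → R) : Fin 4 → R := fun a => y (.inr (.inl a))

/-- The system of equations. -/
noncomputable def sys {R : Type} [CommRing R] [Algebra K R] (f : Fin 4 → Fin 9) (a : Fin 4)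
    (s t : R) (y : Un → R) : Eqs f → R
  | .inl p => mat y p.1 (f p.2) - (1 : Matrix (Fin 4) (Fin 4) R) p.1 p.2
  | .inr (.inl _) => vec y a - 1
  | .inr (.inr (.inl q)) => (mat y * fm R q.1 * (mat y)ᵀ) q.2.1.1 q.2.1.2
  | .inr (.inr (.inr c)) => (vec y ᵥ* mat y ᵥ* fw ![y (.inr (.inr ())), s, t]) c.1

theorem sys_map (hF : FormS) {R S : Type} [CommRing R] [Algebra K R] [CommRing S] [Algebra K S]
    (σ : R →ₐ[K] S) (f : Fin 4 → Fin 9) (a : Fin 4) (s t : R) (y : Un → R) (i : Eqs f) :
    σ (sys f a s t y i) = sys f a (σ s) (σ t) (σ ∘ y) i := by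
  have hm : (mat y).map σ = mat (σ ∘ y) := rfl
  rcases i with p | _ | q | c
  · simp only [sys, map_sub, Matrix.one_apply, apply_ite σ, map_one, map_zero]
    rfl
  · simp only [sys, map_sub, map_one]
    rfl
  · change ((mat y * fm R q.1 * (mat y)ᵀ).map σ) _ _ = _
    rw [Matrix.map_mul, Matrix.map_mul, transpose_map, hm, (hF.map R S σ 0).1]
    rfl
  · have h1 := RingHom.map_vecMul (σ : R →+* S) (fw ![y (.inr (.inr ())), s, t])
      (vec y ᵥ* mat y) c.1
    have h2 : (σ : R →+* S) ∘ (vec y ᵥ* mat y) = vec (σ ∘ y) ᵥ* mat (σ ∘ y) :=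
      funext fun j => RingHom.map_vecMul (σ : R →+* S) (mat y) (vec y) j
    have h3 : σ ∘ ![y (.inr (.inr ())), s, t] = ![(σ ∘ y) (.inr (.inr ())), σ s, σ t] := by
      funext j
      fin_cases j <;> rfl
    have h4 := (hF.map R S σ ![y (.inr (.inr ())), s, t]).2
    rw [h3] at h4
    rw [h2] at h1
    refine h1.trans ?_
    simp only [sys]
    rw [← h4]
    rfl

theorem iso_of (hF : FormS) {R : Type} [CommRing R] [Algebra K R] (M : Matrix (Fin 4) (Fin 9) R)
    (h : ∀ i a b, a < b → (M * fm R i * Mᵀ) a b = 0) : Iso M := by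
  intro i
  change M * fm R i * Mᵀ = 0
  ext a b
  rcases lt_trichotomy a b with hab | rfl | hab
  · exact h i a b hab
  · rw [hF.mul]
    exact hF.diag R i _
  · have h1 : (M * fm R i * Mᵀ)ᵀ = -(M * fm R i * Mᵀ) := by
      rw [transpose_mul, transpose_mul, transpose_transpose, hF.skew, Matrix.neg_mul,
        Matrix.mul_neg, Matrix.mul_assoc]
    have h2 := congrFun (congrFun h1 a) b
    rw [transpose_apply, h i b a hab, Matrix.neg_apply] at h2
    exact neg_eq_zero.1 h2.symm

theorem ker_of {R : Type} [CommRing R] [Algebra K R] (M : Matrix (Fin 4) (Fin 9) R)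
    (f : Fin 4 → Fin 9) (d : Fin 4 → R) (w : Fin 3 → R) (h1 : M.submatrix id f = 1) (hI : Iso M)
    (h : ∀ c, c ∉ Set.range f → (d ᵥ* M ᵥ* fw w) c = 0) : d ᵥ* M ᵥ* fw w = 0 := by
  have h2 : M * fw w * Mᵀ = 0 := by
    rw [fw, Matrix.mul_sum, Matrix.sum_mul]
    refine Finset.sum_eq_zero fun i _ => ?_
    rw [Matrix.mul_smul, Matrix.smul_mul, show M * fm R i * Mᵀ = 0 from hI i, smul_zero]
  have h3 : (d ᵥ* M ᵥ* fw w) ᵥ* Mᵀ = 0 := by
    rw [vecMul_vecMul, vecMul_vecMul, ← Matrix.mul_assoc, h2, vecMul_zero]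
  funext c
  by_cases hc : c ∈ Set.range f
  · obtain ⟨b, rfl⟩ := hc
    have h4 := congrFun h3 b
    have h5 : ∀ b', M b (f b') = (1 : Matrix (Fin 4) (Fin 4) R) b b' := fun b' =>
      congrFun (congrFun h1 b) b'
    rw [vecMul, dotProduct, Finset.sum_eq_single (f b)] at h4
    · rw [transpose_apply, h5, Matrix.one_apply_eq, mul_one] at h4
      exact h4
    · intro c _ hcb
      by_cases hc : c ∈ Set.range f
      · obtain ⟨b', rfl⟩ := hc
        rw [transpose_apply, h5, Matrix.one_apply_ne (fun e => hcb (by rw [e])), mul_zero]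
      · rw [h c hc, zero_mul]
    · exact fun h => absurd (Finset.mem_univ _) h
  · exact h c hc

theorem card_lt {f : Fin 4 → Fin 9} (hf : Function.Injective f) :
    Fintype.card (Eqs f) < Fintype.card Un := by
  have h1 : Fintype.card {p : Fin 4 × Fin 4 // p.1 < p.2} = 6 := by decide
  have h2 : Fintype.card {c // c ∉ Set.range f} = 5 := by
    rw [Fintype.card_subtype_compl]
    have := Set.card_range_of_injective hf
    simp only [Fintype.card_fin] at this ⊢
    have h3 : Fintype.card {x // x ∈ Set.range f} = 4 := by convert this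
    rw [h3]
  simp only [Fintype.card_sum, Fintype.card_prod, Fintype.card_fin, Fintype.card_unit, h1, h2]
  omega

end Cur

open Cur in
theorem cur (hB : Base) : CurS := by
  intro E _ _ N f w c a h1 hI hc hk
  have hf : Function.Injective f := fun b b' e => by
    by_contra hne
    have e1 : N b (f b) = (1 : Matrix (Fin 4) (Fin 4) E) b b := congrFun (congrFun h1 b) b
    have e2 : N b (f b') = (1 : Matrix (Fin 4) (Fin 4) E) b b' := congrFun (congrFun h1 b) b'
    rw [Matrix.one_apply_eq, e, e2, Matrix.one_apply_ne hne] at e1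
    exact zero_ne_one e1
  let x : Un → E := Sum.elim (fun p => N p.1 p.2) (Sum.elim c fun _ => w 0)
  have hw : ![w 0, w 1, w 2] = w := by
    funext j
    fin_cases j <;> rfl
  have key : ∀ (R : Type) [CommRing R] [Algebra K R] [Algebra E R] [IsScalarTower K E R]
      (y : Un → R) (i : Eqs f), aeval y (sys f a (C (w 1) : MvPolynomial Un E) (C (w 2)) X i) =
        sys f a (algebraMap E R (w 1)) (algebraMap E R (w 2)) y i := by
    intro R _ _ _ _ y i
    have h := sys_map hB.form ((aeval y : MvPolynomial Un E →ₐ[E] R).restrictScalars K) f a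
      (C (w 1)) (C (w 2)) X i
    have e : ((aeval y : MvPolynomial Un E →ₐ[E] R).restrictScalars K) ∘ X = y :=
      funext fun t => by simp
    rw [e] at h
    simpa only [AlgHom.restrictScalars_apply, aeval_C] using h
  obtain ⟨R, _, _, _, ε, y, ht, hg, he, hx⟩ := curve (card_lt hf) x
    (sys f a (C (w 1) : MvPolynomial Un E) (C (w 2)) X) (by
      intro i
      rw [key E x i]
      rcases i with p | _ | q | j
      · exact sub_eq_zero.2 (congrFun (congrFun h1 p.1) p.2)
      · exact sub_eq_zero.2 hc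
      · exact congrFun (congrFun (hI q.1) _) _
      · change (c ᵥ* N ᵥ* fw ![w 0, w 1, w 2]) j.1 = 0
        rw [hw, hk]
        rfl)
  let _ : Algebra K R := ((algebraMap E R).comp (algebraMap K E)).toAlgebra
  have _ : IsScalarTower K E R := .of_algebraMap_eq fun _ => rfl
  simp only [key R y] at he
  have g1 : (mat y).submatrix id f = 1 := by
    ext b b'
    exact sub_eq_zero.1 (he (.inl (b, b')))
  have g2 : Iso (mat y) := iso_of hB.form _ fun i b b' h => he (.inr (.inr (.inl (i, ⟨(b, b'), h⟩))))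
  refine ⟨R, inferInstance, inferInstance, inferInstance, inferInstance, inferInstance, ε, mat y,
    vec y, y (.inr (.inr ())), ht, ?_, g1, g2, sub_eq_zero.1 (he (.inr (.inl ()))),
    ker_of _ f _ _ g1 g2 fun j hj => he (.inr (.inr (.inr ⟨j, hj⟩))), ?_, ?_, hx _⟩
  · rw [_root_.eq_top_iff, ← hg]
    refine adjoin_mono ?_
    rintro _ ⟨p | b | _, rfl⟩
    · exact .inl (.inl ⟨p, rfl⟩)
    · exact .inl (.inr ⟨b, rfl⟩)
    · exact .inr rfl
  · ext b j
    exact hx (.inl (b, j))
  · funext b
    exact hx (.inr (.inl b))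

end Pool.Agent.MP_b834b3_ag.G20
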