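import Pool.Agent.MP_b834b3_ag.g.SpecB

/-! Genus twenty: divisors on the charts. -/

namespace Pool.Agent.MP_b834b3_ag.G20

open Algebra MvPolynomial Matrix

namespace Div

section Loc

variable {R B : Type} [CommRing R] [CommRing B] {ψ : R →+* B} (hψ : Function.Injective ψ)
  (gen : ∀ b, ∃ r s, IsUnit (ψ s) ∧ ψ s * b = ψ r) {r0 : R} (h0 : Prime r0) (hu : ¬ IsUnit (ψ r0))
include hψ gen h0 hu

theorem dvd_of {r : R} (h : ψ r0 ∣ ψ r) : r0 ∣ r := by
  obtain ⟨b, hb⟩ := h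
  obtain ⟨r', s, h1, h2⟩ := gen b
  have h3 : s * r = r0 * r' := hψ (by rw [map_mul, map_mul, hb, ← h2]; ring)
  refine (h0.dvd_or_dvd ⟨r', h3⟩).resolve_left fun h4 => hu ?_
  exact isUnit_of_dvd_unit (map_dvd ψ h4) h1

theorem prime_span : (Ideal.span {ψ r0}).IsPrime := by
  refine ⟨fun h => hu (Ideal.span_singleton_eq_top.1 h), fun {a b} h => ?_⟩
  simp only [Ideal.mem_span_singleton] at h ⊢
  obtain ⟨r, s, h1, h2⟩ := gen a
  obtain ⟨r', s', h3, h4⟩ := gen b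
  have h5 : ψ r0 ∣ ψ (r * r') := by
    rw [map_mul, ← h2, ← h4, mul_mul_mul_comm]
    exact h.mul_left _
  rcases h0.dvd_or_dvd (dvd_of hψ gen h0 hu h5) with h6 | h6
  · exact Or.inl (h1.dvd_mul_left.1 (h2 ▸ map_dvd ψ h6))
  · exact Or.inr (h3.dvd_mul_left.1 (h4 ▸ map_dvd ψ h6))

end Loc

theorem mn_map {R S : Type} [CommRing R] [CommRing S] (σ : R →+* S) (j : Fin 4)
    (N : Matrix (Fin 4) (Fin 9) R) : mn j (N.map σ) = σ (mn j N) := by
  rw [mn, mn, RingHom.map_det]; rfl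

variable {L : Type} [Field L] [Algebra K L] {M : Matrix (Fin 4) (Fin 9) L}

theorem chart_loc (hB : Base) (hC : ChAt M) (j : Fin 4) :
    ∃ (σ : Type) (ψ : MvPolynomial (Fin 14 ⊕ σ) ℂ →+* Ach M j), Function.Injective ψ ∧
      (∀ b, ∃ r s, IsUnit (ψ s) ∧ ψ s * b = ψ r) ∧
      el M (ff j) = (par j fun x => X (Sum.inl x)).map ψ := by
  classical
  let _ : Algebra ℂ (Ach M j) := ((algebraMap K (Ach M j)).comp (algebraMap ℂ K)).toAlgebra
  have : IsScalarTower ℂ K (Ach M j) := IsScalarTower.of_algebraMap_eq fun _ => rfl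
  let e : Fin 4 × Fin 9 → Ach M j := fun x => el M (ff j) x.1 x.2
  have hiso := (hB.eq.iso _ _).1 (hC.iso (ff j) (hC.ne j))
  have hel : el M (ff j) = par j (e ∘ sc j) := hB.par.eq _ j _ (hC.one _ (hC.ne j)) hiso.1
  have hmap : (par j (X : Fin 14 → MvPolynomial (Fin 14) ℂ)).map
      (aeval (e ∘ sc j) : MvPolynomial (Fin 14) ℂ →ₐ[ℂ] Ach M j).toRingHom = el M (ff j) := by
    rw [hB.par.map, hel]
    congr 1
    funext x
    simp
  have gen := gen_build (k := ℂ) (K := K) (m := mm (par j (X : Fin 14 → MvPolynomial (Fin 14) ℂ)))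
    (e := e) (sec := sc j) (ρ := fun x => par j X x.1 x.2) (h₀ := 1) (p := pv j) (hB.eq.inj j)
    (hC.gen (ff j)) (by
      rw [pdet, hB.eq.one _ _ j (hB.par.one _ j _), det_one])
    (S := {P | P.IsPrime}) (fun P hP => ⟨hP, fun x => by
      have := congrFun (congrFun hmap x.1) x.2
      rw [show aeval (e ∘ sc j) (par j X x.1 x.2) = e x from this, sub_self]
      exact P.zero_mem, by rw [map_one]; exact hP.one_notMem⟩)
    (fun P _ s => by
      have h1 : ∀ i, aeval (e ∘ sc j) (mm (par j (X : Fin 14 → MvPolynomial (Fin 14) ℂ)) s i) =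
          mm (el M (ff j)) s i := fun i => by
        rw [← hmap]; exact hB.eq.map _ _ _ _ s i
      simp only [h1]
      rw [hiso.2 s]
      exact P.zero_mem)
  have hdim : trdeg K (Ach M j ⧸ (⊥ : Ideal (Ach M j))) = (2 : ℕ) := by
    rw [(AlgEquiv.quotientBot K (Ach M j)).trdeg_eq, hC.dim j]; rfl
  have h1 := dim_strat (MP_b834b3_ag.par ℂ K e (sc j) (pv j)) gen (P := ⊥) Ideal.isPrime_bot
    (trdeg_par ℂ Ix K) hdim
  have h2 := card_fr (τ' := Fin 14) (hB.eq.inj j)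
  rw [hB.eq.card.1, hB.eq.card.2, Fintype.card_fin] at h2
  rw [hB.eq.card.2] at h1
  refine ⟨_, (MP_b834b3_ag.par ℂ K e (sc j) (pv j)).toRingHom, ?_, fun b => ?_, ?_⟩
  · exact (RingHom.injective_iff_ker_eq_bot _).2 (h1.2.1 (by omega))
  · obtain ⟨r, s, h⟩ := gen b
    refine ⟨r, s, ?_, sub_eq_zero.1 (h ⊥ Ideal.isPrime_bot).2⟩
    by_contra hs
    obtain ⟨P, hP, hsP⟩ := exists_max_ideal_of_mem_nonunits hs
    exact (h P hP.isPrime).1 hsP
  · rw [hB.par.map, hel]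
    congr 1
    funext x
    simp [MP_b834b3_ag.par]

theorem step (hB : Base) (hC : ChAt M) {j : Fin 4} (hj : j ≠ 0)
    (hu : ¬ IsUnit (mn 0 (el M (ff j)))) : (Ideal.span {mn 0 (el M (ff j))}).IsPrime ∧
      ∀ i, (∃ v : Fin 14 → ℂ, v 0 = 0 ∧ mn i (par j v) ≠ 0) →
        mn i (el M (ff j)) ∉ Ideal.span {mn 0 (el M (ff j))} := by
  obtain ⟨σ, ψ, h1, h2, h3⟩ := chart_loc hB hC j
  have ha : Associated (mn 0 (el M (ff j))) (ψ (X (Sum.inl 0))) := by
    rw [h3, mn_map]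
    rcases hB.par.mn0 _ j (fun x => (X (Sum.inl x) : MvPolynomial (Fin 14 ⊕ σ) ℂ)) hj with h | h
    · rw [h]
    · rw [h, map_neg]
      exact (Associated.refl _).neg_left
  have hu' : ¬ IsUnit (ψ (X (Sum.inl 0))) := fun h => hu (ha.isUnit_iff.2 h)
  rw [Ideal.span_singleton_eq_span_singleton.2 ha]
  refine ⟨prime_span h1 h2 X_prime hu', fun i ⟨v, hv0, hv⟩ h => hv ?_⟩
  rw [Ideal.mem_span_singleton, h3, mn_map] at h
  obtain ⟨c, hc⟩ := dvd_of h1 h2 X_prime hu' h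
  have := congrArg (eval (Sum.elim v fun _ => 0)) hc
  rw [← mn_map, hB.par.map, map_mul, eval_X, Sum.elim_inl, hv0, zero_mul] at this
  rw [← this]
  congr 2
  funext x
  simp

theorem move (hB : Base) (hC : ChAt M) {i j : Fin 4}
    (hp : (Ideal.span {mn 0 (el M (ff j))}).IsPrime)
    (h : mn i (el M (ff j)) ∉ Ideal.span {mn 0 (el M (ff j))}) :
    ¬ IsUnit (mn 0 (el M (ff i))) := by
  set P := Ideal.span {mn 0 (el M (ff j))} with hP
  let β := IsScalarTower.toAlgHom K (Ach M j) P.ResidueField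
  have hβ : ∀ f, β f = 0 ↔ f ∈ P := fun f => Ideal.algebraMap_residueField_eq_zero
  have h1 : ∀ l, mn l ((el M (ff j)).map β) = β (mn l (el M (ff j))) := fun l =>
    mn_map β.toRingHom l _
  obtain ⟨χ, hχ⟩ := hC.univ i P.ResidueField ((el M (ff j)).map β)
    ((hB.pt.iso_map _ _ β _).1 (hC.iso _ (hC.ne j))) (by rw [h1]; exact fun e => h ((hβ _).1 e))
  have h2 : χ (mn 0 (el M (ff i))) = 0 := by
    have h3 : mn 0 ((el M (ff i)).map χ) = χ (mn 0 (el M (ff i))) := mn_map χ.toRingHom 0 _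
    rw [← h3, hχ, mn, hB.pt.det_nm]
    have h4 : mn 0 ((el M (ff j)).map β) = 0 := by
      rw [h1]; exact (hβ _).2 (Ideal.mem_span_singleton_self _)
    rw [show (((el M (ff j)).map β).submatrix id (ff 0)).det = 0 from h4, zero_div]
  intro hu
  exact (hu.map χ).ne_zero h2

theorem start (hB : Base) (hC : ChAt M) : ∃ j, j ≠ 0 ∧ ¬ IsUnit (mn 0 (el M (ff j))) := by
  obtain ⟨a, ha⟩ : ∃ a : Ach M 0, Transcendental K a := by
    by_contra hc
    have : Algebra.IsAlgebraic K (Ach M 0) := ⟨fun a => by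
      by_contra h; exact hc ⟨a, h⟩⟩
    have h2 := hC.dim 0
    rw [trdeg_eq_zero] at h2
    exact two_ne_zero h2.symm
  have ha' : Transcendental K ((a : L)⁻¹) := fun h => ha
    ((isAlgebraic_algHom_iff (chart M (ff 0)).val Subtype.val_injective).1 (IsAlgebraic.inv_iff.1 h))
  obtain ⟨p, α, h1, h2⟩ := hB.pl.ex L (Polynomial K) (Polynomial.aeval ((a : L)⁻¹))
    (Ideal.span {Polynomial.X}) ((Ideal.span_singleton_prime Polynomial.X_ne_zero).2
      Polynomial.prime_X) (by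
      rw [(RingHom.injective_iff_ker_eq_bot _).1 (transcendental_iff_injective.1 ha')]
      exact bot_le)
  have h3 : (α Polynomial.X : L) = (a : L)⁻¹ := by rw [h1, Polynomial.aeval_X]
  have h4 : (a : L) ∉ p.O := by
    refine (hB.pl.zero L p a).2 ⟨fun h => ha' (by rw [h, _root_.inv_zero]; exact isAlgebraic_zero),
      h3 ▸ (α Polynomial.X).2, ?_⟩
    rw [← (h2 Polynomial.X).2 (Ideal.mem_span_singleton_self _)]
    congr 1
    exact Subtype.ext h3.symm
  obtain ⟨j, α', h5, h6⟩ := hC.place p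
  have hj : j ≠ 0 := by
    rintro rfl
    exact h4 (h5 a ▸ (α' a).2)
  refine ⟨j, hj, fun hu => hj ?_⟩
  have h7 : mn 0 ((el M (ff j)).map (p.π.comp α')) = (p.π.comp α') (mn 0 (el M (ff j))) :=
    mn_map (p.π.comp α').toRingHom 0 _
  rw [← h6, cellOf, if_pos (by rw [h7]; exact (hu.map _).ne_zero)]

end Div

open G20.Div in
theorem div_s (hB : Base) : DivS := by
  intro L _ _ M _ hC
  obtain ⟨j, hj, hu⟩ := start hB hC
  obtain ⟨h1, h2⟩ := step hB hC hj hu
  obtain ⟨h3, h4⟩ := step hB hC (j := 1) one_ne_zero (move hB hC h1 (h2 1 (hB.par.ne2 j hj)))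
  refine ⟨fun i hi => (step hB hC hi (move hB hC h3 (h4 i (hB.par.ne1 i hi)))).1,
    fun i hi => h4 i (hB.par.ne1 i hi), fun P hP hd => ?_⟩
  obtain ⟨σ, ψ, a1, a2, -⟩ := chart_loc hB hC 0
  have hdim : trdeg K (Ach M 0) = (2 : ℕ) := hC.dim 0
  have hne : P.comap ψ ≠ ⊥ := by
    intro h
    have hP0 : P = ⊥ := by
      refine (Submodule.eq_bot_iff _).2 fun b hb => ?_
      obtain ⟨r, s, b1, b2⟩ := a2 b
      have b3 : r ∈ P.comap ψ := by
        rw [Ideal.mem_comap, ← b2]; exact P.mul_mem_left _ hb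
      rw [h, Ideal.mem_bot] at b3
      rw [b3, map_zero] at b2
      exact (b1.mul_right_eq_zero).1 b2
    subst hP0
    rw [(AlgEquiv.quotientBot K (Ach M 0)).trdeg_eq, hC.dim 0] at hd
    exact absurd hd (by norm_num)
  obtain ⟨r0, b1, b2⟩ := (hP.comap ψ).exists_mem_prime_of_ne_bot hne
  have hu0 : ¬ IsUnit (ψ r0) := fun h => hP.ne_top (P.eq_top_of_isUnit_mem b1 h)
  have hQ := prime_span a1 a2 b2 hu0
  have hlt := trdeg_quot_lt hdim (Ideal.span {ψ r0}) (Ideal.mem_span_singleton_self _)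
    ((map_ne_zero_iff _ a1).2 b2.ne_zero)
  obtain ⟨n, hn⟩ := Cardinal.lt_aleph0.1 (hlt.trans Cardinal.natCast_lt_aleph0)
  have hle : Ideal.span {ψ r0} ≤ P := (Ideal.span_singleton_le_iff_mem _).2 b1
  have he : Ideal.span {ψ r0} = P := by
    by_contra hc
    have c1 := trdeg_lt (lt_of_le_of_ne hle hc) hn
    rw [hn] at hlt
    rw [hd] at c1
    have c2 : n < 2 := by exact_mod_cast hlt
    have c3 : 1 < n := by exact_mod_cast c1
    omega
  exact ⟨ψ r0, b1, fun Q _ hg => he ▸ (Ideal.span_singleton_le_iff_mem _).2 hg⟩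

end Pool.Agent.MP_b834b3_ag.G20
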