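import Pool.Agent.MP_b834b3_ag.g.SpecA

/-! Genus twenty: statements on charts, points and places. -/

namespace Pool.Agent.MP_b834b3_ag.G20

open AlgebraicGeometry CategoryTheory Algebra IsLocalRing Limits MvPolynomial Matrix
open scoped TensorProduct

/-- The pivot columns of the four charts. -/
def ff : Fin 4 → Fin 4 → Fin 9 := ![![0, 1, 2, 3], ![0, 1, 2, 4], ![0, 1, 3, 5], ![0, 1, 2, 8]]

/-- The four minors. -/
def mn {R : Type} [CommRing R] (j : Fin 4) (M : Matrix (Fin 4) (Fin 9) R) : R :=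
  (M.submatrix id (ff j)).det

/-- The codimension of the cells. -/
def nz : Fin 4 → ℕ := ![0, 1, 2, 2]

/-- The four charts of the variety of planes that are isotropic for the standard form. -/
def par {R : Type} [CommRing R] (j : Fin 4) (v : Fin 14 → R) : Matrix (Fin 4) (Fin 9) R :=
  ![!![1, 0, 0, 0, v 3, v 2, v 1, v 0, v 10;
       0, 1, 0, 0, v 6, v 5, v 4, v 1, v 11;
       0, 0, 1, 0, v 8, v 7, v 5, v 2, v 12;
       0, 0, 0, 1, v 9, v 8, v 6, v 3, v 13],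
    !![1, 0, 0, v 1, 0, v 6, v 5, v 4, v 10;
       0, 1, 0, v 2, 0, v 8, v 7, v 5, v 11;
       0, 0, 1, v 3, 0, v 9, v 8, v 6, v 12;
       0, 0, 0, v 0, 1, -v 3, -v 2, -v 1, v 13],
    !![1, 0, v 2, 0, v 4, 0, v 8, v 7, v 10;
       0, 1, v 3, 0, v 5, 0, v 9, v 8, v 11;
       0, 0, v 1, 1, v 6, 0, v 5, v 4, v 12;
       0, 0, v 0, 0, -v 1, 1, -v 3, -v 2, v 13],
    !![1, 0, 0, v 2, v 5, v 10, v 9, v 8, 0;
       0, 1, 0, v 3, v 6, v 12, v 11, v 9 - v 2 * v 6 + v 5 * v 3, 0;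
       0, 0, 1, v 4, v 7, v 13, v 12 - v 3 * v 7 + v 6 * v 4, v 10 - v 2 * v 7 + v 5 * v 4, 0;
       0, 0, 0, v 0, v 1, v 7 * v 0 - v 4 * v 1, v 6 * v 0 - v 3 * v 1, v 5 * v 0 - v 2 * v 1, 1]] j

/-- The positions of the coordinates. -/
def sc : Fin 4 → Fin 14 → Fin 4 × Fin 9 :=
  ![![(0, 7), (0, 6), (0, 5), (0, 4), (1, 6), (1, 5), (1, 4), (2, 5), (2, 4), (3, 4), (0, 8),
      (1, 8), (2, 8), (3, 8)],
    ![(3, 3), (0, 3), (1, 3), (2, 3), (0, 7), (0, 6), (0, 5), (1, 6), (1, 5), (2, 5), (0, 8),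
      (1, 8), (2, 8), (3, 8)],
    ![(3, 2), (2, 2), (0, 2), (1, 2), (0, 4), (1, 4), (2, 4), (0, 7), (0, 6), (1, 6), (0, 8),
      (1, 8), (2, 8), (3, 8)],
    ![(3, 3), (3, 4), (0, 3), (1, 3), (2, 3), (0, 4), (1, 4), (2, 4), (0, 7), (0, 6), (0, 5),
      (1, 6), (1, 5), (2, 5)]]

open Classical in
/-- The first chart that contains the plane. -/
noncomputable def cellOf {F : Type} [Field F] (M : Matrix (Fin 4) (Fin 9) F) : Fin 4 :=
  if mn 0 M ≠ 0 then 0 else if mn 1 M ≠ 0 then 1 else if mn 2 M ≠ 0 then 2 else 3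

/-- Names of points. -/
abbrev Pt : Type := Fin 4 × Ideal (MvPolynomial (Fin 4 × Fin 9) K)

/-- The point that belongs to a plane. -/
noncomputable def pt {F : Type} [Field F] [Algebra K F] (M : Matrix (Fin 4) (Fin 9) F) : Pt :=
  (cellOf M, RingHom.ker (aeval (fun x : Fin 4 × Fin 9 => nm (ff (cellOf M)) M x.1 x.2) :
    MvPolynomial (Fin 4 × Fin 9) K →ₐ[K] F))

/-- A closed point. -/
def Alg (p : Pt) : Prop := trdeg K (MvPolynomial (Fin 4 × Fin 9) K ⧸ p.2) = 0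

/-- Properties of the parametrizations. -/
structure ParS : Prop where
  map : ∀ (R S : Type) [CommRing R] [CommRing S] (σ : R →+* S) (j : Fin 4) (v : Fin 14 → R),
    (par j v).map σ = par j (σ ∘ v)
  one : ∀ (R : Type) [CommRing R] (j : Fin 4) (v : Fin 14 → R), (par j v).submatrix id (ff j) = 1
  iso : ∀ (R : Type) [CommRing R] [Algebra K R] (j : Fin 4) (v : Fin 14 → R),
    par j v * fm R 0 * (par j v)ᵀ = 0
  sec : ∀ (R : Type) [CommRing R] (j : Fin 4) (v : Fin 14 → R) (x : Fin 14),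
    par j v (sc j x).1 (sc j x).2 = v x
  eq : ∀ (R : Type) [CommRing R] [Algebra K R] (j : Fin 4) (N : Matrix (Fin 4) (Fin 9) R),
    N.submatrix id (ff j) = 1 → N * fm R 0 * Nᵀ = 0 → N = par j fun x => N (sc j x).1 (sc j x).2
  cell : ∀ (F : Type) [Field F] (j : Fin 4) (v : Fin 14 → F),
    cellOf (par j v) = j ↔ ∀ x : Fin 14, x.val < nz j → v x = 0
  mn0 : ∀ (R : Type) [CommRing R] (j : Fin 4) (v : Fin 14 → R), j ≠ 0 →
    mn 0 (par j v) = v 0 ∨ mn 0 (par j v) = -v 0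
  ne0 : ∀ j, ∃ v : Fin 14 → ℂ, mn j (par 0 v) ≠ 0
  ne1 : ∀ j, j ≠ 0 → ∃ v : Fin 14 → ℂ, v 0 = 0 ∧ mn j (par 1 v) ≠ 0
  ne2 : ∀ j, j ≠ 0 → ∃ v : Fin 14 → ℂ, v 0 = 0 ∧ mn 1 (par j v) ≠ 0

/-- The twelve equations. -/
abbrev Rw : Type := Fin 2 × {p : Fin 4 × Fin 4 // p.1 < p.2}

/-- The coefficients of the equations. -/
def mm {R : Type} [CommRing R] (N : Matrix (Fin 4) (Fin 9) R) (s : Rw) (i : Ix) : R :=
  if s.1 = i.1 then N s.2.1.1 i.2.1.1 * N s.2.1.2 i.2.1.2 - N s.2.1.1 i.2.1.2 * N s.2.1.2 i.2.1.1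
  else 0

theorem ff_lt : ∀ (j a b : Fin 4), a < b → ff j a < ff j b := by decide

/-- The pivots. -/
def pv (j : Fin 4) (s : Rw) : Ix := (s.1, ⟨(ff j s.2.1.1, ff j s.2.1.2), ff_lt j _ _ s.2.2⟩)

/-- The equations as a linear system. -/
structure EqS : Prop where
  iso : ∀ (R : Type) [CommRing R] [Algebra K R] (N : Matrix (Fin 4) (Fin 9) R),
    Iso N ↔ N * fm R 0 * Nᵀ = 0 ∧ ∀ s, ∑ i, algebraMap K R (cf ℂ K i) * mm N s i = 0
  map : ∀ (R S : Type) [CommRing R] [CommRing S] (σ : R →+* S) (N : Matrix (Fin 4) (Fin 9) R)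
    (s : Rw) (i : Ix), σ (mm N s i) = mm (N.map σ) s i
  inj : ∀ j, Function.Injective (pv j)
  one : ∀ (R : Type) [CommRing R] (N : Matrix (Fin 4) (Fin 9) R) (j : Fin 4),
    N.submatrix id (ff j) = 1 → (Matrix.of fun s s' => mm N s (pv j s')) = 1
  card : Fintype.card Rw = 12 ∧ Fintype.card Ix = 72
  cnt : ∀ (F ν : Type) [Field F] [Algebra K F] [Fintype ν] (N : Matrix (Fin 4) (Fin 9) F)
    (p : ν → F), Iso N → Rk N → (∀ a c, N a c ∈ Subfield.closure (Set.range p)) →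
    12 ≤ Fintype.card ν
  li : ∀ (F : Type) [Field F] (N : Bool → Matrix (Fin 4) (Fin 9) F), LI (N false) (N true) →
    ∀ c : Bool × Rw → F, (∀ i, ∑ s, c s * mm (N s.1) s.2 i = 0) → c = 0

/-- Properties of planes, cells and points. -/
structure PtS : Prop where
  nm_one : ∀ (F : Type) [Field F] (f : Fin 4 → Fin 9) (M : Matrix (Fin 4) (Fin 9) F),
    (M.submatrix id f).det ≠ 0 → (nm f M).submatrix id f = 1 ∧ M = M.submatrix id f * nm f M
  nm_self : ∀ (R : Type) [CommRing R] (f : Fin 4 → Fin 9) (M : Matrix (Fin 4) (Fin 9) R),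
    M.submatrix id f = 1 → nm f M = M
  nm_mul : ∀ (F : Type) [Field F] (f : Fin 4 → Fin 9) (g : Matrix (Fin 4) (Fin 4) F)
    (M : Matrix (Fin 4) (Fin 9) F), g.det ≠ 0 → nm f (g * M) = nm f M
  nm_map : ∀ (F F' : Type) [Field F] [Field F'] (σ : F →+* F') (f : Fin 4 → Fin 9)
    (M : Matrix (Fin 4) (Fin 9) F), nm f (M.map σ) = (nm f M).map σ
  nm_unit : ∀ (R S : Type) [CommRing R] [CommRing S] (σ : R →+* S) (f : Fin 4 → Fin 9)
    (M : Matrix (Fin 4) (Fin 9) R), IsUnit (M.submatrix id f).det → nm f (M.map σ) = (nm f M).map σ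
  det_nm : ∀ (F : Type) [Field F] (f f' : Fin 4 → Fin 9) (M : Matrix (Fin 4) (Fin 9) F),
    ((nm f M).submatrix id f').det = (M.submatrix id f').det / (M.submatrix id f).det
  iso_mul : ∀ (R : Type) [CommRing R] [Algebra K R] (g : Matrix (Fin 4) (Fin 4) R)
    (M : Matrix (Fin 4) (Fin 9) R), Iso M → Iso (g * M)
  iso_map : ∀ (R S : Type) [CommRing R] [Algebra K R] [CommRing S] [Algebra K S] (σ : R →ₐ[K] S)
    (M : Matrix (Fin 4) (Fin 9) R), (Iso M → Iso (M.map σ)) ∧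
      (Function.Injective σ → Iso (M.map σ) → Iso M)
  rk_det : ∀ (F : Type) [Field F] (M : Matrix (Fin 4) (Fin 9) F),
    Rk M ↔ ∃ f : Fin 4 → Fin 9, (M.submatrix id f).det ≠ 0
  rk_mul : ∀ (F : Type) [Field F] (g : Matrix (Fin 4) (Fin 4) F) (M : Matrix (Fin 4) (Fin 9) F),
    (g.det ≠ 0 → Rk M → Rk (g * M)) ∧ (Rk (g * M) → g.det ≠ 0 ∧ Rk M)
  rk_map : ∀ (F F' : Type) [Field F] [Field F'] (σ : F →+* F') (M : Matrix (Fin 4) (Fin 9) F),
    Rk (M.map σ) ↔ Rk M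
  cell_iff : ∀ (F : Type) [Field F] (M : Matrix (Fin 4) (Fin 9) F) (j : Fin 4), mn j M ≠ 0 →
    cellOf M ≤ j ∧ mn (cellOf M) M ≠ 0 ∧ (cellOf M = j ↔ ∀ i, i < j → mn i M = 0)
  cell_three : ∀ (F : Type) [Field F] [Algebra K F] (M : Matrix (Fin 4) (Fin 9) F) (c : Fin 4 → F),
    c ≠ 0 → c ᵥ* M ᵥ* fm F 0 = 0 → cellOf M = 3
  pt_mul : ∀ (F : Type) [Field F] [Algebra K F] (g : Matrix (Fin 4) (Fin 4) F)
    (M : Matrix (Fin 4) (Fin 9) F), g.det ≠ 0 → pt (g * M) = pt M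
  pt_map : ∀ (F F' : Type) [Field F] [Algebra K F] [Field F'] [Algebra K F'] (σ : F →ₐ[K] F')
    (M : Matrix (Fin 4) (Fin 9) F), pt (M.map σ) = pt M
  pt_ker : ∀ (R F F' : Type) [CommRing R] [Algebra K R] [Field F] [Algebra K F] [Field F']
    [Algebra K F'] (β : R →ₐ[K] F) (β' : R →ₐ[K] F') (N : Matrix (Fin 4) (Fin 9) R),
    (∀ r, β r = 0 ↔ β' r = 0) → pt (N.map β) = pt (N.map β')
  alg : ∀ (F : Type) [Field F] [Algebra K F] (M : Matrix (Fin 4) (Fin 9) F),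
    Alg (pt M) ↔ ∀ a c, IsAlgebraic K (nm (ff (cellOf M)) M a c)
  cc_mul : ∀ (F : Type) [Field F] [Algebra K F] (g : Matrix (Fin 4) (Fin 4) F)
    (M : Matrix (Fin 4) (Fin 9) F), g.det ≠ 0 → Cc M → Cc (g * M)
  cc_map : ∀ (F F' : Type) [Field F] [Algebra K F] [Field F'] [Algebra K F'] (σ : F →ₐ[K] F')
    (M Ψ : Matrix (Fin 4) (Fin 9) F) (w : Fin 3 → F) (c : Fin 4 → F), Rk M → CcD M w c Ψ →
    CcD (M.map σ) (σ ∘ w) (σ ∘ c) (Ψ.map σ)

/-- The four charts cover. -/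
def EchS : Prop := ∀ (F : Type) [Field F] [Algebra K F] (M : Matrix (Fin 4) (Fin 9) F),
  Iso M → Rk M → mn (cellOf M) M ≠ 0

/-- A place of a field over `K`. -/
structure Pl (F : Type) [Field F] [Algebra K F] where
  /-- the valuation ring -/
  O : Subalgebra K F
  /-- the residue field -/
  E : Type
  /-- the field structure -/
  [fld : Field E]
  /-- the algebra structure -/
  [alg : Algebra K E]
  /-- the residue map -/
  π : O →ₐ[K] E
  val : ∀ x : F, x ∈ O ∨ x⁻¹ ∈ O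
  loc : ∀ a : O, π a ≠ 0 → (a : F)⁻¹ ∈ O
  surj : Function.Surjective π

attribute [instance] Pl.fld Pl.alg

/-- `N` is an integral basis of the plane `M`. -/
def Cen {F : Type} [Field F] [Algebra K F] (p : Pl F) (M : Matrix (Fin 4) (Fin 9) F)
    (N : Matrix (Fin 4) (Fin 9) p.O) : Prop :=
  (∃ g : Matrix (Fin 4) (Fin 4) F, g.det ≠ 0 ∧ N.map p.O.val = g * M) ∧ Rk (N.map p.π)

/-- Properties of places. -/
structure PlS : Prop where
  ex : ∀ (F R : Type) [Field F] [Algebra K F] [CommRing R] [Algebra K R] (χ : R →ₐ[K] F)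
    (P : Ideal R), P.IsPrime → RingHom.ker χ ≤ P → ∃ (p : Pl F) (α : R →ₐ[K] p.O),
      (∀ r, (α r : F) = χ r) ∧ ∀ r, p.π (α r) = 0 ↔ r ∈ P
  ofVal : ∀ (F F' : Type) [Field F] [Algebra K F] [Field F'] [Algebra K F'] (f : F →ₐ[K] F')
    (V : ValuationSubring F'), (∀ c, algebraMap K F' c ∈ V) → ∃ p : Pl F,
      (∀ x, x ∈ p.O ↔ f x ∈ V) ∧ ∀ a : p.O, p.π a = 0 ↔ V.valuation (f a) < 1
  zero : ∀ (F : Type) [Field F] [Algebra K F] (p : Pl F) (x : F),
    (x ∉ p.O ↔ x ≠ 0 ∧ ∃ h : x⁻¹ ∈ p.O, p.π ⟨_, h⟩ = 0)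
  alg_mem : ∀ (F : Type) [Field F] [Algebra K F] (p : Pl F) (x : F), IsAlgebraic K x → x ∈ p.O
  alg : ∀ (F : Type) [Field F] [Algebra K F] (p : Pl F) (x : F), trdeg K F ≤ 1 → x ∉ p.O →
    Algebra.IsAlgebraic K p.E
  prim : ∀ (F ι : Type) [Field F] [Algebra K F] [Fintype ι] (p : Pl F) (x : ι → F), x ≠ 0 →
    ∃ (a : F) (y : ι → p.O), a ≠ 0 ∧ (∀ i, (y i : F) = a * x i) ∧ ∃ i, y i = 1
  iso : ∀ (F : Type) [Field F] [Algebra K F] (p : Pl F) (M : Matrix (Fin 4) (Fin 9) F)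
    (N : Matrix (Fin 4) (Fin 9) p.O), Iso M → Cen p M N → Iso (N.map p.π)
  cen : ∀ (F : Type) [Field F] [Algebra K F] (p : Pl F) (M : Matrix (Fin 4) (Fin 9) F)
    (N : Matrix (Fin 4) (Fin 9) p.O) (f : Fin 4 → Fin 9), Cen p M N →
    ((N.map p.π).submatrix id f).det ≠ 0 → (M.submatrix id f).det ≠ 0 ∧
      (nm f N).map p.O.val = nm f M ∧ (nm f N).map p.π = nm f (N.map p.π)
  prop : ∀ (F : Type) [Field F] [Algebra K F] (p : Pl F) (M : Matrix (Fin 4) (Fin 9) F),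
    Rk M → ∃ N, Cen p M N

/-- The basic facts together. -/
structure Base : Prop where
  form : FormS
  lin : LinS
  par : ParS
  pt : PtS
  eq : EqS
  ech : EchS
  pl : PlS
  add : AddS

/-- Kernels and ramification points specialize. -/
structure SpecS : Prop where
  ker : ∀ (F : Type) [Field F] [Algebra K F] (p : Pl F) (M : Matrix (Fin 4) (Fin 9) F)
    (N : Matrix (Fin 4) (Fin 9) p.O) (w : Fin 3 → p.O) (c : Fin 4 → F), Cen p M N → c ≠ 0 →
    c ᵥ* M ᵥ* fw (p.O.val ∘ w) = 0 →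
    ∃ c' : Fin 4 → p.E, c' ≠ 0 ∧ c' ᵥ* N.map p.π ᵥ* fw (p.π ∘ w) = 0
  cc : ∀ (F : Type) [Field F] [Algebra K F] (p : Pl F) (M : Matrix (Fin 4) (Fin 9) F)
    (N : Matrix (Fin 4) (Fin 9) p.O), Iso M → Cen p M N → Cc M → Cc (N.map p.π)

/-- The hypotheses of the relation: the function `φ` on the curve of planes `M` has a zero at
`x`, no pole at `x`, and all other zeros and poles in `G`. -/
def VRH (G : Set Pt) {F : Type} [Field F] [Algebra K F] (M : Matrix (Fin 4) (Fin 9) F) (φ : F)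
    (x : Pt) : Prop :=
  trdeg K F ≤ 1 ∧ Iso M ∧ Rk M ∧ φ ≠ 0 ∧ Alg x ∧
    (∀ (p : Pl F) N, Cen p M N → φ ∉ p.O → pt (N.map p.π) ∈ G ∧ pt (N.map p.π) ≠ x) ∧
    (∀ (p : Pl F) N, Cen p M N → φ⁻¹ ∉ p.O → pt (N.map p.π) = x ∨ pt (N.map p.π) ∈ G) ∧
    ∃ (p : Pl F) (N : Matrix (Fin 4) (Fin 9) p.O), Cen p M N ∧ φ⁻¹ ∉ p.O ∧ pt (N.map p.π) = x

/-- `G` is closed under rational equivalence. -/
def VR (G : Set Pt) : Prop := ∀ (F : Type) [Field F] [Algebra K F] (M : Matrix (Fin 4) (Fin 9) F)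
  (φ : F) (x : Pt), VRH G M φ x → x ∈ G

/-- The curve is not contracted. -/
def NcS : Prop := ∀ (G : Set Pt) (F : Type) [Field F] [Algebra K F] (M : Matrix (Fin 4) (Fin 9) F)
  (φ : F) (x : Pt), VRH G M φ x → ¬ Alg (pt M)

/-- `G` contains the points of the cell `j`. -/
def CellIn (G : Set Pt) (j : Fin 4) : Prop := ∀ (F : Type) [Field F] [Algebra K F]
  (N : Matrix (Fin 4) (Fin 9) F), Iso N → Rk N → cellOf N = j → pt N ∈ G

/-- `G` contains the closed ramification points. -/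
def CcIn (G : Set Pt) : Prop := ∀ (E : Type) [Field E] [Algebra K E] [Algebra.IsAlgebraic K E]
  (N : Matrix (Fin 4) (Fin 9) E), Iso N → Rk N → Cc N → pt N ∈ G

/-- A curve of planes through kernels, through a given point. -/
def CurS : Prop := ∀ (E : Type) [Field E] [Algebra K E] (N : Matrix (Fin 4) (Fin 9) E)
  (f : Fin 4 → Fin 9) (w : Fin 3 → E) (c : Fin 4 → E) (a : Fin 4), N.submatrix id f = 1 → Iso N →
  c a = 1 → c ᵥ* N ᵥ* fw w = 0 →
  ∃ (R : Type) (_ : CommRing R) (_ : IsDomain R) (_ : Algebra K R) (_ : Algebra E R)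
    (_ : IsScalarTower K E R) (ε : R →ₐ[E] E) (M : Matrix (Fin 4) (Fin 9) R) (d : Fin 4 → R) (v : R),
    trdeg E R = 1 ∧ adjoin E (ent M ∪ Set.range d ∪ {v}) = ⊤ ∧ M.submatrix id f = 1 ∧ Iso M ∧
    d a = 1 ∧ d ᵥ* M ᵥ* fw ![v, algebraMap E R (w 1), algebraMap E R (w 2)] = 0 ∧
    M.map ε = N ∧ ε ∘ d = c ∧ ε v = w 0

/-- Ramification points lie in `G`. -/
def CgS : Prop := ∀ G : Set Pt, VR G → CellIn G 3 → CcIn G

section Charts

variable {L : Type} [Field L] [Algebra K L] (M : Matrix (Fin 4) (Fin 9) L)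

/-- The generic plane over a chart ring. -/
noncomputable def el (f : Fin 4 → Fin 9) : Matrix (Fin 4) (Fin 9) (chart M f) :=
  of fun a c => ⟨nm f M a c, Algebra.subset_adjoin ⟨(a, c), rfl⟩⟩

/-- The four chart rings. -/
abbrev Ach (j : Fin 4) : Type := chart M (ff j)

/-- The transition between two charts. -/
def LocAt (f f' : Fin 4 → Fin 9) : Prop := ∀ b : chart M f', ∃ (n : ℕ) (a : chart M f),
  (a : L) = ((M.submatrix id f').det / (M.submatrix id f).det) ^ n * b ∧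
  ∀ (F : Type) [Field F] [Algebra K F] (χ : chart M f →ₐ[K] F) (χ' : chart M f' →ₐ[K] F),
    (((el M f).map χ).submatrix id f').det ≠ 0 → (el M f').map χ' = nm f' ((el M f).map χ) →
    χ a = (((el M f).map χ).submatrix id f').det ^ n * χ' b

/-- Relations in the field hold at all points of the intersection of two charts. -/
def RelAt (f f' : Fin 4 → Fin 9) : Prop :=
  ∀ (F : Type) [Field F] [Algebra K F] (χ : chart M f →ₐ[K] F) (χ' : chart M f' →ₐ[K] F),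
    (((el M f).map χ).submatrix id f').det ≠ 0 → (el M f').map χ' = nm f' ((el M f).map χ) →
    ∀ (a a' : chart M f) (b b' : chart M f'), (a : L) * b = a' * b' → χ a * χ' b = χ a' * χ' b'

/-- Properties of the chart rings. -/
structure ChAt : Prop where
  ne : ∀ j, mn j M ≠ 0
  gen : ∀ f, adjoin K (ent (el M f)) = ⊤
  ft : ∀ f, FiniteType K (chart M f)
  val : ∀ f, (el M f).map (chart M f).val = nm f M
  one : ∀ f, (M.submatrix id f).det ≠ 0 → (el M f).submatrix id f = 1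
  iso : ∀ f, (M.submatrix id f).det ≠ 0 → Iso (el M f)
  det : ∀ f f', ((((el M f).submatrix id f').det : chart M f) : L) =
    (M.submatrix id f').det / (M.submatrix id f).det
  frac : ∀ f, (M.submatrix id f).det ≠ 0 → ∀ z : L,
    ∃ a ∈ chart M f, ∃ b ∈ chart M f, b ≠ 0 ∧ z * b = a
  dim : ∀ j, trdeg K (Ach M j) = 2
  univ : ∀ j (F : Type) [Field F] [Algebra K F] (N : Matrix (Fin 4) (Fin 9) F), Iso N →
    mn j N ≠ 0 → ∃ χ : Ach M j →ₐ[K] F, (el M (ff j)).map χ = nm (ff j) N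
  loc : ∀ f f', (M.submatrix id f).det ≠ 0 → (M.submatrix id f').det ≠ 0 →
    LocAt M f f' ∧ RelAt M f f'
  place : ∀ p : Pl L, ∃ (j : Fin 4) (α : Ach M j →ₐ[K] p.O), (∀ b, (α b : L) = b) ∧
    cellOf ((el M (ff j)).map (p.π.comp α)) = j

/-- Divisors on the charts. -/
structure DivAt : Prop where
  prime : ∀ j, j ≠ 0 → (Ideal.span {mn 0 (el M (ff j))}).IsPrime
  notMem : ∀ j, j ≠ 0 → mn j (el M (ff 1)) ∉ Ideal.span {mn 0 (el M (ff 1))}
  princ : ∀ P : Ideal (Ach M 0), P.IsPrime → trdeg K (Ach M 0 ⧸ P) = 1 →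
    ∃ g ∈ P, ∀ Q : Ideal (Ach M 0), Q.IsPrime → g ∈ Q → P ≤ Q

/-- The generic point of the hyperplane section. -/
def HypAt : Prop := ∃ (F : Type) (_ : Field F) (_ : Algebra K F) (N : Matrix (Fin 4) (Fin 9) F),
  trdeg K F ≤ 1 ∧ Iso N ∧ mn 0 N = 0 ∧ ∀ j, j ≠ 0 → mn j N ≠ 0 ∧ ∃ χ : Ach M j →ₐ[K] F,
    (el M (ff j)).map χ = nm (ff j) N ∧ RingHom.ker χ = Ideal.span {mn 0 (el M (ff j))}

/-- Functions on the first chart have a pole along the hyperplane section. -/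
def PoleAt : Prop := ∀ g : Ach M 0, g ≠ 0 → ¬ IsUnit g → ∃ m : ℕ, 0 < m ∧ ∀ j, j ≠ 0 →
  ∃ g' : Ach M j, (g' : L) = g * (mn 0 M / mn j M) ^ m ∧ g' ∉ Ideal.span {mn 0 (el M (ff j))}

/-- The equation of the ramification curve. -/
def LimAt (G : Set Pt) : Prop := ∃ g : Ach M 0, g ≠ 0 ∧ ¬ IsUnit g ∧ ∀ j, j ≠ 0 →
  ∀ (m : ℕ) (g' : Ach M j), (g' : L) = g * (mn 0 M / mn j M) ^ m →
    g' ∉ Ideal.span {mn 0 (el M (ff j))} → ∀ (F : Type) [Field F] [Algebra K F]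
    (β : Ach M j →ₐ[K] F), β (mn 0 (el M (ff j))) = 0 → β g' = 0 → pt ((el M (ff j)).map β) ∈ G

end Charts

/-- The generic field exists. -/
def GenS : Prop := ∃ (L : Type) (_ : Field L) (_ : Algebra K L) (M : Matrix (Fin 4) (Fin 9) L),
  IsGenField M

/-- The transition statement for all fields. -/
def LocS : Prop := ∀ (L : Type) [Field L] [Algebra K L] (M : Matrix (Fin 4) (Fin 9) L)
  (f f' : Fin 4 → Fin 9), (M.submatrix id f).det ≠ 0 → (M.submatrix id f').det ≠ 0 →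
  LocAt M f f' ∧ RelAt M f f'

/-- The chart statement. -/
def ChS : Prop := ∀ (L : Type) [Field L] [Algebra K L] (M : Matrix (Fin 4) (Fin 9) L),
  IsGenField M → ChAt M

/-- The divisor statement. -/
def DivS : Prop := ∀ (L : Type) [Field L] [Algebra K L] (M : Matrix (Fin 4) (Fin 9) L),
  IsGenField M → ChAt M → DivAt M

/-- The third cell has at most one point, which is closed. -/
def TwoS : Prop := ∀ (F F' : Type) [Field F] [Algebra K F] [Field F'] [Algebra K F']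
  (N : Matrix (Fin 4) (Fin 9) F) (N' : Matrix (Fin 4) (Fin 9) F'), Iso N → Iso N' →
  cellOf N = 2 → cellOf N' = 2 → pt N = pt N' ∧ Alg (pt N)

/-- The statement on the hyperplane section. -/
def HypS : Prop := ∀ (L : Type) [Field L] [Algebra K L] (M : Matrix (Fin 4) (Fin 9) L),
  ChAt M → DivAt M → HypAt M

/-- The statement on poles. -/
def PoleS : Prop := ∀ (L : Type) [Field L] [Algebra K L] (M : Matrix (Fin 4) (Fin 9) L),
  ChAt M → DivAt M → HypAt M → PoleAt M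

/-- The statement on limits of ramification points. -/
def LimS : Prop := ∀ (L : Type) [Field L] [Algebra K L] (M : Matrix (Fin 4) (Fin 9) L)
  (G : Set Pt), ChAt M → DivAt M → CcIn G → LimAt M G

/-- The relation on the hyperplane section. -/
def HrelS : Prop := ∀ (L : Type) [Field L] [Algebra K L] (M : Matrix (Fin 4) (Fin 9) L)
  (G : Set Pt), ChAt M → HypAt M → PoleAt M → LimAt M G → VR G → CellIn G 3 → CellIn G 2

end Pool.Agent.MP_b834b3_ag.G20
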