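import Mathlib.Data.Fin.Tuple.Sort
import Pool.Agent.MP_b834b3_ag.g.SpecB

/-! The four charts cover the surface. -/

namespace Pool.Agent.MP_b834b3_ag.G20

open Matrix

namespace Ech

theorem term {F : Type} [Field F] (L : AddSubgroup F) (u v : Fin 9 → F)
    (h : u 0 * v 7 + u 1 * v 6 + u 2 * v 5 + u 3 * v 4 - u 4 * v 3 - u 5 * v 2 - u 6 * v 1 -
      u 7 * v 0 = 0) (p q : Fin 9) (hp : p.val + q.val = 7)
    (ho : ∀ c d : Fin 9, c.val + d.val = 7 → c ≠ p → u c * v d ∈ L) : u p * v q ∈ L := by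
  obtain ⟨p, rfl⟩ : ∃ p' : Fin 8, p = p'.castSucc := ⟨⟨p, by omega⟩, rfl⟩
  obtain rfl : q = p.rev.castSucc := Fin.ext (by simp at hp ⊢; omega)
  let t : Fin 8 → F := fun c => (if c.val < 4 then 1 else -1 : ℤ) • (u c.castSucc * v c.rev.castSucc)
  have h1 : ∑ c, t c = 0 := by
    rw [← h, Fin.sum_univ_eight]
    simp [t, Fin.rev]
    ring
  have h2 : ∑ c ∈ Finset.univ.erase p, t c ∈ L := L.sum_mem fun c hc =>
    L.zsmul_mem (ho _ _ (by simp; omega) fun e =>
      (Finset.mem_erase.1 hc).1 (Fin.castSucc_injective _ e)) _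
  rw [← Finset.add_sum_erase _ _ (Finset.mem_univ p), add_eq_zero_iff_eq_neg] at h1
  have h3 : t p ∈ L := h1 ▸ L.neg_mem h2
  simp only [t] at h3
  split_ifs at h3
  · simpa using h3
  · simpa using h3

/-- The free entries. -/
def fr (f : Fin 4 → Fin 9) : Finset (Fin 4 × Fin 9) :=
  Finset.univ.filter fun x => f x.1 < x.2 ∧ (∀ b, f b ≠ x.2) ∧
    ∀ b, b < x.1 → (f b).val + x.2.val ≠ 7

theorem cases : ∀ a b : Fin 9, a < b → ∀ c : Fin 9, b < c → ∀ d : Fin 9, c < d →
    (∀ x y : Fin 4, x < y → (![a, b, c, d] x).val + (![a, b, c, d] y).val ≠ 7) →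
    12 ≤ (fr ![a, b, c, d]).card → ∃ j, ![a, b, c, d] = ff j := by
  decide +kernel

theorem piv (hP : PtS) {F : Type} [Field F] (M : Matrix (Fin 4) (Fin 9) F) (h : Rk M) :
    ∃ f : Fin 4 → Fin 9, Monotone f ∧ (M.submatrix id f).det ≠ 0 ∧
      ∀ a c, c < f a → nm f M a c = 0 := by
  classical
  obtain ⟨f, h1, h2⟩ := Finset.exists_min_image
    (Finset.univ.filter fun f : Fin 4 → Fin 9 => (M.submatrix id f).det ≠ 0)
    (fun f => ∑ a, (f a).val) (((hP.rk_det F M).1 h).imp fun f hf => by simpa using hf)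
  simp only [Finset.mem_filter, Finset.mem_univ, true_and] at h1 h2
  have h3 : (M.submatrix id (f ∘ Tuple.sort f)).det ≠ 0 := by
    rw [show M.submatrix id (f ∘ Tuple.sort f) = (M.submatrix id f).submatrix id (Tuple.sort f)
      from rfl, det_permute']
    exact mul_ne_zero (by
      rcases Int.units_eq_one_or (Equiv.Perm.sign (Tuple.sort f)) with e | e <;> simp [e]) h1
  have h4 := Equiv.sum_comp (Tuple.sort f) fun a => (f a).val
  refine ⟨f ∘ Tuple.sort f, Tuple.monotone_sort f, h3, fun a c hc => ?_⟩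
  set g := f ∘ Tuple.sort f with hg
  have h5 : (M.submatrix id (Function.update g a c)).det = 0 := by
    by_contra e
    refine (h2 _ e).not_gt ?_
    rw [← h4]
    refine Finset.sum_lt_sum (fun b _ => ?_) ⟨a, Finset.mem_univ _, by simpa [hg] using hc⟩
    by_cases hb : b = a
    · subst hb
      simpa [hg] using hc.le
    · rw [Function.update_of_ne hb]
      rfl
  have h6 := hP.det_nm F g (Function.update g a c) M
  have h7 : (nm g M).submatrix id (Function.update g a c) =
      (1 : Matrix (Fin 4) (Fin 4) F).updateCol a fun b => nm g M b c := by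
    rw [← (hP.nm_one F g M h3).1]
    ext b b'
    by_cases hb : b' = a
    · simp [hb]
    · simp [hb]
  rw [h5, zero_div, h7, ← cramer_apply, cramer_one] at h6
  exact h6

end Ech

theorem ech (hF : FormS) (hP : PtS) (hE : EqS) : EchS := by
  intro F _ _ M hM hR
  classical
  obtain ⟨f, h1, h2, h3⟩ := Ech.piv hP M hR
  have hI : Iso (nm f M) := hP.iso_mul F _ M hM
  obtain ⟨h4, h5⟩ := hP.nm_one F f M h2
  have hR' : Rk (nm f M) := ((hP.rk_mul F _ _).2 (h5 ▸ hR)).2
  generalize nm f M = N at h3 h4 hI hR'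
  have h6 : ∀ a b, N a (f b) = if a = b then 1 else 0 := fun a b =>
    (congrFun (congrFun h4 a) b).trans one_apply
  have h7 : StrictMono f := h1.strictMono_of_injective fun a b e => by
    by_contra c
    have := (h6 a a).symm.trans (e ▸ h6 a b)
    simp [c] at this
  have eq := fun a b => ((hF.zero F (N a) (N b)).symm.trans (hF.mul F _ _ N N _ a b).symm).trans
    (congrFun (congrFun (hI 0) a) b)
  have h8 : ∀ a b, (f a).val + (f b).val ≠ 7 := fun a b e => by
    have := Ech.term ⊥ _ _ (eq a b) _ _ e fun c d hc hne => by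
      rcases lt_or_gt_of_ne hne with k | k
      · simp [h3 a c k]
      · simp [h3 b d (by rw [Fin.lt_def] at k ⊢; omega)]
    simp [h6] at this
  have h9 : ∀ a c, N a c ∈ Subfield.closure (Set.range fun x : Ech.fr f => N x.1.1 x.1.2) := by
    intro a
    induction a using WellFoundedLT.induction with
    | ind a ih =>
    intro c
    induction c using WellFoundedLT.induction with
    | ind c ih' =>
    by_cases k1 : ∃ b, f b = c
    · obtain ⟨b, rfl⟩ := k1
      rw [h6]
      split_ifs
      exacts [one_mem _, zero_mem _]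
    by_cases k2 : c < f a
    · rw [h3 a c k2]
      exact zero_mem _
    by_cases k3 : ∃ b, b < a ∧ (f b).val + c.val = 7
    · obtain ⟨b, k4, k5⟩ := k3
      have := Ech.term (Subfield.toAddSubgroup _) _ _ (eq b a) _ _ k5 fun c' d hc hne => by
        rcases lt_or_gt_of_ne hne with k | k
        · rw [h3 b c' k, zero_mul]
          exact zero_mem _
        · exact Subfield.mul_mem _ (ih b k4 c') (ih' d (by rw [Fin.lt_def] at k ⊢; omega))
      rwa [h6, if_pos rfl, one_mul] at this
    · push Not at k1 k2 k3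
      exact Subfield.subset_closure ⟨⟨(a, c), Finset.mem_filter.2 ⟨Finset.mem_univ _,
        lt_of_le_of_ne k2 (k1 a), k1, k3⟩⟩, rfl⟩
  have h10 := hE.cnt F _ N _ hI hR' h9
  have e : f = ![f 0, f 1, f 2, f 3] := funext fun x => by fin_cases x <;> rfl
  rw [Fintype.card_coe, e] at h10
  obtain ⟨j, hj⟩ := Ech.cases _ _ (h7 (by decide)) _ (h7 (by decide)) _ (h7 (by decide))
    (fun x y _ => e ▸ h8 x y) h10
  exact (hP.cell_iff F M j (by rw [mn, ← hj, ← e]; exact h2)).2.1

end Pool.Agent.MP_b834b3_ag.G20
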