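import Pool.Agent.MP_b834b3_ag.g.SpecB

/-! Genus twenty: the equations of isotropy as a linear system. -/

namespace Pool.Agent.MP_b834b3_ag.G20

open Matrix

namespace Eq

theorem sum_mm {R : Type} [CommRing R] (N : Matrix (Fin 4) (Fin 9) R) (g : Ix → R) (s : Rw) :
    ∑ i, g i * mm N s i = ∑ p : {p : Fin 9 × Fin 9 // p.1 < p.2}, g (s.1, p) *
      (N s.2.1.1 p.1.1 * N s.2.1.2 p.1.2 - N s.2.1.1 p.1.2 * N s.2.1.2 p.1.1) := by
  rw [Fintype.sum_prod_type, Finset.sum_eq_single s.1]
  · simp only [mm, if_true]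
  · intro b _ hb
    simp only [mm, if_neg hb.symm, mul_zero, Finset.sum_const_zero]
  · intro h; exact absurd (Finset.mem_univ _) h

theorem sum_mm' {R : Type} [CommRing R] (N : Matrix (Fin 4) (Fin 9) R) (c : Rw → R) (i : Ix) :
    ∑ s, c s * mm N s i = ∑ q : {p : Fin 4 × Fin 4 // p.1 < p.2}, c (i.1, q) *
      (N q.1.1 i.2.1.1 * N q.1.2 i.2.1.2 - N q.1.1 i.2.1.2 * N q.1.2 i.2.1.1) := by
  rw [Fintype.sum_prod_type, Finset.sum_eq_single i.1]
  · simp only [mm, if_true]
  · intro b _ hb
    simp only [mm, if_neg hb, mul_zero, Finset.sum_const_zero]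
  · intro h; exact absurd (Finset.mem_univ _) h

/-- the upper part of a skew matrix -/
def up4 {R : Type} [CommRing R] (c : Rw → R) (k : Fin 2) : Matrix (Fin 4) (Fin 4) R :=
  of fun a b => if h : a < b then c (k, ⟨(a, b), h⟩) else 0

/-- the skew matrix of a family of coefficients -/
def sk {R : Type} [CommRing R] (c : Rw → R) (k : Fin 2) : Matrix (Fin 4) (Fin 4) R :=
  up4 c k - (up4 c k)ᵀ

theorem sk_skew {R : Type} [CommRing R] (c : Rw → R) (k : Fin 2) : (sk c k)ᵀ = -sk c k := by
  rw [sk, transpose_sub, transpose_transpose, neg_sub]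

theorem sk_zero {R : Type} [CommRing R] {c : Rw → R} (h : ∀ k, sk c k = 0) : c = 0 := by
  funext ⟨k, ⟨a, b⟩, hab⟩
  have := congrFun (congrFun (h k) a) b
  simp only [sk, up4, Matrix.sub_apply, transpose_apply, of_apply, dif_pos hab,
    dif_neg (lt_asymm hab), sub_zero] at this
  exact this

theorem sk_apply {R : Type} [CommRing R] (N : Matrix (Fin 4) (Fin 9) R) (c : Rw → R) (k : Fin 2)
    (x y : Fin 9) : (Nᵀ * sk c k * N) x y = ∑ q : {p : Fin 4 × Fin 4 // p.1 < p.2}, c (k, q) *
      (N q.1.1 x * N q.1.2 y - N q.1.1 y * N q.1.2 x) := by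
  have e : ∑ q : {p : Fin 4 × Fin 4 // p.1 < p.2}, c (k, q) *
      (N q.1.1 x * N q.1.2 y - N q.1.1 y * N q.1.2 x) =
      ∑ p : Fin 4 × Fin 4, up4 c k p.1 p.2 * (N p.1 x * N p.2 y - N p.1 y * N p.2 x) := by
    rw [← Finset.sum_filter_of_ne (p := fun p : Fin 4 × Fin 4 => p.1 < p.2),
      Finset.sum_subtype (p := fun p : Fin 4 × Fin 4 => p.1 < p.2) _ (by simp)]
    · exact Finset.sum_congr rfl fun q _ => by rw [up4, of_apply, dif_pos q.2]
    · intro p _ h
      by_contra h'
      exact h (by rw [up4, of_apply, dif_neg h', zero_mul])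
  rw [e, sk]
  generalize up4 c k = U
  simp only [Matrix.mul_apply, Fintype.sum_prod_type, Fin.sum_univ_four, Matrix.sub_apply,
    transpose_apply]
  ring

theorem skew_ext {R : Type} [CommRing R] {n : ℕ} {A : Matrix (Fin n) (Fin n) R}
    (h0 : ∀ x, A x x = 0) (h1 : ∀ x y, A x y = -A y x) (h : ∀ x y, x < y → A x y = 0) :
    A = 0 := by
  ext x y
  rcases lt_trichotomy x y with l | l | l
  · exact h x y l
  · rw [l]; exact h0 y
  · rw [h1, h y x l, neg_zero]; rfl

theorem sk_diag {R : Type} [CommRing R] (N : Matrix (Fin 4) (Fin 9) R) (c : Rw → R) (k : Fin 2)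
    (x : Fin 9) : (Nᵀ * sk c k * N) x x = 0 := by
  simp only [sk_apply, sub_self, mul_zero, Finset.sum_const_zero]

theorem sk_swap {R : Type} [CommRing R] (N : Matrix (Fin 4) (Fin 9) R) (c : Rw → R) (k : Fin 2)
    (x y : Fin 9) : (Nᵀ * sk c k * N) x y = -(Nᵀ * sk c k * N) y x := by
  rw [sk_apply, sk_apply, ← Finset.sum_neg_distrib]
  exact Finset.sum_congr rfl fun q _ => by ring

theorem rk_zero {F m : Type} [Field F] {N : Matrix (Fin 4) (Fin 9) F} (h : Rk N)
    {A : Matrix m (Fin 4) F} (e : A * N = 0) : A = 0 := by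
  funext a
  exact h (A a) (congrFun e a)

theorem solve {F r : Type} [Field F] [Fintype r] [DecidableEq r] (S : Subfield F)
    (B : Matrix r r F) (x : r → F) (hB : ∀ i j, B i j ∈ S) (hd : B.det ≠ 0)
    (h : ∀ i, (B *ᵥ x) i ∈ S) (i : r) : x i ∈ S := by
  let B' : Matrix r r S := of fun i j => ⟨B i j, hB i j⟩
  have e : B'.map S.subtype = B := rfl
  have hd' : B'.det ≠ 0 := fun h0 => hd (by
    rw [← e, ← RingHom.mapMatrix_apply, ← RingHom.map_det, h0, map_zero])
  let z : r → S := B'⁻¹ *ᵥ fun i => ⟨_, h i⟩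
  have hz : B' *ᵥ z = fun i => ⟨_, h i⟩ := by
    rw [mulVec_mulVec, mul_nonsing_inv _ hd'.isUnit, one_mulVec]
  have : x - S.subtype ∘ z = 0 := eq_zero_of_mulVec_eq_zero hd (by
    funext j
    have := S.subtype.map_mulVec B' z j
    rw [hz, e] at this
    rw [mulVec_sub, Pi.sub_apply, ← this]
    exact sub_self _)
  rw [sub_eq_zero.1 this]
  exact (z i).2

theorem iso (hF : FormS) (R : Type) [CommRing R] [Algebra K R] (N : Matrix (Fin 4) (Fin 9) R) :
    Iso N ↔ N * fm R 0 * Nᵀ = 0 ∧ ∀ s, ∑ i, algebraMap K R (cf ℂ K i) * mm N s i = 0 := by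
  have e : ∀ (k : Fin 2) a b, (N * fm R k.succ * Nᵀ) a b = _ := fun k a b =>
    (hF.mul R _ _ N N _ a b).trans (hF.succ R k _ _)
  rw [Iso, Fin.forall_fin_succ]
  refine and_congr Iff.rfl ⟨fun h s => ?_, fun h k => skew_ext (fun x => ?_) (fun x y => ?_)
    fun x y l => ?_⟩
  · rw [sum_mm]
    exact (e s.1 _ _).symm.trans (congrFun (congrFun (h s.1) _) _)
  · exact (hF.mul R _ _ N N _ x x).trans (hF.diag R _ _)
  · refine (e k x y).trans (((e k y x).symm ▸ ?_ : _ = -(N * fm R k.succ * Nᵀ) y x))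
    rw [← Finset.sum_neg_distrib]
    exact Finset.sum_congr rfl fun q _ => by ring
  · have := h (k, ⟨(x, y), l⟩)
    rw [sum_mm] at this
    exact (e k x y).trans this

theorem card : Fintype.card Rw = 12 ∧ Fintype.card Ix = 72 := by
  rw [Fintype.card_prod, Fintype.card_prod, Fintype.card_subtype, Fintype.card_subtype]
  exact ⟨rfl, rfl⟩

theorem ff_inj : ∀ j, Function.Injective (ff j) := by decide

theorem cnt (hF : FormS) (hL : LinS) (F ν : Type) [Field F] [Algebra K F] [Fintype ν]
    (N : Matrix (Fin 4) (Fin 9) F) (p : ν → F) (hI : Iso N) (hR : Rk N)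
    (hN : ∀ a c, N a c ∈ Subfield.closure (Set.range p)) : 12 ≤ Fintype.card ν := by
  classical
  obtain ⟨f, f1, f2⟩ := (hL.piv F Rw Ix (of (mm N))).1 fun c hc => sk_zero fun k => by
    have h : Nᵀ * sk c k * N = 0 := skew_ext (sk_diag N c k) (sk_swap N c k) fun x y l => by
      rw [sk_apply]
      exact (sum_mm' N c (k, ⟨(x, y), l⟩)).symm.trans (congrFun hc _)
    have h2 := congrArg transpose (rk_zero hR h)
    rw [transpose_mul, transpose_transpose, transpose_zero] at h2
    have h3 := rk_zero hR h2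
    rwa [sk_skew, neg_eq_zero] at h3
  let _ : Algebra ℂ F := ((algebraMap K F).comp (algebraMap ℂ K)).toAlgebra
  have _ : IsScalarTower ℂ K F := IsScalarTower.of_algebraMap_eq' rfl
  let x : Ix → F := fun i => algebraMap K F (cf ℂ K i)
  have hx : AlgebraicIndependent ℂ x :=
    hF.indep.map' (f := IsScalarTower.toAlgHom ℂ K F) (algebraMap K F).injective
  let q : ν ⊕ {i // i ∉ Set.range f} → F := Sum.elim p fun i => x i.1
  let S := IntermediateField.adjoin ℂ (Set.range q)
  have hS : ∀ a c, N a c ∈ S.toSubfield := fun a c => Subfield.closure_le.2 (by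
    rintro _ ⟨v, rfl⟩
    exact IntermediateField.subset_adjoin ℂ _ ⟨.inl v, rfl⟩) (hN a c)
  have hm : ∀ s i, mm N s i ∈ S.toSubfield := fun s i => by
    unfold mm
    split_ifs
    · exact sub_mem (mul_mem (hS _ _) (hS _ _)) (mul_mem (hS _ _) (hS _ _))
    · exact zero_mem _
  have h1 : ∀ i, i ∉ Set.range f → x i ∈ S.toSubfield := fun i hi =>
    IntermediateField.subset_adjoin ℂ _ ⟨.inr ⟨i, hi⟩, rfl⟩
  have h2 := solve S.toSubfield ((of (mm N)).submatrix id f) (x ∘ f)
      (fun s s' => hm s (f s')) f2 fun s => by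
    have e := ((iso hF F N).1 hI).2 s
    rw [← Finset.sum_add_sum_compl (Finset.univ.image f),
      Finset.sum_image fun a _ b _ h => f1 h, add_eq_zero_iff_eq_neg] at e
    have e2 : ((of (mm N)).submatrix id f *ᵥ (x ∘ f)) s = ∑ s', x (f s') * mm N s (f s') := by
      simp only [mulVec, dotProduct, submatrix_apply, of_apply, id, Function.comp, mul_comm]
    rw [e2, e]
    exact neg_mem (sum_mem fun i hi => mul_mem (h1 i (by simpa using hi)) (hm s i))
  have h3 := hL.card ℂ F Ix _ x q hx fun i => by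
    by_cases hi : i ∈ Set.range f
    · obtain ⟨s, rfl⟩ := hi
      exact h2 s
    · exact h1 i hi
  rw [Fintype.card_sum, Fintype.card_subtype_compl, card.2,
    show Fintype.card {i // i ∈ Set.range f} = 12 from
      (Set.card_range_of_injective f1).trans card.1] at h3
  omega

end Eq

open G20.Eq in
theorem eq_s (hF : FormS) (hL : LinS) : EqS where
  iso := iso hF
  map := fun R S _ _ σ N s i => by
    unfold mm
    split_ifs
    · simp only [map_sub, map_mul, map_apply]
    · exact map_zero σ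
  inj := fun j ⟨k, ⟨a, b⟩, h⟩ ⟨k', ⟨a', b'⟩, h'⟩ e => by
    simp only [pv, Prod.mk.injEq, Subtype.mk.injEq, (ff_inj j).eq_iff] at e ⊢
    exact e
  one := fun R _ N j h => by
    have e : ∀ a b, N a (ff j b) = if a = b then 1 else 0 := fun a b =>
      (congrFun (congrFun h a) b).trans one_apply
    ext ⟨k, ⟨a, b⟩, hab⟩ ⟨k', ⟨a', b'⟩, hab'⟩
    simp only [of_apply, mm, pv, e, one_apply, Prod.mk.injEq, Subtype.mk.injEq]
    have n : ¬ (a = b' ∧ b = a') := by
      rintro ⟨rfl, rfl⟩
      exact lt_asymm hab hab'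
    by_cases h1 : k = k' <;> by_cases h2 : a = a' <;> by_cases h3 : b = b' <;>
      by_cases h4 : a = b' <;> by_cases h5 : b = a' <;> simp_all
  card := card
  cnt := cnt hF hL
  li := fun F _ N h c hc => by
    have key : ∀ k, sk (fun s => c (false, s)) k = 0 ∧ -sk (fun s => c (true, s)) k = 0 :=
      fun k => h _ _ (sk_skew _ k) (by rw [transpose_neg, sk_skew]) (by
        rw [Matrix.mul_neg, Matrix.neg_mul, ← add_eq_zero_iff_eq_neg]
        refine skew_ext (fun x => ?_) (fun x y => ?_) fun x y l => ?_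
        · rw [Matrix.add_apply, sk_diag, sk_diag, add_zero]
        · rw [Matrix.add_apply, Matrix.add_apply, sk_swap, sk_swap (N true), neg_add]
        · have := hc (k, ⟨(x, y), l⟩)
          rw [Fintype.sum_prod_type, Fintype.sum_bool, sum_mm' (N true) fun s => c (true, s),
            sum_mm' (N false) fun s => c (false, s), add_comm] at this
          rw [Matrix.add_apply, sk_apply, sk_apply]
          exact this)
    funext ⟨b, s⟩
    cases b
    · exact congrFun (sk_zero fun k => (key k).1) s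
    · exact congrFun (sk_zero fun k => neg_eq_zero.1 (key k).2) s

end Pool.Agent.MP_b834b3_ag.G20
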