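import Pool.Agent.MP_b834b3_ag.g.SpecA

/-! A curve of ramification points. -/

namespace Pool.Agent.MP_b834b3_ag.G20

open Algebra MvPolynomial Matrix TrivSqZeroExt

namespace Exc

def dg (T bits off i : ℕ) : ℤ := ((T >>> (bits * i)) % 2 ^ bits : ℕ) - (off : ℤ)

def tE : ℕ := 4947219553311548199738243697488174402237447381941378815487067004200047910446037663832675240199833425669642896195391025977292079408527607740417452723265051762285761126248327733729683267751728271539772255787408503337332547525635924902557896680297614098303194015616995703905035686704265835830290155854961780805097079898800079652160374789145714274425867844115189190706347570431580039223366256685339162471032233473904477933669769537853451006842143610359718927471434345913104997053751632197071858211643329039092318633707725814447718303455309453772063268556424999004975763485761321307659699961878923889313928881418233039624481380892449683707430125350559098772321066026102828785340359095102609541752750063168976846928384251323283588985384663969566662098717655441115189788819078328145798434675758546066979887746780808909596468045161673424976363987511658377073426136711428697860796139548063169319709518379782345328187773232402314674626502716260123550185220002674844926821785385710512394615231752026770385359952417536736768603506590741177848997795157586404148659488470067760566171407398172333480833151463793897704572507831883325729620556565479511534656954274917786432221289409897803879342878317326737539513990161476056424706823513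
def tI : ℕ := 82631996098780487733343720026364232538075053591846112208787627286433054561017940591672592182584170374416253263832284135423
def tX : ℕ := 26720157219693559591981880853
def tJ : ℕ := 176650020216321812989306118066251514557831639774553103350286678620061112628391654778019311850187974176634598824419770294089602231456960275864168988331794509509314343926063191042367286457926710857478129568057605397672579642717051809439306121436102421587844398431861605445480572848560504487723779543014023199874862996986130834482434620892600072356482078114868198470999898703559199104248494691747822707136558015971526275509097782901351992210060170647596716361684845786481663312525437262842961972294594677926724094591653065587586609301953967858598105950234232446407749976130009474971246081348561756542762593041235255640774125862425039582989469061520297417578682327962094029972846288106597002967322495155415833189092366446266504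
def tV : ℕ := 70900305926998640280355625239558966696407780672933743775230099116439178296327485881858763834884675883612972944816863358083665133942831301776217391911379869011431005152678447999929632970683510148927451461316446578584333265784169007784082577021533532569600562881095984743206294704328200206929109499285379851510406813226932182303164743982257735406140981864844734591342817661435539751704567926818285519636376335876278286811395391618213956146263357559556783929888656871608145776350915115062914057629275232581517243854518245546811676821806481878985695928185440487292245586402602251271097690858992331542330637380454728405419424979144012744034939776944991104065206383248709885235231580756633138358539085199571574050890281924850431450788700533648506389776891855288408688082440125188628002226151725076842437661331757072653826209106541003352331772498647278005286001628633539340347664198050322975420972801522703434860098679354984506272293612201886046386709881119652812825169855941052097444742501584858559076489597996254991161870179882708628970435933133535679298514463080680680480292431593495686899417120732317407361602831709593698497258196051009533462159173264231920818803188278405571551442250142588221669442357349130009012941127444307714119997688737695708154351605406565461230502340603480535757580670739560863999419861753749827465552438796108885482810855782537179980359045441373498927016407379111023219845116356856850398236845711162424717464153355188875516092296762270925342931580541872756761699054420562405630838406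

abbrev M9 (R : Type) := Matrix (Fin 9) (Fin 9) R

def Ez (j : Fin 25) : M9 ℤ := of fun a b => dg tE 2 1 (81 * j + 9 * a + b)
def Jz : M9 ℤ := of fun a b =>
  (if a < b ∧ a.val + b.val = 7 then 1 else 0) - if b < a ∧ b.val + a.val = 7 then 1 else 0
def idx (a b : Fin 9) : Option (Fin 24) :=
  if h : (tI >>> (5 * (9 * a.val + b.val))) % 32 < 24 then some ⟨_, h⟩ else none
def xz (i : Fin 2) (k : Fin 24) : ℤ := dg tX 2 1 (24 * i + k)
def Np {R : Type} [AddCommGroup R] (v : Fin 24 → R) : M9 R :=
  of fun a b => (idx a b).elim 0 v - (idx b a).elim 0 v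
def eqs : Fin 12 → (Fin 9 × Fin 9) × (Fin 9 × Fin 9) × ℤ :=
  ![((0, 1), (0, 1), 0), ((0, 2), (0, 1), 0), ((0, 3), (0, 1), 0), ((1, 2), (0, 1), 0),
    ((1, 3), (0, 1), 0), ((2, 3), (0, 1), 0), ((0, 4), (0, 1), 0), ((0, 5), (0, 1), 0),
    ((0, 6), (0, 1), 0), ((1, 5), (2, 6), 1), ((1, 4), (3, 6), 1), ((2, 4), (3, 5), 1)]
def Jm (i : Fin 2) (r : Fin 12) (j : Fin 25) : ℤ := dg tJ 4 8 (25 * (12 * i + r) + j)
def Iv (j : Fin 25) (r : ℕ) : ℤ := dg tV 8 128 (25 * j + r)
def Cz (i : Fin 2) (j : Fin 25) : M9 ℤ := Ez j * Np (xz i) + Np (xz i) * (Ez j)ᵀ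
def r4 : Fin 4 → Fin 9 := ![0, 1, 2, 3]
def s4 : Fin 4 → Fin 9 := ![7, 6, 5, 4]
def I4 (R : Type) [Zero R] [One R] : Matrix (Fin 4) (Fin 9) R := (1 : M9 R).submatrix r4 id
def lA : List (Fin 25) := [0, 1, 2, 3, 4, 5, 6, 7, 8, 9, 10]
def lB : List (Fin 25) := [11, 12, 13, 14, 15, 16, 17, 18, 19, 20, 21, 22, 23, 24]

lemma z1 : ∀ j a b, (Ez j * Ez j) a b = 0 := by decide +kernel
lemma z2 : ∀ j a b, (Ez j * Jz + Jz * (Ez j)ᵀ) a b = 0 := by decide +kernel
lemma z3 : ∀ j ∈ lA, Ez j 0 7 = 0 ∧
    ∀ a b, (I4 ℤ * Ez j) a b = ((Ez j).submatrix r4 r4 * I4 ℤ) a b := by decide +kernel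
lemma z4 : ∀ j ∈ lB, ∀ a b, (Ez j * (I4 ℤ)ᵀ) a b = 0 := by decide +kernel
lemma z5 : ∀ i r j, Jm i r j =
    Cz i j (eqs r).1.1 (eqs r).1.2 - (eqs r).2.2 * Cz i j (eqs r).2.1.1 (eqs r).2.1.2 := by
  decide +kernel
lemma z6 : ∀ j' j, ∑ i : Fin 2, ∑ r : Fin 12, Iv j' (12 * i + r) * Jm i r j + Iv j' 24 * Ez j 0 7 =
    if j' = j then 6 else 0 := by decide +kernel
lemma z7 : ∀ r, (eqs r).1.1 < (eqs r).1.2 ∧ (eqs r).2.1.1 < (eqs r).2.1.2 ∧
    ((idx (eqs r).1.1 (eqs r).1.2 = none ∧ (eqs r).2.2 = 0) ∨
    (idx (eqs r).1.1 (eqs r).1.2 = idx (eqs r).2.1.1 (eqs r).2.1.2 ∧ (eqs r).2.2 = 1)) := by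
  decide +kernel
lemma z8 : ∀ a b, ¬ a < b → idx a b = none := by decide +kernel
lemma z9 : ∀ k, ∃ a b, a < b ∧ idx a b = some k := by decide +kernel
lemma z10 : List.finRange 25 = lA ++ lB := by decide +kernel
lemma z11 : ∀ a b : Fin 4, idx (r4 a) (r4 b) = none ∧ idx (s4 a) (r4 b) = none ∧
    (a ≠ 0 → idx 0 (s4 a) = none ∧ (b ≠ 0 → idx (r4 a) (s4 b) = idx (r4 b) (s4 a))) := by
  decide +kernel
lemma z12 : ∀ a b : Fin 4, Jz (r4 a) (r4 b) = 0 ∧
    (a ≠ 0 → Jz 0 (s4 a) = 0 ∧ (b ≠ 0 → Jz (r4 a) (s4 b) = Jz (r4 b) (s4 a))) := by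
  decide +kernel

section
variable {R S : Type} [CommRing R] [CommRing S]

def cz (R : Type) [CommRing R] {m n : Type} (X : Matrix m n ℤ) : Matrix m n R :=
  X.map (Int.castRingHom R)

lemma cz_mul {l m n : Type} [Fintype m] (X : Matrix l m ℤ) (Y : Matrix m n ℤ) :
    cz R (X * Y) = cz R X * cz R Y := Matrix.map_mul

lemma cz_I4 : cz R (I4 ℤ) = I4 R := by
  ext a b
  simp [cz, I4, Matrix.one_apply]

lemma cz_zero {m n : Type} {X : Matrix m n ℤ} (h : ∀ a b, X a b = 0) : cz R X = 0 := by
  ext a b
  simp [cz, h]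

def prd (t : Fin 25 → R) (l : List (Fin 25)) : M9 R := (l.map fun j => 1 + t j • cz R (Ez j)).prod

lemma pr_cons (t : Fin 25 → R) (j : Fin 25) (l : List (Fin 25)) :
    prd t (j :: l) = (1 + t j • cz R (Ez j)) * prd t l := rfl

lemma pr_app (t : Fin 25 → R) (l l' : List (Fin 25)) : prd t (l ++ l') = prd t l * prd t l' := by
  simp [prd]

lemma EE (j : Fin 25) : cz R (Ez j) * cz R (Ez j) = 0 := by rw [← cz_mul, cz_zero (z1 j)]

lemma pr_inv (t : Fin 25 → R) (l : List (Fin 25)) : prd t l * prd (-t) l.reverse = 1 := by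
  induction l with
  | nil => simp [prd]
  | cons j l ih =>
    rw [List.reverse_cons, pr_app, pr_cons, mul_assoc, ← mul_assoc (prd t l), ih, one_mul, pr_cons]
    simp [prd, add_mul, mul_add, EE]

lemma pr_stab (t : Fin 25 → R) (l : List (Fin 25)) : prd t l * cz R Jz * (prd t l)ᵀ = cz R Jz := by
  induction l with
  | nil => simp [prd]
  | cons j l ih =>
    have h : cz R Jz * (cz R (Ez j))ᵀ = -(cz R (Ez j) * cz R Jz) := by
      have := cz_zero (R := R) (z2 j)
      rw [cz, Matrix.map_add _ (map_add _), Matrix.map_mul, Matrix.map_mul, transpose_map] at this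
      exact eq_neg_of_add_eq_zero_right this
    rw [pr_cons, transpose_mul, mul_assoc, mul_assoc, ← mul_assoc (cz R Jz), ← mul_assoc (prd t l),
      ← mul_assoc (prd t l), ih]
    simp [add_mul, mul_add, h, ← mul_assoc, EE]

lemma pr_map (φ : R →+* S) (t : Fin 25 → R) (l : List (Fin 25)) :
    (prd t l).map φ = prd (φ ∘ t) l := by
  induction l with
  | nil => simp [prd]
  | cons j l ih =>
    rw [pr_cons, pr_cons, Matrix.map_mul, ih]
    congr 1
    ext a b
    simp [cz, Matrix.one_apply, apply_ite φ]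

lemma pr_row (t : Fin 25 → R) (l : List (Fin 25)) (h : ∀ j ∈ l, j ∈ lA) :
    ∃ P : Matrix (Fin 4) (Fin 4) R, I4 R * prd t l = P * I4 R := by
  induction l with
  | nil => exact ⟨1, by simp [prd]⟩
  | cons j l ih =>
    obtain ⟨P, hP⟩ := ih fun j hj => h j (List.mem_cons_of_mem _ hj)
    have h1 : I4 R * cz R (Ez j) = cz R ((Ez j).submatrix r4 r4) * I4 R := by
      rw [← cz_I4, ← cz_mul, ← cz_mul]
      congr 1
      ext a b
      exact (z3 j (h j (List.mem_cons_self ..))).2 a b
    refine ⟨(1 + t j • cz R ((Ez j).submatrix r4 r4)) * P, ?_⟩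
    rw [pr_cons, ← Matrix.mul_assoc, Matrix.mul_assoc _ P, ← hP, ← Matrix.mul_assoc]
    simp [Matrix.add_mul, Matrix.mul_add, h1]

lemma pr_col (t : Fin 25 → R) (l : List (Fin 25)) (h : ∀ j ∈ l, j ∈ lB) :
    prd t l * (I4 R)ᵀ = (I4 R)ᵀ := by
  induction l with
  | nil => simp [prd]
  | cons j l ih =>
    have h1 : cz R (Ez j) * (I4 R)ᵀ = 0 := by
      rw [← cz_I4, cz, cz, ← transpose_map, ← Matrix.map_mul]
      exact cz_zero (z4 j (h j (List.mem_cons_self ..)))
    rw [pr_cons, Matrix.mul_assoc, ih fun j hj => h j (List.mem_cons_of_mem _ hj)]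
    simp [Matrix.add_mul, h1]

lemma I4_mul {n : Type} (X : Matrix (Fin 9) n R) : I4 R * X = X.submatrix r4 id := by
  ext a b
  simp [I4, Matrix.mul_apply, Matrix.one_apply]

lemma mul_I4 {n : Type} (X : Matrix n (Fin 9) R) : X * (I4 R)ᵀ = X.submatrix id r4 := by
  ext a b
  simp [I4, Matrix.mul_apply, Matrix.one_apply]

lemma II : I4 R * (I4 R)ᵀ = 1 := by
  rw [mul_I4]
  ext a b
  fin_cases a <;> fin_cases b <;> simp [I4, r4, Matrix.one_apply]

end

lemma Np_map {R S : Type} [AddCommGroup R] [AddCommGroup S] (φ : R → S) (h0 : φ 0 = 0)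
    (h : ∀ x y, φ (x - y) = φ x - φ y) (v : Fin 24 → R) : (Np v).map φ = Np (φ ∘ v) := by
  ext a b
  simp only [Np, Matrix.map_apply, of_apply, h]
  cases idx a b <;> cases idx b a <;> simp [h0]

lemma Np_skew {R : Type} [AddCommGroup R] (v : Fin 24 → R) : (Np v)ᵀ = -Np v := by
  ext a b
  simp [Np]

lemma fst_mul' (X Y : M9 (DualNumber ℂ)) : (X * Y).map fst = X.map fst * Y.map fst :=
  Matrix.map_mul (f := fstHom ℂ ℂ ℂ)

lemma snd_mul' (X Y : M9 (DualNumber ℂ)) :
    (X * Y).map snd = X.map fst * Y.map snd + X.map snd * Y.map fst := by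
  ext a b
  simp [Matrix.mul_apply, snd_sum, Finset.sum_add_distrib, mul_comm]

lemma pr_dual (t : Fin 25 → DualNumber ℂ) (h : ∀ j, (t j).fst = 0) (l : List (Fin 25)) :
    (prd t l).map fst = 1 ∧ (prd t l).map snd = (l.map fun j => (t j).snd • cz ℂ (Ez j)).sum := by
  induction l with
  | nil =>
    constructor <;> ext a b <;> simp [prd, Matrix.one_apply, apply_ite fst, apply_ite snd]
  | cons j l ih =>
    have h1 : (1 + t j • cz (DualNumber ℂ) (Ez j)).map fst = 1 := by
      ext a b
      simp [cz, Matrix.one_apply, apply_ite fst, h]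
    have h2 : (1 + t j • cz (DualNumber ℂ) (Ez j)).map snd = (t j).snd • cz ℂ (Ez j) := by
      ext a b
      simp [cz, Matrix.one_apply, apply_ite snd, h]
    rw [pr_cons, fst_mul', snd_mul', h1, h2, ih.1, ih.2]
    simp [add_comm]

abbrev σ : Type := Fin 25 ⊕ Fin 2 × Fin 24

/-- The coefficients of the two forms and one coordinate of the plane. -/
def ff {R : Type} [CommRing R] (u : σ → R) : Option Ix → R
  | none => prd (u ∘ Sum.inl) lB 0 7
  | some p => (prd (-(u ∘ Sum.inl)) (lA ++ lB).reverse * Np (fun k => u (Sum.inr (p.1, k))) *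
      (prd (-(u ∘ Sum.inl)) (lA ++ lB).reverse)ᵀ) p.2.1.1 p.2.1.2

lemma ff_map {R S : Type} [CommRing R] [CommRing S] (φ : R →+* S) (u : σ → R) (o : Option Ix) :
    φ (ff u o) = ff (φ ∘ u) o := by
  have e : φ ∘ (-(u ∘ Sum.inl)) = -((φ ∘ u) ∘ Sum.inl) := by ext; simp
  cases o with
  | none => exact congrFun (congrFun (pr_map φ _ lB) 0) 7
  | some p =>
    simp only [ff]
    rw [← Matrix.map_apply (f := φ), Matrix.map_mul, Matrix.map_mul, transpose_map, pr_map, e,
      Np_map φ (map_zero φ) (map_sub φ)]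
    rfl

lemma jac (ξ : σ → ℂ) (h : ∀ o, snd (ff (fun s => (inl (Sum.elim 0 (fun p => (xz p.1 p.2 : ℂ)) s) +
    inr (ξ s) : DualNumber ℂ)) o) = 0) : ξ = 0 := by
  set u : σ → DualNumber ℂ := fun s => inl (Sum.elim 0 (fun p => (xz p.1 p.2 : ℂ)) s) + inr (ξ s)
    with hu
  set E : M9 ℂ := ∑ j, ξ (Sum.inl j) • cz ℂ (Ez j) with hE
  have e0 : E 0 7 = 0 := by
    have h1 : snd (prd (u ∘ Sum.inl) lB 0 7) = 0 := h none
    rw [← Matrix.map_apply (f := snd), (pr_dual _ (by simp [hu]) _).2] at h1
    have h2 : ∀ l : List (Fin 25), (∀ j ∈ l, j ∈ lA) →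
        (l.map fun j => ξ (Sum.inl j) • cz ℂ (Ez j)).sum 0 7 = 0 := by
      intro l
      induction l with
      | nil => intro _; rfl
      | cons j l ih =>
        intro hl
        rw [List.map_cons, List.sum_cons, Matrix.add_apply, ih fun j hj => hl j (List.mem_cons_of_mem _ hj)]
        simp [cz, (z3 j (hl j (List.mem_cons_self ..))).1]
    rw [hE, Fin.sum_univ_def, z10, List.map_append, List.sum_append, Matrix.add_apply, h2 lA fun _ => id,
      zero_add, ← h1]
    simp [hu]
  have e1 : ∀ (i : Fin 2) (a b : Fin 9), a < b → Np (fun k => ξ (Sum.inr (i, k))) a b =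
      ∑ j, ξ (Sum.inl j) * (Cz i j a b : ℂ) := by
    intro i a b hab
    have h1 := h (some (i, ⟨(a, b), hab⟩))
    obtain ⟨h2, h3⟩ := pr_dual (-(u ∘ Sum.inl)) (by simp [hu]) (lA ++ lB).reverse
    have h4 : (prd (-(u ∘ Sum.inl)) (lA ++ lB).reverse).map snd = -E := by
      rw [h3, List.map_reverse, List.sum_reverse, ← z10, ← Fin.sum_univ_def, hE,
        ← Finset.sum_neg_distrib]
      simp [hu]
    have h5 : (Np fun k => u (Sum.inr (i, k))).map fst = cz ℂ (Np (xz i)) := by
      rw [Np_map fst rfl fst_sub, cz, Np_map _ (map_zero _) (map_sub _)]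
      congr 1
      ext k
      simp [hu]
    have h6 : (Np fun k => u (Sum.inr (i, k))).map snd = Np fun k => ξ (Sum.inr (i, k)) := by
      rw [Np_map snd rfl snd_sub]
      congr 1
      ext k
      simp [hu]
    have h7 : E * cz ℂ (Np (xz i)) + cz ℂ (Np (xz i)) * Eᵀ =
        ∑ j, ξ (Sum.inl j) • cz ℂ (Cz i j) := by
      rw [hE, transpose_sum, Finset.sum_mul, Finset.mul_sum, ← Finset.sum_add_distrib]
      refine Finset.sum_congr rfl fun j _ => ?_
      rw [Cz, cz, cz, cz, Matrix.map_add _ (map_add _), Matrix.map_mul, Matrix.map_mul,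
        transpose_map]
      simp
    simp only [ff] at h1
    rw [← Matrix.map_apply (f := snd), snd_mul', snd_mul', fst_mul', transpose_map, transpose_map, h2, h4, h5,
      h6] at h1
    have h8 := congrFun (congrFun h7 a) b
    simp only [Matrix.sum_apply, Matrix.smul_apply, cz, Matrix.map_apply, eq_intCast, smul_eq_mul] at h8
    rw [← h8]
    simp only [one_mul, transpose_one, mul_one, transpose_neg, mul_neg, neg_mul, Matrix.add_apply,
      Matrix.neg_apply, cz] at h1 ⊢
    linear_combination h1
  have e2 : ∀ i r, ∑ j, ξ (Sum.inl j) * (Jm i r j : ℂ) = 0 := by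
    intro i r
    obtain ⟨h1, h2, h3⟩ := z7 r
    simp only [z5, Int.cast_sub, Int.cast_mul, mul_sub, Finset.sum_sub_distrib,
      mul_left_comm _ ((eqs r).2.2 : ℂ), ← Finset.mul_sum]
    rw [← e1 i _ _ h1, ← e1 i _ _ h2]
    simp only [Np, of_apply, z8 _ _ h1.not_gt, z8 _ _ h2.not_gt]
    rcases h3 with ⟨h3, h4⟩ | ⟨h3, h4⟩ <;> simp [h3, h4]
  have e3 : ∀ j', ξ (Sum.inl j') = 0 := by
    intro j'
    have h1 : ∑ j, ξ (Sum.inl j) * ((if j' = j then 6 else 0 : ℤ) : ℂ) = 0 := by
      simp only [hE, Matrix.sum_apply, Matrix.smul_apply, cz, Matrix.map_apply, eq_intCast, smul_eq_mul] at e0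
      simp only [← z6, Int.cast_add, Int.cast_sum, Int.cast_mul, mul_add, Finset.sum_add_distrib,
        mul_left_comm _ (Iv j' 24 : ℂ), ← Finset.mul_sum, e0, mul_zero, add_zero]
      simp only [Finset.mul_sum]
      rw [Finset.sum_comm]
      refine Finset.sum_eq_zero fun i _ => ?_
      rw [Finset.sum_comm]
      refine Finset.sum_eq_zero fun r _ => ?_
      simp only [mul_left_comm _ (Iv j' _ : ℂ), ← Finset.mul_sum, e2, mul_zero]
    simpa using h1
  ext s
  rcases s with j | ⟨i, k⟩
  · exact e3 j
  · obtain ⟨a, b, h1, h2⟩ := z9 k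
    have := e1 i a b h1
    simpa [Np, h2, z8 _ _ h1.not_gt, e3] using this

lemma cc_of (hF : FormS) {F : Type} [Field F] [Algebra K F] (G H : M9 F) (hG : G * H = 1)
    (N : Matrix (Fin 4) (Fin 9) F) (P P' : Matrix (Fin 4) (Fin 4) F)
    (hN : N = P * (I4 F * G)) (hP : P' * P = 1)
    (hM : ∀ i (a b : Fin 4), (G * fm F i * Gᵀ) (r4 a) (r4 b) = 0 ∧ (a ≠ 0 →
      (G * fm F i * Gᵀ) 0 (s4 a) = 0 ∧ (b ≠ 0 →
      (G * fm F i * Gᵀ) (r4 a) (s4 b) = (G * fm F i * Gᵀ) (r4 b) (s4 a)))) : Iso N ∧ Cc N := by
  have sk : ∀ i a b, (G * fm F i * Gᵀ) a b = -(G * fm F i * Gᵀ) b a := by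
    intro i a b
    have : (G * fm F i * Gᵀ)ᵀ = -(G * fm F i * Gᵀ) := by
      rw [transpose_mul, transpose_mul, transpose_transpose, hF.skew]
      simp [Matrix.mul_assoc]
    exact congrFun (congrFun this b) a
  have h4 : I4 F * G = P' * N := by rw [hN, ← Matrix.mul_assoc, hP, Matrix.one_mul]
  let D : Matrix (Fin 4) (Fin 9) F := of fun a b => if a = 0 then 0 else (1 : M9 F) (s4 a) b
  have hD : ∀ (X : M9 F) a b, (D * X) a b = if a = 0 then 0 else X (s4 a) b := by
    intro X a b
    by_cases h : a = 0 <;> simp [D, Matrix.mul_apply, Matrix.one_apply, h]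
  have hD' : ∀ (X : Matrix (Fin 4) (Fin 9) F) a b,
      (X * Dᵀ) a b = if b = 0 then 0 else X a (s4 b) := by
    intro X a b
    by_cases h : b = 0 <;> simp [D, Matrix.mul_apply, Matrix.one_apply, h]
  constructor
  · intro i
    have : I4 F * (G * fm F i * Gᵀ) * (I4 F)ᵀ = 0 := by
      rw [I4_mul, mul_I4]
      ext a b
      exact (hM i a b).1
    change N * fm F i * Nᵀ = 0
    rw [hN, transpose_mul, transpose_mul]
    calc _ = P * (I4 F * (G * fm F i * Gᵀ) * (I4 F)ᵀ) * Pᵀ := by simp only [Matrix.mul_assoc]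
      _ = 0 := by rw [this]; simp
  obtain ⟨w, hw, hw'⟩ : ∃ w : Fin 3 → F, w ≠ 0 ∧ w ᵥ* (of fun i (b : Fin 2) =>
      (G * fm F i * Gᵀ) 0 (![7, 8] b)) = 0 := by
    by_contra hc
    have : Function.Injective (of fun i (b : Fin 2) =>
        (G * fm F i * Gᵀ) 0 (![7, 8] b)).vecMulLinear :=
      (injective_iff_map_eq_zero _).2 fun w h => by_contra fun g => hc ⟨w, g, h⟩
    have := LinearMap.finrank_le_finrank_of_injective this
    simp at this
  have hc : P' 0 ᵥ* N = G 0 := by
    have := congrFun h4 0
    rw [I4_mul] at this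
    exact this.symm
  refine ⟨w, P' 0, P * (D * G), hw, fun h => ?_, ?_, ⟨0, ?_⟩, ?_, fun i => ?_⟩
  · have := congrFun (congrFun hP 0) 0
    simp [Matrix.mul_apply, h] at this
  · have h1 : G 0 ᵥ* fw w ᵥ* Gᵀ = 0 := by
      ext b
      have h2 : (G 0 ᵥ* fw w ᵥ* Gᵀ) b = ∑ i, w i * (G * fm F i * Gᵀ) 0 b := by
        have : G * fw w * Gᵀ = ∑ i, w i • (G * fm F i * Gᵀ) := by
          simp [fw, Finset.mul_sum, Finset.sum_mul]
        have h3 := congrFun (congrFun this 0) b
        simp only [Matrix.sum_apply, Matrix.smul_apply, smul_eq_mul] at h3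
        rw [← h3]
        rfl
      rw [h2]
      have h5 := congrFun hw' 0
      have h6 := congrFun hw' 1
      have h7 : ∀ a, ∑ i, w i * (G * fm F i * Gᵀ) 0 (r4 a) = 0 := fun a =>
        Finset.sum_eq_zero fun i _ => mul_eq_zero_of_right _ (hM i 0 a).1
      have h8 : ∀ a, a ≠ 0 → ∑ i, w i * (G * fm F i * Gᵀ) 0 (s4 a) = 0 := fun a ha =>
        Finset.sum_eq_zero fun i _ => mul_eq_zero_of_right _ ((hM i a 0).2 ha).1
      fin_cases b
      exacts [h7 0, h7 1, h7 2, h7 3, h8 3 (by simp), h8 2 (by simp), h8 1 (by simp), h5, h6]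
    rw [hc, ← vecMul_one (G 0 ᵥ* fw w), ← transpose_one, ← mul_eq_one_comm.1 hG, transpose_mul,
      ← vecMul_vecMul, h1, zero_vecMul]
  · have : P' 0 ᵥ* (P * (D * G)) = (P' * (P * (D * G))) 0 := rfl
    rw [this, ← Matrix.mul_assoc, hP, Matrix.one_mul, zero_vecMul]
    ext b
    simp [hD]
  · rintro ⟨B, hB⟩
    have h1 : D = P' * B * P * I4 F := by
      have := congrArg (fun X => P' * X * H) hB
      simp only [hN, ← Matrix.mul_assoc, hP, Matrix.one_mul] at this
      simpa only [Matrix.mul_assoc, hG, Matrix.mul_one] using this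
    have h2 := congrFun (congrFun h1 1) 6
    rw [Matrix.mul_apply] at h2
    simp [D, s4, I4, r4, Fin.sum_univ_four, Matrix.one_apply] at h2
  · have : D * (G * fm F i * Gᵀ) * (I4 F)ᵀ + I4 F * (G * fm F i * Gᵀ) * Dᵀ = 0 := by
      ext a b
      rw [Matrix.add_apply, mul_I4, I4_mul, hD', submatrix_apply, submatrix_apply, hD, _root_.id, _root_.id]
      by_cases ha : a = 0 <;> by_cases hb : b = 0
      · simp [ha, hb]
      · subst ha
        simpa [hb, r4] using ((hM i b 0).2 hb).1
      · subst hb
        rw [sk]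
        simpa [ha, r4] using ((hM i a 0).2 ha).1
      · rw [if_neg ha, if_neg hb, sk, (((hM i a b).2 ha).2 hb)]
        simp
    rw [hN, transpose_mul, transpose_mul, transpose_mul, transpose_mul]
    calc _ = P * (D * (G * fm F i * Gᵀ) * (I4 F)ᵀ + I4 F * (G * fm F i * Gᵀ) * Dᵀ) * Pᵀ := by
          simp only [Matrix.mul_assoc, Matrix.mul_add, Matrix.add_mul]
      _ = 0 := by rw [this]; simp

lemma fm_zero (F : Type) [CommRing F] [Algebra K F] : fm F 0 = cz F Jz := by
  ext a b
  simp [fm, form, up, cz, Jz, apply_ite (algebraMap K F)]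

end Exc

open Exc in
theorem exc (hF : FormS) (hJ : JacS) : ExcS := by
  let F := FractionRing (MvPolynomial σ ℂ)
  let u : σ → F := cf ℂ F
  have h0 : AlgebraicIndependent ℂ (ff (X : σ → MvPolynomial σ ℂ)) := by
    refine hJ _ _ _ (Sum.elim 0 fun p => (xz p.1 p.2 : ℂ)) (by decide +kernel) fun ξ h => jac ξ ?_
    intro o
    have := h o
    rw [← AlgHom.coe_toRingHom, ff_map] at this
    rw [← this]
    congr 2
    ext1 s
    simp
  have h1 : AlgebraicIndependent ℂ (ff u) := by
    have := h0.map' (f := IsScalarTower.toAlgHom ℂ (MvPolynomial σ ℂ) F)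
      (IsFractionRing.injective _ _)
    convert this using 1
    ext o
    exact (ff_map (algebraMap (MvPolynomial σ ℂ) F) X o).symm
  have h2 : Function.Injective (aeval (ff u ∘ some) : MvPolynomial Ix ℂ →ₐ[ℂ] F).toRingHom :=
    h1.comp some (Option.some_injective _)
  let _ : Algebra K F := (IsFractionRing.lift (K := K) h2).toAlgebra
  have h3 : ∀ p, algebraMap K F (algebraMap (MvPolynomial Ix ℂ) K p) = aeval (ff u ∘ some) p :=
    fun p => IsFractionRing.lift_algebraMap h2 p
  have : IsScalarTower ℂ K F := IsScalarTower.of_algebraMap_eq fun c => by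
    rw [IsScalarTower.algebraMap_apply ℂ (MvPolynomial Ix ℂ) K, h3, AlgHom.commutes]
  have h4 : ∀ p, algebraMap K F (cf ℂ K p) = ff u (some p) := fun p => by
    rw [cf, h3, aeval_X]; rfl
  have c1 : trdeg ℂ K = (72 : ℕ) := (trdeg_par ℂ Ix K).trans (congrArg _ (by decide +kernel))
  have c2 : trdeg ℂ F = (73 : ℕ) := (trdeg_par ℂ σ F).trans (congrArg _ (by decide +kernel))
  set t : Fin 25 → F := u ∘ Sum.inl with ht
  obtain ⟨P, hP⟩ := pr_row (-t) lA.reverse fun j hj => List.mem_reverse.1 hj
  obtain ⟨P', hP'⟩ := pr_row t lA fun j hj => hj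
  have g1 : I4 F * prd t lB = P * (I4 F * prd t (lA ++ lB)) := by
    rw [← Matrix.mul_assoc, ← hP, pr_app, Matrix.mul_assoc, ← mul_assoc (prd (-t) _),
      mul_eq_one_comm.1 (pr_inv t lA), one_mul]
  have g2 : I4 F * prd t lB * (I4 F)ᵀ = 1 := by
    rw [Matrix.mul_assoc, pr_col t lB fun _ => id, II]
  have g3 : P' * P = 1 := by
    rw [mul_eq_one_comm, ← g2, g1, pr_app, ← Matrix.mul_assoc (I4 F), hP']
    simp only [Matrix.mul_assoc]
    rw [← Matrix.mul_assoc (I4 F), g2, Matrix.mul_one]
  have g4 : ∀ i : Fin 2, prd t (lA ++ lB) * fm F i.succ * (prd t (lA ++ lB))ᵀ =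
      Np fun k => u (Sum.inr (i, k)) := by
    intro i
    set H := prd (-t) (lA ++ lB).reverse with hH
    have s1 : (H * Np (fun k => u (Sum.inr (i, k))) * Hᵀ)ᵀ =
        -(H * Np (fun k => u (Sum.inr (i, k))) * Hᵀ) := by
      rw [transpose_mul, transpose_mul, transpose_transpose, Np_skew]
      simp [Matrix.mul_assoc]
    have s2 : fm F i.succ = H * Np (fun k => u (Sum.inr (i, k))) * Hᵀ := by
      have up : ∀ a b, a < b → fm F i.succ a b = (H * Np (fun k => u (Sum.inr (i, k))) * Hᵀ) a b :=
        fun a b h => (hF.entry F i ⟨(a, b), h⟩).trans (h4 _)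
      have : CharZero F := algebraRat.charZero F
      ext a b
      have k1 := congrFun (congrFun (hF.skew F i.succ) a) b
      have k2 := congrFun (congrFun s1 a) b
      simp only [transpose_apply, Matrix.neg_apply] at k1 k2
      rcases lt_trichotomy a b with h | rfl | h
      · exact up a b h
      · rw [self_eq_neg.1 k1, self_eq_neg.1 k2]
      · rw [up b a h, k2] at k1
        exact (neg_injective k1).symm
    have s3 := pr_inv t (lA ++ lB)
    rw [s2]
    calc _ = prd t (lA ++ lB) * H * Np (fun k => u (Sum.inr (i, k))) * (prd t (lA ++ lB) * H)ᵀ := by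
          simp only [transpose_mul, Matrix.mul_assoc]
      _ = _ := by rw [s3]; simp
  obtain ⟨g5, g6⟩ := cc_of hF _ _ (pr_inv t (lA ++ lB)) _ P P' g1 g3 (by
    intro i a b
    refine Fin.cases ?_ (fun i => ?_) i
    · rw [fm_zero, pr_stab]
      obtain ⟨k1, k2⟩ := z12 a b
      exact ⟨by simp [cz, k1], fun ha => ⟨by simp [cz, (k2 ha).1],
        fun hb => by simp [cz, (k2 ha).2 hb]⟩⟩
    · rw [g4]
      obtain ⟨k1, k2, k3⟩ := z11 a b
      obtain ⟨k4, k5, -⟩ := z11 b a
      have k6 : idx (s4 a) 0 = none := (z11 a 0).2.1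
      exact ⟨by simp [Np, k1, k4], fun ha => ⟨by simp [Np, (k3 ha).1, k6],
        fun hb => by simp [Np, (k3 ha).2 hb, k2, k5]⟩⟩)
  refine ⟨F, inferInstance, inferInstance, I4 F * prd t lB, ?_, g5, ?_, ⟨0, 7, ?_⟩, g6⟩
  · have := trdeg_add_eq ℂ K (A := F)
    rw [c1, c2, Nat.cast_succ 72] at this
    exact Cardinal.eq_of_add_eq_add_left this (Cardinal.natCast_lt_aleph0)
  · exact (mul_I4 _).symm.trans g2
  · intro ha
    rw [I4_mul] at ha
    let L := algebraicClosure K F
    have m : ∀ o, ff u o ∈ L := by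
      rintro (_ | p)
      · exact mem_algebraicClosure_iff.2 ha
      · rw [← h4]; exact L.algebraMap_mem _
    have k1 : AlgebraicIndependent ℂ fun o => (⟨ff u o, m o⟩ : L) :=
      AlgebraicIndependent.of_comp (L.val.restrictScalars ℂ) h1
    have k2 := k1.cardinalMk_le_trdeg
    rw [← trdeg_add_eq ℂ K (A := L), trdeg_eq_zero (A := L), add_zero, c1, Cardinal.mk_fintype,
      Nat.cast_le] at k2
    exact absurd k2 (by decide +kernel)

end Pool.Agent.MP_b834b3_ag.G20
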