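import Mathlib.Algebra.Polynomial.Identities
import Mathlib.FieldTheory.Perfect
import Mathlib.RingTheory.Flat.TorsionFree
import Mathlib.RingTheory.RingHom.Flat
import Mathlib.RingTheory.TensorProduct.MvPolynomial
import Pool.Agent.MP_b834b3_ag.g.SpecA

/-! Genus twenty: subadditivity of the transcendence degree, closedness of the constants. -/

namespace Pool.Agent.MP_b834b3_ag.G20

open Algebra MvPolynomial
open scoped TensorProduct nonZeroDivisors

namespace Geo

theorem cRk_range {K B D : Type} [Field K] [CommRing B] [CommRing D] [IsDomain D] [Algebra K B]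
    [Algebra K D] (f : B →ₐ[K] D) :
    (AlgebraicIndependent.matroid K D).cRk (Set.range f) ≤ trdeg K (B ⧸ RingHom.ker f) := by
  refine Matroid.cRk_le_iff.2 fun I hI => ?_
  choose b hb using fun i : I => hI.subset i.2
  have h1 : AlgebraicIndependent K ((↑) : I → D) := hI.indep
  have e : ((↑) : I → D) = Ideal.kerLiftAlg f ∘ fun i => Ideal.Quotient.mk _ (b i) :=
    funext fun i => (hb i).symm
  rw [e] at h1
  exact (AlgebraicIndependent.of_comp _ h1).cardinalMk_le_trdeg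

theorem alg_of {R D : Type} [CommRing R] [CommRing D] [Algebra R D] {r s : R} {d : D}
    (h0 : algebraMap R D s ≠ 0) (h : algebraMap R D s * d = algebraMap R D r) :
    IsAlgebraic R d := by
  refine ⟨Polynomial.C s * Polynomial.X - Polynomial.C r, fun e => h0 ?_, ?_⟩
  · have := congrArg (Polynomial.coeff · 1) e
    simp only [Polynomial.coeff_sub, Polynomial.coeff_C_mul, Polynomial.coeff_X_one, mul_one,
      Polynomial.coeff_C_succ, sub_zero, Polynomial.coeff_zero] at this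
    rw [this, map_zero]
  · simp only [map_sub, map_mul, Polynomial.aeval_C, Polynomial.aeval_X]
    exact sub_eq_zero.2 h

/-- a prime that avoids the regular elements and a given element that is not nilpotent -/
theorem exists_prime {T : Type} [CommRing T] {x : T} (hx : ¬ IsNilpotent x) :
    ∃ Q : Ideal T, Q.IsPrime ∧ x ∉ Q ∧ ∀ y ∈ T⁰, y ∉ Q := by
  obtain ⟨Q, h1, -, h2⟩ := Ideal.exists_le_prime_disjoint (⊥ : Ideal T) (T⁰ ⊔ Submonoid.powers x)
    (Set.disjoint_left.2 fun z hz hz' => by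
      obtain ⟨y, hy, _, ⟨n, rfl⟩, e⟩ := Submonoid.mem_sup.1 hz'
      exact hx ⟨n, (mul_left_mem_nonZeroDivisors_eq_zero_iff hy).1 (e.trans hz)⟩)
  exact ⟨Q, h1, fun h => Set.disjoint_left.1 h2 h
    (Submonoid.mem_sup_right (Submonoid.mem_powers x)),
    fun y hy h => Set.disjoint_left.1 h2 h (Submonoid.mem_sup_left hy)⟩

theorem flat_of_inj {R L : Type} [CommRing R] [IsDomain R] [Field L] (f : R →+* L)
    (hf : Function.Injective f) : f.Flat := by
  have e : f = (IsFractionRing.lift (K := FractionRing R) hf).comp (algebraMap _ _) := by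
    ext x
    simp
  rw [e]
  exact RingHom.Flat.comp (RingHom.flat_algebraMap_iff.2 (IsLocalization.flat _ R⁰))
    (RingHom.Flat.of_isField (Field.toIsField _) _)

variable {K L σ : Type} [Field K] [Field L] [Algebra K L]

theorem reg {s : σ → L} (hs : AlgebraicIndependent K s) {p : MvPolynomial (σ ⊕ σ) K} (hp : p ≠ 0) :
    aeval (Sum.elim (fun i => s i ⊗ₜ[K] (1 : L)) fun i => (1 : L) ⊗ₜ[K] s i) p ∈ (L ⊗[K] L)⁰ := by
  have h1 : (aeval s : MvPolynomial σ K →ₐ[K] L).toRingHom.Flat := flat_of_inj _ hs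
  let φ : MvPolynomial (σ ⊕ σ) K →ₐ[K] L ⊗[K] L :=
    (Algebra.TensorProduct.map (aeval s) (aeval s)).comp (tensorEquivSum K σ σ K).symm.toAlgHom
  have h2 : φ.toRingHom.Flat := RingHom.Flat.comp
    (RingHom.Flat.of_bijective (tensorEquivSum K σ σ K).symm.bijective)
    (RingHom.Flat.tensorProductMap h1 h1)
  have e : aeval (Sum.elim (fun i => s i ⊗ₜ[K] (1 : L)) fun i => (1 : L) ⊗ₜ[K] s i) = φ := by
    refine MvPolynomial.algHom_ext fun i => ?_
    rcases i with i | i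
    · have : (tensorEquivSum K σ σ K).symm (X (.inl i)) = X i ⊗ₜ 1 :=
        (AlgEquiv.symm_apply_eq _).2 (tensorEquivSum_X_tmul_one ..).symm
      simp [φ, this]
    · have : (tensorEquivSum K σ σ K).symm (X (.inr i)) = 1 ⊗ₜ X i :=
        (AlgEquiv.symm_apply_eq _).2 (tensorEquivSum_one_tmul_X ..).symm
      simp [φ, this]
  rw [e]
  let _ := φ.toRingHom.toAlgebra
  have : Module.Flat (MvPolynomial (σ ⊕ σ) K) (L ⊗[K] L) := h2
  have h3 := Module.Flat.isSMulRegular_of_nonZeroDivisors (M := L ⊗[K] L)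
    (mem_nonZeroDivisors_of_ne_zero hp)
  refine mem_nonZeroDivisors_iff_left.2 fun z hz => h3 ?_
  simp only [Algebra.smul_def, mul_zero]
  exact hz

theorem mem_of_eq {a : L} (h : (1 : L) ⊗ₜ[K] a = a ⊗ₜ[K] (1 : L)) :
    a ∈ Set.range (algebraMap K L) := by
  obtain ⟨l, hl⟩ := (Algebra.linearMap K L).exists_leftInverse_of_injective
    (LinearMap.ker_eq_bot.2 (algebraMap K L).injective)
  have h1 : l 1 = 1 := by simpa using LinearMap.congr_fun hl 1
  have h2 := congrArg (fun z => TensorProduct.rid K L (l.lTensor L z)) h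
  simp only [LinearMap.lTensor_tmul, TensorProduct.rid_tmul, h1, one_smul] at h2
  exact ⟨l a, by rw [Algebra.algebraMap_eq_smul_one, h2]⟩

theorem exists_q [CharZero K] {a : L} (ha : IsAlgebraic K a) : ∃ (c : L) (k : L ⊗[K] L), c ≠ 0 ∧
    ((1 : L) ⊗ₜ[K] a - a ⊗ₜ[K] (1 : L)) *
      (c ⊗ₜ[K] (1 : L) + k * ((1 : L) ⊗ₜ[K] a - a ⊗ₜ[K] (1 : L))) = 0 := by
  have h1 : (minpoly K a).Separable := (minpoly.irreducible ha.isIntegral).separable
  obtain ⟨k, hk⟩ := ((minpoly K a).map (algebraMap K (L ⊗[K] L))).binomExpansion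
    (a ⊗ₜ[K] (1 : L)) ((1 : L) ⊗ₜ[K] a - a ⊗ₜ[K] (1 : L))
  refine ⟨_, k, h1.aeval_derivative_ne_zero (minpoly.aeval K a), ?_⟩
  have e1 : ∀ p : Polynomial K, Polynomial.aeval (a ⊗ₜ[K] (1 : L)) p =
      Polynomial.aeval a p ⊗ₜ[K] (1 : L) := fun p =>
    Polynomial.aeval_algHom_apply (Algebra.TensorProduct.includeLeft : L →ₐ[K] L ⊗[K] L) a p
  have e2 : ∀ p : Polynomial K, Polynomial.aeval ((1 : L) ⊗ₜ[K] a) p =
      (1 : L) ⊗ₜ[K] Polynomial.aeval a p := fun p =>
    Polynomial.aeval_algHom_apply (Algebra.TensorProduct.includeRight : L →ₐ[K] L ⊗[K] L) a p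
  rw [add_sub_cancel, Polynomial.derivative_map, Polynomial.eval_map_algebraMap,
    Polynomial.eval_map_algebraMap, Polynomial.eval_map_algebraMap, e1, e1, e2, minpoly.aeval,
    TensorProduct.tmul_zero, TensorProduct.zero_tmul] at hk
  linear_combination -hk

end Geo

open Geo

theorem add : AddS := by
  intro K A B D _ _ _ _ _ _ _ _ f g m n h hf hg
  have h1 : Algebra.IsAlgebraic (adjoin K (Set.range f ∪ Set.range g)) D := ⟨fun d => by
    obtain ⟨r, hr, s, hs, h0, e⟩ := h d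
    exact alg_of (R := adjoin K (Set.range f ∪ Set.range g)) (s := ⟨s, hs⟩) (r := ⟨r, hr⟩) h0 e⟩
  have h2 := (AlgebraicIndependent.matroid_spanning_iff.2 h1).closure_eq
  rw [← AlgebraicIndependent.matroid_cRank_eq, ← Matroid.cRk_ground, ← h2, Matroid.cRk_closure,
    Nat.cast_add]
  exact (le_add_self.trans (Matroid.cRk_inter_add_cRk_union_le _ _ _)).trans
    (add_le_add ((cRk_range f).trans hf) ((cRk_range g).trans hg))

theorem geo1 : Geo1S := by
  intro K L _ _ _ _ A hA h2 hP a ha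
  obtain ⟨c, k, hc, hq⟩ := exists_q ha
  refine mem_of_eq (sub_eq_zero.1 ?_)
  have hm : Algebra.TensorProduct.lmul' K ((1 : L) ⊗ₜ[K] a - a ⊗ₜ[K] (1 : L)) = 0 := by simp
  have hw : ∀ b : L, (b ⊗ₜ[K] b) * ((1 : L) ⊗ₜ[K] a - a ⊗ₜ[K] (1 : L)) =
      b ⊗ₜ[K] (a * b) - (a * b) ⊗ₜ[K] b := fun b => by
    simp [mul_sub, mul_comm]
  generalize (1 : L) ⊗ₜ[K] a - a ⊗ₜ[K] (1 : L) = u at *
  by_cases hu : IsNilpotent u
  · have hc' : IsUnit (c ⊗ₜ[K] (1 : L)) :=
      hc.isUnit.map (Algebra.TensorProduct.includeLeft : L →ₐ[K] L ⊗[K] L)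
    exact (((Commute.all k u).isNilpotent_mul_left hu).isUnit_add_left_of_commute hc'
      (Commute.all _ _)).mul_left_eq_zero.1 hq
  exfalso
  have hq' : ¬ IsNilpotent (c ⊗ₜ[K] (1 : L) + k * u) := fun h => by
    have := (h.map (Algebra.TensorProduct.lmul' K)).eq_zero
    simp [hm, hc] at this
  obtain ⟨Q, hQ, hQu, hQr⟩ := exists_prime hu
  obtain ⟨Q', hQ', hQq, hQr'⟩ := exists_prime hq'
  have h1 : Algebra.IsAlgebraic (adjoin K (A : Set L)) L := ⟨fun z => by
    obtain ⟨r, hr, s, hs, h0, e⟩ := hA z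
    exact alg_of (R := adjoin K (A : Set L)) (s := ⟨s, subset_adjoin hs⟩)
      (r := ⟨r, subset_adjoin hr⟩) h0 ((mul_comm _ _).trans e)⟩
  obtain ⟨t, ht, hb⟩ := exists_isTranscendenceBasis_subset (R := K) (A : Set L)
  have h3 := hb.cardinalMk_eq_trdeg.trans h2
  have hA2 : trdeg K A ≤ (2 : ℕ) := (trdeg_le_of_injective A.val Subtype.val_injective).trans
    (by rw [h2]; simp)
  let ι := Algebra.TensorProduct.map A.val A.val
  have key : ∀ Q : Ideal (L ⊗[K] L), Q.IsPrime → (∀ y ∈ (L ⊗[K] L)⁰, y ∉ Q) →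
      trdeg K ((A ⊗[K] A) ⧸ Q.comap ι) = 4 := by
    intro Q hQ hQr
    have hp := Ideal.comap_isPrime ι Q
    have h01 : (1 : (A ⊗[K] A) ⧸ Q.comap ι) ≠ 0 := fun h =>
      hp.ne_top ((Ideal.eq_top_iff_one _).2 (Ideal.Quotient.eq_zero_iff_mem.1 h))
    refine le_antisymm ?_ ?_
    · let f : A →ₐ[K] (A ⊗[K] A) ⧸ Q.comap ι :=
        (Ideal.Quotient.mkₐ K _).comp Algebra.TensorProduct.includeLeft
      let g : A →ₐ[K] (A ⊗[K] A) ⧸ Q.comap ι :=
        (Ideal.Quotient.mkₐ K _).comp Algebra.TensorProduct.includeRight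
      refine (add K A A _ f g 2 2 (fun d => ⟨d, ?_, 1, one_mem _, h01, one_mul d⟩)
        ((trdeg_le_of_surjective _ (Ideal.Quotient.mkₐ_surjective K _)).trans hA2)
        ((trdeg_le_of_surjective _ (Ideal.Quotient.mkₐ_surjective K _)).trans hA2)).trans (by simp)
      obtain ⟨d, rfl⟩ := Ideal.Quotient.mk_surjective d
      induction d using TensorProduct.induction_on with
      | zero => exact zero_mem _
      | add x y hx hy => exact add_mem hx hy
      | tmul x y =>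
        have : Ideal.Quotient.mk (Q.comap ι) (x ⊗ₜ[K] y) = f x * g y := by
          simp [f, g, ← map_mul]
        rw [this]
        exact mul_mem (subset_adjoin (Or.inl ⟨x, rfl⟩)) (subset_adjoin (Or.inr ⟨y, rfl⟩))
    · let v : t ⊕ t → A ⊗[K] A := Sum.elim (fun i => (⟨i, ht i.2⟩ : A) ⊗ₜ[K] (1 : A))
        fun i => (1 : A) ⊗ₜ[K] (⟨i, ht i.2⟩ : A)
      have hv : AlgebraicIndependent K ((Ideal.Quotient.mkₐ K (Q.comap ι)) ∘ v) := by
        refine algebraicIndependent_iff.2 fun p hp => by_contra fun h0 => hQr _ (reg hb.1 h0) ?_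
        have e1 : Ideal.Quotient.mkₐ K (Q.comap ι) (aeval v p) = 0 :=
          (comp_aeval_apply v _ p).trans hp
        have e2 : ι (aeval v p) ∈ Q :=
          Ideal.mem_comap.1 ((Ideal.Quotient.eq_zero_iff_mem (I := Q.comap ι)).1 e1)
        have e3 : (fun i => ι (v i)) = Sum.elim (fun i : t => (i : L) ⊗ₜ[K] (1 : L))
            fun i : t => (1 : L) ⊗ₜ[K] (i : L) := by
          funext i
          rcases i with i | i <;> simp [v, ι]
        rwa [comp_aeval_apply, e3] at e2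
      refine le_trans (le_of_eq ?_) hv.cardinalMk_le_trdeg
      rw [Cardinal.mk_sum, Cardinal.lift_id, h3]
      norm_num
  have h4 := hP _ _ (Ideal.comap_isPrime ι Q) (Ideal.comap_isPrime ι Q') (key Q hQ hQr)
    (key Q' hQ' hQr')
  obtain ⟨r, hr, b, hb', h0, e⟩ := hA a
  have h5 : ι ((⟨b, hb'⟩ : A) ⊗ₜ[K] (⟨r, hr⟩ : A) - (⟨r, hr⟩ : A) ⊗ₜ[K] (⟨b, hb'⟩ : A)) =
      (b ⊗ₜ[K] b) * u := by
    rw [hw, e]
    simp [ι]
  have h6 : u ∈ Q' := (hQ'.mem_or_mem (hq ▸ Q'.zero_mem)).resolve_right hQq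
  have h7 : (b ⊗ₜ[K] b) * u ∈ Q := by
    rw [← h5, ← Ideal.mem_comap, h4, Ideal.mem_comap, h5]
    exact Q'.mul_mem_left _ h6
  refine hQr _ (IsUnit.mem_nonZeroDivisors ?_) ((hQ.mem_or_mem h7).resolve_right hQu)
  exact IsUnit.of_mul_eq_one (b⁻¹ ⊗ₜ[K] b⁻¹) (by simp [h0, Algebra.TensorProduct.one_def])

end Pool.Agent.MP_b834b3_ag.G20
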