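import Mathlib.FieldTheory.PrimitiveElement
import Mathlib.RingTheory.Polynomial.GaussLemma
import Mathlib.RingTheory.Ideal.GoingUp
import Pool.Agent.MP_b834b3_ag.g.SpecA

/-! There is one point over a closed point and the generic point. -/

namespace Pool.Agent.MP_b834b3_ag.G20

open Polynomial Algebra

namespace Geo2

/-- A monic factor of a monic polynomial comes from the constants. -/
theorem lift_fac {K L : Type} [Field K] [Field L] [Algebra K L]
    (h : ∀ a : L, IsAlgebraic K a → a ∈ Set.range (algebraMap K L)) {m : K[X]} (hm : m.Monic)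
    {u : L[X]} (hu : u.Monic) (hd : u ∣ m.map (algebraMap K L)) :
    ∃ q : K[X], q.map (algebraMap K L) = u ∧ q.natDegree = u.natDegree ∧ q.Monic := by
  refine lifts_and_natDegree_eq_and_monic ((lifts_iff_coeff_lifts _).2 fun n => ?_) hu
  obtain ⟨x, hx⟩ := (lifts_iff_coeff_lifts _).1
    (integralClosure.mem_lifts_of_monic_of_dvd_map L hm hu hd) n
  rw [← hx]
  exact h _ (IsIntegral.isAlgebraic x.2)

/-- Irreducible polynomials stay irreducible. -/
theorem irr {K L : Type} [Field K] [Field L] [Algebra K L]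
    (h : ∀ a : L, IsAlgebraic K a → a ∈ Set.range (algebraMap K L)) {m : K[X]} (hm : m.Monic)
    (hi : Irreducible m) : Irreducible (m.map (algebraMap K L)) := by
  obtain ⟨h0, h1⟩ := hm.irreducible_iff_natDegree.1 hi
  refine (hm.map _).irreducible_iff_natDegree.2 ⟨fun e => h0 (map_injective _
    (algebraMap K L).injective (e.trans (Polynomial.map_one _).symm)), fun u v hu hv e => ?_⟩
  obtain ⟨p, hp, dp, mp⟩ := lift_fac h hm hu (Dvd.intro _ e)
  obtain ⟨q, hq, dq, mq⟩ := lift_fac h hm hv (Dvd.intro_left _ e)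
  rw [← dp, ← dq]
  refine h1 p q mp mq (map_injective _ (algebraMap K L).injective ?_)
  rw [Polynomial.map_mul, hp, hq, e]

/-- The polynomial is prime over the subalgebra. -/
theorem prime_sub {K L : Type} [Field K] [Field L] [Algebra K L]
    (h : ∀ a : L, IsAlgebraic K a → a ∈ Set.range (algebraMap K L)) (A : Subalgebra K L)
    {m : K[X]} (hm : m.Monic) (hi : Irreducible m) : Prime (m.map (algebraMap K A)) := by
  have hp := (irr h hm hi).prime
  have hA := hm.map (algebraMap K A)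
  have hinj : Function.Injective (algebraMap A L) := Subtype.val_injective
  have e : (m.map (algebraMap K A)).map (algebraMap A L) = m.map (algebraMap K L) := by
    rw [Polynomial.map_map, ← IsScalarTower.algebraMap_eq]
  refine ⟨hA.ne_zero, fun hu => hp.not_isUnit ?_, fun G H hd => ?_⟩
  · rw [← e]
    exact hu.map (mapRingHom (algebraMap A L))
  · rw [← map_dvd_map _ hinj hA, e, Polynomial.map_mul] at hd
    rw [← map_dvd_map _ hinj hA, ← map_dvd_map _ hinj hA, e]
    exact hp.dvd_or_dvd hd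

/-- The ideal is described by divisibility. -/
theorem mem_iff {A D : Type} [CommRing A] [IsDomain A] [CommRing D] (g : A →+* D) (x : D)
    {m : A[X]} (hm : m.Monic) (hp : Prime m) (P : Ideal D) (hP : P.comap g = ⊥)
    (hx : m.eval₂ g x ∈ P) (G : A[X]) : G.eval₂ g x ∈ P ↔ m ∣ G := by
  have := AdjoinRoot.isDomain_of_prime hp
  have := hm.finite_adjoinRoot
  have ev : ∀ H : A[X], H.eval₂ ((Ideal.Quotient.mk P).comp g) (Ideal.Quotient.mk P x) =
      Ideal.Quotient.mk P (H.eval₂ g x) := fun H => (hom_eval₂ H g (Ideal.Quotient.mk P) x).symm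
  have h0 : m.eval₂ ((Ideal.Quotient.mk P).comp g) (Ideal.Quotient.mk P x) = 0 := by
    rw [ev, Ideal.Quotient.eq_zero_iff_mem]
    exact hx
  have hk : RingHom.ker (AdjoinRoot.lift _ _ h0) = ⊥ := by
    refine Ideal.eq_bot_of_comap_eq_bot (R := A) (eq_bot_iff.2 fun a ha => ?_)
    rw [Ideal.mem_comap, RingHom.mem_ker, AdjoinRoot.algebraMap_eq, AdjoinRoot.lift_of,
      RingHom.comp_apply, Ideal.Quotient.eq_zero_iff_mem] at ha
    rw [← hP]
    exact ha
  rw [← AdjoinRoot.mk_eq_zero, ← Ideal.mem_bot, ← hk, RingHom.mem_ker, AdjoinRoot.lift_mk, ev,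
    Ideal.Quotient.eq_zero_iff_mem]

/-- A primitive element of the residue field. -/
theorem prim {K B : Type} [Field K] [CharZero K] [CommRing B] [Algebra K B] [FiniteType K B]
    (p : Ideal B) (hp : p.IsPrime) (ht : trdeg K (B ⧸ p) = 0) :
    ∃ (b : B) (m : K[X]), m.Monic ∧ Irreducible m ∧ aeval b m ∈ p ∧
      ∀ c : B, ∃ q : K[X], c - aeval b q ∈ p := by
  have : Algebra.IsAlgebraic K (B ⧸ p) := trdeg_eq_zero_iff.1 ht
  have : Algebra.IsIntegral K (B ⧸ p) := Algebra.IsAlgebraic.isIntegral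
  have : p.IsMaximal := Ideal.Quotient.maximal_of_isField p
    (isField_of_isIntegral_of_isField' (R := K) (Field.toIsField K))
  let := Ideal.Quotient.field p
  have : Module.Finite K (B ⧸ p) := Algebra.IsIntegral.finite
  let pb := Field.powerBasisOfFiniteOfSeparable K (B ⧸ p)
  obtain ⟨b, hb⟩ := Ideal.Quotient.mk_surjective pb.gen
  have hi : IsIntegral K pb.gen := Algebra.IsIntegral.isIntegral _
  have ev : ∀ q : K[X], Ideal.Quotient.mk p (aeval b q) = aeval pb.gen q := fun q => by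
    rw [← hb]
    exact (aeval_algHom_apply (Ideal.Quotient.mkₐ K p) b q).symm
  refine ⟨b, minpoly K pb.gen, minpoly.monic hi, minpoly.irreducible hi, ?_, fun c => ?_⟩
  · rw [← Ideal.Quotient.eq_zero_iff_mem, ev, minpoly.aeval]
  · obtain ⟨q, hq⟩ := pb.exists_eq_aeval' (Ideal.Quotient.mk p c)
    exact ⟨q, by rw [← Ideal.Quotient.eq, ev, hq]⟩

end Geo2

theorem geo2 : Geo2S := by
  intro K L B D _ _ _ _ _ _ _ _ _ A f g h hT P Q hP hQ hPQ ht gP gQ
  obtain ⟨b, m, hm, hi, hb, hc⟩ := Geo2.prim (K := K) (P.comap f) (Ideal.comap_isPrime f P) ht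
  have ev : ∀ q : K[X], (q.map (algebraMap K A)).eval₂ (g : A →+* D) (f b) = f (aeval b q) :=
    fun q => by
      rw [eval₂_map, ← aeval_algHom_apply, aeval_def]
      congr 1
      exact g.comp_algebraMap
  have hs : ∀ c ∈ P.comap f, f c ∈ P ⊓ Q := fun c hc' =>
    ⟨hc', (show c ∈ Q.comap f from hPQ ▸ hc')⟩
  have all : ∀ d : D, ∃ G : A[X], d - G.eval₂ (g : A →+* D) (f b) ∈ P ⊓ Q := by
    intro d
    have hd : d ∈ adjoin K (Set.range f ∪ Set.range g) := hT ▸ Algebra.mem_top
    induction hd using adjoin_induction with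
    | mem x hx =>
      rcases hx with ⟨c, rfl⟩ | ⟨a, rfl⟩
      · obtain ⟨q, hq⟩ := hc c
        refine ⟨q.map (algebraMap K A), ?_⟩
        rw [ev, ← map_sub]
        exact hs _ hq
      · exact ⟨C a, by rw [eval₂_C]; simp⟩
    | algebraMap r => exact ⟨C (algebraMap K A r), by rw [eval₂_C]; simp⟩
    | add x y _ _ hx hy =>
      obtain ⟨G, hG⟩ := hx
      obtain ⟨H, hH⟩ := hy
      refine ⟨G + H, ?_⟩
      rw [eval₂_add, add_sub_add_comm]
      exact add_mem hG hH
    | mul x y _ _ hx hy =>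
      obtain ⟨G, hG⟩ := hx
      obtain ⟨H, hH⟩ := hy
      refine ⟨G * H, ?_⟩
      have e : x * y - (G * H).eval₂ (g : A →+* D) (f b) =
          x * (y - H.eval₂ (g : A →+* D) (f b)) +
            H.eval₂ (g : A →+* D) (f b) * (x - G.eval₂ (g : A →+* D) (f b)) := by
        rw [eval₂_mul]
        ring
      rw [e]
      exact add_mem (Ideal.mul_mem_left _ _ hH) (Ideal.mul_mem_left _ _ hG)
  have hpr := Geo2.prime_sub h A hm hi
  have hx := hs _ hb
  rw [← ev] at hx
  have kP := Geo2.mem_iff (g : A →+* D) (f b) (hm.map _) hpr P gP hx.1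
  have kQ := Geo2.mem_iff (g : A →+* D) (f b) (hm.map _) hpr Q gQ hx.2
  ext d
  obtain ⟨G, hG⟩ := all d
  have e : d = d - G.eval₂ (g : A →+* D) (f b) + G.eval₂ (g : A →+* D) (f b) :=
    (sub_add_cancel _ _).symm
  rw [e, Ideal.add_mem_iff_right _ hG.1, Ideal.add_mem_iff_right _ hG.2, kP, kQ]

end Pool.Agent.MP_b834b3_ag.G20
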