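import Pool.Agent.MP_b834b3_ag.g.SpecB

/-! Genus twenty: the generic point of the hyperplane section. -/

namespace Pool.Agent.MP_b834b3_ag.G20

open Algebra Matrix

namespace Hyp

theorem mn_map {R S : Type} [CommRing R] [CommRing S] [Algebra K R] [Algebra K S] (σ : R →ₐ[K] S)
    (j : Fin 4) (N : Matrix (Fin 4) (Fin 9) R) : mn j (N.map σ) = σ (mn j N) :=
  (AlgHom.map_det σ (N.submatrix id (ff j))).symm

theorem alg_of_trdeg {R F : Type} [CommRing R] [Algebra K R] [Field F] [Algebra K F]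
    (χ : R →ₐ[K] F) (h : trdeg K (R ⧸ RingHom.ker χ) < (1 : ℕ)) (a : R) : IsAlgebraic K (χ a) := by
  have : (RingHom.ker χ).IsPrime := RingHom.ker_isPrime _
  have h0 : trdeg K (R ⧸ RingHom.ker χ) = 0 := by simpa using h
  have := trdeg_eq_zero_iff.1 h0
  exact (Algebra.IsAlgebraic.isAlgebraic (R := K)
    (Ideal.Quotient.mk (RingHom.ker χ) a)).algHom (Ideal.kerLiftAlg χ)

theorem nm_alg (hP : PtS) {F : Type} [Field F] [Algebra K F] (f : Fin 4 → Fin 9)
    (N : Matrix (Fin 4) (Fin 9) F) (h : ∀ a c, IsAlgebraic K (N a c)) (a : Fin 4) (c : Fin 9) :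
    IsAlgebraic K (nm f N a c) := by
  let N' : Matrix (Fin 4) (Fin 9) (algebraicClosure K F) :=
    of fun a c => ⟨N a c, mem_algebraicClosure_iff.2 (h a c)⟩
  have e : N = N'.map (algebraicClosure K F).val.toRingHom := rfl
  rw [e, hP.nm_map]
  exact mem_algebraicClosure_iff.1 (nm f N' a c).2

end Hyp

open Hyp in
theorem hyp_s (hB : Base) : HypS := by
  intro L _ _ M hC hD
  have hx : ∀ j, mn 0 (el M (ff j)) ≠ 0 := fun j h => by
    have h1 := hC.det (ff j) (ff 0)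
    rw [show ((el M (ff j)).submatrix id (ff 0)).det = 0 from h] at h1
    exact div_ne_zero (hC.ne 0) (hC.ne j) h1.symm
  have ht : ∀ j, j ≠ 0 → trdeg K (Ach M j ⧸ Ideal.span {mn 0 (el M (ff j))}) = (1 : ℕ) := by
    intro j hj
    have := hD.prime j hj
    have := hC.ft (ff j)
    have h := krull (k := K) (hx j) (p := Ideal.span {mn 0 (el M (ff j))})
      (by rw [Ideal.minimalPrimes_eq_subsingleton_self]; rfl)
    rw [hC.dim j, ← one_add_one_eq_two] at h
    simpa using Cardinal.add_one_inj.1 h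
  have h10 : (1 : Fin 4) ≠ 0 := by decide
  have hp := hD.prime 1 h10
  let P : Ideal (Ach M 1) := Ideal.span {mn 0 (el M (ff 1))}
  let F : Type := FractionRing (Ach M 1 ⧸ P)
  let χ₁ : Ach M 1 →ₐ[K] F :=
    (IsScalarTower.toAlgHom K (Ach M 1 ⧸ P) F).comp (Ideal.Quotient.mkₐ K P)
  have inj : Function.Injective (algebraMap (Ach M 1 ⧸ P) F) := IsFractionRing.injective _ _
  have hk : ∀ a, χ₁ a = 0 ↔ a ∈ P := fun a =>
    (map_eq_zero_iff _ inj).trans Ideal.Quotient.eq_zero_iff_mem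
  have hI : Iso ((el M (ff 1)).map χ₁) :=
    (hB.pt.iso_map _ _ χ₁ _).1 (hC.iso _ (hC.ne 1))
  have h0 : mn 0 ((el M (ff 1)).map χ₁) = 0 := by
    rw [mn_map, hk]
    exact Ideal.mem_span_singleton_self _
  refine ⟨F, inferInstance, inferInstance, (el M (ff 1)).map χ₁, ?_, hI, h0, fun j hj => ?_⟩
  · rw [trdeg_frac (Ach M 1 ⧸ P) F, ht 1 h10]
    simp
  have hn : mn j ((el M (ff 1)).map χ₁) ≠ 0 := by
    rw [mn_map, Ne, hk]
    exact hD.notMem j hj
  obtain ⟨χ, hχ⟩ := hC.univ j F _ hI hn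
  refine ⟨hn, χ, hχ, ?_⟩
  have hle : Ideal.span {mn 0 (el M (ff j))} ≤ RingHom.ker χ := by
    rw [Ideal.span_singleton_le_iff_mem, RingHom.mem_ker, ← mn_map, hχ, mn, hB.pt.det_nm]
    exact div_eq_zero_iff.2 (Or.inl h0)
  by_contra hne
  have := hD.prime j hj
  have : (RingHom.ker χ).IsPrime := RingHom.ker_isPrime _
  have h1 := alg_of_trdeg χ (trdeg_lt (lt_of_le_of_ne hle (Ne.symm hne)) (ht j hj))
  have h2 : ∀ a c, IsAlgebraic K (nm (ff j) ((el M (ff 1)).map χ₁) a c) := fun a c => by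
    rw [← hχ]
    exact h1 _
  have h3 : nm (ff 1) (nm (ff j) ((el M (ff 1)).map χ₁)) = (el M (ff 1)).map χ₁ := by
    rw [nm, nm, ← nm, hB.pt.nm_mul, hB.pt.nm_self]
    · rw [submatrix_map, hC.one _ (hC.ne 1), Matrix.map_one _ (map_zero _) (map_one _)]
    · rw [det_nonsing_inv, Ring.inverse_eq_inv]
      exact inv_ne_zero hn
  have h4 : ∀ a c, IsAlgebraic K (χ₁ (el M (ff 1) a c)) := fun a c => by
    have := nm_alg hB.pt (ff 1) _ h2 a c
    rwa [h3] at this
  have h5 : ∀ a, IsAlgebraic K (χ₁ a) := fun a => by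
    have : adjoin K (ent (el M (ff 1))) ≤ (algebraicClosure K F).toSubalgebra.comap χ₁ := by
      rw [adjoin_le_iff]
      rintro _ ⟨x, rfl⟩
      exact mem_algebraicClosure_iff.2 (h4 x.1 x.2)
    rw [hC.gen] at this
    exact mem_algebraicClosure_iff.1 (this Algebra.mem_top)
  have : Algebra.IsAlgebraic K (Ach M 1 ⧸ P) := ⟨fun y => by
    obtain ⟨a, rfl⟩ := Ideal.Quotient.mk_surjective y
    exact (isAlgebraic_algHom_iff (IsScalarTower.toAlgHom K (Ach M 1 ⧸ P) F) inj).1 (h5 a)⟩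
  have h6 := ht 1 h10
  rw [trdeg_eq_zero] at h6
  simp at h6

end Pool.Agent.MP_b834b3_ag.G20
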