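import Mathlib.Algebra.MvPolynomial.PDeriv
import Mathlib.LinearAlgebra.Matrix.ToLinearEquiv
import Mathlib.LinearAlgebra.Matrix.Nondegenerate
import Pool.Agent.MP_b834b3_ag.g.SpecA

/-! The Jacobian criterion. -/

namespace Pool.Agent.MP_b834b3_ag.G20

open MvPolynomial

namespace Jac

lemma chain {R A M ι : Type} [CommRing R] [CommRing A] [Algebra R A] [AddCommGroup M] [Module A M]
    [Module R M] [Fintype ι] (D : Derivation R A M) (f : ι → A) (p : MvPolynomial ι R) :
    D (aeval f p) = ∑ s, aeval f (pderiv s p) • D (f s) := by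
  classical
  induction p using MvPolynomial.induction_on with
  | C a => simp
  | add p q hp hq => simp [hp, hq, add_smul, Finset.sum_add_distrib]
  | mul_X p n hp =>
    simp only [map_mul, aeval_X, Derivation.leibniz, hp, smul_eq_mul, map_add, add_smul,
      Finset.sum_add_distrib, Finset.smul_sum, mul_smul, pderiv_X]
    congr 1
    rw [Finset.sum_eq_single n]
    · simp
    · intro b _ hb
      simp [Pi.single_eq_of_ne hb.symm]
    · simp

lemma dual {σ : Type} [Fintype σ] (x ξ : σ → ℂ) (p : MvPolynomial σ ℂ) :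
    TrivSqZeroExt.fst (aeval (fun i =>
      (TrivSqZeroExt.inl (x i) + TrivSqZeroExt.inr (ξ i) : DualNumber ℂ)) p) = eval x p ∧
    TrivSqZeroExt.snd (aeval (fun i =>
      (TrivSqZeroExt.inl (x i) + TrivSqZeroExt.inr (ξ i) : DualNumber ℂ)) p) =
      ∑ i, eval x (pderiv i p) * ξ i := by
  classical
  induction p using MvPolynomial.induction_on with
  | C a => simp [TrivSqZeroExt.algebraMap_eq_inl]
  | add p q hp hq =>
    simp only [map_add, TrivSqZeroExt.fst_add, TrivSqZeroExt.snd_add, hp.1, hq.1, hp.2, hq.2,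
      add_mul, Finset.sum_add_distrib, and_self]
  | mul_X p n hp =>
    refine ⟨by rw [map_mul, TrivSqZeroExt.fst_mul, hp.1]; simp, ?_⟩
    simp only [map_mul, aeval_X, DualNumber.snd_mul, hp.1, hp.2, Derivation.leibniz, smul_eq_mul,
      map_add, add_mul, Finset.sum_add_distrib, pderiv_X, eval_X]
    congr 1
    · rw [Finset.sum_eq_single n]
      · simp
      · intro b _ hb
        simp [Pi.single_eq_of_ne hb.symm]
      · simp
    · simp only [TrivSqZeroExt.fst_add, TrivSqZeroExt.fst_inl, TrivSqZeroExt.fst_inr, add_zero,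
        Finset.sum_mul]
      exact Finset.sum_congr rfl fun i _ => by ring

lemma deg_lt {ι : Type} (s : ι) (p : MvPolynomial ι ℂ) (h : pderiv s p ≠ 0) :
    (pderiv s p).totalDegree < p.totalDegree := by
  obtain ⟨m, hm, e⟩ := Finset.exists_mem_eq_sup (pderiv s p).support (support_nonempty.2 h)
    fun m => m.sum fun _ e => e
  rw [mem_support_iff, coeff_pderiv] at hm
  have := le_totalDegree (mem_support_iff.2 (left_ne_zero_of_mul hm))
  rw [Finsupp.sum_add_index' (fun _ => rfl) (fun _ _ _ => rfl),
    Finsupp.sum_single_index rfl] at this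
  rw [totalDegree, e]
  omega

lemma const {ι : Type} (p : MvPolynomial ι ℂ) (h : ∀ s, pderiv s p = 0) :
    p = C (coeff 0 p) := by
  classical
  ext m
  rw [coeff_C]
  split_ifs with hm
  · rw [hm]
  · obtain ⟨s, hs⟩ := Finsupp.ne_iff.1 hm
    have e : m - Finsupp.single s 1 + Finsupp.single s 1 = m :=
      tsub_add_cancel_of_le (Finsupp.single_le_iff.2 (Nat.pos_of_ne_zero hs.symm))
    have := coeff_pderiv (i := s) p (m - Finsupp.single s 1)
    rw [h, coeff_zero, e] at this
    exact (mul_eq_zero.1 this.symm).resolve_right (Nat.cast_add_one_ne_zero _)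

end Jac

theorem jac : JacS := by
  intro ι σ _ _ f x hc h
  classical
  let A : Matrix ι σ ℂ := Matrix.of fun s i => eval x (pderiv i (f s))
  have hinj : Function.Injective A.mulVecLin :=
    (injective_iff_map_eq_zero _).2 fun ξ hξ => h ξ fun s => by
      rw [(Jac.dual x ξ (f s)).2]
      exact congrFun hξ s
  have hc' : Fintype.card σ ≤ Fintype.card ι := by
    simpa using LinearMap.finrank_le_finrank_of_injective hinj
  obtain ⟨e⟩ : Nonempty (ι ≃ σ) := Fintype.card_eq.1 (le_antisymm hc hc')
  let J : Matrix ι ι (MvPolynomial σ ℂ) := Matrix.of fun s i => pderiv (e i) (f s)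
  have hJ : J.det ≠ 0 := by
    intro h0
    have h1 : ((eval x).mapMatrix J).det = 0 := by rw [← RingHom.map_det, h0, map_zero]
    obtain ⟨v, hv, hv0⟩ := Matrix.exists_mulVec_eq_zero_iff.2 h1
    have h2 : v ∘ e.symm = 0 := (injective_iff_map_eq_zero _).1 hinj _ (funext fun s => by
      refine Eq.trans ?_ (congrFun hv0 s)
      exact (Fintype.sum_equiv e _ _ fun i => by simp [A, J]).symm)
    exact hv (funext fun i => by simpa using congrFun h2 (e i))
  rw [algebraicIndependent_iff]
  intro p
  induction hn : p.totalDegree using Nat.strong_induction_on generalizing p with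
  | _ n ih =>
    intro hp
    have h1 : (fun s => aeval f (pderiv s p)) = 0 :=
      Matrix.eq_zero_of_vecMul_eq_zero hJ (funext fun i => by
        have := Jac.chain (pderiv (e i)) f p
        rw [hp, map_zero] at this
        exact this.symm)
    have h2 : ∀ s, pderiv s p = 0 := fun s => by
      by_contra h0
      exact h0 (ih _ (hn ▸ Jac.deg_lt s p h0) _ rfl (congrFun h1 s))
    rw [Jac.const p h2] at hp ⊢
    rw [aeval_C, algebraMap_eq, C_eq_zero] at hp
    rw [hp, C_0]

end Pool.Agent.MP_b834b3_ag.G20
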