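import Pool.Agent.MP_b834b3_ag.g.SpecB

/-! Genus twenty: limits of ramification points. -/

namespace Pool.Agent.MP_b834b3_ag.G20

open Algebra Matrix

namespace Lim

theorem one_of {t : Cardinal.{0}} (h : t + 1 = 2) : t = (1 : ℕ) := by
  rw [← one_add_one_eq_two, Cardinal.add_one_inj] at h
  rw [h, Nat.cast_one]

theorem tr_one {R F : Type} [CommRing R] [Algebra K R] [Field F] [Algebra K F] (χ : R →ₐ[K] F)
    (h : trdeg K F = 1) {r : R} (hr : Transcendental K (χ r)) :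
    trdeg K (R ⧸ RingHom.ker χ) = 1 := by
  have : (RingHom.ker χ).IsPrime := RingHom.ker_isPrime _
  refine le_antisymm (h ▸ trdeg_le_of_injective _ (Ideal.kerLiftAlg_injective χ))
    (Cardinal.one_le_iff_ne_zero.2 fun h0 => hr ?_)
  exact ((trdeg_eq_zero_iff.1 h0).isAlgebraic (Ideal.Quotient.mk _ r)).algHom (Ideal.kerLiftAlg χ)

theorem notMem {A : Type} [CommRing A] [IsDomain A] [Algebra K A] [FiniteType K A]
    (hA : trdeg K A = 2) {x g : A} (hx : (Ideal.span {x}).IsPrime) (h0 : x ≠ 0)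
    (hg : g ∉ Ideal.span {x}) {Q : Ideal A} (hQ : Q ∈ (Ideal.span {g}).minimalPrimes) : x ∉ Q := by
  intro h
  have := hQ.isPrime
  have h1 := one_of ((krull (k := K) (fun e : g = 0 => hg (e ▸ zero_mem _)) hQ).trans hA)
  have h2 := one_of ((krull (k := K) h0 (p := Ideal.span {x})
    (by rw [Ideal.minimalPrimes_eq_subsingleton_self]; rfl)).trans hA)
  rcases ((Ideal.span_singleton_le_iff_mem _).2 h).lt_or_eq with h3 | h3
  · exact absurd (trdeg_lt h3 h2) (by rw [h1]; exact lt_irrefl _)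
  · exact hg (h3 ▸ hQ.le (Ideal.mem_span_singleton_self g))

theorem dmap {R S : Type} [CommRing R] [Algebra K R] [CommRing S] [Algebra K S]
    (σ : R →ₐ[K] S) (f : Fin 4 → Fin 9) (N : Matrix (Fin 4) (Fin 9) R) :
    ((N.map σ).submatrix id f).det = σ (N.submatrix id f).det := (σ.map_det _).symm

theorem one_map {R S : Type} [CommRing R] [Algebra K R] [CommRing S] [Algebra K S]
    (σ : R →ₐ[K] S) {f : Fin 4 → Fin 9} {N : Matrix (Fin 4) (Fin 9) R}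
    (h : N.submatrix id f = 1) : (N.map σ).submatrix id f = 1 := by
  rw [submatrix_map, h, Matrix.map_one _ (map_zero σ) (map_one σ)]

theorem dinv {F : Type} [Field F] {A : Matrix (Fin 4) (Fin 4) F} (h : A.det ≠ 0) :
    A⁻¹.det ≠ 0 := by
  rw [det_nonsing_inv, Ring.inverse_eq_inv']
  exact inv_ne_zero h

end Lim

open Lim in
theorem lim_s (hB : Base) (hS : SpecS) (hX : ExcS) : LimS := by
  intro L _ _ M G hC hD hG
  obtain ⟨F, _, _, N, hF, hI, h1, ⟨a, c, ht⟩, hc⟩ := hX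
  have h1' : N.submatrix id (ff 0) = 1 := h1
  obtain ⟨χ₀, e₀⟩ := hC.univ 0 F N hI (by rw [mn, h1', det_one]; exact one_ne_zero)
  rw [hB.pt.nm_self _ _ _ h1'] at e₀
  have p₀ : (RingHom.ker χ₀).IsPrime := RingHom.ker_isPrime _
  have t₀ := tr_one χ₀ hF (r := el M (ff 0) a c) (by rw [← e₀] at ht; exact ht)
  obtain ⟨g, hg, hgQ⟩ := hD.princ _ p₀ t₀
  refine ⟨g, fun h => ?_, fun h => p₀.ne_top (Ideal.eq_top_of_isUnit_mem _ hg h),
    fun j hj m g' e hn F' _ _ β b1 b2 => ?_⟩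
  · rw [le_bot_iff.1 (hgQ ⊥ Ideal.isPrime_bot (Ideal.mem_bot.2 h)),
      (AlgEquiv.quotientBot K _).trdeg_eq, hC.dim 0] at t₀
    norm_num at t₀
  have := hC.ft (ff j)
  have pP : (RingHom.ker β).IsPrime := RingHom.ker_isPrime _
  have ex : ((mn 0 (el M (ff j)) : Ach M j) : L) = mn 0 M / mn j M := hC.det _ _
  obtain ⟨Q, hQ, hQP⟩ := Ideal.exists_minimalPrimes_le (I := Ideal.span {g'})
    (J := RingHom.ker β) ((Ideal.span_singleton_le_iff_mem _).2 b2)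
  have pQ := hQ.isPrime
  have hx := notMem (hC.dim j) (hD.prime j hj)
    (fun h => div_ne_zero (hC.ne 0) (hC.ne j) (by rw [← ex, h]; rfl)) hn hQ
  let ψ : Ach M j →ₐ[K] Q.ResidueField := IsScalarTower.toAlgHom K _ _
  have hψ : ∀ r, ψ r = 0 ↔ r ∈ Q := fun r => Ideal.algebraMap_residueField_eq_zero
  have o₁ := hC.one _ (hC.ne j)
  have d₁ : (((el M (ff j)).map ψ).submatrix id (ff 0)).det ≠ 0 := by
    rw [dmap]
    exact fun h => hx ((hψ _).1 h)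
  obtain ⟨ψ₀, f₀⟩ := hC.univ 0 _ _ ((hB.pt.iso_map _ _ ψ _).1 (hC.iso _ (hC.ne j))) d₁
  have k₀ : RingHom.ker χ₀ ≤ RingHom.ker ψ₀ := by
    refine hgQ _ (RingHom.ker_isPrime _) ?_
    have := (hC.loc _ _ (hC.ne j) (hC.ne 0)).2 _ ψ ψ₀ d₁ f₀ (mn 0 (el M (ff j)) ^ m) g' g 1
      (by rw [e, ← ex]; simp [mul_comm])
    rw [(hψ g').2 (hQ.le (Ideal.mem_span_singleton_self g')), zero_mul, map_pow] at this
    exact (mul_eq_zero.1 this).resolve_left (pow_ne_zero _ fun h => hx ((hψ _).1 h))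
  have d₂ : (((el M (ff 0)).map ψ₀).submatrix id (ff j)).det ≠ 0 := by
    rw [f₀, hB.pt.det_nm, one_map ψ o₁, det_one]
    exact div_ne_zero one_ne_zero d₁
  have f₁ : (el M (ff j)).map ψ = nm (ff j) ((el M (ff 0)).map ψ₀) := by
    rw [f₀]
    exact ((hB.pt.nm_mul _ _ _ _ (dinv d₁)).trans (hB.pt.nm_self _ _ _ (one_map ψ o₁))).symm
  have d₃ : (((el M (ff 0)).map χ₀).submatrix id (ff j)).det ≠ 0 := by
    rw [dmap] at d₂ ⊢
    exact fun h => d₂ (k₀ h)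
  have d₄ : (N.submatrix id (ff j)).det ≠ 0 := e₀ ▸ d₃
  obtain ⟨χ, e₁⟩ := hC.univ j F N hI d₄
  have k₁ : RingHom.ker χ ≤ Q := fun b hb => by
    obtain ⟨n, a, -, h⟩ := (hC.loc _ _ (hC.ne 0) (hC.ne j)).1 b
    have a1 := h _ χ₀ χ d₃ (by rw [e₁, e₀])
    have a2 := h _ ψ₀ ψ d₂ f₁
    rw [(RingHom.mem_ker.1 hb : χ b = 0), mul_zero] at a1
    rw [(k₀ a1 : ψ₀ a = 0)] at a2
    exact (hψ b).1 ((mul_eq_zero.1 a2.symm).resolve_left (pow_ne_zero _ d₂))
  obtain ⟨p, α, a1, a2⟩ := hB.pl.ex F _ χ _ pP (k₁.trans hQP)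
  have cen : Cen p N ((el M (ff j)).map α) := by
    refine ⟨⟨(N.submatrix id (ff j))⁻¹, dinv d₄, ?_⟩, (hB.pt.rk_det _ _).2 ⟨ff j, ?_⟩⟩
    · rw [← nm, ← e₁]
      exact Matrix.ext fun _ _ => a1 _
    · rw [one_map _ (one_map _ o₁), det_one]
      exact one_ne_zero
  have : Algebra.IsAlgebraic K p.E := by
    refine hB.pl.alg F p (χ (mn 0 (el M (ff j))))⁻¹ hF.le ((hB.pl.zero F p _).2
      ⟨inv_ne_zero fun h => hx (k₁ h), by rw [inv_inv, ← a1]; exact (α _).2, ?_⟩)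
    rw [← (a2 _).2 b1]
    exact congrArg _ (Subtype.ext ((inv_inv _).trans (a1 _).symm))
  rw [hB.pt.pt_ker _ _ _ β (p.π.comp α) _ fun r => (a2 r).symm]
  exact hG p.E _ (hB.pl.iso F p N _ hI cen) cen.2 (hS.cc F p N _ hI cen hc)

end Pool.Agent.MP_b834b3_ag.G20
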