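import Mathlib.LinearAlgebra.Matrix.Rank
import Pool.Agent.MP_b834b3_ag.g.SpecA

/-! Genus twenty: lemmas of linear algebra. -/

namespace Pool.Agent.MP_b834b3_ag.G20

open Matrix

namespace Lin

theorem card (R Ω ι ν : Type) [Field R] [Field Ω] [Algebra R Ω] [Fintype ι] [Fintype ν]
    (x : ι → Ω) (p : ν → Ω) (hx : AlgebraicIndependent R x)
    (h : ∀ i, x i ∈ IntermediateField.adjoin R (Set.range p)) :
    Fintype.card ι ≤ Fintype.card ν := by
  have h1 : Set.range x ⊆ (AlgebraicIndependent.matroid R Ω).closure (Set.range p) := by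
    rintro _ ⟨i, rfl⟩
    obtain ⟨r, hr, s, hs, e⟩ := IntermediateField.mem_adjoin_iff_div.1 (h i)
    rw [AlgebraicIndependent.matroid_closure_eq, SetLike.mem_coe, Subalgebra.mem_algebraicClosure,
      e, div_eq_mul_inv]
    exact (isAlgebraic_algebraMap (⟨r, hr⟩ : Algebra.adjoin R (Set.range p))).mul
      (isAlgebraic_algebraMap (⟨s, hs⟩ : Algebra.adjoin R (Set.range p))).inv
  have h2 := (AlgebraicIndependent.matroid_indep_iff.2
    hx.to_subtype_range).encard_le_eRk_of_subset h1
  rw [Matroid.eRk_closure_eq] at h2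
  have h3 := hx.injective.encard_range.trans ((h2.trans (Matroid.eRk_le_encard _ _)).trans
    (Set.image_univ ▸ Set.encard_image_le p Set.univ))
  rw [Set.encard_univ, ENat.card_eq_coe_fintype_card, ENat.card_eq_coe_fintype_card] at h3
  exact_mod_cast h3

theorem piv (F r ι : Type) [Field F] [Fintype r] [DecidableEq r] [Fintype ι] (A : Matrix r ι F) :
    (∀ c, c ᵥ* A = 0 → c = 0) ↔
      ∃ p : r → ι, Function.Injective p ∧ (A.submatrix id p).det ≠ 0 := by
  constructor
  · intro h
    have h1 : LinearIndependent F A.row := Fintype.linearIndependent_iff.2 fun c hc =>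
      congrFun (h c (by rw [← hc, vecMul_eq_sum]; rfl))
    obtain ⟨κ, a, ha, hs, hl⟩ := exists_linearIndependent' F A.col
    have := Finite.of_injective a ha
    have := Fintype.ofFinite κ
    have h2 := finrank_span_eq_card hl
    rw [hs, ← rank_eq_finrank_span_cols, h1.rank_matrix] at h2
    let e := Fintype.equivOfCardEq h2
    refine ⟨a ∘ e, ha.comp e.injective, ((isUnit_iff_isUnit_det _).1
      (linearIndependent_cols_iff_isUnit.1 ?_)).ne_zero⟩
    exact hl.comp e e.injective
  · rintro ⟨p, -, hp⟩ c hc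
    exact eq_zero_of_vecMul_eq_zero hp (funext fun j => congrFun hc (p j))

theorem flag (F : Type) [Field F] (W : Fin 9 → Submodule F (Fin 9 → F))
    (h : ∀ (a : Fin 9) (v : Fin 9 → Fin 9 → F), (∀ b, b < a → v b ∈ W b) →
      LinearIndependent F (fun b : {b // b < a} => v b) →
      ¬ W a ≤ Submodule.span F (Set.range fun b : {b // b < a} => v b)) :
    ∃ G : Matrix (Fin 9) (Fin 9) F, G.det ≠ 0 ∧ ∀ a, G a ∈ W a := by
  have key : ∀ n, n ≤ 9 → ∃ v : Fin 9 → Fin 9 → F, (∀ b : Fin 9, b.val < n → v b ∈ W b) ∧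
      LinearIndepOn F v {b | b.val < n} := by
    intro n
    induction n with
    | zero => exact fun _ => ⟨0, fun _ hb => absurd hb (Nat.not_lt_zero _), by simp⟩
    | succ n ih =>
      intro hn
      obtain ⟨v, v1, v2⟩ := ih (Nat.le_of_succ_le hn)
      obtain ⟨w, w1, w2⟩ := SetLike.not_le_iff_exists.1 (h ⟨n, hn⟩ v v1 v2)
      have e : Set.EqOn v (Function.update v ⟨n, hn⟩ w) {b | b.val < n} := fun b hb =>
        (Function.update_of_ne (fun k => by simp [k] at hb) _ _).symm
      have s : {b : Fin 9 | b.val < n + 1} = insert ⟨n, hn⟩ {b | b.val < n} := by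
        ext b
        simp only [Set.mem_ofPred_eq, Set.mem_insert_iff, Fin.ext_iff]
        omega
      refine ⟨Function.update v ⟨n, hn⟩ w, fun b hb => ?_, ?_⟩
      · rcases s.le hb with rfl | hb
        · rwa [Function.update_self]
        · exact e hb ▸ v1 b hb
      · rw [s]
        refine (v2.congr e).insert ?_
        rwa [Function.update_self, ← e.image_eq, Set.image_eq_range]
  obtain ⟨v, v1, v2⟩ := key 9 le_rfl
  refine ⟨Matrix.of v, ((isUnit_iff_isUnit_det _).1
    (linearIndependent_rows_iff_isUnit.1 ?_)).ne_zero, fun a => v1 a a.2⟩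
  exact v2.comp (fun b => ⟨b, b.2⟩) fun _ _ k => congrArg Subtype.val k

end Lin

theorem lin : LinS :=
  ⟨Lin.card, Lin.piv, Lin.flag, fun F _ W h => Lin.flag F W fun a v _ hv hle => by
    have h1 := Submodule.finrank_mono hle
    have h2 : Fintype.card {b // b < a} = a.val := by
      rw [Fintype.card_subtype, Finset.filter_gt_eq_Iio, Fin.card_Iio]
    rw [finrank_span_eq_card hv, h2] at h1
    exact absurd (h a) (not_lt.2 h1)⟩

end Pool.Agent.MP_b834b3_ag.G20
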