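import Pool.Agent.MP_b834b3_ag.g.SpecB

/-! Genus twenty: the transition between two charts. -/

namespace Pool.Agent.MP_b834b3_ag.G20

open Algebra Matrix

namespace Loc

lemma adj_mul {F : Type} [Field F] (f : Fin 4 → Fin 9) (N : Matrix (Fin 4) (Fin 9) F)
    (h : (N.submatrix id f).det ≠ 0) :
    (N.submatrix id f).adjugate * N = (N.submatrix id f).det • nm f N := by
  rw [nm, Matrix.inv_def, Ring.inverse_eq_inv, Matrix.smul_mul, smul_smul, mul_inv_cancel₀ h,
    one_smul]

lemma map_adj {R F : Type} [CommRing R] [CommRing F] (σ : R →+* F) (f : Fin 4 → Fin 9)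
    (N : Matrix (Fin 4) (Fin 9) R) (i : Fin 4) (c : Fin 9) :
    σ (((N.submatrix id f).adjugate * N) i c) =
      (((N.map σ).submatrix id f).adjugate * N.map σ) i c := by
  have h : ((N.submatrix id f).adjugate).map σ = ((N.map σ).submatrix id f).adjugate :=
    σ.map_adjugate (N.submatrix id f)
  rw [← h, ← Matrix.map_mul]; rfl

lemma map_det {R F : Type} [CommRing R] [CommRing F] (σ : R →+* F) (f : Fin 4 → Fin 9)
    (N : Matrix (Fin 4) (Fin 9) R) :
    σ (N.submatrix id f).det = ((N.map σ).submatrix id f).det := σ.map_det _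

variable {L : Type} [Field L] [Algebra K L] (M : Matrix (Fin 4) (Fin 9) L)

lemma val (f : Fin 4 → Fin 9) : (el M f).map (chart M f).val.toRingHom = nm f M := rfl

lemma udet (hP : PtS) (f f' : Fin 4 → Fin 9) :
    ((((el M f).submatrix id f').det : chart M f) : L) =
      (M.submatrix id f').det / (M.submatrix id f).det :=
  (map_det (chart M f).val.toRingHom f' (el M f)).trans (by rw [val]; exact hP.det_nm L f f' M)

lemma locAt (hP : PtS) {f f' : Fin 4 → Fin 9} (h : (M.submatrix id f).det ≠ 0)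
    (h' : (M.submatrix id f').det ≠ 0) : LocAt M f f' := by
  rintro ⟨b, hb⟩
  have hu := udet M hP f f'
  induction hb using Algebra.adjoin_induction with
  | mem x hx =>
    obtain ⟨⟨i, c⟩, rfl⟩ := hx
    refine ⟨1, (((el M f).submatrix id f').adjugate * el M f) i c, ?_, ?_⟩
    · have e : nm f' (nm f M) = nm f' M := by
        conv_rhs => rw [(hP.nm_one L f M h).2, hP.nm_mul L f' _ _ h]
      have d := hP.det_nm L f f' M
      refine (map_adj (chart M f).val.toRingHom f' (el M f) i c).trans ?_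
      rw [val, adj_mul f' _ (by rw [d]; exact div_ne_zero h' h), e, d, pow_one]
      rfl
    · intro F _ _ χ χ' h1 h2
      refine (map_adj χ.toRingHom f' (el M f) i c).trans ?_
      refine (congrFun (congrFun (adj_mul f' ((el M f).map χ) h1) i) c).trans ?_
      rw [← h2, pow_one]
      rfl
  | algebraMap r =>
    refine ⟨0, algebraMap K _ r, by simp, fun F _ _ χ χ' _ _ => ?_⟩
    rw [pow_zero, one_mul, χ.commutes]
    exact (χ'.commutes r).symm
  | add x y hx hy ihx ihy =>
    obtain ⟨n, a, e, k⟩ := ihx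
    obtain ⟨n', a', e', k'⟩ := ihy
    refine ⟨n + n', ((el M f).submatrix id f').det ^ n' * a +
      ((el M f).submatrix id f').det ^ n * a', ?_, fun F _ _ χ χ' h1 h2 => ?_⟩
    · push_cast
      rw [hu, e, e']
      push_cast
      ring
    · have d : χ ((el M f).submatrix id f').det = (((el M f).map χ).submatrix id f').det :=
        map_det χ.toRingHom f' _
      have s : χ' ⟨x + y, add_mem hx hy⟩ = χ' ⟨x, hx⟩ + χ' ⟨y, hy⟩ := map_add χ' ⟨x, hx⟩ ⟨y, hy⟩
      rw [map_add, map_mul, map_mul, map_pow, map_pow, d, k F χ χ' h1 h2, k' F χ χ' h1 h2]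
      refine Eq.trans ?_ (congrArg _ s.symm)
      ring
  | mul x y hx hy ihx ihy =>
    obtain ⟨n, a, e, k⟩ := ihx
    obtain ⟨n', a', e', k'⟩ := ihy
    refine ⟨n + n', a * a', ?_, fun F _ _ χ χ' h1 h2 => ?_⟩
    · push_cast
      rw [e, e']
      push_cast
      ring
    · have s : χ' ⟨x * y, mul_mem hx hy⟩ = χ' ⟨x, hx⟩ * χ' ⟨y, hy⟩ := map_mul χ' ⟨x, hx⟩ ⟨y, hy⟩
      rw [map_mul, k F χ χ' h1 h2, k' F χ χ' h1 h2]
      refine Eq.trans ?_ (congrArg _ s.symm)
      ring

lemma relAt (hP : PtS) {f f' : Fin 4 → Fin 9} (hl : LocAt M f f') : RelAt M f f' := by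
  intro F _ _ χ χ' h1 h2 a a' b b' e
  obtain ⟨n, c, ec, kc⟩ := hl b
  obtain ⟨n', c', ec', kc'⟩ := hl b'
  have hu := udet M hP f f'
  have e1 : a * c * ((el M f).submatrix id f').det ^ n' =
      a' * c' * ((el M f).submatrix id f').det ^ n := by
    apply Subtype.ext
    push_cast
    rw [hu, ec, ec']
    linear_combination ((M.submatrix id f').det / (M.submatrix id f).det) ^ (n + n') * e
  have d : χ ((el M f).submatrix id f').det = (((el M f).map χ).submatrix id f').det :=
    map_det χ.toRingHom f' _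
  have e2 := congrArg χ e1
  rw [map_mul, map_mul, map_mul, map_mul, map_pow, map_pow, d, kc F χ χ' h1 h2,
    kc' F χ χ' h1 h2] at e2
  refine mul_left_cancel₀ (pow_ne_zero (n + n') h1) ?_
  linear_combination e2

end Loc

theorem loc_s (hP : PtS) : LocS := fun _ _ _ M _ _ h h' =>
  ⟨Loc.locAt M hP h h', Loc.relAt M hP (Loc.locAt M hP h h')⟩

end Pool.Agent.MP_b834b3_ag.G20
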