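import Pool.Agent.MP_b834b3_ag.g.SpecA

/-! Genus twenty: the count of parameters. -/

namespace Pool.Agent.MP_b834b3_ag.G20

open Matrix

namespace Ml

lemma exch {F Ω σ : Type} [Field F] [Field Ω] [Algebra F Ω] [Fintype σ] (Y : Set Ω)
    (hY : Y.Finite) (t : σ → Ω) (ht : AlgebraicIndependent F t)
    (h : ∀ s, t s ∈ IntermediateField.adjoin F Y) :
    ∃ (I : Set Ω) (_ : Fintype I), I ⊆ Y ∧ AlgebraicIndependent F ((↑) : I → Ω) ∧
      Fintype.card σ ≤ Fintype.card I := by
  obtain ⟨I, hI⟩ := (AlgebraicIndependent.matroid F Ω).exists_isBasis Y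
  let j := (hY.subset hI.subset).fintype
  refine ⟨I, j, hI.subset, hI.indep, ?_⟩
  have h1 : Set.range t ⊆ (AlgebraicIndependent.matroid F Ω).closure Y := by
    rintro _ ⟨s, rfl⟩
    rw [AlgebraicIndependent.matroid_closure_eq, SetLike.mem_coe,
      Subalgebra.mem_algebraicClosure, ← IntermediateField.isAlgebraic_adjoin_iff]
    exact isAlgebraic_algebraMap (⟨t s, h s⟩ : IntermediateField.adjoin F Y)
  have h2 : (AlgebraicIndependent.matroid F Ω).Indep (Set.range t) := ht.to_subtype_range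
  have h3 := (AlgebraicIndependent.matroid F Ω).eRk_mono h1
  rw [h2.eRk_eq_encard, Matroid.eRk_closure_eq, hI.eRk_eq_encard] at h3
  have h4 := ht.injective.encard_range.trans h3
  rw [Set.encard, ENat.card_eq_coe_fintype_card, ENat.card_eq_coe_fintype_card] at h4
  exact_mod_cast h4

variable {Ω : Type} [Field Ω] (E : Subfield Ω) {A B : Matrix (Fin 9) (Fin 9) Ω}

lemma inv_ent (h : ∀ a b, A a b ∈ E) (a b : Fin 9) : A⁻¹ a b ∈ E := by
  let A' : Matrix (Fin 9) (Fin 9) E := fun a b => ⟨A a b, h a b⟩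
  have e : A = E.subtype.mapMatrix A' := rfl
  rw [Matrix.inv_def, Ring.inverse_eq_inv', Matrix.smul_apply, smul_eq_mul, e, ← RingHom.map_det,
    ← RingHom.map_adjugate]
  exact mul_mem (inv_mem A'.det.2) (A'.adjugate a b).2

lemma mul_ent (h : ∀ a b, A a b ∈ E) (h' : ∀ a b, B a b ∈ E) (a b : Fin 9) : (A * B) a b ∈ E := by
  rw [Matrix.mul_apply]
  exact sum_mem fun c _ => mul_mem (h _ _) (h' _ _)

lemma ent_le (h : ∀ a b, A a b ∈ E) : Subfield.closure (ent A) ≤ E :=
  Subfield.closure_le.2 (by rintro _ ⟨x, rfl⟩; exact h _ _)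

lemma card_ix : Fintype.card Ix = 72 := by
  rw [Fintype.card_prod, Fintype.card_fin, Fintype.card_subtype]
  decide

end Ml

open Ml in
theorem ml (hF : FormS) (hL : LinS) (hS : StS) : MlS := by
  intro F Ω σ ν δ _ _ _ _ _ _ _ _ _ G T t p D hG hT ht hts hD hDs hN
  have dG : (G.map (algebraMap F Ω)).det ≠ 0 := by
    rw [← RingHom.mapMatrix_apply, ← RingHom.map_det]
    exact (map_ne_zero _).2 hG
  have eT : T = T * G.map (algebraMap F Ω) * (G.map (algebraMap F Ω))⁻¹ :=
    (Matrix.mul_nonsing_inv_cancel_right _ _ (Ne.isUnit dG)).symm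
  have dH : (T * G.map (algebraMap F Ω)).det ≠ 0 := by
    rw [Matrix.det_mul]
    exact mul_ne_zero hT dG
  generalize T * G.map (algebraMap F Ω) = H at eT dH hDs hN
  obtain ⟨I, _, hI, hu, hc⟩ := exch (F := F) (ent H) (Set.finite_range _) t ht fun s => by
    refine ent_le (IntermediateField.adjoin F (ent H)).toSubfield (fun a b => ?_) (hts s)
    rw [eT]
    exact mul_ent _ (fun a b => IntermediateField.subset_adjoin F (ent H) ⟨(a, b), rfl⟩)
      (inv_ent _ fun a b => (IntermediateField.adjoin F (ent H)).algebraMap_mem _) a b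
  obtain ⟨q, hq⟩ := hS Ω H dH
  let _ : Algebra ℂ F := ((algebraMap K F).comp (algebraMap ℂ K)).toAlgebra
  let _ : Algebra ℂ Ω := ((algebraMap K Ω).comp (algebraMap ℂ K)).toAlgebra
  have : IsScalarTower ℂ K F := .of_algebraMap_eq' rfl
  have : IsScalarTower ℂ F Ω :=
    .of_algebraMap_eq fun x => IsScalarTower.algebraMap_apply K F Ω _
  let E := (IntermediateField.adjoin ℂ (Set.range (Sum.elim p q))).toSubfield
  have e1 : ∀ i a b, (H * fm Ω i * Hᵀ) a b ∈ E := fun i a b =>
    (Subfield.closure_le (t := E)).2 (by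
      rintro _ ⟨x, rfl⟩
      exact IntermediateField.subset_adjoin ℂ _ ⟨.inl x, rfl⟩) (hN i a b)
  have e2 : ∀ a b, H a b ∈ E := fun a b =>
    (Subfield.closure_le (t := E)).2 (by
      rintro _ (⟨x, rfl⟩ | ⟨x, rfl⟩)
      · exact IntermediateField.subset_adjoin ℂ _ ⟨.inr x, rfl⟩
      · exact e1 0 _ _) (hq a b)
  have e3 : ∀ i a b, fm Ω i a b ∈ E := fun i a b => by
    have u : IsUnit H.det := Ne.isUnit dH
    have e : fm Ω i = H⁻¹ * (H * fm Ω i * Hᵀ) * (Hᵀ)⁻¹ := by
      rw [Matrix.mul_assoc, Matrix.mul_nonsing_inv_cancel_right _ _ (by rwa [Matrix.det_transpose]),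
        Matrix.nonsing_inv_mul_cancel_left _ _ u]
    rw [e]
    exact mul_ent E (mul_ent E (inv_ent E e2) (e1 i)) (inv_ent E fun a b => e2 b a) a b
  have key := hL.card ℂ Ω (I ⊕ δ ⊕ Ix) _ _ (Sum.elim p q) ((hF.indep.sumElim_comp hD).sumElim_comp hu) (by
    rintro (x | d | ⟨i, x⟩)
    · obtain ⟨_, hx⟩ := x
      obtain ⟨y, rfl⟩ := hI hx
      exact e2 _ _
    · exact ent_le E e2 (hDs d)
    · have := e3 i.succ x.1.1 x.1.2
      rw [hF.entry, IsScalarTower.algebraMap_apply K F Ω] at this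
      exact this)
  simp only [Fintype.card_sum, card_ix, Fintype.card_fin] at key
  omega

end Pool.Agent.MP_b834b3_ag.G20
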