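import Pool.Agent.MP_b834b3_ag.g.SpecC

/-! Genus twenty: the projective model. -/

namespace Pool.Agent.MP_b834b3_ag.G20

open AlgebraicGeometry CategoryTheory Algebra Matrix Pool.Agent.MP_fd6584_ag.Pj

attribute [local instance] MvPolynomial.gradedAlgebra in
theorem exist_s (hB : Base) (hG : GenS) (hC : ChS) : ExistS := by
  obtain ⟨L, _, _, M, hM⟩ := hG
  have h := hC L M hM
  obtain ⟨Y⟩ := exists_model (𝕜 := K) (K := L)
    (ι := {f : Fin 4 → Fin 9 // (M.submatrix id f).det ≠ 0}) ⟨fun f => chart M f.1,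
    fun f => (M.submatrix id f.1).det, fun f => f.2,
    fun f f' => h.det f'.1 f.1 ▸ (((el M f'.1).submatrix id f.1).det).2,
    fun f f' c hc => by
      obtain ⟨n, a, ha, -⟩ := (h.loc f'.1 f.1 f'.2 f.2).1 ⟨c, hc⟩
      exact ⟨n, ha ▸ a.2⟩,
    fun f => Subalgebra.fg_def.2 ⟨_, Set.finite_range _, rfl⟩,
    fun O hO => by
      obtain ⟨p, hp, -⟩ := hB.pl.ofVal L L (AlgHom.id K L) O hO
      obtain ⟨j, α, hα, -⟩ := h.place p
      exact ⟨⟨ff j, h.ne j⟩, fun c hc => (hp c).1 (hα ⟨c, hc⟩ ▸ (α ⟨c, hc⟩).2 :)⟩,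
    fun f => h.frac f.1 f.2⟩
  refine ⟨Y.X, Y.s, Y.proj, ?_, L, _, _, M, hM, Y.ch, Y.openImm, Y.cover, Y.ch_s, Y.gen⟩
  obtain ⟨n, i, hi, e⟩ := Y.proj
  rw [← e]
  infer_instance

end Pool.Agent.MP_b834b3_ag.G20
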