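import Pool.Agent.MP_b834b3_ag.g.SpecB

/-! Genus twenty: a curve of planes with a nonconstant function is not contracted. -/

namespace Pool.Agent.MP_b834b3_ag.G20

open AlgebraicGeometry CategoryTheory Algebra IsLocalRing Limits MvPolynomial Matrix

namespace Nc

/-- If the point of a plane is closed, then it is the centre of every place. -/
theorem centre (hB : Base) {F : Type} [Field F] [Algebra K F] (M : Matrix (Fin 4) (Fin 9) F)
    (hI : Iso M) (hR : Rk M) (hA : Alg (pt M)) (p : Pl F) (N : Matrix (Fin 4) (Fin 9) p.O)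
    (hC : Cen p M N) : pt (N.map p.π) = pt M := by
  obtain ⟨⟨g, hg, hN⟩, hrk⟩ := hC
  have hd : (M.submatrix id (ff (cellOf M))).det ≠ 0 := hB.ech F M hI hR
  have ha := (hB.pt.alg F M).1 hA
  generalize ff (cellOf M) = f at hd ha
  obtain ⟨h1, h2⟩ := hB.pt.nm_one F f M hd
  let R : IntermediateField K F := algebraicClosure K F
  let N0 : Matrix (Fin 4) (Fin 9) R :=
    Matrix.of fun a c => ⟨nm f M a c, mem_algebraicClosure_iff.2 (ha a c)⟩
  let ι : R →ₐ[K] p.O := R.val.codRestrict p.O fun r =>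
    hB.pl.alg_mem F p r (mem_algebraicClosure_iff.1 r.2)
  have e0 : N0.map R.val = nm f M := rfl
  have e1 : (N0.map ι).map p.O.val = nm f M := rfl
  have e2 : pt M = pt N0 := by
    rw [← hB.pt.pt_map R F R.val N0, e0, ← hB.pt.pt_mul F _ (nm f M) hd, ← h2]
  have e3 : N.map p.O.val = (g * M.submatrix id f) * nm f M := by
    rw [hN, Matrix.mul_assoc, ← h2]
  have e4 : (N.submatrix id f).map p.O.val = g * M.submatrix id f := by
    rw [← Matrix.submatrix_map, hN]
    rfl
  have e5 : N = N.submatrix id f * N0.map ι := by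
    apply Matrix.map_injective (f := p.O.val) Subtype.val_injective
    change N.map p.O.val = (N.submatrix id f * N0.map ι).map p.O.val
    rw [Matrix.map_mul, e4, e1, e3]
  have e6 : N.map p.π = (N.submatrix id f).map p.π * N0.map (p.π.comp ι) := by
    conv_lhs => rw [e5]
    rw [Matrix.map_mul]
    rfl
  rw [e6] at hrk ⊢
  rw [hB.pt.pt_mul p.E _ _ ((hB.pt.rk_mul p.E _ _).2 hrk).1, hB.pt.pt_map, e2]

/-- The inverse of a transcendental element has a pole. -/
theorem pole (hB : Base) {F : Type} [Field F] [Algebra K F] (φ : F) (h0 : φ ≠ 0)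
    (ht : ¬ IsAlgebraic K φ⁻¹) : ∃ p : Pl F, φ ∉ p.O := by
  have hinj : Function.Injective (Polynomial.aeval φ⁻¹ : Polynomial K →ₐ[K] F) :=
    transcendental_iff_injective.1 ht
  have hP : (Ideal.span {(Polynomial.X : Polynomial K)}).IsPrime :=
    (Ideal.span_singleton_prime Polynomial.X_ne_zero).2 Polynomial.prime_X
  obtain ⟨p, α, hα, hz⟩ := hB.pl.ex F (Polynomial K) (Polynomial.aeval φ⁻¹) _ hP (by
    rw [(RingHom.injective_iff_ker_eq_bot _).1 hinj]
    exact bot_le)
  have hX : (α Polynomial.X : F) = φ⁻¹ := by rw [hα, Polynomial.aeval_X]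
  refine ⟨p, (hB.pl.zero F p φ).2 ⟨h0, hX ▸ (α Polynomial.X).2, ?_⟩⟩
  have h := (hz Polynomial.X).2 (Ideal.mem_span_singleton_self _)
  rw [← h]
  exact congrArg p.π (Subtype.ext hX.symm)

end Nc

/-- The curve of a relation is not contracted. -/
theorem nc (hB : Base) : NcS := by
  intro G F _ _ M φ x h hA
  obtain ⟨-, hI, hR, h0, -, hpole, -, p, N, hC, hz, hx⟩ := h
  obtain ⟨q, hq⟩ := Nc.pole hB φ h0 fun ha => hz (hB.pl.alg_mem F p _ ha)
  obtain ⟨N', hC'⟩ := hB.pl.prop F q M hR
  exact (hpole q N' hC' hq).2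
    ((Nc.centre hB M hI hR hA q N' hC').trans ((Nc.centre hB M hI hR hA p N hC).symm.trans hx))

end Pool.Agent.MP_b834b3_ag.G20
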