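import Pool.Agent.MP_b834b3_ag.g.SpecB

/-! Genus twenty: the parametrizations of the four charts. -/

namespace Pool.Agent.MP_b834b3_ag.G20

open Matrix

namespace Par

variable {R : Type} [CommRing R]

lemma det4 (M : Matrix (Fin 4) (Fin 4) R) : M.det =
    M 0 0 * (M 1 1 * (M 2 2 * M 3 3 - M 2 3 * M 3 2) - M 1 2 * (M 2 1 * M 3 3 - M 2 3 * M 3 1) +
      M 1 3 * (M 2 1 * M 3 2 - M 2 2 * M 3 1)) -
    M 0 1 * (M 1 0 * (M 2 2 * M 3 3 - M 2 3 * M 3 2) - M 1 2 * (M 2 0 * M 3 3 - M 2 3 * M 3 0) +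
      M 1 3 * (M 2 0 * M 3 2 - M 2 2 * M 3 0)) +
    M 0 2 * (M 1 0 * (M 2 1 * M 3 3 - M 2 3 * M 3 1) - M 1 1 * (M 2 0 * M 3 3 - M 2 3 * M 3 0) +
      M 1 3 * (M 2 0 * M 3 1 - M 2 1 * M 3 0)) -
    M 0 3 * (M 1 0 * (M 2 1 * M 3 2 - M 2 2 * M 3 1) - M 1 1 * (M 2 0 * M 3 2 - M 2 2 * M 3 0) +
      M 1 2 * (M 2 0 * M 3 1 - M 2 1 * M 3 0)) := by
  simp [det_succ_row_zero, Fin.sum_univ_succ, Fin.succAbove]
  ring

/-- the table of the minors -/
def tb (v : Fin 14 → R) : Fin 4 → Fin 4 → R :=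
  ![![1, v 9, -v 7, v 13], ![v 0, 1, -v 3 ^ 2 - v 9 * v 0, v 13],
    ![-v 0, -v 1 ^ 2 - v 6 * v 0, 1, v 1 * v 13 - v 12 * v 0],
    ![v 0, v 1, v 4 * (v 7 * v 0 - v 4 * v 1) - v 13 * v 0, 1]]

lemma mn_par (j i : Fin 4) (v : Fin 14 → R) : mn i (par j v) = tb v j i := by
  rw [mn, det4]
  fin_cases j <;> fin_cases i <;> simp [par, ff, tb] <;> ring

lemma all9 {P : Fin 4 → Fin 9 → Prop} (h : ∀ a, P a 0 ∧ P a 1 ∧ P a 2 ∧ P a 3 ∧ P a 4 ∧ P a 5 ∧
    P a 6 ∧ P a 7 ∧ P a 8) (a : Fin 4) (c : Fin 9) : P a c := by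
  obtain ⟨_, _, _, _, _, _, _, _, _⟩ := h a
  fin_cases c <;> assumption

lemma map {S : Type} [CommRing S] (σ : R →+* S) (j : Fin 4) (v : Fin 14 → R) :
    (par j v).map σ = par j (σ ∘ v) := by
  fin_cases j <;> refine Matrix.ext (all9 fun a => ?_) <;> fin_cases a <;> simp [par]

lemma iso (hF : FormS) [Algebra K R] (j : Fin 4) (v : Fin 14 → R) :
    par j v * fm R 0 * (par j v)ᵀ = 0 := by
  ext a b
  rw [hF.mul, hF.zero]
  fin_cases j <;> fin_cases a <;> fin_cases b <;> simp [par] <;> ring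

lemma eq (hF : FormS) [Algebra K R] (j : Fin 4) (N : Matrix (Fin 4) (Fin 9) R)
    (h1 : N.submatrix id (ff j) = 1) (h2 : N * fm R 0 * Nᵀ = 0) :
    N = par j fun x => N (sc j x).1 (sc j x).2 := by
  have p : ∀ a b, N a (ff j b) = if a = b then 1 else 0 := fun a b => congrFun (congrFun h1 a) b
  have e := fun a b => (hF.zero R _ _).symm.trans ((hF.mul R _ _ N N _ a b).symm.trans
    (show _ = (0 : R) from congrFun (congrFun h2 a) b))
  have e01 := e 0 1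
  have e02 := e 0 2
  have e03 := e 0 3
  have e12 := e 1 2
  have e13 := e 1 3
  have e23 := e 2 3
  clear e h1 h2
  fin_cases j <;> simp [Fin.forall_fin_succ, ff] at p <;>
    obtain ⟨⟨_, _, _, _⟩, ⟨_, _, _, _⟩, ⟨_, _, _, _⟩, _, _, _, _⟩ := p <;>
    refine Matrix.ext (all9 fun a => ?_) <;> fin_cases a <;> simp [par, sc] <;> grind

lemma cell {F : Type} [Field F] (j : Fin 4) (v : Fin 14 → F) :
    cellOf (par j v) = j ↔ ∀ x : Fin 14, x.val < nz j → v x = 0 := by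
  have h : (∀ x : Fin 14, x.val < nz j → v x = 0) ↔
      (0 < nz j → v 0 = 0) ∧ (1 < nz j → v 1 = 0) :=
    ⟨fun h => ⟨h 0, h 1⟩, fun h x hx => by
      have h2 : ∀ j, nz j ≤ 2 := by decide
      have := h2 j
      rcases (by omega : x = 0 ∨ x = 1) with rfl | rfl
      exacts [h.1 hx, h.2 hx]⟩
  rw [h, cellOf]
  split_ifs with h0 h1 h2 <;> simp only [mn_par] at * <;> fin_cases j <;>
    simp [tb, nz] at * <;> grind

end Par

theorem par_s (hF : FormS) : ParS where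
  map _ _ _ _ := Par.map
  one R _ j v := by
    ext a b
    fin_cases j <;> fin_cases a <;> fin_cases b <;> rfl
  iso _ _ _ := Par.iso hF
  sec R _ j v x := by fin_cases j <;> fin_cases x <;> rfl
  eq _ _ _ := Par.eq hF
  cell _ _ := Par.cell
  mn0 R _ j v h := by
    rw [Par.mn_par]
    fin_cases j <;> simp [Par.tb] at h ⊢
  ne0 j := ⟨1, by rw [Par.mn_par]; fin_cases j <;> simp [Par.tb]⟩
  ne1 j h := ⟨Function.update 1 0 0, rfl, by
    rw [Par.mn_par]; fin_cases j <;> simp [Par.tb] at h ⊢⟩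
  ne2 j h := ⟨Function.update 1 0 0, rfl, by
    rw [Par.mn_par]; fin_cases j <;> simp [Par.tb] at h ⊢⟩

end Pool.Agent.MP_b834b3_ag.G20
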