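import Pool.Agent.MP_b834b3_ag.g.SpecA

/-! The count of parameters for patterns of zeros. -/

namespace Pool.Agent.MP_b834b3_ag.G20

open Matrix

namespace Pat

/-- alternating matrices that vanish on `Z` -/
structure Alt {Ω : Type} [Field Ω] (Z : Finset (Fin 9 × Fin 9)) (N : Matrix (Fin 9) (Fin 9) Ω) :
    Prop where
  skew : ∀ a b, N a b = -N b a
  diag : ∀ a, N a a = 0
  zero : ∀ x ∈ Z, N x.1 x.2 = 0

abbrev U (Z : Finset (Fin 9 × Fin 9)) : Type := {x : Fin 9 × Fin 9 // x.1 < x.2 ∧ x ∉ Z}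

lemma card_U (Z : Finset (Fin 9 × Fin 9)) : Fintype.card (U Z) = fre Z := Fintype.card_subtype _

variable {Ω : Type} [Field Ω] {S Z : Finset (Fin 9 × Fin 9)}

lemma Alt.mem {N : Matrix (Fin 9) (Fin 9) Ω} (h : Alt Z N) (E : Subfield Ω)
    (hE : ∀ x : U Z, N x.1.1 x.1.2 ∈ E) (a b : Fin 9) : N a b ∈ E := by
  have key : ∀ a b, a < b → N a b ∈ E := fun a b hab => by
    by_cases hz : (a, b) ∈ Z
    · rw [h.zero _ hz]
      exact E.zero_mem
    · exact hE ⟨(a, b), hab, hz⟩
  rcases lt_trichotomy a b with e | rfl | e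
  · exact key a b e
  · rw [h.diag]
    exact E.zero_mem
  · rw [h.skew]
    exact E.neg_mem (key b a e)

lemma Alt.zero' {N T : Matrix (Fin 9) (Fin 9) Ω} (h : Alt Z N) (hc : Cl S Z)
    (hT : ∀ a c, (a, c) ∉ S → T a c = 0) : ∀ x ∈ Z, (T * N * Tᵀ) x.1 x.2 = 0 := by
  intro x hx
  simp only [mul_apply, transpose_apply, Finset.sum_mul]
  refine Finset.sum_eq_zero fun d _ => Finset.sum_eq_zero fun c _ => ?_
  by_cases h1 : (x.1, c) ∈ S
  · by_cases h2 : (x.2, d) ∈ S
    · rcases hc x hx c d h1 h2 with rfl | e | e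
      · rw [h.diag, mul_zero, zero_mul]
      · rw [h.zero _ e, mul_zero, zero_mul]
      · rw [h.skew, h.zero _ e, neg_zero, mul_zero, zero_mul]
    · rw [hT _ _ h2, mul_zero]
  · rw [hT _ _ h1, zero_mul, zero_mul]

variable [Algebra K Ω]

lemma fw_mul (A : Matrix (Fin 9) (Fin 9) Ω) (w : Fin 3 → Ω) (a b : Fin 9) :
    (A * fw w * Aᵀ) a b = ∑ i, w i * (A * fm Ω i * Aᵀ) a b := by
  simp only [fw, Matrix.mul_sum, Matrix.sum_mul, Matrix.mul_smul, Matrix.smul_mul,
    Matrix.sum_apply, Matrix.smul_apply, smul_eq_mul]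

lemma alt_fm (hF : FormS) (A : Matrix (Fin 9) (Fin 9) Ω) (i : Fin 3)
    (h : ∀ x ∈ Z, (A * fm Ω i * Aᵀ) x.1 x.2 = 0) : Alt Z (A * fm Ω i * Aᵀ) where
  skew a b := by
    have : (A * fm Ω i * Aᵀ)ᵀ = -(A * fm Ω i * Aᵀ) := by
      rw [transpose_mul, transpose_mul, transpose_transpose, hF.skew, Matrix.neg_mul,
        Matrix.mul_neg, Matrix.mul_assoc]
    exact congrFun (congrFun this b) a
  diag a := by rw [hF.mul, hF.diag]
  zero := h

lemma alt_fw (hF : FormS) (A : Matrix (Fin 9) (Fin 9) Ω) (w : Fin 3 → Ω)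
    (h : ∀ x ∈ Z, (A * fw w * Aᵀ) x.1 x.2 = 0) : Alt Z (A * fw w * Aᵀ) where
  skew a b := by
    rw [fw_mul, fw_mul, ← Finset.sum_neg_distrib]
    refine Finset.sum_congr rfl fun i _ => ?_
    rw [(alt_fm (Z := ∅) hF A i (by simp)).skew, mul_neg]
  diag a := by
    rw [fw_mul]
    refine Finset.sum_eq_zero fun i _ => ?_
    rw [(alt_fm (Z := ∅) hF A i (by simp)).diag, mul_zero]
  zero := h

omit [Algebra K Ω] in
lemma assoc (T G N : Matrix (Fin 9) (Fin 9) Ω) :
    T * G * N * (T * G)ᵀ = T * (G * N * Gᵀ) * Tᵀ := by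
  simp only [transpose_mul, Matrix.mul_assoc]

omit [Algebra K Ω] in
lemma map_zero' {F : Type} [Field F] [Algebra F Ω] (G N : Matrix (Fin 9) (Fin 9) F)
    (h : ∀ x ∈ Z, (G * N * Gᵀ) x.1 x.2 = 0) : ∀ x ∈ Z, (G.map (algebraMap F Ω) *
      N.map (algebraMap F Ω) * (G.map (algebraMap F Ω))ᵀ) x.1 x.2 = 0 := fun x hx => by
  rw [← transpose_map, ← Matrix.map_mul, ← Matrix.map_mul, map_apply, h x hx, map_zero]

/-- the generic matrix of the shape `S` -/
lemma generic (F : Type) [Field F] (S : Finset (Fin 9 × Fin 9)) (hS : ∀ a, (a, a) ∈ S) :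
    ∃ T : Matrix (Fin 9) (Fin 9) (FractionRing (MvPolynomial S F)),
      (∀ a c, (a, c) ∉ S → T a c = 0) ∧ T.det ≠ 0 ∧
      AlgebraicIndependent F fun s : S => T s.1.1 s.1.2 := by
  let T : Matrix (Fin 9) (Fin 9) (MvPolynomial S F) :=
    of fun a c => if h : (a, c) ∈ S then MvPolynomial.X ⟨(a, c), h⟩ else 0
  have hi := IsFractionRing.injective (MvPolynomial S F) (FractionRing (MvPolynomial S F))
  refine ⟨(algebraMap _ _).mapMatrix T, fun a c h => by simp [T, h], ?_, ?_⟩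
  · rw [← RingHom.map_det, map_ne_zero_iff _ hi]
    intro h0
    have h1 : (MvPolynomial.eval fun s : S => if s.1.1 = s.1.2 then (1 : F) else 0).mapMatrix T =
        1 := by
      ext a c
      by_cases h : (a, c) ∈ S
      · simp [T, h, one_apply]
      · have : a ≠ c := fun e => h (e ▸ hS a)
        simp [T, h, this]
    have h2 := congrArg det h1
    rw [← RingHom.map_det, h0, map_zero, det_one] at h2
    exact zero_ne_one h2
  · have := (MvPolynomial.algebraicIndependent_X S F).map'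
      (f := IsScalarTower.toAlgHom F (MvPolynomial S F) (FractionRing (MvPolynomial S F))) hi
    refine (congrArg (fun x : S → FractionRing (MvPolynomial S F) => AlgebraicIndependent F x)
      (funext fun s => ?_)).mp this
    simp [T]

end Pat

open Pat in
theorem pat (hF : FormS) (hM : MlS) : PatS where
  all F δ _ _ _ G S Z D hG hS hc hZ hD hT := by
    obtain ⟨T, t1, t2, t3⟩ := generic F S hS
    let Ω := FractionRing (MvPolynomial S F)
    have hm : ∀ i, (fm F i).map (algebraMap F Ω) = fm Ω i :=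
      (hF.map F Ω (IsScalarTower.toAlgHom K F Ω) 0).1
    have hA : ∀ i, Alt Z (T * G.map (algebraMap F Ω) * fm Ω i * (T * G.map (algebraMap F Ω))ᵀ) :=
      fun i => alt_fm hF _ i (by
        rw [Pat.assoc]
        exact (alt_fm hF _ i (hm i ▸ map_zero' G _ (hZ i))).zero' hc t1)
    have := hM F Ω S (Fin 3 × U Z) δ G T _
      (fun x => (T * G.map (algebraMap F Ω) * fm Ω x.1 * (T * G.map (algebraMap F Ω))ᵀ)
        x.2.1.1 x.2.1.2) D hG t2 t3 (fun s => Subfield.subset_closure ⟨s.1, rfl⟩) hD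
      (hT Ω T t1 t2) fun i => (hA i).mem _ fun x => Subfield.subset_closure ⟨(i, x), rfl⟩
    rwa [Fintype.card_coe, Fintype.card_prod, Fintype.card_fin, card_U] at this
  ker F _ _ G S Z Z' w hG hS hc hc' hw hZ hZ' := by
    obtain ⟨T, t1, t2, t3⟩ := generic F S hS
    let Ω := FractionRing (MvPolynomial S F)
    obtain ⟨i, hi⟩ := Function.ne_iff.1 hw
    obtain ⟨v, hv⟩ : ∃ v : Fin 3 → Ω, v = algebraMap F Ω ∘ w := ⟨_, rfl⟩
    have hv0 : v i ≠ 0 := hv ▸ (map_ne_zero (algebraMap F Ω)).2 hi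
    have hm : ∀ i, (fm F i).map (algebraMap F Ω) = fm Ω i :=
      (hF.map F Ω (IsScalarTower.toAlgHom K F Ω) 0).1
    have hm' : (fw w).map (algebraMap F Ω) = fw v :=
      hv ▸ (hF.map F Ω (IsScalarTower.toAlgHom K F Ω) w).2
    obtain ⟨H, hH⟩ : ∃ H, H = T * G.map (algebraMap F Ω) := ⟨_, rfl⟩
    have hA : ∀ i, Alt Z (H * fm Ω i * Hᵀ) := fun i => alt_fm hF _ i (by
      rw [hH, Pat.assoc]
      exact (alt_fm hF _ i (hm i ▸ map_zero' G _ (hZ i))).zero' hc t1)
    have hB : Alt Z' (H * fw v * Hᵀ) := alt_fw hF _ v (by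
      rw [hH, Pat.assoc]
      exact (alt_fw hF _ v (hm' ▸ map_zero' G _ hZ')).zero' hc' t1)
    have hC : Alt Z' (of fun a b => (H * fw v * Hᵀ) a b / v i) :=
      ⟨fun a b => by rw [of_apply, of_apply, hB.skew, neg_div],
        fun a => by rw [of_apply, hB.diag, zero_div],
        fun x hx => by rw [of_apply, hB.zero x hx, zero_div]⟩
    let p : (Fin 2 × U Z) ⊕ U Z' ⊕ Fin 2 → Ω :=
      Sum.elim (fun x => (H * fm Ω (i.succAbove x.1) * Hᵀ) x.2.1.1 x.2.1.2)
        (Sum.elim (fun x => (H * fw v * Hᵀ) x.1.1 x.1.2 / v i) fun j => v (i.succAbove j) / v i)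
    have h1 : ∀ j a b, (H * fm Ω (i.succAbove j) * Hᵀ) a b ∈ Subfield.closure (Set.range p) :=
      fun j => (hA _).mem _ fun x => Subfield.subset_closure ⟨.inl (j, x), rfl⟩
    have h2 : ∀ a b, (H * fw v * Hᵀ) a b / v i ∈ Subfield.closure (Set.range p) :=
      hC.mem _ fun x => Subfield.subset_closure ⟨.inr (.inl x), rfl⟩
    have := hM F Ω S _ Empty G T _ p Empty.elim hG t2 t3
      (fun s => Subfield.subset_closure ⟨s.1, rfl⟩) algebraicIndependent_empty_type
      (fun d => d.elim) fun k a b => by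
        rw [← hH]
        rcases Fin.eq_self_or_eq_succAbove i k with rfl | ⟨j, rfl⟩
        · have e : (H * fm Ω k * Hᵀ) a b = (H * fw v * Hᵀ) a b / v k -
              ∑ j, v (k.succAbove j) / v k * (H * fm Ω (k.succAbove j) * Hᵀ) a b := by
            rw [fw_mul, Fin.sum_univ_succAbove _ k, Fin.sum_univ_two, Fin.sum_univ_two]
            field_simp
            ring
          rw [e]
          exact sub_mem (h2 a b) (sum_mem fun j _ =>
            mul_mem (Subfield.subset_closure ⟨.inr (.inr j), rfl⟩) (h1 j a b))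
        · exact h1 j a b
    simp only [Fintype.card_coe, Fintype.card_sum, Fintype.card_prod, Fintype.card_fin, card_U,
      Fintype.card_eq_zero] at this
    omega

end Pool.Agent.MP_b834b3_ag.G20
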