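import Pool.Agent.MP_b834b3_ag.g.SpecB

/-! Genus twenty: the pole order along the hyperplane section. -/

namespace Pool.Agent.MP_b834b3_ag.G20

open Algebra Matrix

namespace Pole

variable {L : Type} [Field L] [Algebra K L] {M : Matrix (Fin 4) (Fin 9) L}

theorem coe_mn (hC : ChAt M) (i j : Fin 4) :
    ((mn j (el M (ff i)) : Ach M i) : L) = mn j M / mn i M := hC.det (ff i) (ff j)

/-- An exponent that is too large gives a multiple of the equation. -/
theorem cmp (hB : Base) (hC : ChAt M) (hH : HypAt M) {i j : Fin 4} (hi : i ≠ 0) (hj : j ≠ 0)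
    {g : L} {m n : ℕ} {a : Ach M i} {b : Ach M j} (ha : (a : L) = g * (mn 0 M / mn i M) ^ m)
    (hb : (b : L) = g * (mn 0 M / mn j M) ^ n) (h : n < m) :
    a ∈ Ideal.span {mn 0 (el M (ff i))} := by
  obtain ⟨F, _, _, N, -, -, -, hN⟩ := hH
  obtain ⟨ni, χ, e, k⟩ := hN i hi
  obtain ⟨nj, χ', e', -⟩ := hN j hj
  obtain ⟨d, rfl⟩ := Nat.exists_eq_add_of_lt h
  have h1 : (((el M (ff i)).map χ).submatrix id (ff j)).det ≠ 0 := by
    rw [e, hB.pt.det_nm]
    exact div_ne_zero nj ni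
  have h2 : (el M (ff j)).map χ' = nm (ff j) ((el M (ff i)).map χ) := by
    rw [e, e']
    refine (hB.pt.nm_mul F (ff j) _ N ?_).symm
    rw [det_nonsing_inv, Ring.inverse_eq_inv']
    exact inv_ne_zero ni
  have h3 := (hC.loc (ff i) (ff j) (hC.ne i) (hC.ne j)).2 F χ χ' h1 h2 a
    (mn j (el M (ff i)) ^ n * mn 0 (el M (ff i)) ^ (d + 1)) 1 b (by
      have := hC.ne i
      have := hC.ne j
      rw [Subalgebra.coe_mul, Subalgebra.coe_pow, Subalgebra.coe_pow, coe_mn hC, coe_mn hC, ha, hb,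
        Subalgebra.coe_one]
      simp only [div_pow]
      field_simp
      ring)
  have h4 : χ (mn 0 (el M (ff i))) = 0 := by
    rw [← RingHom.mem_ker, k]
    exact Ideal.mem_span_singleton_self _
  rw [← k, RingHom.mem_ker]
  simpa [h4] using h3

theorem unit (hB : Base) (g : Ach M 0) (h0 : g ≠ 0) (h : ∀ p : Pl L, (g : L) ∈ p.O) :
    IsUnit g := by
  have h0' : (g : L) ≠ 0 := fun e => h0 (Subtype.ext e)
  by_cases ha : IsAlgebraic K (g : L)
  · exact IsUnit.of_mul_eq_one ⟨_, Subalgebra.inv_mem_of_algebraic _ ha⟩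
      (Subtype.ext (mul_inv_cancel₀ h0'))
  have ht : Transcendental K (g : L)⁻¹ := fun e => ha (IsAlgebraic.inv_iff.1 e)
  obtain ⟨p, α, h1, h2⟩ := hB.pl.ex L (Polynomial K) (Polynomial.aeval (g : L)⁻¹)
    (Ideal.span {Polynomial.X}) ((Ideal.span_singleton_prime Polynomial.X_ne_zero).2
      Polynomial.prime_X) (by
        rw [(RingHom.injective_iff_ker_eq_bot _).1 (transcendental_iff_injective.1 ht)]
        exact bot_le)
  have h3 : (α Polynomial.X : L) = (g : L)⁻¹ := by rw [h1, Polynomial.aeval_X]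
  refine absurd (h p) ((hB.pl.zero L p g).2 ⟨h0', h3 ▸ (α Polynomial.X).2, ?_⟩)
  rw [← (h2 _).2 (Ideal.mem_span_singleton_self _)]
  exact congrArg _ (Subtype.ext h3.symm)

end Pole

open Pole

theorem pole_s (hB : Base) : PoleS := by
  classical
  intro L _ _ M hC _ hH g g0 gu
  have ex : ∀ j, ∃ n : ℕ, ∃ a : Ach M j, (a : L) = g * (mn 0 M / mn j M) ^ n := fun j => by
    obtain ⟨n, a, h, -⟩ := (hC.loc (ff j) (ff 0) (hC.ne j) (hC.ne 0)).1 g
    exact ⟨n, a, h.trans (mul_comm _ _)⟩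
  choose a ha using fun j => Nat.find_spec (ex j)
  have hn : ∀ j, 0 < Nat.find (ex j) → a j ∉ Ideal.span {mn 0 (el M (ff j))} := by
    intro j h0 hm
    obtain ⟨c, hc⟩ := Ideal.mem_span_singleton'.1 hm
    refine Nat.find_min (ex j) (Nat.sub_one_lt h0.ne') ⟨c, ?_⟩
    have h1 := ha j
    rw [← hc, Subalgebra.coe_mul, coe_mn hC, ← Nat.sub_one_add_one h0.ne', pow_succ,
      ← mul_assoc] at h1
    exact mul_right_cancel₀ (div_ne_zero (hC.ne 0) (hC.ne j)) h1
  have hle : ∀ i j, i ≠ 0 → j ≠ 0 → Nat.find (ex i) ≤ Nat.find (ex j) := fun i j hi hj =>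
    le_of_not_gt fun h => hn i (Nat.zero_lt_of_lt h) (cmp hB hC hH hi hj (ha i) (ha j) h)
  have he : ∀ j, j ≠ 0 → Nat.find (ex j) = Nat.find (ex 1) := fun j hj =>
    (hle j 1 hj one_ne_zero).antisymm (hle 1 j one_ne_zero hj)
  have h0 : 0 < Nat.find (ex 1) := by
    refine Nat.pos_of_ne_zero fun h => gu (unit hB g g0 fun p => ?_)
    obtain ⟨j, α, hα, -⟩ := hC.place p
    by_cases hj : j = 0
    · subst hj
      exact hα g ▸ (α g).2
    · have h1 := ha j
      rw [he j hj, h, pow_zero, mul_one] at h1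
      exact h1 ▸ hα (a j) ▸ (α (a j)).2
  exact ⟨_, h0, fun j hj => ⟨a j, he j hj ▸ ha j, hn j (he j hj ▸ h0)⟩⟩

end Pool.Agent.MP_b834b3_ag.G20
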