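import Pool.Agent.MP_b834b3_ag.g.SpecB

/-! Genus twenty: planes, cells and points. -/

namespace Pool.Agent.MP_b834b3_ag.G20

open Algebra MvPolynomial Matrix

namespace Pt

section Ring

variable {R S : Type} [CommRing R] [CommRing S]

theorem sub_mul (g : Matrix (Fin 4) (Fin 4) R) (M : Matrix (Fin 4) (Fin 9) R) (f : Fin 4 → Fin 9) :
    (g * M).submatrix id f = g * M.submatrix id f := rfl

theorem det_map (σ : R →+* S) (M : Matrix (Fin 4) (Fin 9) R) (f : Fin 4 → Fin 9) :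
    ((M.map σ).submatrix id f).det = σ (M.submatrix id f).det := (σ.map_det _).symm

theorem nm_unit (σ : R →+* S) (f : Fin 4 → Fin 9) (M : Matrix (Fin 4) (Fin 9) R)
    (h : IsUnit (M.submatrix id f).det) : nm f (M.map σ) = (nm f M).map σ := by
  have : ((M.submatrix id f).map σ)⁻¹ = (M.submatrix id f)⁻¹.map σ := inv_eq_left_inv (by
    rw [← Matrix.map_mul, nonsing_inv_mul _ h, Matrix.map_one _ (map_zero σ) (map_one σ)])
  unfold nm
  rw [Matrix.map_mul, ← this]
  rfl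

theorem vec_map {m n : Type} [Fintype m] (σ : R →+* S) (c : m → R) (M : Matrix m n R) :
    (σ ∘ c) ᵥ* M.map σ = σ ∘ (c ᵥ* M) := funext fun i => (σ.map_vecMul M c i).symm

theorem sand (g : Matrix (Fin 4) (Fin 4) R) (A B : Matrix (Fin 4) (Fin 9) R)
    (C : Matrix (Fin 9) (Fin 9) R) : g * A * C * (g * B)ᵀ = g * (A * C * Bᵀ) * gᵀ := by
  simp only [transpose_mul, Matrix.mul_assoc]

theorem form_map (hF : FormS) [Algebra K R] [Algebra K S] (σ : R →ₐ[K] S)
    (A B : Matrix (Fin 4) (Fin 9) R) (i : Fin 3) :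
    A.map σ * fm S i * (B.map σ)ᵀ = (A * fm R i * Bᵀ).map σ := by
  rw [← (hF.map R S σ 0).1 i, Matrix.map_mul, Matrix.map_mul, transpose_map]

end Ring

variable {F F' : Type} [Field F] [Field F']

theorem nm_one (f : Fin 4 → Fin 9) (M : Matrix (Fin 4) (Fin 9) F)
    (h : (M.submatrix id f).det ≠ 0) :
    (nm f M).submatrix id f = 1 ∧ M = M.submatrix id f * nm f M :=
  ⟨(sub_mul _ _ _).trans (nonsing_inv_mul _ h.isUnit),
    (mul_nonsing_inv_cancel_left _ _ h.isUnit).symm⟩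

theorem nm_mul (f : Fin 4 → Fin 9) (g : Matrix (Fin 4) (Fin 4) F) (M : Matrix (Fin 4) (Fin 9) F)
    (h : g.det ≠ 0) : nm f (g * M) = nm f M := by
  unfold nm
  rw [sub_mul, Matrix.mul_inv_rev, Matrix.mul_assoc, nonsing_inv_mul_cancel_left _ _ h.isUnit]

theorem nm_map (σ : F →+* F') (f : Fin 4 → Fin 9) (M : Matrix (Fin 4) (Fin 9) F) :
    nm f (M.map σ) = (nm f M).map σ := by
  by_cases h : (M.submatrix id f).det = 0
  · unfold nm
    rw [nonsing_inv_apply_not_isUnit _ (by rw [det_map, h]; simp),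
      nonsing_inv_apply_not_isUnit _ (by simp [h]), Matrix.zero_mul, Matrix.zero_mul,
      Matrix.map_zero _ (map_zero σ)]
  · exact nm_unit σ f M (Ne.isUnit h)

theorem rk_det (hL : LinS) (M : Matrix (Fin 4) (Fin 9) F) :
    Rk M ↔ ∃ f : Fin 4 → Fin 9, (M.submatrix id f).det ≠ 0 := by
  refine ⟨fun h => ?_, fun ⟨f, h⟩ c hc => eq_zero_of_vecMul_eq_zero h ?_⟩
  · obtain ⟨f, -, hf⟩ := (hL.piv F _ _ M).1 h
    exact ⟨f, hf⟩
  · funext a
    exact congrFun hc (f a)

theorem cell_congr {M : Matrix (Fin 4) (Fin 9) F} {M' : Matrix (Fin 4) (Fin 9) F'}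
    (h : ∀ j, mn j M = 0 ↔ mn j M' = 0) : cellOf M = cellOf M' := by
  unfold cellOf
  split_ifs <;> simp_all

theorem cell_iff (M : Matrix (Fin 4) (Fin 9) F) (j : Fin 4) (h : mn j M ≠ 0) :
    cellOf M ≤ j ∧ mn (cellOf M) M ≠ 0 ∧ (cellOf M = j ↔ ∀ i, i < j → mn i M = 0) := by
  unfold cellOf
  generalize (fun j => mn j M) = m at *
  split_ifs with h0 h1 h2 <;> fin_cases j <;> simp_all [Fin.forall_fin_succ]

theorem alg_ker {k A : Type} [Field k] [Algebra k F] [CommRing A] [Algebra k A] (φ : A →ₐ[k] F) :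
    trdeg k (A ⧸ RingHom.ker φ) = 0 ↔ ∀ a, IsAlgebraic k (φ a) := by
  have := RingHom.ker_isPrime φ
  rw [trdeg_eq_zero_iff]
  refine ⟨fun h a => (h.1 (Ideal.Quotient.mk _ a)).algHom (Ideal.kerLiftAlg φ),
    fun h => ⟨fun q => ?_⟩⟩
  obtain ⟨p, rfl⟩ := Ideal.Quotient.mk_surjective q
  exact (isAlgebraic_algHom_iff _ (Ideal.kerLiftAlg_injective φ)).1 (h p)

theorem alg_iff {k ι : Type} [Field k] [Algebra k F] (x : ι → F) :
    trdeg k (MvPolynomial ι k ⧸ RingHom.ker (aeval x : MvPolynomial ι k →ₐ[k] F)) = 0 ↔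
      ∀ i, IsAlgebraic k (x i) := by
  rw [alg_ker]
  refine ⟨fun h i => by simpa using h (X i), fun h p => ?_⟩
  induction p using MvPolynomial.induction_on with
  | C a => simpa using isAlgebraic_algebraMap a
  | add p q hp hq => simpa using hp.add hq
  | mul_X p i hp => simpa using hp.mul (h i)

variable [Algebra K F] [Algebra K F']

theorem cell_three (hF : FormS) (M : Matrix (Fin 4) (Fin 9) F) (c : Fin 4 → F) (hc : c ≠ 0)
    (h : c ᵥ* M ᵥ* fm F 0 = 0) : cellOf M = 3 := by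
  have h1 : ∀ b : Fin 9, b ≠ 8 → (c ᵥ* M) b = 0 := by
    have h2 := fun b : Fin 9 => hF.zero F (c ᵥ* M) (Pi.single b 1)
    generalize c ᵥ* M = u at *
    simp only [h, zero_dotProduct] at h2
    have a0 := h2 0
    have a1 := h2 1
    have a2 := h2 2
    have a3 := h2 3
    have a4 := h2 4
    have a5 := h2 5
    have a6 := h2 6
    have a7 := h2 7
    simp at a0 a1 a2 a3 a4 a5 a6 a7
    intro b hb
    fin_cases b
    exacts [a7.symm, a6.symm, a5.symm, a4.symm, a3, a2, a1, a0, (hb rfl).elim]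
  have h3 : ∀ j, j ≠ 3 → mn j M = 0 := fun j hj =>
    exists_vecMul_eq_zero_iff.1 ⟨c, hc, funext fun a => h1 (ff j a) (by
      revert j a
      decide)⟩
  simp [cellOf, h3]

theorem pt_map (σ : F →ₐ[K] F') (M : Matrix (Fin 4) (Fin 9) F) : pt (M.map σ) = pt M := by
  have h1 : cellOf (M.map σ) = cellOf M := cell_congr fun j =>
    (congrArg (· = 0) (det_map (σ : F →+* F') M (ff j))).to_iff.trans (map_eq_zero _)
  unfold pt
  rw [h1]
  refine Prod.ext rfl (Ideal.ext fun p => ?_)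
  have h2 : nm (ff (cellOf M)) (M.map σ) = (nm (ff (cellOf M)) M).map σ :=
    nm_map (σ : F →+* F') _ M
  simp only [RingHom.mem_ker, h2, map_apply]
  rw [← comp_aeval_apply, map_eq_zero]

theorem factor {R E : Type} [CommRing R] [Algebra K R] (P : Ideal R) [P.IsPrime] [Field E]
    [Algebra K E] (β : R →ₐ[K] E) (h : ∀ r, β r = 0 ↔ r ∈ P) (N : Matrix (Fin 4) (Fin 9) R) :
    pt (N.map β) = pt (N.map ((IsScalarTower.toAlgHom K (R ⧸ P) (FractionRing (R ⧸ P))).comp
      (Ideal.Quotient.mkₐ K P))) := by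
  have hg : Function.Injective (Ideal.Quotient.liftₐ P β fun r hr => (h r).2 hr) := by
    refine (injective_iff_map_eq_zero _).2 fun q hq => ?_
    obtain ⟨r, rfl⟩ := Ideal.Quotient.mk_surjective q
    exact Ideal.Quotient.eq_zero_iff_mem.2 ((h r).1 hq)
  rw [← pt_map (IsFractionRing.liftAlgHom (K := FractionRing (R ⧸ P)) hg)]
  congr 1
  ext a c
  simp

end Pt

open Pt in
theorem pt_s (hF : FormS) (hL : LinS) : PtS where
  nm_one := fun _ _ => nm_one
  nm_self := fun R _ f M h => by rw [nm, h, inv_one, Matrix.one_mul]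
  nm_mul := fun _ _ => nm_mul
  nm_map := fun _ _ _ _ => nm_map
  nm_unit := fun _ _ _ _ => nm_unit
  det_nm := fun F _ f f' M => by
    rw [nm, Pt.sub_mul, det_mul, det_nonsing_inv, Ring.inverse_eq_inv', inv_mul_eq_div]
  iso_mul := fun R _ _ g M h i => by rw [sand, h i, Matrix.mul_zero, Matrix.zero_mul]
  iso_map := fun R S _ _ _ _ σ M => ⟨fun h i => (form_map hF σ M M i).trans
      ((congrArg (Matrix.map · σ) (h i)).trans (Matrix.map_zero _ (map_zero σ))),
    fun hσ h i => Matrix.map_injective hσ (((form_map hF σ M M i).symm.trans (h i)).trans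
      (Matrix.map_zero _ (map_zero σ)).symm)⟩
  rk_det := fun _ _ => rk_det hL
  rk_mul := fun F _ g M => by
    simp only [rk_det hL, Pt.sub_mul, det_mul, mul_ne_zero_iff]
    exact ⟨fun h ⟨f, hf⟩ => ⟨f, h, hf⟩, fun ⟨f, h, hf⟩ => ⟨h, f, hf⟩⟩
  rk_map := fun F F' _ _ σ M => by simp only [rk_det hL, Pt.det_map, map_ne_zero]
  cell_iff := fun _ _ => cell_iff
  cell_three := fun _ _ _ => cell_three hF
  pt_mul := fun F _ _ g M h => by
    have h1 : cellOf (g * M) = cellOf M := cell_congr fun j => by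
      simp only [mn, Pt.sub_mul, det_mul, mul_eq_zero, h, false_or]
    simp only [pt, h1, nm_mul _ g M h]
  pt_map := fun _ _ _ _ _ _ => pt_map
  pt_ker := fun R F F' _ _ _ _ _ _ β β' N h => by
    have := RingHom.ker_isPrime β
    rw [factor (RingHom.ker β) β (fun _ => Iff.rfl), factor (RingHom.ker β) β' fun r => (h r).symm]
  alg := fun F _ _ M => (alg_iff _).trans Prod.forall
  cc_mul := fun F _ _ g M hg ⟨w, c, Ψ, h1, h2, h3, ⟨b, h4⟩, h5, h6⟩ => by
    have e : ∀ (c : Fin 4 → F) (A : Matrix (Fin 4) (Fin 9) F), c ᵥ* g⁻¹ ᵥ* (g * A) = c ᵥ* A :=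
      fun c A => by rw [vecMul_vecMul, nonsing_inv_mul_cancel_left _ _ hg.isUnit]
    refine ⟨w, c ᵥ* g⁻¹, g * Ψ, h1, fun h => h2 ?_, by rw [e, h3], ⟨b ᵥ* g⁻¹, by rw [e, e, h4]⟩,
      fun ⟨B, hB⟩ => h5 ⟨g⁻¹ * (B * g), ?_⟩, fun i => ?_⟩
    · rw [← vecMul_one c, ← nonsing_inv_mul _ hg.isUnit, ← vecMul_vecMul, h, zero_vecMul]
    · rw [Matrix.mul_assoc, Matrix.mul_assoc, ← hB, nonsing_inv_mul_cancel_left _ _ hg.isUnit]
    · rw [sand, sand, ← Matrix.add_mul, ← Matrix.mul_add, h6, Matrix.mul_zero, Matrix.zero_mul]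
  cc_map := fun F F' _ _ _ _ σ M Ψ w c hM ⟨h1, h2, h3, ⟨b, h4⟩, h5, h6⟩ => by
    have e : ∀ {m n : Type} [Fintype m] (c : m → F) (A : Matrix m n F),
        (σ ∘ c) ᵥ* A.map σ = σ ∘ (c ᵥ* A) := fun c A => vec_map (σ : F →+* F') c A
    refine ⟨fun h => h1 (funext fun i => (map_eq_zero σ).1 (congrFun h i)),
      fun h => h2 (funext fun i => (map_eq_zero σ).1 (congrFun h i)), ?_,
      ⟨σ ∘ b, by rw [e, e, h4]⟩, fun ⟨B, hB⟩ => ?_, fun i => ?_⟩
    · rw [← (hF.map F F' σ w).2, e, e, h3]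
      exact funext fun _ => map_zero σ
    · obtain ⟨f, hf⟩ := (rk_det hL M).1 hM
      have h7 := (nm_one f (M.map σ) (by
        exact (Pt.det_map (σ : F →+* F') M f).trans_ne ((map_ne_zero _).2 hf))).2
      have h8 : nm f (M.map σ) = (nm f M).map σ := nm_map (σ : F →+* F') f M
      refine h5 ⟨Ψ.submatrix id f * (M.submatrix id f)⁻¹, Matrix.map_injective σ.injective ?_⟩
      have h9 : (Ψ.submatrix id f * nm f M).map σ = (Ψ.map σ).submatrix id f * (nm f M).map σ :=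
        Matrix.map_mul (f := (σ : F →+* F'))
      show Ψ.map σ = Matrix.map _ σ
      rw [Matrix.mul_assoc, ← nm, h9, hB, Pt.sub_mul, Matrix.mul_assoc, ← h8, ← h7]
    · rw [form_map hF, form_map hF, ← Matrix.map_add _ (map_add σ), h6,
        Matrix.map_zero _ (map_zero σ)]

end Pool.Agent.MP_b834b3_ag.G20
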