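import Pool.Agent.MP_b834b3_ag.g.SpecB

/-! Genus twenty: kernels and ramification points specialize. -/

namespace Pool.Agent.MP_b834b3_ag.G20

open Matrix

namespace Spc

section Map

variable {R S : Type} [CommRing R] [Algebra K R] [CommRing S] [Algebra K S] (σ : R →ₐ[K] S)

theorem vm {m n : Type} [Fintype m] (y : m → R) (A : Matrix m n R) :
    σ ∘ (y ᵥ* A) = (σ ∘ y) ᵥ* A.map σ := by
  funext i
  simp [vecMul, dotProduct]

theorem mm {l m n : Type} [Fintype m] (A : Matrix l m R) (B : Matrix m n R) :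
    (A * B).map σ = A.map σ * B.map σ := by
  ext i j
  simp [mul_apply]

theorem ker (hB : Base) (y : Fin 4 → R) (N : Matrix (Fin 4) (Fin 9) R) (w : Fin 3 → R) :
    σ ∘ (y ᵥ* N ᵥ* fw w) = (σ ∘ y) ᵥ* N.map σ ᵥ* fw (σ ∘ w) := by
  rw [vm, vm, (hB.form.map R S σ w).2]

theorem tan (hB : Base) (P N : Matrix (Fin 4) (Fin 9) R) (i : Fin 3) :
    (P * fm R i * Nᵀ + N * fm R i * Pᵀ).map σ =
      P.map σ * fm S i * (N.map σ)ᵀ + N.map σ * fm S i * (P.map σ)ᵀ := by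
  rw [Matrix.map_add _ (map_add σ), mm, mm, mm, mm, (hB.form.map R S σ 0).1 i, transpose_map,
    transpose_map]

theorem vz {n : Type} (h : Function.Injective σ) {v : n → R} (hv : σ ∘ v = 0) : v = 0 := by
  funext i
  exact h ((congrFun hv i).trans (map_zero σ).symm)

theorem mz {m n : Type} (h : Function.Injective σ) {A : Matrix m n R} (hA : A.map σ = 0) :
    A = 0 := by
  ext i j
  exact h ((congrFun (congrFun hA i) j).trans (map_zero σ).symm)

theorem vz' {n : Type} : σ ∘ (0 : n → R) = 0 := by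
  funext i
  exact map_zero σ

theorem mz' {m n : Type} : (0 : Matrix m n R).map σ = 0 := by
  ext i j
  exact map_zero σ

theorem fw_smul (a : R) (w : Fin 3 → R) : fw (a • w) = a • fw w := by
  simp [fw, Finset.smul_sum, smul_smul]

omit [Algebra K R] in
theorem sub_mul' (f : Fin 4 → Fin 9) (B : Matrix (Fin 4) (Fin 4) R)
    (A : Matrix (Fin 4) (Fin 9) R) : (B * A).submatrix id f = B * A.submatrix id f := by
  ext i j
  simp [mul_apply]

omit [Algebra K R] in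
theorem sub_vm (f : Fin 4 → Fin 9) (b : Fin 4 → R) (A : Matrix (Fin 4) (Fin 9) R) :
    (b ᵥ* A) ∘ f = b ᵥ* A.submatrix id f := by
  funext j
  simp [vecMul, dotProduct]

end Map

variable {F : Type} [Field F] [Algebra K F]

theorem prim (hB : Base) {ι : Type} [Fintype ι] (p : Pl F) {x : ι → F} (hx : x ≠ 0) :
    ∃ (a : F) (y : ι → p.O), p.O.val ∘ y = a • x ∧ p.π ∘ y ≠ 0 := by
  obtain ⟨a, y, -, h1, i, hi⟩ := hB.pl.prim F ι p x hx
  refine ⟨a, y, funext h1, fun h => ?_⟩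
  have := congrFun h i
  simp [hi] at this

/-- A tangent vector with zero pivot columns. -/
theorem norm (f : Fin 4 → Fin 9) {M : Matrix (Fin 4) (Fin 9) F} (hM : Iso M)
    (h1 : M.submatrix id f = 1) {w : Fin 3 → F} {c : Fin 4 → F} {Ψ : Matrix (Fin 4) (Fin 9) F}
    (h : CcD M w c Ψ) : ∃ Φ : Matrix (Fin 4) (Fin 9) F, Φ ≠ 0 ∧ Φ.submatrix id f = 0 ∧
      c ᵥ* Φ = 0 ∧ ∀ i, Φ * fm F i * Mᵀ + M * fm F i * Φᵀ = 0 := by
  obtain ⟨-, -, -, ⟨b, hb⟩, hn, ht⟩ := h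
  have hz : (Ψ - Ψ.submatrix id f * M).submatrix id f = 0 := by
    have : (Ψ - Ψ.submatrix id f * M).submatrix id f =
      Ψ.submatrix id f - (Ψ.submatrix id f * M).submatrix id f := rfl
    rw [this, sub_mul', h1, Matrix.mul_one, sub_self]
  refine ⟨Ψ - Ψ.submatrix id f * M, fun h => hn ⟨_, sub_eq_zero.1 h⟩, hz, ?_, fun i => ?_⟩
  · have e : c ᵥ* (Ψ - Ψ.submatrix id f * M) = (b - c ᵥ* Ψ.submatrix id f) ᵥ* M := by
      rw [vecMul_sub, hb, sub_vecMul, vecMul_vecMul]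
    have e2 := sub_vm f c (Ψ - Ψ.submatrix id f * M)
    rw [hz, vecMul_zero, e, sub_vm, h1, vecMul_one] at e2
    rw [e, e2, zero_vecMul]
  · have hi : M * fm F i * Mᵀ = 0 := hM i
    have e : (Ψ - Ψ.submatrix id f * M) * fm F i * Mᵀ + M * fm F i * (Ψ - Ψ.submatrix id f * M)ᵀ =
        (Ψ * fm F i * Mᵀ + M * fm F i * Ψᵀ) - (Ψ.submatrix id f * (M * fm F i * Mᵀ) +
          M * fm F i * Mᵀ * (Ψ.submatrix id f)ᵀ) := by
      simp only [transpose_sub, transpose_mul, Matrix.sub_mul, Matrix.mul_sub, Matrix.mul_assoc]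
      abel
    rw [e, ht i, hi]
    simp

theorem red (hB : Base) (p : Pl F) (f : Fin 4 → Fin 9) (N : Matrix (Fin 4) (Fin 9) p.O)
    (hM : Iso (N.map p.O.val)) (h1 : (N.map p.O.val).submatrix id f = 1)
    (h2 : (N.map p.π).submatrix id f = 1) (h : Cc (N.map p.O.val)) : Cc (N.map p.π) := by
  have inj : Function.Injective p.O.val := Subtype.val_injective
  obtain ⟨w, c, Ψ, h⟩ := h
  obtain ⟨Φ, hΦ, hz, hc, ht⟩ := norm f hM h1 h
  obtain ⟨hw0, hc0, hk, -⟩ := h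
  obtain ⟨a1, w', hw1, hw2⟩ := prim hB p hw0
  obtain ⟨a2, c', hc1, hc2⟩ := prim hB p hc0
  have hΦ' : (fun x : Fin 4 × Fin 9 => Φ x.1 x.2) ≠ 0 := fun h =>
    hΦ (by ext i j; exact congrFun h (i, j))
  obtain ⟨a3, Y, hY1, hY2⟩ := prim hB p hΦ'
  let P : Matrix (Fin 4) (Fin 9) p.O := of fun a b => Y (a, b)
  have hP : P.map p.O.val = a3 • Φ := by
    ext i j
    exact congrFun hY1 (i, j)
  refine ⟨p.π ∘ w', p.π ∘ c', P.map p.π, hw2, hc2, ?_, ⟨0, ?_⟩, ?_, fun i => ?_⟩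
  · rw [← ker _ hB, vz p.O.val inj (v := c' ᵥ* N ᵥ* fw w'), vz']
    rw [ker _ hB, hw1, hc1, fw_smul, smul_vecMul, smul_vecMul, vecMul_smul, hk]
    simp
  · rw [← vm, vz p.O.val inj (v := c' ᵥ* P), vz', zero_vecMul]
    rw [vm, hc1, hP, smul_vecMul, vecMul_smul, hc]
    simp
  · rintro ⟨B, hB'⟩
    have e : P.submatrix id f = 0 := by
      refine mz p.O.val inj ?_
      rw [← submatrix_map, hP, submatrix_smul]
      simp [hz]
    have e2 : (P.map p.π).submatrix id f = 0 := by rw [submatrix_map, e, mz']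
    rw [hB', sub_mul', h2, Matrix.mul_one] at e2
    rw [e2, Matrix.zero_mul] at hB'
    exact hY2 (funext fun x => congrFun (congrFun hB' x.1) x.2)
  · rw [← tan _ hB, mz p.O.val inj (A := P * fm p.O i * Nᵀ + N * fm p.O i * Pᵀ), mz']
    rw [tan _ hB, hP, transpose_smul, Matrix.smul_mul, Matrix.smul_mul, Matrix.mul_smul,
      ← smul_add, ht i, smul_zero]

end Spc

theorem spec_s (hB : Base) : SpecS where
  ker := by
    intro F _ _ p M N w c ⟨⟨g, hg, hN⟩, _⟩ hc h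
    have hu : IsUnit g.det := isUnit_iff_ne_zero.2 hg
    have e : c ᵥ* g⁻¹ ᵥ* g = c := by rw [vecMul_vecMul, nonsing_inv_mul _ hu, vecMul_one]
    have hx : c ᵥ* g⁻¹ ≠ 0 := fun h0 => hc (by rw [← e, h0, zero_vecMul])
    obtain ⟨a, y, hy, hy0⟩ := Spc.prim hB p hx
    refine ⟨p.π ∘ y, hy0, ?_⟩
    rw [← Spc.ker _ hB, Spc.vz p.O.val Subtype.val_injective (v := y ᵥ* N ᵥ* fw w), Spc.vz']
    rw [Spc.ker _ hB, hy, hN, smul_vecMul, smul_vecMul, ← vecMul_vecMul (c ᵥ* g⁻¹) g M, e, h,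
      smul_zero]
  cc := by
    intro F _ _ p M N hM hN hC
    obtain ⟨f, hf⟩ := (hB.pt.rk_det _ _).1 hN.2
    obtain ⟨hd, h1, h2⟩ := hB.pl.cen F p M N f hN hf
    obtain ⟨e1, e2⟩ := hB.pt.nm_one _ f _ hf
    have hi : ((M.submatrix id f)⁻¹).det ≠ 0 :=
      (isUnit_nonsing_inv_det _ (isUnit_iff_ne_zero.2 hd)).ne_zero
    rw [e2]
    refine hB.pt.cc_mul _ _ _ hf ?_
    rw [← h2]
    refine Spc.red hB p f _ ?_ ?_ (h2 ▸ e1) ?_ <;> rw [h1]
    · exact hB.pt.iso_mul _ _ _ hM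
    · exact (hB.pt.nm_one _ f _ hd).1
    · exact hB.pt.cc_mul _ _ _ hi hC

end Pool.Agent.MP_b834b3_ag.G20
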