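import Pool.Agent.MP_b834b3_ag.g.SpecA

/-! Genus twenty: the stabilizer of the standard form has dimension 45. -/

namespace Pool.Agent.MP_b834b3_ag.G20

open Matrix

namespace St

/-- A square system with coefficients in a subfield has its solution in the subfield. -/
theorem cramer {Ω r : Type} [Field Ω] [Fintype r] [DecidableEq r] (S : Subfield Ω)
    (M : Matrix r r Ω) (x : r → Ω) (hd : M.det ≠ 0) (hM : ∀ a b, M a b ∈ S)
    (hy : ∀ a, (M *ᵥ x) a ∈ S) (a : r) : x a ∈ S := by
  let M' : Matrix r r S := Matrix.of fun a b => ⟨M a b, hM a b⟩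
  have e1 : (S.subtype.mapMatrix M') = M := rfl
  have h1 : M.det ∈ S := by rw [← e1, ← RingHom.map_det]; exact Subtype.prop _
  have h2 : ∀ a b, M.adjugate a b ∈ S := fun a b => by
    rw [← e1, ← RingHom.map_adjugate]; exact Subtype.prop _
  have h3 : M.adjugate *ᵥ (M *ᵥ x) = M.det • x := by
    rw [mulVec_mulVec, adjugate_mul, smul_mulVec, one_mulVec]
  have h4 : M.det * x a ∈ S := by
    have := congrFun h3 a
    rw [Pi.smul_apply, smul_eq_mul] at this
    rw [← this]
    exact S.sum_mem fun b _ => S.mul_mem (h2 a b) (hy b)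
  have h5 := S.mul_mem (S.inv_mem h1) h4
  rwa [← mul_assoc, inv_mul_cancel₀ hd, one_mul] at h5

/-- Free coordinates of a system of independent equations. -/
theorem free (hL : LinS) {Ω : Type} [Field Ω] {i : ℕ} (A : Matrix (Fin i) (Fin 9) Ω)
    (hA : ∀ c, c ᵥ* A = 0 → c = 0) : ∃ T : Finset (Fin 9), T.card = 9 - i ∧
      ∀ (S : Subfield Ω) (x : Fin 9 → Ω), (∀ a b, A a b ∈ S) → (∀ a, (A *ᵥ x) a ∈ S) →
        (∀ b ∈ T, x b ∈ S) → ∀ b, x b ∈ S := by
  obtain ⟨p, hp, hd⟩ := (hL.piv Ω (Fin i) (Fin 9) A).1 hA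
  refine ⟨(Finset.univ.map ⟨p, hp⟩)ᶜ, by simp [Finset.card_compl], fun S x h1 h2 h3 b => ?_⟩
  by_cases hb : b ∈ Finset.univ.map ⟨p, hp⟩
  · obtain ⟨l, -, rfl⟩ := Finset.mem_map.1 hb
    refine cramer S (A.submatrix id p) (x ∘ p) hd (fun a b => h1 _ _) (fun a => ?_) l
    have e : (A *ᵥ x) a = (A.submatrix id p *ᵥ (x ∘ p)) a +
        ∑ b ∈ (Finset.univ.map ⟨p, hp⟩)ᶜ, A a b * x b := by
      have := Finset.sum_add_sum_compl (Finset.univ.map ⟨p, hp⟩) fun b => A a b * x b
      rw [Finset.sum_map] at this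
      exact this.symm
    rw [eq_sub_of_add_eq e.symm]
    exact S.sub_mem (h2 a) (S.sum_mem fun b hb => S.mul_mem (h1 _ _) (h3 b hb))
  · exact h3 b (Finset.mem_compl.2 hb)

/-- A row whose removal leaves the first eight columns independent. -/
theorem row {Ω : Type} [Field Ω] (G : Matrix (Fin 9) (Fin 9) Ω) (hG : G.det ≠ 0) :
    ∃ r : Fin 9, ∀ c : Fin 9 → Ω, c r = 0 → (∀ b, b ≠ 8 → (c ᵥ* G) b = 0) → c = 0 := by
  have hu : IsUnit G.det := isUnit_iff_ne_zero.2 hG
  let u : Fin 9 → Ω := Pi.single 8 1 ᵥ* G⁻¹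
  have h1 : u ᵥ* G = Pi.single 8 1 := by
    rw [vecMul_vecMul, nonsing_inv_mul _ hu, vecMul_one]
  have h2 : ∃ r, u r ≠ 0 := by
    by_contra h
    have h0 : u = 0 := funext fun r => by_contra fun hr => h ⟨r, hr⟩
    have := congrFun h1 8
    rw [h0, zero_vecMul] at this
    simp at this
  obtain ⟨r, hr⟩ := h2
  refine ⟨r, fun c hc h => ?_⟩
  have h3 : c ᵥ* G = (c ᵥ* G) 8 • (Pi.single 8 1 : Fin 9 → Ω) := by
    funext b
    by_cases hb : b = 8
    · subst hb; simp
    · rw [h b hb]; simp [hb]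
  have h4 : c = (c ᵥ* G) 8 • u := by
    have : c = (c ᵥ* G) ᵥ* G⁻¹ := by
      rw [vecMul_vecMul, mul_nonsing_inv _ hu, vecMul_one]
    exact this.trans ((congrArg (· ᵥ* G⁻¹) h3).trans (smul_vecMul _ _ _))
  have h5 := congrFun h4 r
  rw [hc, Pi.smul_apply, smul_eq_mul] at h5
  rw [h4, (mul_eq_zero.1 h5.symm).resolve_right hr, zero_smul]

theorem coord (hF : FormS) {Ω : Type} [Field Ω] [Algebra K Ω] (u : Fin 9 → Ω) (b : Fin 9) :
    (u ᵥ* fm Ω 0) b = ![-u 7, -u 6, -u 5, -u 4, u 3, u 2, u 1, u 0, 0] b := by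
  have h := hF.zero Ω u (Pi.single b 1)
  rw [dotProduct_single, mul_one] at h
  rw [h]
  fin_cases b <;> simp

end St

open St in
theorem st (hF : FormS) (hL : LinS) : StS := by
  intro Ω _ _ G hG
  obtain ⟨r, hr⟩ := row G hG
  let e : Fin 9 ≃ Fin 9 := Equiv.swap r 8
  let A : ∀ i : Fin 9, Matrix (Fin i.val) (Fin 9) Ω :=
    fun i l => G (e (Fin.castLE i.2.le l)) ᵥ* fm Ω 0
  have hA : ∀ i c, c ᵥ* A i = 0 → c = 0 := by
    intro i c hc
    let c' : Fin 9 → Ω := ∑ l, c l • Pi.single (e (Fin.castLE i.2.le l)) 1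
    have inj : Function.Injective fun l => e (Fin.castLE i.2.le l) :=
      e.injective.comp (Fin.castLE_injective _)
    have h0 : ∀ l, c' (e (Fin.castLE i.2.le l)) = c l := fun l => by
      simp only [c', Finset.sum_apply, Pi.smul_apply, smul_eq_mul]
      rw [Finset.sum_eq_single l]
      · simp
      · intro m _ hm
        rw [Pi.single_eq_of_ne (inj.ne hm.symm), mul_zero]
      · simp
    have h1 : c' r = 0 := by
      simp only [c', Finset.sum_apply, Pi.smul_apply, smul_eq_mul]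
      refine Finset.sum_eq_zero fun m _ => ?_
      rw [Pi.single_eq_of_ne, mul_zero]
      intro h
      have h8 : e 8 = r := Equiv.swap_apply_right r 8
      have := congrArg Fin.val (e.injective (h8.trans h))
      have a := m.2
      have b := i.2
      simp at this
      omega
    have h2 : c' ᵥ* G ᵥ* fm Ω 0 = 0 := by
      rw [← hc]
      simp only [c', sum_vecMul, smul_vecMul, single_one_vecMul]
      rw [vecMul_eq_sum]
      rfl
    have h3 : ∀ b, b ≠ 8 → (c' ᵥ* G) b = 0 := by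
      have h := fun b => (coord hF (c' ᵥ* G) b).symm.trans (congrFun h2 b)
      intro b hb
      fin_cases b
      · simpa using h 7
      · simpa using h 6
      · simpa using h 5
      · simpa using h 4
      · simpa using h 3
      · simpa using h 2
      · simpa using h 1
      · simpa using h 0
      · exact absurd rfl hb
    funext l
    rw [← h0, hr c' h1 h3]
    rfl
  choose T hT hS using fun i => free hL (A i) (hA i)
  have hc : Fintype.card (Σ i, T i) = 45 := by
    simp only [Fintype.card_sigma, Fintype.card_coe, hT]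
    decide
  let z := Fintype.equivFinOfCardEq hc
  refine ⟨fun j => G (e (z.symm j).1) (z.symm j).2, ?_⟩
  set S := Subfield.closure (Set.range (fun j => G (e (z.symm j).1) (z.symm j).2) ∪
    ent (G * fm Ω 0 * Gᵀ))
  have key : ∀ n (i : Fin 9), i.val = n → ∀ b, G (e i) b ∈ S := by
    intro n
    induction n using Nat.strong_induction_on with
    | _ n ih =>
      intro i hi
      refine hS i S (G (e i)) (fun l b => ?_) (fun l => ?_) fun b hb => ?_
      · have h := ih l.val (hi ▸ l.2) (Fin.castLE i.2.le l) rfl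
        show (G (e (Fin.castLE i.2.le l)) ᵥ* fm Ω 0) b ∈ S
        rw [coord hF]
        fin_cases b
        exacts [S.neg_mem (h 7), S.neg_mem (h 6), S.neg_mem (h 5), S.neg_mem (h 4), h 3, h 2,
          h 1, h 0, S.zero_mem]
      · refine Subfield.subset_closure (Or.inr ⟨(e (Fin.castLE i.2.le l), e i), ?_⟩)
        exact hF.mul Ω _ _ G G _ _ _
      · exact Subfield.subset_closure (Or.inl ⟨z ⟨i, b, hb⟩,
          congrArg (fun y : Σ i, T i => G (e y.1) y.2) (z.symm_apply_apply _)⟩)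
  intro a b
  have := key _ (e.symm a) rfl b
  rwa [e.apply_symm_apply] at this

end Pool.Agent.MP_b834b3_ag.G20
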