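import Pool.Agent.MP_b834b3_ag.g.SpecA

/-! Genus twenty: the tensor configuration does not occur. -/

namespace Pool.Agent.MP_b834b3_ag.G20

open MvPolynomial Matrix

namespace Tr

/-- The pattern of the tensor configuration. -/
structure Pat {R : Type} [CommRing R] (M : Matrix (Fin 9) (Fin 9) R) : Prop where
  skew : ∀ a b, M a b = -M b a
  diag : ∀ a, M a a = 0
  z1 : ∀ a b : Fin 4, M (![0, 1, 2, 3] a) (![0, 1, 2, 3] b) = 0
  z2 : ∀ a b : Fin 4, M (![0, 4, 5, 6] a) (![0, 4, 5, 6] b) = 0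
  sym : ∀ a b : Fin 3, M (![1, 2, 3] a) (![4, 5, 6] b) = M (![1, 2, 3] b) (![4, 5, 6] a)

/-- The free positions. -/
def pos : Fin 21 → Fin 9 × Fin 9 :=
  ![(0, 7), (0, 8), (1, 4), (1, 5), (1, 6), (2, 5), (2, 6), (3, 6), (1, 7), (2, 7), (3, 7), (4, 7),
    (5, 7), (6, 7), (1, 8), (2, 8), (3, 8), (4, 8), (5, 8), (6, 8), (7, 8)]

lemma cases_pos : ∀ x y : Fin 9, x < y →
    (∃ a b : Fin 4, x = ![0, 1, 2, 3] a ∧ y = ![0, 1, 2, 3] b) ∨
    (∃ a b : Fin 4, x = ![0, 4, 5, 6] a ∧ y = ![0, 4, 5, 6] b) ∨ (∃ k, pos k = (x, y)) ∨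
    ∃ a b : Fin 3, x = ![1, 2, 3] a ∧ y = ![4, 5, 6] b ∧
      ∃ k, pos k = (![1, 2, 3] b, ![4, 5, 6] a) := by
  decide

lemma Pat.mem {R : Type} [Field R] {M : Matrix (Fin 9) (Fin 9) R} (h : Pat M) (S : Subfield R)
    (hS : ∀ k, M (pos k).1 (pos k).2 ∈ S) (x y : Fin 9) : M x y ∈ S := by
  have key : ∀ x y : Fin 9, x < y → M x y ∈ S := by
    intro x y hxy
    rcases cases_pos x y hxy with ⟨a, b, rfl, rfl⟩ | ⟨a, b, rfl, rfl⟩ | ⟨k, hk⟩ |
      ⟨a, b, rfl, rfl, k, hk⟩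
    · rw [h.z1]; exact S.zero_mem
    · rw [h.z2]; exact S.zero_mem
    · have := hS k
      rwa [hk] at this
    · have := hS k
      rw [hk] at this
      rwa [h.sym]
  rcases lt_trichotomy x y with k | rfl | k
  · exact key x y k
  · rw [h.diag]; exact S.zero_mem
  · rw [h.skew]; exact S.neg_mem (key y x k)

lemma Pat.form {R : Type} [CommRing R] {M : Matrix (Fin 9) (Fin 9) R} (h : Pat M)
    {u v : Fin 9 → R} {p q : Fin 3 → R} {α α' κ κ' c c' : R}
    (hu : u = ![c, α * p 0, α * p 1, α * p 2, α' * p 0, α' * p 1, α' * p 2, 0, 0])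
    (hv : v = ![c', κ * q 0, κ * q 1, κ * q 2, κ' * q 0, κ' * q 1, κ' * q 2, 0, 0]) :
    u ᵥ* M ⬝ᵥ v = (α * κ' - α' * κ) * (p 0 * q 0 * M 1 4 + p 1 * q 1 * M 2 5 + p 2 * q 2 * M 3 6 +
      (p 0 * q 1 + p 1 * q 0) * M 1 5 + (p 0 * q 2 + p 2 * q 0) * M 1 6 +
      (p 1 * q 2 + p 2 * q 1) * M 2 6) := by
  have z1 := h.z1
  have z2 := h.z2
  simp only [Fin.forall_fin_succ, IsEmpty.forall_iff, and_true, cons_val_zero, cons_val_succ]
    at z1 z2
  have s1 : M 2 4 = M 1 5 := h.sym 1 0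
  have s2 : M 3 4 = M 1 6 := h.sym 2 0
  have s3 : M 3 5 = M 2 6 := h.sym 2 1
  have k1 := h.skew 4 1
  have k2 := h.skew 4 2
  have k3 := h.skew 4 3
  have k4 := h.skew 5 1
  have k5 := h.skew 5 2
  have k6 := h.skew 5 3
  have k7 := h.skew 6 1
  have k8 := h.skew 6 2
  have k9 := h.skew 6 3
  subst hu hv
  simp [vecMul, dotProduct, Fin.sum_univ_succ, z1, z2, k1, k2, k3, k4, k5, k6, k7, k8, k9, s1, s2,
    s3]
  ring

/-- The generic element of the group that keeps the pattern. -/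
def Tm {R : Type} [CommRing R] (x : Fin 37 → R) : Matrix (Fin 9) (Fin 9) R :=
  !![x 0, 0, 0, 0, 0, 0, 0, 0, 0;
    x 1, x 7, x 8, x 9, x 16 * x 7, x 16 * x 8, x 16 * x 9, 0, 0;
    x 2, x 10, x 11, x 12, x 16 * x 10, x 16 * x 11, x 16 * x 12, 0, 0;
    x 3, x 13, x 14, x 15, x 16 * x 13, x 16 * x 14, x 16 * x 15, 0, 0;
    x 4, x 17 * x 7, x 17 * x 8, x 17 * x 9, x 18 * x 7, x 18 * x 8, x 18 * x 9, 0, 0;
    x 5, x 17 * x 10, x 17 * x 11, x 17 * x 12, x 18 * x 10, x 18 * x 11, x 18 * x 12, 0, 0;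
    x 6, x 17 * x 13, x 17 * x 14, x 17 * x 15, x 18 * x 13, x 18 * x 14, x 18 * x 15, 0, 0;
    x 19, x 20, x 21, x 22, x 23, x 24, x 25, x 26, x 27;
    x 28, x 29, x 30, x 31, x 32, x 33, x 34, x 35, x 36]

lemma Tm_map {R S : Type} [CommRing R] [CommRing S] (f : R →+* S) (x : Fin 37 → R) :
    (Tm x).map f = Tm (f ∘ x) := by
  ext a b
  fin_cases a <;> fin_cases b <;> simp [Tm]

lemma Tm_one : Tm (fun s : Fin 37 =>
    if s ∈ ({0, 7, 11, 15, 18, 26, 36} : Finset (Fin 37)) then (1 : ℤ) else 0) = 1 := by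
  decide

/-- Positions of the variables. -/
def loc : Fin 37 → Fin 9 × Fin 9 :=
  ![(0, 0), (1, 0), (2, 0), (3, 0), (4, 0), (5, 0), (6, 0), (1, 1), (1, 2), (1, 3), (2, 1), (2, 2),
    (2, 3), (3, 1), (3, 2), (3, 3), (1, 4), (4, 1), (4, 4), (7, 0), (7, 1), (7, 2), (7, 3), (7, 4),
    (7, 5), (7, 6), (7, 7), (7, 8), (8, 0), (8, 1), (8, 2), (8, 3), (8, 4), (8, 5), (8, 6), (8, 7),
    (8, 8)]

lemma Tm_loc {R : Type} [CommRing R] (x : Fin 37 → R) (s : Fin 37) :
    Tm x (loc s).1 (loc s).2 = x s ∨ Tm x (loc s).1 (loc s).2 = x s * x 7 := by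
  fin_cases s <;> first | exact Or.inl rfl | exact Or.inr rfl

/-- The rows of the block `P`, with a zero row in front. -/
def Pr {R : Type} [CommRing R] (x : Fin 37 → R) : Fin 4 → Fin 3 → R :=
  ![0, ![x 7, x 8, x 9], ![x 10, x 11, x 12], ![x 13, x 14, x 15]]

lemma row1 {R : Type} [CommRing R] (x : Fin 37 → R) (a : Fin 4) : Tm x (![0, 1, 2, 3] a) =
    ![x (![0, 1, 2, 3] a), 1 * Pr x a 0, 1 * Pr x a 1, 1 * Pr x a 2, x 16 * Pr x a 0,
      x 16 * Pr x a 1, x 16 * Pr x a 2, 0, 0] := by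
  fin_cases a <;> simp [Tm, Pr] <;> rfl

lemma row2 {R : Type} [CommRing R] (x : Fin 37 → R) (a : Fin 4) : Tm x (![0, 4, 5, 6] a) =
    ![x (![0, 4, 5, 6] a), x 17 * Pr x a 0, x 17 * Pr x a 1, x 17 * Pr x a 2, x 18 * Pr x a 0,
      x 18 * Pr x a 1, x 18 * Pr x a 2, 0, 0] := by
  fin_cases a <;> simp [Tm, Pr] <;> rfl

lemma mul_eq {R : Type} [CommRing R] (T M : Matrix (Fin 9) (Fin 9) R) (a b : Fin 9) :
    (T * M * Tᵀ) a b = T a ᵥ* M ⬝ᵥ T b := rfl

lemma generic (F : Type) [Field F] [Algebra K F] : ∃ (Ω : Type) (_ : Field Ω) (_ : Algebra F Ω)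
    (_ : Algebra K Ω) (_ : IsScalarTower K F Ω) (x : Fin 37 → Ω),
    AlgebraicIndependent F x ∧ (Tm x).det ≠ 0 := by
  have hinj := IsFractionRing.injective (MvPolynomial (Fin 37) F)
    (FractionRing (MvPolynomial (Fin 37) F))
  refine ⟨FractionRing (MvPolynomial (Fin 37) F), inferInstance, inferInstance, inferInstance,
    inferInstance, fun s => algebraMap (MvPolynomial (Fin 37) F) _ (X s),
    (algebraicIndependent_X (Fin 37) F).map' (f := IsScalarTower.toAlgHom F _ _) hinj, ?_⟩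
  have e := (Tm_map (algebraMap (MvPolynomial (Fin 37) F)
    (FractionRing (MvPolynomial (Fin 37) F))) X).symm
  simp only [Function.comp_def] at e
  rw [e, ← RingHom.mapMatrix_apply, ← RingHom.map_det, map_ne_zero_iff _ hinj]
  intro k
  have k1 := congrArg (eval ((Int.castRingHom F) ∘ fun s : Fin 37 =>
    if s ∈ ({0, 7, 11, 15, 18, 26, 36} : Finset (Fin 37)) then (1 : ℤ) else 0)) k
  rw [RingHom.map_det, RingHom.mapMatrix_apply, Tm_map, map_zero] at k1
  simp only [Function.comp_def, eval_X] at k1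
  have k2 := Tm_map (Int.castRingHom F) fun s : Fin 37 =>
    if s ∈ ({0, 7, 11, 15, 18, 26, 36} : Finset (Fin 37)) then (1 : ℤ) else 0
  rw [Tm_one, Matrix.map_one _ (map_zero _) (map_one _)] at k2
  simp only [Function.comp_def] at k2
  rw [← k2, det_one] at k1
  exact one_ne_zero k1

end Tr

open Tr in
theorem tr_s (hF : FormS) (hM : MlS) : TrS := by
  intro F _ _ G w hG hw h0 h1 h2 h3
  obtain ⟨i0, hi0⟩ := Function.ne_iff.1 hw
  obtain ⟨Ω, _, _, _, _, x, hx, hT⟩ := generic F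
  set φ := algebraMap F Ω with hφ
  have pat0 : ∀ (A : Matrix (Fin 9) (Fin 9) Ω) i, (∀ a b, (A * fm Ω i * Aᵀ) a b =
      -(A * fm Ω i * Aᵀ) b a) ∧ ∀ a, (A * fm Ω i * Aᵀ) a a = 0 := by
    intro A i
    refine ⟨fun a b => ?_, fun a => hF.diag Ω i _⟩
    have : (A * fm Ω i * Aᵀ)ᵀ = -(A * fm Ω i * Aᵀ) := by
      rw [transpose_mul, transpose_mul, transpose_transpose, hF.skew, ← Matrix.mul_assoc]
      simp
    exact congrFun (congrFun this b) a
  have hmap : ∀ i a b, (G.map φ * fm Ω i * (G.map φ)ᵀ) a b = φ ((G * fm F i * Gᵀ) a b) := by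
    intro i a b
    rw [← (hF.map F Ω (IsScalarTower.toAlgHom K F Ω) w).1 i, ← transpose_map]
    change _ = (G * fm F i * Gᵀ).map φ a b
    rw [Matrix.map_mul, Matrix.map_mul]
    rfl
  have pM : ∀ i, Pat (G.map φ * fm Ω i * (G.map φ)ᵀ) := fun i =>
    ⟨(pat0 _ i).1, (pat0 _ i).2, fun a b => by rw [hmap, h1, map_zero],
      fun a b => by rw [hmap, h2, map_zero], fun a b => by rw [hmap, hmap, h3]⟩
  set N : Fin 3 → Matrix (Fin 9) (Fin 9) Ω :=
    fun i => Tm x * G.map φ * fm Ω i * (Tm x * G.map φ)ᵀ with hN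
  have eN : ∀ i a b, N i a b = Tm x a ᵥ* (G.map φ * fm Ω i * (G.map φ)ᵀ) ⬝ᵥ Tm x b := by
    intro i a b
    rw [← mul_eq]
    simp only [hN, transpose_mul, Matrix.mul_assoc]
  have pN : ∀ i, Pat (N i) := by
    intro i
    refine ⟨(pat0 _ i).1, (pat0 _ i).2, fun a b => ?_, fun a b => ?_, fun a b => ?_⟩
    · rw [eN, (pM i).form (row1 x a) (row1 x b)]; ring
    · rw [eN, (pM i).form (row2 x a) (row2 x b)]; ring
    · have e1 := (pM i).form (row1 x a.succ) (row2 x b.succ)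
      have e2 := (pM i).form (row1 x b.succ) (row2 x a.succ)
      simp only [cons_val_succ] at e1 e2
      rw [eN, eN, e1, e2]; ring
  have hrow : ∀ b, ∑ i, φ (w i) * N i 0 b = 0 := by
    intro b
    have e : ∀ z, ∑ i, φ (w i) * (G.map φ * fm Ω i * (G.map φ)ᵀ) 0 z = 0 := by
      intro z
      have : ∑ i, w i * (G * fm F i * Gᵀ) 0 z = (G * fw w * Gᵀ) 0 z := by
        simp [fw, Matrix.mul_sum, Matrix.sum_mul, Matrix.sum_apply]
      simp only [hmap, ← map_mul, ← map_sum]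
      rw [this, mul_eq, h0, zero_dotProduct, map_zero]
    have e2 : ∀ i, N i 0 b = ∑ z, x 0 * Tm x b z * (G.map φ * fm Ω i * (G.map φ)ᵀ) 0 z := by
      intro i
      rw [eN]
      refine Finset.sum_congr rfl fun z _ => ?_
      simp [vecMul, dotProduct, Fin.sum_univ_succ, Tm]
      ring
    simp only [e2, Finset.mul_sum]
    rw [Finset.sum_comm]
    refine Finset.sum_eq_zero fun z _ => ?_
    simp only [mul_left_comm (φ (w _)), ← Finset.mul_sum, e, mul_zero]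
  have w0 : φ (w i0) ≠ 0 := (map_ne_zero φ).2 hi0
  let p : (Fin 2 × Fin 21) ⊕ Fin 19 ⊕ Fin 2 → Ω := Sum.elim
    (fun k => N (i0.succAbove k.1) (pos k.2).1 (pos k.2).2) (Sum.elim
      (fun k => (∑ i, φ (w i) * N i (pos k.succ.succ).1 (pos k.succ.succ).2) / φ (w i0))
      fun j => φ (w (i0.succAbove j)) / φ (w i0))
  have hp : ∀ k, p k ∈ Subfield.closure (Set.range p) := fun k => Subfield.subset_closure ⟨k, rfl⟩
  have := hM F Ω (Fin 37) _ Empty G (Tm x) x p (fun e => e.elim) hG hT hx (fun s => ?_)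
    algebraicIndependent_empty_type (fun e => e.elim) fun i a b => ?_
  · simp at this
  · have m : ∀ s, Tm x (loc s).1 (loc s).2 ∈ Subfield.closure (ent (Tm x)) :=
      fun s => Subfield.subset_closure ⟨loc s, rfl⟩
    rcases Tm_loc x s with k | k
    · exact k ▸ m s
    · have : x s = Tm x (loc s).1 (loc s).2 / Tm x (loc 7).1 (loc 7).2 := by
        rw [k]
        exact (mul_div_cancel_right₀ _ (hx.ne_zero 7)).symm
      exact this ▸ Subfield.div_mem _ (m s) (m 7)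
  · refine (pN i).mem _ (fun k => ?_) a b
    rcases Fin.eq_self_or_eq_succAbove i0 i with rfl | ⟨j, rfl⟩
    · have e : N i (pos k).1 (pos k).2 = (∑ l, φ (w l) * N l (pos k).1 (pos k).2) / φ (w i) -
          ∑ j : Fin 2, φ (w (i.succAbove j)) / φ (w i) * N (i.succAbove j) (pos k).1 (pos k).2 := by
        rw [Fin.sum_univ_succAbove _ i]
        simp only [Fin.sum_univ_two]
        field_simp
        ring
      rw [e]
      refine Subfield.sub_mem _ ?_ (Subfield.sum_mem _ fun j _ =>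
        Subfield.mul_mem _ (hp (.inr (.inr j))) (hp (.inl (j, k))))
      induction k using Fin.cases with
      | zero => exact (div_eq_zero_iff.2 (Or.inl (hrow 7))).symm ▸ zero_mem _
      | succ k =>
        induction k using Fin.cases with
        | zero => exact (div_eq_zero_iff.2 (Or.inl (hrow 8))).symm ▸ zero_mem _
        | succ k => exact hp (.inr (.inl k))
    · exact hp (.inl (j, k))

end Pool.Agent.MP_b834b3_ag.G20
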