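import Pool.Agent.MP_b834b3_ag.g.SpecA

/-! A ramification point is the only plane through the kernel. -/

namespace Pool.Agent.MP_b834b3_ag.G20

open Matrix Module

namespace Uni

variable {F : Type} [Field F]

/-- The row space. -/
abbrev rs (M : Matrix (Fin 4) (Fin 9) F) : Submodule F (Fin 9 → F) :=
  LinearMap.range M.vecMulLinear

theorem two (A B : Matrix (Fin 4) (Fin 9) F) (C : Matrix (Fin 9) (Fin 9) F) (x y : Fin 4 → F) :
    x ᵥ* A ᵥ* C ⬝ᵥ (y ᵥ* B) = x ᵥ* (A * C * Bᵀ) ⬝ᵥ y := by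
  rw [← mulVec_transpose B y, dotProduct_mulVec, vecMul_vecMul, vecMul_vecMul, Matrix.mul_assoc]

theorem inj {M : Matrix (Fin 4) (Fin 9) F} (h : Rk M) : Function.Injective M.vecMulLinear :=
  (injective_iff_map_eq_zero _).2 h

theorem dim4 {M : Matrix (Fin 4) (Fin 9) F} (h : Rk M) : finrank F (rs M) = 4 := by
  rw [LinearMap.finrank_range_of_inj (inj h)]
  simp

theorem row_eq (N : Matrix (Fin 4) (Fin 9) F) (a : Fin 4) : Pi.single a 1 ᵥ* N = N a := by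
  rw [single_one_vecMul]
  rfl

theorem rows {M N : Matrix (Fin 4) (Fin 9) F} (h : ∀ y, y ᵥ* N ∈ rs M) :
    ∃ B : Matrix (Fin 4) (Fin 4) F, N = B * M := by
  choose B hB using fun a => h (Pi.single a 1)
  refine ⟨of B, ?_⟩
  ext a j
  rw [← row_eq N a, ← hB a]
  rfl

/-- Independent families extend. -/
theorem ext {V : Type} [AddCommGroup V] [Module F V] {n : ℕ} (v : Fin n → V)
    (hv : LinearIndependent F v) (m : ℕ) (h : n + m ≤ finrank F V) :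
    ∃ u : Fin (n + m) → V, LinearIndependent F u ∧ ∀ a, u (Fin.castAdd m a) = v a := by
  induction m with
  | zero => exact ⟨v, hv, fun _ => rfl⟩
  | succ m ih =>
    obtain ⟨u, hu, e⟩ := ih (by omega)
    obtain ⟨x, hx⟩ := exists_linearIndependent_snoc_of_lt_finrank hu (by omega)
    refine ⟨Fin.snoc u x, hx, fun a => ?_⟩
    rw [← e a]
    exact Fin.snoc_castSucc (α := fun _ => V) x u (Fin.castAdd m a)

variable [Algebra K F]

theorem skew (hF : FormS) (i : Fin 3) (u v : Fin 9 → F) :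
    u ᵥ* fm F i ⬝ᵥ v = -(v ᵥ* fm F i ⬝ᵥ u) := by
  rw [dotProduct_comm, ← mulVec_transpose, dotProduct_mulVec, hF.skew, vecMul_neg, neg_dotProduct]

theorem iso {M : Matrix (Fin 4) (Fin 9) F} (h : Iso M) : Perp (rs M) (rs M) := by
  rintro i _ ⟨x, rfl⟩ _ ⟨y, rfl⟩
  have e : M * fm F i * Mᵀ = 0 := h i
  rw [vecMulLinear_apply, vecMulLinear_apply, two, e, vecMul_zero, zero_dotProduct]

theorem perp_sup {I S T : Submodule F (Fin 9 → F)} (h : Perp I S) (h' : Perp I T) :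
    Perp I (S ⊔ T) := by
  intro i u hu v hv
  obtain ⟨y, hy, z, hz, rfl⟩ := Submodule.mem_sup.1 hv
  rw [dotProduct_add, h i u hu y hy, h' i u hu z hz, add_zero]

/-- A tangent vector with an isotropic image does not exist. -/
theorem tang (hF : FormS) (hN : NoS) (hT : TrS) (M Φ : Matrix (Fin 4) (Fin 9) F) (w : Fin 3 → F)
    (c : Fin 4 → F) (hI : Iso M) (hR : Rk M) (hw : w ≠ 0) (hc : c ≠ 0)
    (hk : c ᵥ* M ᵥ* fw w = 0) (hcΦ : c ᵥ* Φ ∈ rs M)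
    (hB : ¬ ∃ B : Matrix (Fin 4) (Fin 4) F, Φ = B * M)
    (ht : ∀ i x y, x ᵥ* Φ ᵥ* fm F i ⬝ᵥ (y ᵥ* M) + x ᵥ* M ᵥ* fm F i ⬝ᵥ (y ᵥ* Φ) = 0)
    (hΦ : Perp (rs Φ) (rs Φ)) : False := by
  have hU := iso hI
  let Kn : Submodule F (Fin 4 → F) := (rs M).comap Φ.vecMulLinear
  have hKn : ∀ i, ∀ x ∈ Kn, ∀ y, x ᵥ* M ᵥ* fm F i ⬝ᵥ (y ᵥ* Φ) = 0 := fun i x hx y => by
    have e := ht i x y
    rwa [hU i (x ᵥ* Φ) hx (y ᵥ* M) ⟨y, rfl⟩, zero_add] at e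
  have d4 : finrank F Kn < 4 := by
    have := Submodule.finrank_lt (s := Kn) fun e => hB (rows fun y => (e ▸ Submodule.mem_top : y ∈ Kn))
    simpa using this
  have dI : finrank F (Kn.map M.vecMulLinear) = finrank F Kn :=
    (Submodule.equivMapOfInjective _ (inj hR) Kn).finrank_eq.symm
  have dS : finrank F ↥(rs M ⊔ rs Φ) + finrank F Kn = 8 := by
    have e1 := LinearMap.finrank_range_add_finrank_ker (M.vecMulLinear.coprod Φ.vecMulLinear)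
    rw [LinearMap.range_coprod] at e1
    let s := (LinearMap.snd F (Fin 4 → F) (Fin 4 → F)).comp
      (LinearMap.ker (M.vecMulLinear.coprod Φ.vecMulLinear)).subtype
    have si : Function.Injective s := by
      refine (injective_iff_map_eq_zero _).2 ?_
      rintro ⟨⟨y, z⟩, h⟩ hz
      have hz' : z = 0 := hz
      have h' : y ᵥ* M + z ᵥ* Φ = 0 := h
      rw [hz', zero_vecMul, add_zero] at h'
      exact Subtype.ext (Prod.ext (hR y h') hz')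
    have sr : LinearMap.range s = Kn := by
      ext z
      constructor
      · rintro ⟨⟨⟨y, z'⟩, h⟩, rfl⟩
        have h' : y ᵥ* M + z' ᵥ* Φ = 0 := h
        refine ⟨-y, ?_⟩
        change (-y) ᵥ* M = z' ᵥ* Φ
        rw [neg_vecMul, neg_eq_iff_add_eq_zero, h']
      · rintro ⟨y, hy⟩
        have hy' : y ᵥ* M = z ᵥ* Φ := hy
        refine ⟨⟨(-y, z), ?_⟩, rfl⟩
        change (-y) ᵥ* M + z ᵥ* Φ = 0
        rw [neg_vecMul, hy', neg_add_cancel]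
    have e2 := LinearMap.finrank_range_of_inj si
    rw [sr] at e2
    rw [e2, e1]
    simp
  have hk0 : c ᵥ* M ≠ 0 := fun e => hc (hR c e)
  have hP : Perp (Kn.map M.vecMulLinear) (rs M ⊔ rs Φ) := by
    refine perp_sup ?_ ?_
    · rintro i _ ⟨x, -, rfl⟩ v hv
      exact hU i _ ⟨x, rfl⟩ v hv
    · rintro i _ ⟨x, hx, rfl⟩ _ ⟨y, rfl⟩
      exact hKn i x hx y
  obtain ⟨n3, n2⟩ := hN.dim F w (c ᵥ* M) (Kn.map M.vecMulLinear) (rs M ⊔ rs Φ) hw hk0 hk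
    ⟨c, hcΦ, rfl⟩ (LinearMap.map_le_range.trans le_sup_left) hP
  have d1 : finrank F Kn ≤ 1 := by omega
  have hKc : Submodule.span F {c} = Kn := Submodule.eq_of_le_of_finrank_le
    ((Submodule.span_singleton_le_iff_mem _ _).2 hcΦ) (by rw [finrank_span_singleton hc]; exact d1)
  obtain ⟨x', hx', ex⟩ := ext (F := F) (fun _ : Fin 1 => c) (linearIndependent_unique_iff.2 hc) 3
    (by simp)
  obtain ⟨x, hx, x0⟩ : ∃ x : Fin 4 → Fin 4 → F, LinearIndependent F x ∧ x 0 = c := ⟨x', hx', ex 0⟩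
  rw [Fintype.linearIndependent_iff] at hx
  have hv : LinearIndependent F ![x 0 ᵥ* M, x 1 ᵥ* M, x 2 ᵥ* M, x 3 ᵥ* M, x 1 ᵥ* Φ, x 2 ᵥ* Φ,
      x 3 ᵥ* Φ] := by
    rw [Fintype.linearIndependent_iff]
    intro g hg
    have e : (g 0 • x 0 + g 1 • x 1 + g 2 • x 2 + g 3 • x 3) ᵥ* M +
        (g 4 • x 1 + g 5 • x 2 + g 6 • x 3) ᵥ* Φ = 0 := by
      rw [← hg, Fin.sum_univ_seven]
      simp only [add_vecMul, smul_vecMul, add_assoc]
      rfl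
    have hz : g 4 • x 1 + g 5 • x 2 + g 6 • x 3 ∈ Kn := by
      refine ⟨-(g 0 • x 0 + g 1 • x 1 + g 2 • x 2 + g 3 • x 3), ?_⟩
      rw [vecMulLinear_apply, vecMulLinear_apply, neg_vecMul, neg_eq_iff_add_eq_zero, e]
    rw [← hKc, Submodule.mem_span_singleton] at hz
    obtain ⟨t, ht'⟩ := hz
    have z := hx ![-t, g 4, g 5, g 6] (by
      rw [Fin.sum_univ_four]
      change (-t) • x 0 + g 4 • x 1 + g 5 • x 2 + g 6 • x 3 = 0
      rw [x0, neg_smul, ht']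
      abel)
    have g4 : g 4 = 0 := z 1
    have g5 : g 5 = 0 := z 2
    have g6 : g 6 = 0 := z 3
    rw [g4, g5, g6, zero_smul, zero_smul, zero_smul, add_zero, add_zero, zero_vecMul,
      add_zero] at e
    have y := hx ![g 0, g 1, g 2, g 3] (by
      rw [Fin.sum_univ_four]
      exact hR _ e)
    intro i
    fin_cases i
    exacts [y 0, y 1, y 2, y 3, g4, g5, g6]
  obtain ⟨G', hG', eG⟩ := ext _ hv 2 (by simp)
  obtain ⟨G, hG, e0, e1, e2, e3, e4, e5, e6⟩ : ∃ G : Matrix (Fin 9) (Fin 9) F,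
      LinearIndependent F G.row ∧ G 0 = x 0 ᵥ* M ∧ G 1 = x 1 ᵥ* M ∧ G 2 = x 2 ᵥ* M ∧
      G 3 = x 3 ᵥ* M ∧ G 4 = x 1 ᵥ* Φ ∧ G 5 = x 2 ᵥ* Φ ∧ G 6 = x 3 ᵥ* Φ :=
    ⟨G', hG', eG 0, eG 1, eG 2, eG 3, eG 4, eG 5, eG 6⟩
  have r1 : ∀ a : Fin 4, G (![0, 1, 2, 3] a) = x a ᵥ* M := fun a => by
    fin_cases a
    exacts [e0, e1, e2, e3]
  have r2 : ∀ a : Fin 3, G (![1, 2, 3] a) = x a.succ ᵥ* M := fun a => by
    fin_cases a
    exacts [e1, e2, e3]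
  have r3 : ∀ a : Fin 3, G (![4, 5, 6] a) = x a.succ ᵥ* Φ := fun a => by
    fin_cases a
    exacts [e4, e5, e6]
  have r4 : ∀ a : Fin 4, G (![0, 4, 5, 6] a) = c ᵥ* M ∨ G (![0, 4, 5, 6] a) ∈ rs Φ := fun a => by
    fin_cases a
    exacts [Or.inl (x0 ▸ e0), Or.inr ⟨_, e4.symm⟩, Or.inr ⟨_, e5.symm⟩, Or.inr ⟨_, e6.symm⟩]
  refine hT F G w ((isUnit_iff_isUnit_det G).1 (linearIndependent_rows_iff_isUnit.1 hG)).ne_zero hw
    (by rw [e0, x0, hk]) (fun i a b => ?_) (fun i a b => ?_) fun i a b => ?_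
  · rw [hF.mul, r1, r1]
    exact hU i _ ⟨_, rfl⟩ _ ⟨_, rfl⟩
  · rw [hF.mul]
    rcases r4 a with ha | ha <;> rcases r4 b with hb | hb
    · rw [ha, hb, hF.diag]
    · obtain ⟨y, hy⟩ := hb
      rw [ha, ← hy]
      exact hKn i c hcΦ y
    · obtain ⟨y, hy⟩ := ha
      rw [hb, ← hy, skew hF, neg_eq_zero]
      exact hKn i c hcΦ y
    · exact hΦ i _ ha _ hb
  · rw [hF.mul, hF.mul, r2, r2, r3, r3, skew hF i (x b.succ ᵥ* M), eq_neg_iff_add_eq_zero, add_comm]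
    exact ht i _ _

end Uni

open Uni in
theorem uni (hF : FormS) (_hL : LinS) (hN : NoS) (hT : TrS) : UniS := by
  intro F _ _ M M' Ψ w c c' hI hR hI' hR' ⟨hw, hc, hk, ⟨b, hb⟩, hB, ht⟩ hc' hk'
  have hk0 : c ᵥ* M ≠ 0 := fun e => hc (hR c e)
  obtain ⟨a, ha⟩ := hN.ker F w _ _ hw hk0 hk hk'
  refine ⟨?_, a, ha⟩
  have a0 : a ≠ 0 := fun e => hc' (hR' c' (by rw [ha, e, zero_smul]))
  have kI : c ᵥ* M ∈ rs M ⊓ rs M' := ⟨⟨c, rfl⟩, a⁻¹ • c', by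
    rw [vecMulLinear_apply, smul_vecMul, ha, smul_smul, inv_mul_cancel₀ a0, one_smul]⟩
  have hU := iso hI
  have hU' := iso hI'
  have hP : Perp (rs M ⊓ rs M') (rs M ⊔ rs M') :=
    perp_sup (fun i u hu => hU i u hu.1) fun i u hu => hU' i u hu.2
  have ds := Submodule.finrank_sup_add_finrank_inf_eq (rs M) (rs M')
  rw [dim4 hR, dim4 hR'] at ds
  obtain ⟨n3, n2⟩ := hN.dim F w _ _ _ hw hk0 hk kI (inf_le_left.trans le_sup_left) hP
  by_cases h4 : 4 ≤ finrank F ↥(rs M ⊓ rs M')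
  · have e : rs M ⊓ rs M' = rs M' :=
      Submodule.eq_of_le_of_finrank_le inf_le_right (by rw [dim4 hR']; exact h4)
    obtain ⟨g, hg⟩ := rows (M := M) (N := M') fun y =>
      (show y ᵥ* M' ∈ rs M ⊓ rs M' from e.symm ▸ ⟨y, rfl⟩).1
    refine ⟨g, fun h0 => ?_, hg⟩
    obtain ⟨v, hv, h⟩ := exists_vecMul_eq_zero_iff.2 h0
    exact hv (hR' v (by rw [hg, ← vecMul_vecMul, h, zero_vecMul]))
  exfalso
  have tp : ∀ i x y, x ᵥ* Ψ ᵥ* fm F i ⬝ᵥ (y ᵥ* M) + x ᵥ* M ᵥ* fm F i ⬝ᵥ (y ᵥ* Ψ) = 0 :=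
    fun i x y => by rw [two, two, ← add_dotProduct, ← vecMul_add, ht, vecMul_zero, zero_dotProduct]
  let Kp : Submodule F (Fin 9 → F) :=
    { carrier := {v | ∀ i, c ᵥ* M ᵥ* fm F i ⬝ᵥ v = 0}
      add_mem' := fun hu hv i => by rw [dotProduct_add, hu i, hv i, add_zero]
      zero_mem' := fun i => dotProduct_zero _
      smul_mem' := fun t v hv i => by rw [dotProduct_smul, hv i, smul_zero] }
  have d7 := hN.hyp F (c ᵥ* M) Kp hk0 (fun i => hF.diag F i _) fun i u hu v hv => by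
    obtain ⟨t, rfl⟩ := Submodule.mem_span_singleton.1 hu
    rw [smul_vecMul, smul_dotProduct, hv i, smul_zero]
  have eS : rs M ⊔ rs M' = Kp :=
    Submodule.eq_of_le_of_finrank_le (fun v hv i => hP i _ kI v hv) (by omega)
  have hrow : ∀ j : Fin 4, ∃ y z, y ᵥ* M + z ᵥ* M' = Ψ j := fun j => by
    have hj : Pi.single j 1 ᵥ* Ψ ∈ rs M ⊔ rs M' := by
      rw [eS]
      intro i
      have e := tp i c (Pi.single j 1)
      rwa [hb, hU i (b ᵥ* M) ⟨b, rfl⟩ (Pi.single j 1 ᵥ* M) ⟨_, rfl⟩, zero_add] at e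
    obtain ⟨_, ⟨y, rfl⟩, _, ⟨z, rfl⟩, e⟩ := Submodule.mem_sup.1 hj
    exact ⟨y, z, e.trans (row_eq Ψ j)⟩
  choose B B' hBB using hrow
  have eΨ : of B' * M' = Ψ - of B * M := by
    ext j l
    rw [Matrix.sub_apply, ← hBB j, eq_sub_iff_add_eq, add_comm]
    rfl
  have ev : ∀ x, x ᵥ* (of B' * M') = x ᵥ* Ψ - x ᵥ* of B ᵥ* M := fun x => by
    rw [eΨ, vecMul_sub, vecMul_vecMul]
  refine tang hF hN hT M (of B' * M') w c hI hR hw hc hk ?_ ?_ (fun i x y => ?_) ?_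
  · rw [ev, hb]
    exact sub_mem ⟨_, rfl⟩ ⟨_, rfl⟩
  · rintro ⟨B'', h⟩
    exact hB ⟨B'' + of B, by rw [Matrix.add_mul, ← h, eΨ, sub_add_cancel]⟩
  · rw [ev, ev, sub_vecMul, sub_dotProduct, dotProduct_sub,
      hU i (x ᵥ* of B ᵥ* M) ⟨_, rfl⟩ (y ᵥ* M) ⟨_, rfl⟩,
      hU i (x ᵥ* M) ⟨_, rfl⟩ (y ᵥ* of B ᵥ* M) ⟨_, rfl⟩, sub_zero, sub_zero, tp]
  · rintro i _ ⟨x, rfl⟩ _ ⟨y, rfl⟩
    exact hU' i (x ᵥ* (of B' * M')) ⟨x ᵥ* of B', vecMul_vecMul x (of B') M'⟩ (y ᵥ* (of B' * M'))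
      ⟨y ᵥ* of B', vecMul_vecMul y (of B') M'⟩

end Pool.Agent.MP_b834b3_ag.G20
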