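import Pool.Agent.MP_b834b3_ag.g.SpecA

/-! Strata that are vector bundles over an open part of an affine space. -/

namespace Pool.Agent.MP_b834b3_ag.G20

open AlgebraicGeometry CategoryTheory Algebra IsLocalRing Limits MvPolynomial

namespace Vb

section Fibre

variable {A σ : Type} [CommRing A] (a : Ideal A) [a.IsPrime]

/-- The map to the fibre. -/
noncomputable def fb (σ : Type) : MvPolynomial σ A →+* MvPolynomial σ a.ResidueField :=
  map (algebraMap A a.ResidueField)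

theorem fb_C (s : A) : fb a σ (C s) = C (algebraMap A a.ResidueField s) := map_C _ _

theorem ker_fb : RingHom.ker (fb a σ) = a.map C := by
  rw [fb, MvPolynomial.ker_map, Ideal.ker_algebraMap_residueField]

theorem ext_prime : (a.map (C : A →+* MvPolynomial σ A)).IsPrime :=
  ker_fb (σ := σ) a ▸ RingHom.ker_isPrime _

theorem fb_comap (n : Ideal (MvPolynomial σ a.ResidueField)) (hn : n.IsPrime) :
    (n.comap (fb a σ)).comap C = a := by
  ext s
  rw [Ideal.mem_comap, Ideal.mem_comap, fb_C, ← Ideal.algebraMap_residueField_eq_zero (I := a)]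
  refine ⟨fun h => by_contra fun e => ?_, fun h => by rw [h, map_zero]; exact n.zero_mem⟩
  exact hn.ne_top (n.eq_top_of_isUnit_mem h ((Ne.isUnit e).map C))

theorem ext_comap : (a.map (C : A →+* MvPolynomial σ A)).comap C = a := by
  rw [← ker_fb, RingHom.ker_eq_comap_bot]
  exact fb_comap a ⊥ inferInstance

theorem den (f : MvPolynomial σ a.ResidueField) :
    ∃ u : a.ResidueField, u ≠ 0 ∧ ∃ g, fb a σ g = C u * f := by
  have key : ∃ s ∉ a, ∃ g, fb a σ g = fb a σ (C s) * f := by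
    have hp : a.IsPrime := inferInstance
    induction f using MvPolynomial.induction_on with
    | C c =>
      obtain ⟨x, y, hy, rfl⟩ := IsFractionRing.div_surjective (A := A ⧸ a) c
      obtain ⟨x, rfl⟩ := Ideal.Quotient.mk_surjective x
      obtain ⟨y, rfl⟩ := Ideal.Quotient.mk_surjective y
      have hy' : y ∉ a := fun e => nonZeroDivisors.ne_zero hy (Ideal.Quotient.eq_zero_iff_mem.2 e)
      refine ⟨y, hy', C x, ?_⟩
      have h3 : algebraMap A a.ResidueField y ≠ 0 :=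
        fun e => hy' (Ideal.algebraMap_residueField_eq_zero.1 e)
      rw [fb_C, fb_C, ← map_mul, Ideal.algebraMap_quotient_residueField_mk,
        Ideal.algebraMap_quotient_residueField_mk, mul_div_cancel₀ _ h3]
    | add f f' h1 h2 =>
      obtain ⟨s, hs, g, hg⟩ := h1
      obtain ⟨s', hs', g', hg'⟩ := h2
      exact ⟨s * s', fun e => (hp.mem_or_mem e).elim hs hs', C s' * g + C s * g', by
        simp only [map_add, map_mul, hg, hg']; ring⟩
    | mul_X f i h =>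
      obtain ⟨s, hs, g, hg⟩ := h
      exact ⟨s, hs, g * X i, by rw [map_mul, hg, mul_assoc, fb, map_X]⟩
  obtain ⟨s, hs, g, hg⟩ := key
  exact ⟨_, fun e => hs (Ideal.algebraMap_residueField_eq_zero.1 e), g, by rw [hg, fb_C]⟩

theorem mem_unit {u : a.ResidueField} (hu : u ≠ 0) (n : Ideal (MvPolynomial σ a.ResidueField))
    (f : MvPolynomial σ a.ResidueField) : C u * f ∈ n ↔ f ∈ n :=
  n.unit_mul_mem_iff_mem (hu.isUnit.map C)

theorem fb_le {n n' : Ideal (MvPolynomial σ a.ResidueField)}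
    (h : n.comap (fb a σ) ≤ n'.comap (fb a σ)) : n ≤ n' := fun f hf => by
  obtain ⟨u, hu, g, hg⟩ := den a f
  rw [← mem_unit a hu, ← hg] at hf ⊢
  exact h hf

theorem exists_fb (I : Ideal (MvPolynomial σ A)) [I.IsPrime] (h : I.comap C = a) :
    ∃ n : Ideal (MvPolynomial σ a.ResidueField), n.IsPrime ∧ n.comap (fb a σ) = I := by
  let θ : MvPolynomial σ a.ResidueField →+* I.ResidueField :=
    eval₂Hom (Ideal.ResidueField.map a I C h.symm) fun i => algebraMap (MvPolynomial σ A) _ (X i)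
  have e : θ.comp (fb a σ) = algebraMap (MvPolynomial σ A) I.ResidueField :=
    ringHom_ext (fun s => by
      rw [RingHom.comp_apply, fb_C, eval₂Hom_C, Ideal.ResidueField.map_algebraMap]) fun i => by
      rw [RingHom.comp_apply, fb, map_X, eval₂Hom_X']
  refine ⟨RingHom.ker θ, RingHom.ker_isPrime _, ?_⟩
  rw [RingHom.comap_ker, e, Ideal.ker_algebraMap_residueField]

end Fibre

/-- No prime lies strictly between. -/
def Cov {B : Type} [CommRing B] (Q P : Ideal B) : Prop :=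
  Q < P ∧ ∀ R : Ideal B, R.IsPrime → Q < R → ¬ R < P

/-- Local parametrizations by polynomial rings over the base. -/
structure Dat {A B I : Type} [CommRing A] [CommRing B] {σ : I → Type} (ε : A →+* B)
    (ψ : ∀ π, MvPolynomial (σ π) A →+* B) (δ : I → A) (T : Set (Ideal B)) : Prop where
  hC : ∀ π a, ψ π (C a) = ε a
  pr : ∀ P ∈ T, P.IsPrime
  up : ∀ Q ∈ T, ∀ R : Ideal B, R.IsPrime → Q ≤ R → R ∈ T
  le : ∀ π, ∀ P ∈ T, ∀ Q ∈ T, ε (δ π) ∉ P → Q.comap (ψ π) ≤ P.comap (ψ π) → Q ≤ P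
  lift : ∀ π, ∀ P ∈ T, ε (δ π) ∉ P → ∀ q : Ideal (MvPolynomial (σ π) A), q.IsPrime →
    q ≤ P.comap (ψ π) → ∃ Q ∈ T, Q.comap (ψ π) = q

variable {A B I : Type} [CommRing A] [CommRing B] {σ : I → Type} {ε : A →+* B}
  {ψ : ∀ π, MvPolynomial (σ π) A →+* B} {δ : I → A} {T : Set (Ideal B)}

variable (ε δ T) in
/-- The least prime with the given contraction. -/
def Ext (P : Ideal B) : Prop :=
  ∀ π, ∀ P' ∈ T, ε (δ π) ∉ P' → P.comap ε ≤ P'.comap ε → P ≤ P'

variable (ε δ T) in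
/-- The relation given by one function. -/
def Rel (G : Set (Ideal B)) : Prop :=
  ∀ π, ∀ Q ∈ T, ∀ P ∈ T, ∀ g, ε (δ π) ∉ P → g ∉ Q → g ∈ P → Cov Q P →
    (∀ π', ∀ P' ∈ T, ε (δ π') ∉ P' → P' ≠ P → g ∈ P' → Cov Q P' → P' ∈ G) → P ∈ G

variable (D : Dat ε ψ δ T)
include D

theorem Dat.comap_C (π : I) (P : Ideal B) : (P.comap (ψ π)).comap C = P.comap ε := by
  ext a
  simp only [Ideal.mem_comap, D.hC]

theorem Dat.ext_lift (π : I) {P : Ideal B} (hP : P ∈ T) (hδ : ε (δ π) ∉ P) (a : Ideal A)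
    [a.IsPrime] (h : a ≤ P.comap ε) :
    ∃ Q ∈ T, Q.comap (ψ π) = a.map C ∧ Q.comap ε = a ∧ Q ≤ P := by
  have h1 : a.map C ≤ P.comap (ψ π) := Ideal.map_le_iff_le_comap.2 (h.trans (D.comap_C π P).ge)
  obtain ⟨Q, hQ, e⟩ := D.lift π P hP hδ _ (ext_prime a) h1
  exact ⟨Q, hQ, e, by rw [← D.comap_C π, e, ext_comap], D.le π P hP Q hQ hδ (e.le.trans h1)⟩

theorem Dat.ext_of (π : I) {Q : Ideal B} (hQ : Q ∈ T) (hδ : ε (δ π) ∉ Q)
    (h : Q.comap (ψ π) = (Q.comap ε).map C) : Ext ε δ T Q := by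
  intro π' P hP hδ' hle
  have := D.pr Q hQ
  obtain ⟨Q', a1, -, a2, a3⟩ := D.ext_lift π' hP hδ' (Q.comap ε) hle
  refine (D.le π Q' a1 Q hQ (fun e => hδ (a2.le e)) ?_).trans a3
  rw [h, Ideal.map_le_iff_le_comap, D.comap_C, a2]

theorem Dat.ext_lift' (π : I) {P : Ideal B} (hP : P ∈ T) (hδ : ε (δ π) ∉ P) (a : Ideal A)
    [a.IsPrime] (h : a ≤ P.comap ε) :
    ∃ Q ∈ T, Q.comap (ψ π) = a.map C ∧ Q.comap ε = a ∧ Q ≤ P ∧ Ext ε δ T Q := by
  obtain ⟨Q, a1, a2, a3, a4⟩ := D.ext_lift π hP hδ a h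
  exact ⟨Q, a1, a2, a3, a4, D.ext_of π a1 (fun e => hδ (a4 e)) (a3 ▸ a2)⟩

theorem Dat.eq_of_ext (π : I) {P : Ideal B} (hP : P ∈ T) (hδ : ε (δ π) ∉ P)
    (h : Ext ε δ T P) : P.comap (ψ π) = (P.comap ε).map C := by
  have := D.pr P hP
  obtain ⟨Q, a1, a2, a3, a4⟩ := D.ext_lift π hP hδ (P.comap ε) le_rfl
  rw [← a2, le_antisymm a4 (h π Q a1 (fun e => hδ (a4 e)) a3.ge)]

theorem Dat.lt (π : I) {Q R : Ideal B} (hQ : Q ∈ T) (hR : R ∈ T) (hδ : ε (δ π) ∉ R) (h : Q < R) :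
    Q.comap (ψ π) < R.comap (ψ π) :=
  lt_of_le_of_ne (Ideal.comap_mono h.le) fun e =>
    h.not_ge (D.le π Q hQ R hR (fun c => hδ (h.le c)) e.ge)

variable [∀ π, Finite (σ π)] [IsNoetherianRing A] {G : Set (Ideal B)} (hG : Rel ε δ T G)
include hG

theorem Dat.step1 (hA : Van A) (π : I) {P : Ideal B} (hP : P ∈ T) (hδ : ε (δ π) ∉ P)
    (h : Ext ε δ T P) (h0 : P.comap ε ≠ ⊥) : P ∈ G := by
  have := D.pr P hP
  refine hA {a | ∀ π, ∀ P ∈ T, ε (δ π) ∉ P → Ext ε δ T P → P.comap ε = a → P ∈ G} ?_ _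
    inferInstance h0 π P hP hδ h rfl
  rintro q _ g hq hg hp ho π P hP hδ h rfl
  have := D.pr P hP
  obtain ⟨Q, a1, a2, a3, a4, a5⟩ := D.ext_lift' π hP hδ q (le_sup_left.trans hp.le)
  have hgP : ε g ∈ P := hp.le (Ideal.mem_sup_right (Ideal.mem_span_singleton_self g))
  have hgQ : ε g ∉ Q := fun e => hg (a3.le e)
  have := ext_prime (σ := σ π) q
  have hmin : P.comap (ψ π) ∈ (q.map C ⊔ Ideal.span {C g}).minimalPrimes := by
    have hle : ∀ N : Ideal (MvPolynomial (σ π) A), q.map C ⊔ Ideal.span {C g} ≤ N ↔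
        q ⊔ Ideal.span {g} ≤ N.comap C := fun N => by
      rw [← Ideal.map_le_iff_le_comap, Ideal.map_sup, Ideal.map_span, Set.image_singleton]
    refine ⟨⟨inferInstance, (hle _).2 (by rw [D.comap_C]; exact hp.le)⟩, fun N hN hNP => ?_⟩
    have := hN.1
    rw [D.eq_of_ext π hP hδ h]
    exact Ideal.map_le_iff_le_comap.2 (hp.2 ⟨Ideal.comap_isPrime _ _, (hle N).1 hN.2⟩
      ((Ideal.comap_mono hNP).trans (D.comap_C π P).le))
  refine hG π Q a1 P hP (ε g) hδ hgQ hgP ⟨lt_of_le_of_ne a4 fun e => hgQ (e ▸ hgP),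
    fun R hR e1 e2 => ?_⟩ fun π' P' b1 b2 b3 b4 b5 => ?_
  · have hRT := D.up Q a1 R hR e1.le
    have hδR : ε (δ π) ∉ R := fun c => hδ (e2.le c)
    exact e2.not_ge (D.le π R hRT P hP hδR
      (kr hmin (a2 ▸ D.lt π a1 hRT hδR e1) (Ideal.comap_mono e2.le)).ge)
  · have := D.pr P' b1
    obtain ⟨a, c1, c2⟩ := Ideal.exists_minimalPrimes_le (I := q ⊔ Ideal.span {g})
      (J := P'.comap ε) (sup_le (a3.ge.trans (Ideal.comap_mono b5.1.le))
        ((Ideal.span_singleton_le_iff_mem _).2 b4))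
    have := c1.isPrime
    obtain ⟨R, d1, -, d2, d3, d4⟩ := D.ext_lift' π' b1 b2 a c2
    have d5 : Q < R := lt_of_le_of_ne (a5 π' R d1 (fun c => b2 (d3 c))
      (a3.le.trans ((le_sup_left.trans c1.le).trans d2.ge))) fun e =>
        hgQ (e ▸ d2.ge (c1.le (Ideal.mem_sup_right (Ideal.mem_span_singleton_self g))))
    obtain rfl : R = P' := d3.eq_or_lt.resolve_right (b5.2 R (D.pr R d1) d5)
    exact ho a c1 (fun e => b3 (le_antisymm (d4 π P hP hδ (d2.trans e).le)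
      (h π' R b1 b2 (d2.trans e).ge))) π' R b1 b2 d4 d2

theorem Dat.step2 (hA : Van A) (a : Ideal A) : ∀ π, ∀ P ∈ T, ε (δ π) ∉ P → P.comap ε = a →
    P.comap (ψ π) ≠ a.map C → P ∈ G := by
  induction a using WellFoundedGT.induction with
  | ind a ih =>
  intro π P hP hδ ha hne
  have := D.pr P hP
  have : a.IsPrime := ha ▸ Ideal.comap_isPrime _ _
  have hδa : ∀ R : Ideal B, R.comap ε = a → ε (δ π) ∉ R := fun R e c => hδ (ha.ge (e.le c))
  obtain ⟨n, n1, n2⟩ := exists_fb a (P.comap (ψ π)) ((D.comap_C π P).trans ha)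
  refine van_mv a.ResidueField (σ π)
    {n | ∀ P ∈ T, P.comap (ψ π) = n.comap (fb a (σ π)) → P ∈ G} ?_ n n1
    (fun e => hne ?_) P hP n2.symm
  swap
  · rw [← n2, e, ← RingHom.ker_eq_comap_bot, ker_fb]
  clear hP hδ ha hne n1 n2 n
  intro q n g hq hg hn ho P hP e
  have n1 := hn.isPrime
  have ov : ∀ (R : Ideal B) (n : Ideal (MvPolynomial (σ π) a.ResidueField)), n.IsPrime →
      R.comap (ψ π) = n.comap (fb a (σ π)) → R.comap ε = a := fun R n h1 h2 => by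
    rw [← D.comap_C π, h2, fb_comap a n h1]
  have ha := ov P n n1 e
  have hδ := hδa P ha
  have hqn : q.comap (fb a (σ π)) ≤ P.comap (ψ π) :=
    (Ideal.comap_mono (le_sup_left.trans hn.le)).trans e.ge
  obtain ⟨Q, a1, a2⟩ := D.lift π P hP hδ _ (Ideal.comap_isPrime _ _) hqn
  have a3 := ov Q q hq a2
  have a4 := D.le π P hP Q a1 hδ (a2.le.trans hqn)
  obtain ⟨u, hu, g', hg'⟩ := den a g
  have mem : ∀ (R : Ideal B) (n : Ideal (MvPolynomial (σ π) a.ResidueField)),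
      R.comap (ψ π) = n.comap (fb a (σ π)) → (ψ π g' ∈ R ↔ g ∈ n) := fun R n h => by
    rw [← Ideal.mem_comap, h, Ideal.mem_comap, hg', mem_unit a hu]
  have hgP := (mem P n e).2 (hn.le (Ideal.mem_sup_right (Ideal.mem_span_singleton_self g)))
  have hgQ := mt (mem Q q a2).1 hg
  refine hG π Q a1 P hP (ψ π g') hδ hgQ hgP ⟨lt_of_le_of_ne a4 fun e => hgQ (e ▸ hgP),
    fun R hR e1 e2 => ?_⟩ fun π' P' b1 b2 b3 b4 b5 => ?_
  · have hRT := D.up Q a1 R hR e1.le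
    have hδR : ε (δ π) ∉ R := fun c => hδ (e2.le c)
    obtain ⟨n', c1, c2⟩ := exists_fb a (R.comap (ψ π)) ((D.comap_C π R).trans (le_antisymm
      ((Ideal.comap_mono e2.le).trans ha.le) (a3.ge.trans (Ideal.comap_mono e1.le))))
    have c3 := D.lt π a1 hRT hδR e1
    rw [a2, ← c2] at c3
    have c4 := kr hn (lt_of_le_of_ne (fb_le a c3.le) fun c => c3.ne (by rw [c]))
      (fb_le a (c2.le.trans ((Ideal.comap_mono e2.le).trans e.le)))
    exact e2.not_ge (D.le π R hRT P hP hδR (by rw [e, ← c2, c4]))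
  · have := D.pr P' b1
    rcases (a3.ge.trans (Ideal.comap_mono b5.1.le)).eq_or_lt with c | c
    · have hδ' := hδa P' c.symm
      obtain ⟨n', c1, c2⟩ := exists_fb a (P'.comap (ψ π)) ((D.comap_C π P').trans c.symm)
      obtain ⟨n'', c3, c4⟩ := Ideal.exists_minimalPrimes_le (I := q ⊔ Ideal.span {g}) (J := n')
        (sup_le (fb_le a (a2.ge.trans ((Ideal.comap_mono b5.1.le).trans c2.ge)))
          ((Ideal.span_singleton_le_iff_mem _).2 ((mem P' n' c2.symm).1 b4)))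
      have := c3.isPrime
      have c5 := (Ideal.comap_mono (f := fb a (σ π)) c4).trans c2.le
      obtain ⟨R, d1, d2⟩ := D.lift π P' b1 hδ' _ (Ideal.comap_isPrime _ _) c5
      have d3 := D.le π P' b1 R d1 hδ' (d2.le.trans c5)
      have d5 : Q < R := lt_of_le_of_ne (D.le π R d1 Q a1 (fun c => hδ' (d3 c))
        (a2.le.trans ((Ideal.comap_mono (le_sup_left.trans c3.le)).trans d2.ge))) fun e =>
          hgQ (e ▸ (mem R n'' d2).2 (c3.le (Ideal.mem_sup_right (Ideal.mem_span_singleton_self g))))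
      obtain rfl : R = P' := d3.eq_or_lt.resolve_right (b5.2 R (D.pr R d1) d5)
      refine ho n'' c3 (fun c => b3 ?_) R b1 d2
      have d6 : R.comap (ψ π) = P.comap (ψ π) := by rw [d2, e, c]
      exact le_antisymm (D.le π P hP R b1 hδ d6.le) (D.le π R b1 P hP hδ' d6.ge)
    · by_cases h : P'.comap (ψ π') = (P'.comap ε).map C
      · exact D.step1 hG hA π' b1 b2 (D.ext_of π' b1 b2 h) (ne_bot_of_gt c)
      · exact ih _ c π' P' b1 b2 rfl h

theorem Dat.main (hA : Van A) (π : I) {P : Ideal B} (hP : P ∈ T) (hδ : ε (δ π) ∉ P)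
    (h0 : P.comap (ψ π) ≠ ⊥) : P ∈ G := by
  by_cases h : P.comap (ψ π) = (P.comap ε).map C
  · exact D.step1 hG hA π hP hδ (D.ext_of π hP hδ h) fun e => h0 (by rw [h, e, Ideal.map_bot])
  · exact D.step2 hG hA _ π P hP hδ rfl h

omit D hG

/-- Polynomials in two sets of variables. -/
noncomputable def sw (k τ σ : Type) [Field k] :
    MvPolynomial (τ ⊕ σ) k ≃+* MvPolynomial σ (MvPolynomial τ k) :=
  ((renameEquiv k (Equiv.sumComm τ σ)).trans (sumAlgEquiv k σ τ)).toRingEquiv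

theorem sw_C {k τ σ : Type} [Field k] (a : MvPolynomial τ k) :
    (sw k τ σ).symm (C a) = rename Sum.inl a := by
  rw [RingEquiv.symm_apply_eq]
  change _ = sumAlgEquiv k σ τ (rename (Equiv.sumComm τ σ) (rename Sum.inl a))
  rw [rename_rename]
  exact (AlgHom.congr_fun (sumAlgEquiv_comp_rename_inr k σ τ) a).symm

end Vb

theorem vb : VbS := by
  intro k K ι τ τ' r B _ _ _ _ _ _ _ _ _ _ _ _ _ _ _ m e sec ρ Y t _ _ J _ d hJ he hρ H1 H2 hd
  classical
  have one : ∀ P : Ideal B, P.IsPrime → aeval (e ∘ sec) (1 : MvPolynomial τ' k) ∉ P :=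
    fun P hP => by rw [map_one]; exact hP.one_notMem
  have s1 : ∀ h₀, ∀ P ∈ St e sec ρ h₀, P ∈ St e sec ρ 1 := fun _ P h => ⟨h.1, h.2.1, one P h.1⟩
  have gen := fun (p : r → ι) (hp : Function.Injective p) =>
    gen_build (K := K) (m := m) (h₀ := pdet m p) hp he dvd_rfl subset_rfl
      fun P hP => H1 P (s1 _ P hP)
  let ψ : ∀ p : {p : r → ι // Function.Injective p},
      MvPolynomial {i // i ∉ Set.range p.1} (MvPolynomial τ' k) →+* B := fun p =>
    (par k K e sec p.1).toRingHom.comp (Vb.sw k τ' _).symm.toRingHom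
  have hψ : ∀ p (P : Ideal B), (P.comap (ψ p)).comap (Vb.sw k τ' _) =
      P.comap (par k K e sec p.1) := fun p P => by
    ext f
    simp [ψ, Ideal.mem_comap]
  have D : Vb.Dat (aeval (e ∘ sec) : MvPolynomial τ' k →ₐ[k] B).toRingHom ψ
      (fun p => pdet m p.1) (St e sec ρ 1) := by
    have hC : ∀ p a, ψ p (C a) = aeval (e ∘ sec) a := fun p a =>
      (congrArg (par k K e sec p.1) (Vb.sw_C a)).trans (par_inl e sec a)
    refine ⟨hC, fun P h => h.1, fun Q hQ R hR h => ⟨hR, fun x => h (hQ.2.1 x), one R hR⟩,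
      fun p P hP Q hQ h1 h2 => ?_, fun p P hP h1 q hq h2 => ?_⟩
    · have := hP.1
      refine le_strat _ (gen p.1 p.2) ⟨hP.1, hP.2.1, h1⟩ ⟨hQ.1, hQ.2.1, fun c => h1 ?_⟩ ?_
      · have := h2 (x := C (pdet m p.1)) (by rwa [Ideal.mem_comap, hC])
        rwa [Ideal.mem_comap, hC] at this
      · rw [← hψ, ← hψ]
        exact Ideal.comap_mono h2
    · obtain ⟨Q, a1, -, a2⟩ := lift_build p.2 hρ dvd_rfl (fun P hP => H1 P (s1 _ P hP)) H2 P
        ⟨hP.1, hP.2.1, h1⟩ (q.comap (Vb.sw k τ' _)) (Ideal.comap_isPrime _ _)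
        (hψ p P ▸ Ideal.comap_mono h2)
      exact ⟨Q, s1 _ Q a1, Ideal.comap_injective_of_surjective _ (Vb.sw k τ' _).surjective
        ((hψ p Q).trans a2)⟩
  have hnat : ∀ P : Spec (CommRingCat.of B), ∃ n : ℕ, trdeg K (B ⧸ P.asIdeal) = n := fun P =>
    Cardinal.lt_aleph0.1 trdeg_lt_aleph0_of_finiteType
  have hc := height_chart t J hJ
  have dim : ∀ (p : r → ι), Function.Injective p → ∀ P ∈ St e sec ρ 1,
      aeval (e ∘ sec) (pdet m p) ∉ P → ∀ n : ℕ, trdeg K (B ⧸ P) = n →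
      n ≤ d ∧ (n = d ↔ P.comap (par k K e sec p) = ⊥) := fun p hp P hP h n hn => by
    have := hP.1
    have h1 := dim_strat _ (gen p hp) ⟨hP.1, hP.2.1, h⟩ (trdeg_par k ι K) hn
    have h2 := card_fr (τ' := τ') hp
    exact ⟨by omega, Iff.trans ⟨fun _ => by omega, fun _ => by omega⟩ h1.2⟩
  refine ⟨?_, ?_, fun V hV hb => ?_⟩
  · rintro _ ⟨P, ⟨hP, p, hp, h⟩, rfl⟩
    obtain ⟨n, hn⟩ := hnat P
    rw [(hc P n).2 hn, Nat.cast_le]
    exact (dim p hp _ hP h n hn).1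
  · have key : ∀ P P' : Spec (CommRingCat.of B), (P.asIdeal ∈ St e sec ρ 1 ∧ ∃ p : r → ι,
        Function.Injective p ∧ aeval (e ∘ sec) (pdet m p) ∉ P.asIdeal) →
        (P'.asIdeal ∈ St e sec ρ 1 ∧ ∃ p : r → ι,
        Function.Injective p ∧ aeval (e ∘ sec) (pdet m p) ∉ P'.asIdeal) →
        Order.height (J P) = d → P.asIdeal ≤ P'.asIdeal := by
      rintro P P' ⟨hP, p, hp, h⟩ ⟨hP', p', hp', h'⟩ h1
      have a1 := (dim p hp _ hP h d ((hc P d).1 h1)).2.1 rfl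
      have a2 : P.asIdeal.comap (ψ ⟨p, hp⟩) = ⊥ :=
        Ideal.comap_injective_of_surjective _ (Vb.sw k τ' _).surjective (by
          rw [hψ, a1, Ideal.comap_bot_of_injective _ (Vb.sw k τ' _).injective])
      have a3 := D.comap_C ⟨p, hp⟩ P.asIdeal
      rw [a2, Ideal.comap_bot_of_injective _ (C_injective _ _)] at a3
      exact D.ext_of ⟨p, hp⟩ hP h (by rw [a2, ← a3, Ideal.map_bot]) ⟨p', hp'⟩ _ hP' h'
        (a3.ge.trans bot_le)
    rintro _ ⟨P, hP, rfl⟩ _ ⟨P', hP', rfl⟩ h1 h2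
    exact congrArg J (PrimeSpectrum.ext (le_antisymm (key P P' hP hP' h1) (key P' P hP' hP h2)))
  rintro _ ⟨P, ⟨hP, p, hp, h⟩, rfl⟩ h2 hd2
  refine D.main (G := {N | ∀ P : Spec (CommRingCat.of B), P.asIdeal = N →
    Order.height (J P) = 2 → Good V (J P)}) ?_ (van_mv k τ') ⟨p, hp⟩ hP h (fun c => hd2 ?_) P rfl h2
  swap
  · refine ((dim p hp _ hP h 2 ((hc P 2).1 h2)).2.2 ?_).symm
    rw [← hψ ⟨p, hp⟩, c, Ideal.comap_bot_of_injective _ (Vb.sw k τ' _).injective]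
  rintro p Q hQ _ hP g h g1 g2 cv ho P rfl h2
  have := hQ.1
  have hQ3 : trdeg K (B ⧸ Q) = (3 : ℕ) := by
    rw [← cover (k := K) cv.1 cv.2, (hc P 2).1 h2]; norm_num
  refine good_chart t J hV (Q := ⟨Q, hQ.1⟩) ((hc _ 3).2 hQ3) h2 cv.1.le g2 g1
    fun z b1 b2 b3 b4 => ?_
  by_cases b5 : z ∈ J '' {P | P.asIdeal ∈ St e sec ρ 1 ∧ ∃ p : r → ι, Function.Injective p ∧
    aeval (e ∘ sec) (pdet m p) ∉ P.asIdeal}
  swap
  · exact hb z b3 b5 ⟨_, ⟨⟨Q, hQ.1⟩, ⟨hQ, p.1, p.2, fun c => h (cv.1.le c)⟩, rfl⟩, b2⟩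
  obtain ⟨P', ⟨hP', p', hp', h'⟩, rfl⟩ := b5
  refine ho ⟨p', hp'⟩ _ hP' h' (fun c => b1 (congrArg J (PrimeSpectrum.ext c))) (b4 P' rfl)
    ⟨lt_of_le_of_ne ((spec_chart J _ _).1 b2) fun c => g1 (c ▸ b4 P' rfl), fun R hR c1 c2 => ?_⟩
    P' rfl b3
  obtain ⟨n, hn⟩ := hnat ⟨R, hR⟩
  have d1 := trdeg_lt c1 hQ3
  have d2 := trdeg_lt c2 hn
  rw [(hc P' 2).1 b3] at d2
  rw [show trdeg K (B ⧸ R) = n from hn] at d1
  have d3 : n < 3 := by exact_mod_cast d1
  have d4 : 2 < n := by exact_mod_cast d2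
  omega

end Pool.Agent.MP_b834b3_ag.G20
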