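import Mathlib.RingTheory.IntegralClosure.IsIntegral.AlmostIntegral
import Mathlib.RingTheory.Norm.Transitivity
import Mathlib.RingTheory.Polynomial.IsIntegral
import Pool.Agent.MP_b834b3_ag.g.SpecA

/-! The divisor of the norm of a function, described by valuations. -/

namespace Pool.Agent.MP_b834b3_ag.G20

open AlgebraicGeometry CategoryTheory Algebra IsLocalRing Limits

namespace Vrel

/-- the valuation ring dominates the image of the local ring -/
def Dom (R : Type) {F : Type} [CommRing R] [IsLocalRing R] [Field F] [Algebra R F]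
    (O : ValuationSubring F) : Prop :=
  (∀ r, algebraMap R F r ∈ O) ∧ ∀ r ∈ maximalIdeal R, algebraMap R F r ∈ O.nonunits

theorem top_int {R F : Type} [CommRing R] [IsLocalRing R] [Field F] [Algebra R F] {x : F}
    (hx0 : x ≠ 0) (e : (maximalIdeal R).map (algebraMap R (adjoin R {x})) ⊔
      .span {⟨x, subset_adjoin rfl⟩} = ⊤) : IsIntegral R x⁻¹ := by
  let _ := invertibleOfNonzero hx0
  obtain ⟨p, hp, hpx⟩ := exists_aeval_invOf_eq_zero_of_idealMap_adjoin_sup_span_eq_top x _
    (maximalIdeal.isMaximal R).ne_top e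
  have H : IsUnit p.leadingCoeff := of_not_not fun h => by simpa using sub_mem h hp
  rw [invOf_eq_inv] at hpx
  obtain ⟨u, hu⟩ := H.exists_left_inv
  have h1 : (Polynomial.C u * p).Monic := Polynomial.monic_C_mul_of_mul_leadingCoeff_eq_one hu
  have h2 : Polynomial.aeval x⁻¹ (Polynomial.C u * p) = 0 := by rw [map_mul, hpx, mul_zero]
  exact ⟨_, h1, h2⟩

theorem int_of_val {R F : Type} [CommRing R] [IsLocalRing R] [Field F] [Algebra R F] {x : F}
    (h : ∀ O : ValuationSubring F, Dom R O → x ∈ O) : IsIntegral R x := by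
  obtain rfl | hx0 := eq_or_ne x 0
  · exact isIntegral_zero
  by_contra hx
  obtain ⟨I, hI⟩ : ∃ I : Ideal (adjoin R {x⁻¹}), I =
    (maximalIdeal R).map (algebraMap R _) ⊔ .span {⟨x⁻¹, subset_adjoin rfl⟩} := ⟨_, rfl⟩
  have h1 : I ≠ ⊤ := fun e => hx (inv_inv x ▸ top_int (inv_ne_zero hx0) (hI.symm.trans e))
  obtain ⟨V, hV, hV'⟩ := Ideal.image_subset_nonunits_valuationSubring
    (A := (adjoin R {x⁻¹}).toSubring) I h1
  have h2 : ∀ b ∈ I, (b : F) ∈ V.nonunits := fun b hb => hV' ⟨b, hb, rfl⟩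
  have h3 := h2 ⟨x⁻¹, subset_adjoin rfl⟩
    (hI ▸ Ideal.mem_sup_right (Ideal.mem_span_singleton_self _))
  refine (V.inv_mem_nonunits_iff.mp h3).resolve_left hx0
    (h V ⟨fun r => hV ((adjoin R {x⁻¹}).algebraMap_mem r), fun r hr => ?_⟩)
  exact h2 (algebraMap R _ r) (hI ▸ Ideal.mem_sup_left (Ideal.mem_map_of_mem _ hr))

theorem mem_of_int {R F : Type} [CommRing R] [Field F] [Algebra R F] {x : F}
    (h : IsIntegral R x) (O : ValuationSubring F) (hO : ∀ r, algebraMap R F r ∈ O) : x ∈ O := by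
  let _ := ((algebraMap R F).codRestrict O.toSubring hO).toAlgebra
  have : IsScalarTower R O.toSubring F := .of_algebraMap_eq fun _ => rfl
  have h1 : IsIntegral O.toSubring x := h.tower_top
  exact LocalSubring.mem_of_isMax_of_isIntegral O.isMax_toLocalSubring h1

theorem nrm {K F : Type} [Field K] [Field F] [Algebra K F] {φ : F} (h0 : φ ≠ 0)
    (ha : IsIntegral K φ) : ∃ ψ : K, ψ ≠ 0 ∧
      ∀ (R : Type) [CommRing R] [Algebra R K] [Algebra R F] [IsScalarTower R K F],
        (IsIntegral R φ → IsIntegral R ψ ∧ IsIntegral R (algebraMap K F ψ * φ⁻¹)) ∧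
        (IsIntegral R φ⁻¹ → IsIntegral R ψ⁻¹) := by
  refine ⟨(minpoly K φ).coeff 0, minpoly.coeff_zero_ne_zero ha h0, fun R _ _ _ _ => ⟨?_, ?_⟩⟩
  · rintro ⟨g, hg, hg0⟩
    have hd : minpoly K φ ∣ g.map (algebraMap R K) := minpoly.dvd K φ (by
      rw [Polynomial.aeval_map_algebraMap]; exact hg0)
    have hc := Polynomial.isIntegral_coeff_of_dvd g _ hg (minpoly.monic ha) hd
    refine ⟨hc 0, ?_⟩
    have e : algebraMap K F ((minpoly K φ).coeff 0) * φ⁻¹ =
        -Polynomial.aeval φ (minpoly K φ).divX := by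
      have e1 := minpoly.aeval K φ
      conv_lhs at e1 => rw [← Polynomial.divX_mul_X_add (minpoly K φ)]
      rw [map_add, map_mul, Polynomial.aeval_X, Polynomial.aeval_C] at e1
      rw [mul_inv_eq_iff_eq_mul₀ h0]
      linear_combination e1
    rw [e, Polynomial.aeval_eq_sum_range]
    refine (IsIntegral.sum _ fun i _ => ?_).neg
    rw [Algebra.smul_def, Polynomial.coeff_divX]
    exact (hc _).algebraMap.mul (IsIntegral.pow ⟨g, hg, hg0⟩ _)
  · intro hi
    let pb := IntermediateField.adjoin.powerBasis ha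
    have h1 := PowerBasis.norm_gen_eq_coeff_zero_minpoly pb
    have h2 : minpoly K pb.gen = minpoly K φ := IntermediateField.minpoly_gen K φ
    have : IsScalarTower R (IntermediateField.adjoin K {φ}) F :=
      .of_algebraMap_eq fun r => rfl
    have h3 : IsIntegral R pb.gen⁻¹ :=
      (isIntegral_algebraMap_iff (B := F) Subtype.val_injective).1 hi
    have h4 := Algebra.isIntegral_norm K h3
    have h5 : pb.gen ≠ 0 := fun e => h0 (congrArg Subtype.val e)
    have h6 : norm K pb.gen⁻¹ * norm K pb.gen = 1 := by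
      rw [← map_mul, inv_mul_cancel₀ h5, map_one]
    rw [h1, h2, ← mul_assoc] at h6
    rw [← eq_inv_of_mul_eq_one_left h6]
    exact h4.mul (isIntegral_one.neg.pow _)

theorem kill {R : Type} [CommRing R] [IsLocalRing R] {I : Ideal R} {l : ℕ}
    (hl : Module.length R (R ⧸ I) = l) {t : R} (ht : t ∈ maximalIdeal R) : t ^ l ∈ I := by
  by_contra hc
  have h1 : ∀ i, i ≤ l → (i : ℕ∞) ≤ Order.coheight (I ⊔ Ideal.span {t ^ i}) := by
    intro i
    induction i with
    | zero => intro _; exact zero_le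
    | succ i ih =>
      intro hi
      have a1 : I ⊔ Ideal.span {t ^ (i + 1)} < I ⊔ Ideal.span {t ^ i} := by
        refine lt_of_le_of_ne (sup_le_sup_left (Ideal.span_singleton_le_span_singleton.2
          (pow_dvd_pow t i.le_succ)) I) fun e => hc ?_
        obtain ⟨a, ha, b, hb, e1⟩ := Submodule.mem_sup.1
          (e.ge (Ideal.mem_sup_right (Ideal.mem_span_singleton_self _)))
        obtain ⟨s, rfl⟩ := Ideal.mem_span_singleton'.1 hb
        have hu : IsUnit (1 - s * t) :=
          isUnit_one_sub_self_of_mem_nonunits _ ((maximalIdeal R).mul_mem_left s ht)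
        have a2 : (1 - s * t) * t ^ i ∈ I := by
          convert ha using 1
          linear_combination -e1
        obtain ⟨d, rfl⟩ := Nat.exists_eq_add_of_le hi
        rw [show t ^ (i + 1 + d) = t ^ (d + 1) * t ^ i by ring]
        exact I.mul_mem_left _ ((I.unit_mul_mem_iff_mem hu).1 a2)
      exact le_trans (by exact_mod_cast add_le_add_left (ih (by omega)) 1)
        (Order.coheight_add_one_le a1)
  have a1 : I < I ⊔ Ideal.span {t ^ l} := lt_of_le_of_ne le_sup_left fun e =>
    hc (e.ge (Ideal.mem_sup_right (Ideal.mem_span_singleton_self _)))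
  have a2 := (add_le_add_left (h1 l le_rfl) 1).trans (Order.coheight_add_one_le a1)
  rw [← Module.length_quotient, hl] at a2
  have : l + 1 ≤ l := by exact_mod_cast a2
  omega

theorem ord_int {R K : Type} [CommRing R] [IsDomain R] [IsLocalRing R] [IsNoetherianRing R]
    [Field K] [Algebra R K] [IsFractionRing R K] (o : K → ℤ)
    (hm : ∀ x y, x ≠ 0 → y ≠ 0 → o (x * y) = o x + o y)
    (hr : ∀ r : R, r ≠ 0 → ∃ m : ℕ, Ring.ord R r = m ∧ o (algebraMap R K r) = m)
    {ψ : K} (h0 : ψ ≠ 0) (hi : IsIntegral R ψ) : 0 ≤ o ψ ∧ (o ψ = 0 → IsIntegral R ψ⁻¹) := by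
  obtain ⟨c, hc, hn⟩ := hi.isAlmostIntegral
  choose a ha using hn
  have hc0 : algebraMap R K c ≠ 0 :=
    (map_ne_zero_iff _ (IsFractionRing.injective R K)).2 (nonZeroDivisors.ne_zero hc)
  have ha' : ∀ n, algebraMap R K (a n) = algebraMap R K c * ψ ^ n := fun n => by
    rw [ha, Algebra.smul_def]
  have ha0 : ∀ n, a n ≠ 0 := fun n e => mul_ne_zero hc0 (pow_ne_zero n h0) (by
    rw [← ha', e, map_zero])
  have ho : ∀ n : ℕ, o (algebraMap R K (a n)) = o (algebraMap R K c) + n * o ψ := by
    intro n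
    rw [ha']
    induction n with
    | zero => simp
    | succ n ih =>
      rw [pow_succ, ← mul_assoc, hm _ _ (mul_ne_zero hc0 (pow_ne_zero n h0)) h0, ih]
      push_cast
      ring
  obtain ⟨l, -, hl⟩ := hr c (nonZeroDivisors.ne_zero hc)
  refine ⟨?_, fun e => ?_⟩
  · obtain ⟨m, -, h1⟩ := hr _ (ha0 (l + 1))
    rw [ho, hl] at h1
    push_cast at h1
    by_contra h2
    have h3 : o ψ ≤ -1 := by omega
    nlinarith [Int.natCast_nonneg m, Int.natCast_nonneg l]
  · obtain ⟨t, ht0, ht⟩ : ∃ t : R, t ≠ 0 ∧ ∀ n, t ∈ Ideal.span {a n} := by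
      by_cases hb : maximalIdeal R = ⊥
      · refine ⟨1, one_ne_zero, fun n => ?_⟩
        rw [← Ideal.eq_top_iff_one, Ideal.span_singleton_eq_top, ← notMem_maximalIdeal, hb]
        exact ha0 n
      · obtain ⟨t, ht, ht0⟩ := Submodule.exists_mem_ne_zero_of_ne_bot hb
        refine ⟨t ^ l, pow_ne_zero _ ht0, fun n => kill ?_ ht⟩
        obtain ⟨m, h1, h2⟩ := hr _ (ha0 n)
        rw [ho, hl, e, mul_zero, add_zero, Nat.cast_inj] at h2
        rw [h2]
        exact h1
    refine IsAlmostIntegral.isIntegral ⟨t, mem_nonZeroDivisors_of_ne_zero ht0, fun n => ?_⟩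
    obtain ⟨s, hs⟩ := Ideal.mem_span_singleton'.1 (ht n)
    refine ⟨s * c, ?_⟩
    rw [Algebra.smul_def, ← hs, map_mul, map_mul, ha', mul_assoc, mul_assoc, ← mul_pow,
      mul_inv_cancel₀ h0, one_pow, mul_one]

theorem exists_loc {Y : Scheme.{0}} {O : Type} [CommRing O] [IsLocalRing O]
    (μ : Spec (CommRingCat.of O) ⟶ Y) (y : Y) (h : μ (closedPoint O) = y) :
    ∃ s : Y.presheaf.stalk y →+* O, IsLocalHom s ∧ sp s ≫ fs Y y = μ := by
  subst h
  exact ⟨(Scheme.stalkClosedPointTo μ).hom, inferInstance,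
    Scheme.Spec_stalkClosedPointTo_fromSpecStalk μ⟩

theorem ctr_iff {W Y : Scheme.{0}} (i : W ⟶ Y) [IsClosedImmersion i] {F : Type} [Field F]
    (ξ : Spec (CommRingCat.of F) ⟶ Y) (z : W) [Algebra (W.presheaf.stalk z) F]
    (h : sp (algebraMap (W.presheaf.stalk z) F) ≫ fs W z ≫ i = ξ) (O : ValuationSubring F) :
    Ctr ξ O (i z) ↔ Dom (W.presheaf.stalk z) O := by
  constructor
  · rintro ⟨μ, h1, h2⟩
    obtain ⟨s, hs, rfl⟩ := exists_loc μ _ h2
    have h3 : sp (i.stalkMap z).hom ≫ fs Y (i z) = fs W z ≫ i :=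
      Scheme.SpecMap_stalkMap_fromSpecStalk i
    have : Mono (fs Y (i z)) := inferInstanceAs (Mono (Y.fromSpecStalk (i z)))
    rw [← h, ← h3, ← Category.assoc, ← Category.assoc, cancel_mono, ← sp_comp, ← sp_comp] at h1
    have h4 : ∀ a, ((s a : O) : F) = algebraMap _ F (i.stalkMap z a) :=
      RingHom.congr_fun (sp_inj h1)
    refine ⟨fun r => ?_, fun r hr => ?_⟩
    · obtain ⟨a, rfl⟩ := i.stalkMap_surjective z r
      exact h4 a ▸ (s a).2
    · obtain ⟨a, rfl⟩ := i.stalkMap_surjective z r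
      refine h4 a ▸ ValuationSubring.coe_mem_nonunits_iff.2 fun e => hr ?_
      exact (hs.1 a e).map (i.stalkMap z).hom
  · rintro ⟨h1, h2⟩
    let g : W.presheaf.stalk z →+* O := (algebraMap _ F).codRestrict O h1
    have : IsLocalHom g := ⟨fun a ha => by
      by_contra e
      exact ValuationSubring.coe_mem_nonunits_iff.1 (h2 a e) ha⟩
    refine ⟨sp g ≫ fs W z ≫ i, ?_, ?_⟩
    · rw [← Category.assoc, ← sp_comp, ← h]
      rfl
    · rw [Scheme.Hom.comp_apply, Scheme.Hom.comp_apply]
      congr 1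
      exact (congrArg (fs W z) (comap_closedPoint g)).trans Scheme.fromSpecStalk_closedPoint

end Vrel

open Vrel in
theorem vrel : VrelS := by
  intro k _ Y t _ _ F _ _ ξ φ hξt hξ hF hφ
  classical
  obtain ⟨W, _, i, ε, hi, hε⟩ := exists_image ξ
  have hln : IsLocallyNoetherian W := LocallyOfFiniteType.isLocallyNoetherian (i ≫ t)
  have hcs : CompactSpace W := i.isClosedEmbedding.compactSpace
  have hno : IsNoetherian W := {}
  have hii : Function.Injective i := i.isClosedEmbedding.injective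
  have hgen : i (genericPoint W) = ξ (closedPoint F) := by
    rw [← hε, Scheme.Hom.comp_apply, Scheme.Hom.comp_apply]
    congr 1
    rw [Subsingleton.elim (α := PrimeSpectrum W.functionField) (sp ε (closedPoint F))
      (closedPoint W.functionField)]
    exact Scheme.fromSpecStalk_closedPoint.symm
  have hW : Order.height (genericPoint W) = (2 + 1 : ℕ) := by
    rw [← height_closed i, hgen, hξ]; rfl
  let _ := ε.toAlgebra
  have halg : Algebra.IsAlgebraic W.functionField F := by
    let κ := Spec.preimage (W.fromSpecStalk (genericPoint W) ≫ i ≫ t)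
    let _ : Algebra k W.functionField := κ.hom.toAlgebra
    have h1 : sp (ε.comp κ.hom) = sp (algebraMap k F) := by
      rw [sp_comp, ← hξt, ← hε, Category.assoc, Category.assoc]
      congr 1
      exact Spec.map_preimage _
    have : IsScalarTower k W.functionField F :=
      .of_algebraMap_eq fun c => (RingHom.congr_fun (sp_inj h1) c).symm
    obtain ⟨n, hn⟩ := dl_nat (i ≫ t) (genericPoint W)
    have h2 : n = 3 := by exact_mod_cast (height_eq _ hn).symm.trans hW
    have h3 : trdeg k W.functionField = dl (i ≫ t) (genericPoint W) := by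
      let _ := (Spec.preimage (W.fromSpecResidueField (genericPoint W) ≫ i ≫ t)).hom.toAlgebra
      have h4 : κ ≫ W.residue _ =
          Spec.preimage (W.fromSpecResidueField (genericPoint W) ≫ i ≫ t) := by
        apply Spec.map_injective
        rw [Spec.map_comp, Spec.map_preimage, Spec.map_preimage, Scheme.fromSpecResidueField,
          Category.assoc]
      exact (AlgEquiv.ofBijective (R := k) (A₁ := W.functionField)
        (A₂ := W.residueField (genericPoint W))
        ⟨(W.residue _).hom, fun c => congrArg (fun g => g.hom c) h4⟩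
        ⟨RingHom.injective (R := W.functionField) _, W.residue_surjective _⟩).trdeg_eq
    rw [← trdeg_add_eq k W.functionField (A := F), h3, hn, h2] at hF
    rw [← trdeg_eq_zero_iff]
    by_contra h5
    have h6 := (add_le_add_right (Cardinal.one_le_iff_ne_zero.2 h5) _).trans hF
    norm_cast at h6
  obtain ⟨ψ, hψ0, hψ⟩ := nrm hφ (halg.isAlgebraic φ).isIntegral
  let c : Y →₀ ℚ := Finsupp.mapDomain i (Finsupp.ofSupportFinite (fun z => (W.ord ψ z : ℚ))
    ((ord_finite W ψ).subset fun z hz => by simpa using hz))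
  have hc : ∀ z, c (i z) = W.ord ψ z := fun z => by
    simp only [c]
    rw [Finsupp.mapDomain_apply hii, Finsupp.ofSupportFinite_coe]
  have hc' : ∀ y, y ∉ Set.range i → c y = 0 := fun y hy =>
    Finsupp.mapDomain_of_notMem_range _ _ hy
  have key : ∀ z : W, Order.coheight z = 1 → (∀ O, Ctr ξ O (i z) → φ ∈ O) →
      (W.ord ψ z = 0 ↔ ∀ O, Ctr ξ O (i z) → φ⁻¹ ∈ O) := by
    intro z hz h1
    let _ : Algebra (W.presheaf.stalk z) F := (ε.comp (algebraMap _ W.functionField)).toAlgebra
    have : IsScalarTower (W.presheaf.stalk z) W.functionField F := .of_algebraMap_eq fun _ => rfl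
    have hD := ctr_iff i ξ z (by
      rw [← hε]
      refine (congrArg (· ≫ fs W z ≫ i) (sp_comp _ ε)).trans ?_
      rw [Category.assoc]
      congr 1
      rw [← Category.assoc]
      congr 1
      exact Scheme.SpecMap_stalkSpecializes_fromSpecStalk (genericPoint_specializes z))
    have : Ring.KrullDimLE 1 (W.presheaf.stalk z) := krullDimLE_of_coheight_le hz.le
    have hm : ∀ x y : W.functionField, x ≠ 0 → y ≠ 0 → W.ord (x * y) z = W.ord x z + W.ord y z :=
      fun x y hx hy => Scheme.ord_mul hx hy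
    have ho := @ord_int (W.presheaf.stalk z) W.functionField _ _ _ _ _ _ _ (W.ord · z) hm
      fun u h0 => by
        have hn := mem_nonZeroDivisors_of_ne_zero h0
        obtain ⟨m, hm⟩ := ENat.ne_top_iff_exists.1 (Ring.ord_ne_top hn)
        refine ⟨m, hm.symm, ?_⟩
        rw [Scheme.ord_eq_iff hz ((map_ne_zero_iff _ (IsFractionRing.injective _ _)).2 h0)]
        change Ring.ordFrac _ _ = _
        rw [Ring.ordFrac_eq_ord _ h0]
        exact Ring.ordMonoidWithZeroHom_eq_coe _ hn hm.symm
    obtain ⟨a1, a2⟩ := hψ (W.presheaf.stalk z)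
    obtain ⟨a3, a4⟩ := a1 (int_of_val fun O hO => h1 O ((hD O).2 hO))
    refine ⟨fun e O hO => mem_of_int ?_ O ((hD O).1 hO).1, fun e => ?_⟩
    · have a5 := (((ho hψ0 a3).2 e).algebraMap (B := F)).mul a4
      rwa [← mul_assoc, ← map_mul, inv_mul_cancel₀ hψ0, map_one, one_mul] at a5
    · have a5 := (ho (inv_ne_zero hψ0) (a2 (int_of_val fun O hO => e O ((hD O).2 hO)))).1
      have a6 := (ho hψ0 a3).1
      have a7 := hm ψ ψ⁻¹ hψ0 (inv_ne_zero hψ0)
      have a8 := hm 1 1 one_ne_zero one_ne_zero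
      rw [mul_inv_cancel₀ hψ0] at a7
      rw [mul_one] at a8
      omega
  refine ⟨c, ⟨W, inferInstance, hln, i, ψ, hi, ?_, hψ0, hc, hc'⟩, fun z hz => ?_, ?_⟩
  · rw [dim_top, hW]; rfl
  · obtain ⟨z, rfl⟩ : z ∈ Set.range i := by
      by_contra h
      exact hz (hc' z h)
    have h1 : Order.coheight z = 1 := by
      by_contra h
      exact hz (by rw [hc, Scheme.ord_eq_zero_of_coheight_neq_one h]; rfl)
    refine ⟨by rw [height_closed]; exact (coheight_one (i ≫ t) hW z).1 h1, ?_⟩
    by_contra h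
    push Not at h
    exact hz (by rw [hc, (key z h1 fun O hO => (h O hO).1).2 fun O hO => (h O hO).2]; rfl)
  · rintro z hz h1 ⟨O, ⟨μ, h2, h3⟩, h4⟩ e
    obtain ⟨z, rfl⟩ : z ∈ Set.range i := by
      have h5 : ξ (closedPoint F) ⤳ z := by
        rw [← h2, ← h3, Scheme.Hom.comp_apply]
        exact (specializes_closedPoint _).map μ.continuous
      exact h5.mem_closed i.isClosedEmbedding.isClosed_range ⟨_, hgen⟩
    rw [hc] at e
    exact h4 ((key z ((coheight_one (i ≫ t) hW z).2 (by rw [← height_closed i, hz]; rfl)) h1).1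
      (by exact_mod_cast e) O ⟨μ, h2, h3⟩)

end Pool.Agent.MP_b834b3_ag.G20
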