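import Pool.Agent.MP_b834b3_ag.g.Main
import Pool.Agent.MP_b834b3_ag.g.Atlas
import Pool.Agent.MP_b834b3_ag.g.Bf
import Pool.Agent.MP_b834b3_ag.g.Cg
import Pool.Agent.MP_b834b3_ag.g.Ch
import Pool.Agent.MP_b834b3_ag.g.Cmp
import Pool.Agent.MP_b834b3_ag.g.Ctr
import Pool.Agent.MP_b834b3_ag.g.Cur
import Pool.Agent.MP_b834b3_ag.g.Div
import Pool.Agent.MP_b834b3_ag.g.Ech
import Pool.Agent.MP_b834b3_ag.g.Eq
import Pool.Agent.MP_b834b3_ag.g.Exc
import Pool.Agent.MP_b834b3_ag.g.Form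
import Pool.Agent.MP_b834b3_ag.g.Gen
import Pool.Agent.MP_b834b3_ag.g.Geo
import Pool.Agent.MP_b834b3_ag.g.Geo2
import Pool.Agent.MP_b834b3_ag.g.Hrel
import Pool.Agent.MP_b834b3_ag.g.Hyp
import Pool.Agent.MP_b834b3_ag.g.Jac
import Pool.Agent.MP_b834b3_ag.g.Lim
import Pool.Agent.MP_b834b3_ag.g.Lin
import Pool.Agent.MP_b834b3_ag.g.Loc
import Pool.Agent.MP_b834b3_ag.g.Ml
import Pool.Agent.MP_b834b3_ag.g.Model
import Pool.Agent.MP_b834b3_ag.g.Nc
import Pool.Agent.MP_b834b3_ag.g.No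
import Pool.Agent.MP_b834b3_ag.g.One
import Pool.Agent.MP_b834b3_ag.g.Par
import Pool.Agent.MP_b834b3_ag.g.Pat
import Pool.Agent.MP_b834b3_ag.g.Pl
import Pool.Agent.MP_b834b3_ag.g.Pole
import Pool.Agent.MP_b834b3_ag.g.Pt
import Pool.Agent.MP_b834b3_ag.g.Spc
import Pool.Agent.MP_b834b3_ag.g.St
import Pool.Agent.MP_b834b3_ag.g.Str1
import Pool.Agent.MP_b834b3_ag.g.Str2
import Pool.Agent.MP_b834b3_ag.g.Three
import Pool.Agent.MP_b834b3_ag.g.Tr
import Pool.Agent.MP_b834b3_ag.g.Two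
import Pool.Agent.MP_b834b3_ag.g.Uni
import Pool.Agent.MP_b834b3_ag.g.Vb
import Pool.Agent.MP_b834b3_ag.g.Vrel

/-! Genus twenty: assembly. -/

namespace Pool.Agent.MP_b834b3_ag.G20

open AlgebraicGeometry CategoryTheory Limits

theorem base : Base :=
  ⟨form_s, lin, par_s form_s, pt_s form_s lin, eq_s form_s lin,
    ech form_s (pt_s form_s lin) (eq_s form_s lin), pl_s (pt_s form_s lin), add⟩

theorem ml' : MlS := ml form_s lin (st form_s lin)

theorem ch' : ChS := ch_s base (loc_s base.pt)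

theorem exists_model' : ExistS := exist_s base (gen_s base (exc form_s jac)) ch'

theorem rank_le_four {X : Scheme.{0}} {s : X ⟶ Spec (CommRingCat.of K)} (hs : IsGeneric s) :
    rankCH2 (pullback s s) ≤ 4 := by
  obtain ⟨h0, L, _, _, M, hM, hG⟩ := hs
  have h := ch' L M hM
  obtain ⟨𝒜⟩ := atl_s base L M X s h h0 hG
  have h1 := str1 base vb
  have h2 := str2 base (bf form_s lin (pat form_s ml'))
  have hd := div_s base L M hM h
  have hh := hyp_s base L M h hd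
  refine count 𝒜 base h1 h2 h fun b V hR h3 => ?_
  have hv := vrp 𝒜 vrel (nc base) (ctr_s base) (three_s base cmp) h b
    (one_s base geo2 L M X s 𝒜 b h (closed 𝒜 base h1 h2 geo1 hM h)) hR
  exact hrel base (two_s base) L M _ h hh (pole_s base L M h hd hh)
    (lim_s base (spec_s base) (exc form_s jac) L M _ h hd (cg base (spec_s base)
      (uni form_s lin (no_s form_s lin (pat form_s ml')) (tr_s form_s ml')) (cur base) _ hv h3))
    hv h3

end Pool.Agent.MP_b834b3_ag.G20
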