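import Pool.Agent.MP_b834b3_ag.g.SpecA

/-! Genus twenty: the shape of the three alternating forms. -/

namespace Pool.Agent.MP_b834b3_ag.G20

open MvPolynomial Matrix

namespace Form

variable (R : Type) [CommRing R] [Algebra K R]

theorem fm_eq (i : Fin 3) :
    fm R i = (up i).map (algebraMap K R) - ((up i).map (algebraMap K R))ᵀ := by
  ext a b
  simp [fm, form]

theorem ev (A : Matrix (Fin 9) (Fin 9) R) (u v : Fin 9 → R) :
    u ᵥ* (A - Aᵀ) ⬝ᵥ v = ∑ p : Fin 9 × Fin 9, A p.1 p.2 * (u p.1 * v p.2 - u p.2 * v p.1) := by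
  simp only [mul_sub, Finset.sum_sub_distrib, Fintype.sum_prod_type, vecMul, dotProduct,
    Matrix.sub_apply, transpose_apply, Finset.sum_mul, sub_mul]
  rw [Finset.sum_comm]
  congr 1 <;> exact Finset.sum_congr rfl fun _ _ => Finset.sum_congr rfl fun _ _ => by ring

theorem up_succ (i : Fin 2) (a b : Fin 9) :
    up i.succ a b = if h : a < b then cf ℂ K ((i, ⟨(a, b), h⟩) : Ix) else 0 := rfl

theorem up_zero (a b : Fin 9) :
    up 0 a b = if a < b ∧ a.val + b.val = 7 then 1 else 0 := rfl

end Form

open Form in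
theorem form_s : FormS where
  skew R _ _ i := by rw [fm_eq, transpose_sub, transpose_transpose, neg_sub]
  diag R _ _ i u := by
    rw [fm_eq, ev]
    exact Finset.sum_eq_zero fun p _ => by ring
  zero R _ _ u v := by
    rw [fm_eq, ev]
    simp only [map_apply, up_zero, apply_ite (algebraMap K R), map_one, map_zero, ite_mul, one_mul,
      zero_mul, ← Finset.sum_filter]
    rw [show (Finset.univ.filter fun p : Fin 9 × Fin 9 => p.1 < p.2 ∧ p.1.val + p.2.val = 7) =
      {(0, 7), (1, 6), (2, 5), (3, 4)} by decide, Finset.sum_insert (by decide),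
      Finset.sum_insert (by decide), Finset.sum_pair (by decide)]
    ring
  succ R _ _ i u v := by
    rw [fm_eq, ev, ← Fintype.sum_subtype_add_sum_subtype fun p : Fin 9 × Fin 9 => p.1 < p.2,
      Finset.sum_eq_zero (s := Finset.univ) (f := fun p : {p : Fin 9 × Fin 9 // ¬ p.1 < p.2} => _)
        fun p _ => by rw [map_apply, up_succ, dif_neg p.2, map_zero, zero_mul], add_zero]
    exact Finset.sum_congr rfl fun p _ => by rw [map_apply, up_succ, dif_pos p.2]
  entry R _ _ i p := by
    rw [fm_eq, Matrix.sub_apply, transpose_apply, map_apply, map_apply, up_succ, up_succ, dif_pos p.2,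
      dif_neg p.2.not_gt, map_zero, sub_zero]
  mul R m n _ _ A B C a b := rfl
  map R S _ _ _ _ σ w := by
    have h : ∀ i, (fm R i).map σ = fm S i := fun i => by
      ext a b
      simp [fm]
    refine ⟨h, ?_⟩
    ext a b
    simp [fw, Matrix.sum_apply, ← h]
  indep := (algebraicIndependent_X Ix ℂ).map' (f := IsScalarTower.toAlgHom ℂ (MvPolynomial Ix ℂ) K)
    (IsFractionRing.injective (MvPolynomial Ix ℂ) K)

end Pool.Agent.MP_b834b3_ag.G20
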