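import Pool.Agent.MP_b834b3_ag.g.SpecC

/-! Genus twenty: the count of generators. -/

namespace Pool.Agent.MP_b834b3_ag.G20

open AlgebraicGeometry CategoryTheory Algebra IsLocalRing Limits MvPolynomial Matrix
open scoped TensorProduct

variable {L : Type} [Field L] [Algebra K L] {M : Matrix (Fin 4) (Fin 9) L} {X : Scheme.{0}}
  {s : X ⟶ Spec (CommRingCat.of K)} (𝒜 : Atl M s)

theorem vrp (hV : VrelS) (hN : NcS) (hC : CtrS) (hT : ThreeS) (h : ChAt M) (b : Bool)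
    (h1 : OneAt 𝒜 b) {V : Submodule ℚ (↑(pullback s s) →₀ ℚ)} (hR : Rat _ ≤ V) :
    VR (𝒜.G b V) := by
  intro F _ _ N φ x H
  have hn := hN _ F N φ x H
  obtain ⟨a1, a2, -, a4, a5, a6, a7, p, N', b1, b2, b3⟩ := H
  obtain ⟨F', _, _, f, j, χ, ξ, W, z1, c1, c2, c3, c4, c5, c6, c7, c8, c9, c10⟩ :=
    hT L M X s 𝒜 b F N p N' h a1 a2 hn b1
  have := 𝒜.lft h
  have := 𝒜.compact
  obtain ⟨c, d1, d2, d3⟩ := hV K _ (pullback.fst s s ≫ s) F' ξ (f φ) c4 c5 c6
    ((map_ne_zero f).2 a4)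
  have key : ∀ O z, Ctr ξ O z → ∃ (p' : Pl F) (N'' : Matrix (Fin 4) (Fin 9) p'.O),
      (∀ y, y ∈ p'.O ↔ f y ∈ O) ∧ Cen p' N N'' ∧ pt (N''.map p'.π) = 𝒜.key (pr s b z) := by
    rintro O z ⟨μ, e1, e2⟩
    exact hC L M X s 𝒜 F F' f N j χ O _ h c1 c2 ⟨μ ≫ pr s b, by rw [← Category.assoc, e1, c3],
      (Scheme.Hom.comp_apply _ _ _).trans (congrArg (pr s b) e2)⟩
  intro z0 e0 h0
  have e1 : z0 = z1 := h1 _ _ (𝒜.inj (e0.trans (c9.trans b3).symm)) (e0 ▸ a5) h0 (Or.inr c10)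
  refine good_of (hR (Submodule.subset_span d1)) (d3 z0 h0 (fun O hO => ?_) ⟨W, e1 ▸ c7, ?_⟩)
    fun z hz hc => ?_
  · obtain ⟨p', N'', f1, f2, f3⟩ := key O z0 hO
    by_contra f4
    exact (a6 p' N'' f2 fun e => f4 ((f1 _).1 e)).2 (f3.trans e0)
  · rw [← map_inv₀, c8]
    exact b2
  · obtain ⟨g1, O, hO, g2⟩ := d2 z hc
    obtain ⟨p', N'', f1, f2, f3⟩ := key O z hO
    rcases g2 with g2 | g2
    · exact (a6 p' N'' f2 fun e => g2 ((f1 _).1 e)).1 z f3.symm g1
    · rcases a7 p' N'' f2 fun e => g2 (by rw [← map_inv₀]; exact (f1 _).1 e) with e | e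
      · exact absurd (h1 _ _ (𝒜.inj (e0.trans (f3.symm.trans e).symm)) (e0 ▸ a5) h0 (Or.inl g1)).symm
          hz
      · exact e z f3.symm g1

theorem red_one (h : ChAt M) (j : Bool → Fin 4) (P : Spec (CommRingCat.of (Bq M j))) (b : Bool) :
    (red M j P b).submatrix id (ff (j b)) = 1 := by
  rw [red, el2, Matrix.submatrix_map, Matrix.submatrix_map, h.one _ (h.ne _),
    Matrix.map_one _ (map_zero _) (map_one _), Matrix.map_one _ (map_zero _) (map_one _)]

theorem red_iso (hB : Base) (h : ChAt M) (j : Bool → Fin 4) (P : Spec (CommRingCat.of (Bq M j)))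
    (b : Bool) : Iso (red M j P b) ∧ Rk (red M j P b) :=
  ⟨(hB.pt.iso_map _ _ _ _).1 ((hB.pt.iso_map _ _ _ _).1 (h.iso _ (h.ne _))),
    (hB.pt.rk_det _ _).2 ⟨_, by rw [red_one h, det_one]; exact one_ne_zero⟩⟩

include 𝒜 in
theorem closed (hB : Base) (h1 : Str1S) (h2 : Str2S) (hG : Geo1S) (hM : IsGenField M)
    (h : ChAt M) (a : L) (ha : IsAlgebraic K a) : a ∈ Set.range (algebraMap K L) := by
  have := 𝒜.lft h
  have : CharZero K := charZero_of_injective_algebraMap (algebraMap ℂ K).injective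
  obtain ⟨S, a1, -, a3⟩ := h1 L M X s 𝒜 (fun _ => 0) h
  obtain ⟨δ, hδ⟩ := h2 L M X s 𝒜 h
  have hc := height_chart _ _ (𝒜.hJ fun _ => 0)
  have key : ∀ P : Spec (CommRingCat.of (Bq M fun _ => 0)),
      Order.height (𝒜.J _ P) = (4 : ℕ) → P ∈ S := fun P hP => by
    have e : ∀ b, cellOf (red M _ P b) = 0 := fun b => le_zero_iff.1 (hB.pt.cell_iff _ _ 0 (by
      rw [mn, red_one h _ P b, det_one]; exact one_ne_zero)).1
    refine a3 P e ?_
    by_contra hn
    have := (hδ _ P e hn).1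
    rw [hP] at this
    exact absurd this (by decide)
  refine hG K L (chart M (ff 0)) (h.frac _ (h.ne 0)) hM.2.2.2 (fun P Q hP hQ b1 b2 => ?_) a ha
  have c1 := (hc ⟨P, hP⟩ 4).2 b1
  have c2 := (hc ⟨Q, hQ⟩ 4).2 b2
  exact congrArg PrimeSpectrum.asIdeal ((𝒜.J _).isOpenEmbedding.injective
    (a1.sub _ ⟨_, key _ c1, rfl⟩ _ ⟨_, key _ c2, rfl⟩ c1 c2))

/-- The three strata that give generators. -/
def gj : Fin 3 → Bool → Fin 4 := ![fun _ => 1, fun b => bif b then 3 else 0, fun b => bif b then 0 else 3]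

theorem cases2 : ∀ a a' : Fin 4, 4 - nz a - nz a' = 2 →
    (∃ i, gj i false = a ∧ gj i true = a') ∨ a = 2 ∨ a' = 2 := by decide

theorem cases3 : ∀ a a' : Fin 4, 2 ≤ 4 - nz a - nz a' → a = 3 ∨ a' = 3 →
    ∃ i, gj i false = a ∧ gj i true = a' := by decide

theorem gj_dim : ∀ i, 4 - nz (gj i false) - nz (gj i true) = 2 := by decide

theorem count (hB : Base) (h1 : Str1S) (h2 : Str2S) (h : ChAt M)
    (hS : ∀ b V, Rat _ ≤ V → CellIn (𝒜.G b V) 3 → CellIn (𝒜.G b V) 2) :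
    rankCH2 (pullback s s) ≤ 4 := by
  classical
  choose S a1 a2 a3 using fun j => h1 L M X s 𝒜 j h
  obtain ⟨δ, hδ⟩ := h2 L M X s 𝒜 h
  have hcell : ∀ j P b, 𝒜.cells (𝒜.J j P) b = cellOf (red M j P b) := fun j P b =>
    congrArg Prod.fst (𝒜.key_J j P b)
  have hA : ∀ z, z ∉ 𝒜.J _ '' S (𝒜.cells z) → Order.height z = 2 → z = δ := fun z hz h0 => by
    obtain ⟨P, hP⟩ := 𝒜.mem_cells z
    have e : ∀ b, cellOf (red M _ P b) = 𝒜.cells z b := fun b => by rw [← hcell, hP]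
    rw [← hP]
    exact (hδ _ P e fun hl => hz ⟨P, a3 _ P e hl, hP⟩).2 (by rw [hP, h0])
  have hZ : ∀ j, ∀ z ∈ 𝒜.J j '' S j, 𝒜.cells z = j := by
    rintro j _ ⟨P, hP, rfl⟩
    exact funext fun b => (hcell j P b).trans (a2 j P hP b)
  have g1 : ∀ i, ∃ c ∈ Z2 (pullback s s), ∀ z ∈ 𝒜.J _ '' S (gj i), Order.height z = 2 →
      Finsupp.single z 1 = c := fun i => by
    by_cases e : ∃ z ∈ 𝒜.J _ '' S (gj i), Order.height z = 2
    · obtain ⟨z, b1, b2⟩ := e
      refine ⟨Finsupp.single z 1, Finsupp.single_mem_supported ℚ _ b2, fun z' b3 b4 => ?_⟩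
      rw [(a1 _).sub z' b3 z b1 (by rw [b4, gj_dim]; rfl) (by rw [b2, gj_dim]; rfl)]
    · exact ⟨0, zero_mem _, fun z b1 b2 => absurd ⟨z, b1, b2⟩ e⟩
  have g2 : ∃ c ∈ Z2 (pullback s s), Order.height δ = 2 → Finsupp.single δ 1 = c := by
    by_cases e : Order.height δ = 2
    · exact ⟨_, Finsupp.single_mem_supported ℚ _ e, fun _ => rfl⟩
    · exact ⟨0, zero_mem _, fun e' => absurd e' e⟩
  choose v hv hv' using g1
  obtain ⟨v₀, hv₀, hv₀'⟩ := g2
  refine (rank_le_of _ (fun o : Option (Fin 3) => o.elim v₀ v) (fun o => by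
    cases o
    exacts [hv₀, hv _]) ?_).trans (by simp)
  set V := Rat (pullback s s) ⊔ Submodule.span ℚ (Set.range fun o : Option (Fin 3) => o.elim v₀ v)
  have hR : Rat _ ≤ V := le_sup_left
  have b1 : ∀ z, z ∉ 𝒜.J _ '' S (𝒜.cells z) → Order.height z = 2 → Good V z := fun z hz h0 => by
    obtain rfl := hA z hz h0
    exact Submodule.mem_sup_right (Submodule.subset_span ⟨none, (hv₀' h0).symm⟩)
  have b2 : ∀ z, z ∈ 𝒜.J _ '' S (𝒜.cells z) → Order.height z = 2 →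
      (∃ i, gj i false = 𝒜.cells z false ∧ gj i true = 𝒜.cells z true) → Good V z := by
    rintro z hz h0 ⟨i, e1, e2⟩
    have e : 𝒜.cells z = gj i := funext fun b => by cases b; exacts [e1.symm, e2.symm]
    rw [e] at hz
    exact Submodule.mem_sup_right (Submodule.subset_span ⟨some i, (hv' i z hz h0).symm⟩)
  have b3 : ∀ b, CellIn (𝒜.G b V) 3 := fun b F _ _ N _ _ hN z hz h0 => by
    by_cases e : z ∈ 𝒜.J _ '' S (𝒜.cells z)
    · have c1 := (a1 _).le z e
      rw [h0] at c1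
      have c2 : 𝒜.cells z b = 3 := (congrArg Prod.fst hz).trans hN
      refine b2 z e h0 (cases3 _ _ (by exact_mod_cast c1) ?_)
      cases b
      exacts [Or.inl c2, Or.inr c2]
    · exact b1 z e h0
  have b4 : ∀ b z, 𝒜.cells z b = 2 → Order.height z = 2 → Good V z := fun b z hz h0 => by
    obtain ⟨P, hP⟩ := 𝒜.mem_cells z
    refine hS b V hR (b3 b) _ (red M _ P b) (red_iso hB h _ P b).1 (red_iso hB h _ P b).2
      (by rw [← hcell, hP, hz]) z (by rw [← 𝒜.key_J, hP]) h0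
  have key : ∀ n z, Order.height z = 2 →
      7 ≤ (𝒜.cells z false).val + (𝒜.cells z true).val + n → Good V z := by
    intro n
    induction n with
    | zero =>
      intro z _ e
      have := (𝒜.cells z false).2
      have := (𝒜.cells z true).2
      omega
    | succ n ih =>
      intro z h0 hn
      by_cases e : z ∈ 𝒜.J _ '' S (𝒜.cells z)
      swap
      · exact b1 z e h0
      by_cases hd : 4 - nz (𝒜.cells z false) - nz (𝒜.cells z true) = 2
      · rcases cases2 _ _ hd with c | c | c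
        exacts [b2 z e h0 c, b4 _ z c h0, b4 _ z c h0]
      refine (a1 _).van V hR (fun z' c1 c2 ⟨w, c3, c4⟩ => ?_) z e h0 hd
      have c5 : ∀ b, 𝒜.cells z b ≤ 𝒜.cells z' b := fun b => by
        rw [← hZ _ w c3]
        exact 𝒜.mono _ _ (c4.map (pr s b).continuous)
      by_cases c6 : 𝒜.cells z' = 𝒜.cells z
      · exact b1 z' (by rw [c6]; exact c2) c1
      refine ih z' c1 ?_
      have c7 := Fin.le_def.1 (c5 false)
      have c8 := Fin.le_def.1 (c5 true)
      have c9 : (𝒜.cells z' false).val ≠ 𝒜.cells z false ∨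
          (𝒜.cells z' true).val ≠ 𝒜.cells z true := by
        by_contra hc
        push Not at hc
        refine c6 (funext fun b => ?_)
        cases b
        exacts [Fin.ext hc.1, Fin.ext hc.2]
      omega
  exact fun z hz => key 7 z hz (by omega)

end Pool.Agent.MP_b834b3_ag.G20
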