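import Pool.Agent.MP_b834b3_ag.g.SpecA

/-! Genus twenty: configurations that do not occur. -/

namespace Pool.Agent.MP_b834b3_ag.G20

open Matrix

namespace No

/-- The shape of the matrices that keep the chain with the levels `lev`. -/
def sh (lev : Fin 9 → ℕ) : Finset (Fin 9 × Fin 9) :=
  Finset.univ.filter fun x => lev x.2 ≤ lev x.1

/-- A rectangle of zeros. -/
def rc (p q : ℕ) : Finset (Fin 9 × Fin 9) :=
  Finset.univ.filter fun x => x.1.val < p ∧ x.2.val < q

theorem sh_diag (lev : Fin 9 → ℕ) (a : Fin 9) : (a, a) ∈ sh lev := by simp [sh]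

theorem mem_rc {p q : ℕ} {x : Fin 9 × Fin 9} : x ∈ rc p q ↔ x.1.val < p ∧ x.2.val < q := by
  simp [rc]

variable {F : Type} [Field F] [Algebra K F]

omit [Algebra K F] in
theorem card_le {n : ℕ} (N : Submodule F (Fin 9 → F)) (v : Fin n → Fin 9 → F)
    (hv : LinearIndependent F v) (h : ∀ i, v i ∈ N) : n ≤ Module.finrank F N := by
  have h1 : LinearIndependent F (fun i => (⟨v i, h i⟩ : N)) :=
    LinearIndependent.of_comp N.subtype hv
  simpa using h1.fintype_card_le_finrank

theorem fw_zero (w : Fin 3 → F) (u v : Fin 9 → F) (h : ∀ i, u ᵥ* fm F i ⬝ᵥ v = 0) :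
    u ᵥ* fw w ⬝ᵥ v = 0 := by
  have e : u ᵥ* fw w = ∑ i, w i • (u ᵥ* fm F i) := by
    unfold fw
    rw [Fin.sum_univ_three, Fin.sum_univ_three, vecMul_add, vecMul_add, vecMul_smul, vecMul_smul,
      vecMul_smul]
  rw [e, Fin.sum_univ_three, add_dotProduct, add_dotProduct, smul_dotProduct, smul_dotProduct,
    smul_dotProduct, h, h, h]
  simp

theorem fw_skew (hF : FormS) (w : Fin 3 → F) : (fw w)ᵀ = -fw w := by
  unfold fw
  rw [Fin.sum_univ_three, transpose_add, transpose_add, transpose_smul, transpose_smul,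
    transpose_smul, hF.skew, hF.skew, hF.skew]
  simp only [smul_neg, neg_add_rev]
  abel

theorem span_ker {w : Fin 3 → F} {k u : Fin 9 → F} (hk : k ᵥ* fw w = 0)
    (hu : u ∈ Submodule.span F {k}) (v : Fin 9 → F) : u ᵥ* fw w ⬝ᵥ v = 0 := by
  obtain ⟨c, rfl⟩ := Submodule.mem_span_singleton.1 hu
  rw [smul_vecMul, hk]
  simp

omit [Algebra K F] in
theorem rk_top : Module.finrank F (⊤ : Submodule F (Fin 9 → F)) = 9 := by simp

omit [Algebra K F] in
/-- A basis adapted to a chain. -/
theorem chain (hL : LinS) (A B C : Submodule F (Fin 9 → F)) (p q r : ℕ)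
    (hA : p ≤ Module.finrank F A) (hB : q ≤ Module.finrank F B) (hC : r ≤ Module.finrank F C) :
    ∃ G : Matrix (Fin 9) (Fin 9) F, G.det ≠ 0 ∧ (∀ a : Fin 9, a.val < p → G a ∈ A) ∧
      (∀ a : Fin 9, p ≤ a.val → a.val < q → G a ∈ B) ∧
      ∀ a : Fin 9, p ≤ a.val → q ≤ a.val → a.val < r → G a ∈ C := by
  obtain ⟨G, hG, h⟩ := hL.flag0 F (fun a => if a.val < p then A else if a.val < q then B else
      if a.val < r then C else ⊤) (by
    intro a
    have ha := a.2
    by_cases h1 : a.val < p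
    · rw [if_pos h1]; omega
    by_cases h2 : a.val < q
    · rw [if_neg h1, if_pos h2]; omega
    by_cases h3 : a.val < r
    · rw [if_neg h1, if_neg h2, if_pos h3]; omega
    · rw [if_neg h1, if_neg h2, if_neg h3, rk_top]; exact ha)
  refine ⟨G, hG, fun a h1 => ?_, fun a h1 h2 => ?_, fun a h1 h2 h3 => ?_⟩
  · simpa [h1] using h a
  · simpa [not_lt.2 h1, h2] using h a
  · simpa [not_lt.2 h1, not_lt.2 h2, h3] using h a

theorem hyp (hF : FormS) (hL : LinS) (hP : PatS) (k : Fin 9 → F) (S : Submodule F (Fin 9 → F))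
    (hk : k ≠ 0) (hS : k ∈ S) (hp : Perp (Submodule.span F {k}) S) : Module.finrank F S ≤ 7 := by
  by_contra hn
  have hle : Submodule.span F {k} ≤ S := (Submodule.span_singleton_le_iff_mem k S).2 hS
  obtain ⟨G, hG, h1, h2, -⟩ := chain hL (Submodule.span F {k}) S S 1 8 0
    (by rw [finrank_span_singleton hk]) (by omega) (Nat.zero_le _)
  have h := hP.all F Empty G (sh ![0, 1, 1, 1, 1, 1, 1, 1, 2]) (rc 1 8) Empty.elim hG
    (sh_diag _) (by decide +kernel) (by
      intro i x hx
      obtain ⟨ha, hb⟩ := mem_rc.1 hx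
      rw [hF.mul]
      refine hp i _ (h1 _ ha) _ ?_
      by_cases hb1 : x.2.val < 1
      · exact hle (h1 _ hb1)
      · exact h2 _ (by omega) hb) algebraicIndependent_empty_type (fun _ _ _ _ _ _ d => d.elim)
  revert h
  decide +kernel

theorem dim_aux (hF : FormS) (hL : LinS) (hP : PatS) (w : Fin 3 → F) (k : Fin 9 → F)
    (I S : Submodule F (Fin 9 → F)) (hw : w ≠ 0) (hk : k ≠ 0) (hkw : k ᵥ* fw w = 0) (hI : k ∈ I)
    (hIS : I ≤ S) (hp : Perp I S) (q r : ℕ) (lev : Fin 9 → ℕ) (hq : q ≤ Module.finrank F I)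
    (hr : r ≤ Module.finrank F S) (c1 : Cl (sh lev) (rc q r))
    (c2 : Cl (sh lev) (rc q r ∪ rc 1 9)) :
    27 + (sh lev).card ≤ 2 * fre (rc q r) + fre (rc q r ∪ rc 1 9) + 2 := by
  have hle : Submodule.span F {k} ≤ I := (Submodule.span_singleton_le_iff_mem k I).2 hI
  obtain ⟨G, hG, h1, h2, h3⟩ := chain hL (Submodule.span F {k}) I S 1 q r
    (by rw [finrank_span_singleton hk]) hq hr
  have hGI : ∀ a : Fin 9, a.val < q → G a ∈ I := by
    intro a ha
    by_cases hb1 : a.val < 1
    · exact hle (h1 _ hb1)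
    · exact h2 _ (by omega) ha
  have hGS : ∀ a : Fin 9, a.val < r → G a ∈ S := by
    intro a ha
    by_cases hb1 : a.val < 1
    · exact hIS (hle (h1 _ hb1))
    · by_cases hb2 : a.val < q
      · exact hIS (hGI _ hb2)
      · exact h3 _ (by omega) (by omega) ha
  refine hP.ker F G _ _ _ w hG (sh_diag _) c1 c2 hw ?_ ?_
  · intro i x hx
    obtain ⟨ha, hb⟩ := mem_rc.1 hx
    rw [hF.mul]
    exact hp i _ (hGI _ ha) _ (hGS _ hb)
  · intro x hx
    rw [hF.mul]
    rcases Finset.mem_union.1 hx with hx | hx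
    · obtain ⟨ha, hb⟩ := mem_rc.1 hx
      exact fw_zero w _ _ fun i => hp i _ (hGI _ ha) _ (hGS _ hb)
    · exact span_ker hkw (h1 _ (mem_rc.1 hx).1) _

theorem two_ne : (2 : F) ≠ 0 := by
  have : CharZero K := charZero_of_injective_algebraMap (algebraMap ℂ K).injective
  have : CharZero F := charZero_of_injective_algebraMap (algebraMap K F).injective
  exact two_ne_zero

/-- An alternating matrix with two zero rows has a third relation. -/
theorem third (M : Matrix (Fin 9) (Fin 9) F) (hM : Mᵀ = -M) (h0 : ∀ b, M 0 b = 0)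
    (h1 : ∀ b, M 1 b = 0) : ∃ c : Fin 9 → F, c ≠ 0 ∧ c 0 = 0 ∧ c 1 = 0 ∧ c ᵥ* M = 0 := by
  have hs : ∀ a b, M a b = -M b a := fun a b => by
    simpa using congrFun (congrFun hM b) a
  set E : Matrix (Fin 9) (Fin 9) F := single 0 1 1 - single 1 0 1 with hE
  have hT : (M + E)ᵀ = -(M + E) := by
    rw [transpose_add, hM, hE, transpose_sub, transpose_single, transpose_single]
    abel
  have hd : (M + E).det = 0 := by
    have h2 := det_transpose (M + E)
    rw [hT, det_neg, Fintype.card_fin] at h2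
    have h3 : 2 * (M + E).det = 0 := by linear_combination -h2
    exact (mul_eq_zero.1 h3).resolve_left two_ne
  obtain ⟨c, hc, hz⟩ := exists_vecMul_eq_zero_iff.2 hd
  have hcE : ∀ b, (c ᵥ* E) b = (if b = 1 then c 0 else 0) - (if b = 0 then c 1 else 0) := by
    intro b
    rw [hE, vecMul_sub]
    simp [vecMul, dotProduct, single, eq_comm, ite_and]
  have m0 : (c ᵥ* M) 0 = 0 := by
    simp only [vecMul, dotProduct]
    exact Finset.sum_eq_zero fun a _ => by rw [hs, h0]; simp
  have m1 : (c ᵥ* M) 1 = 0 := by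
    simp only [vecMul, dotProduct]
    exact Finset.sum_eq_zero fun a _ => by rw [hs, h1]; simp
  rw [vecMul_add] at hz
  have c1 : c 1 = 0 := by
    have := congrFun hz 0
    rw [Pi.add_apply, m0, hcE] at this
    simpa using this
  have c0 : c 0 = 0 := by
    have := congrFun hz 1
    rw [Pi.add_apply, m1, hcE] at this
    simpa using this
  refine ⟨c, hc, c0, c1, ?_⟩
  funext b
  have := congrFun hz b
  rw [Pi.add_apply, hcE, c0, c1] at this
  simpa using this

theorem ker (hF : FormS) (hL : LinS) (hP : PatS) (w : Fin 3 → F) (k k' : Fin 9 → F) (hw : w ≠ 0)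
    (hk : k ≠ 0) (h : k ᵥ* fw w = 0) (h' : k' ᵥ* fw w = 0) : ∃ a : F, k' = a • k := by
  by_contra hn
  set N : Submodule F (Fin 9 → F) := LinearMap.ker (vecMulLinear (fw w)) with hN
  have hm : ∀ v, v ∈ N ↔ v ᵥ* fw w = 0 := fun v => by simp [hN]
  have h2 : 2 ≤ Module.finrank F N := by
    refine card_le N ![k, k'] ((LinearIndependent.pair_iff' hk).2 fun a ha => hn ⟨a, ha.symm⟩) ?_
    intro i
    fin_cases i
    · exact (hm _).2 h
    · exact (hm _).2 h'
  have h3 : 3 ≤ Module.finrank F N := by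
    obtain ⟨G, hG, h1, -, -⟩ := chain hL N N N 2 0 0 h2 (Nat.zero_le _) (Nat.zero_le _)
    have g0 := h1 0 (by decide)
    have g1 := h1 1 (by decide)
    obtain ⟨c, hc, c0, c1, hz⟩ := third (G * fw w * Gᵀ)
      (by rw [transpose_mul, transpose_mul, transpose_transpose, fw_skew hF]
          simp [Matrix.mul_assoc])
      (fun b => by rw [hF.mul, (hm _).1 g0]; simp) (fun b => by rw [hF.mul, (hm _).1 g1]; simp)
    have hinj : ∀ v : Fin 9 → F, v ᵥ* G = 0 → v = 0 := fun v hv => eq_zero_of_vecMul_eq_zero hG hv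
    have hcN : c ᵥ* G ∈ N := by
      rw [hm]
      refine eq_zero_of_vecMul_eq_zero (M := Gᵀ) (by rwa [det_transpose]) ?_
      rw [vecMul_vecMul, vecMul_vecMul, ← Matrix.mul_assoc]
      exact hz
    refine card_le N ![G 0, G 1, c ᵥ* G] ?_ ?_
    · rw [Fintype.linearIndependent_iff]
      intro g hg
      have e : (g 0 • Pi.single 0 1 + g 1 • Pi.single 1 1 + g 2 • c : Fin 9 → F) ᵥ* G = 0 := by
        rw [add_vecMul, add_vecMul, smul_vecMul, smul_vecMul, smul_vecMul, single_one_vecMul,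
          single_one_vecMul]
        rw [Fin.sum_univ_three] at hg
        exact hg
      have e1 := hinj _ e
      have z0 : g 0 = 0 := by simpa [c0] using congrFun e1 0
      have z1 : g 1 = 0 := by simpa [c1] using congrFun e1 1
      have z2 : g 2 = 0 := by simpa [z0, z1, hc] using e1
      intro i
      fin_cases i
      · exact z0
      · exact z1
      · exact z2
    · intro i
      fin_cases i
      · exact g0
      · exact g1
      · exact hcN
  obtain ⟨G, hG, h1, -, -⟩ := chain hL N N N 3 0 0 h3 (Nat.zero_le _) (Nat.zero_le _)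
  have hc := hP.ker F G (sh ![0, 0, 0, 1, 1, 1, 1, 1, 1]) ∅ (rc 3 9) w hG (sh_diag _)
    (by decide +kernel) (by decide +kernel) hw (fun _ x hx => absurd hx (Finset.notMem_empty x)) (by
      intro x hx
      rw [hF.mul, (hm _).1 (h1 _ (mem_rc.1 hx).1)]
      simp)
  revert hc
  decide +kernel

end No

/-- The three configurations do not occur. -/
theorem no_s (hF : FormS) (hL : LinS) (hP : PatS) : NoS where
  ker := fun _ _ _ w k k' hw hk h h' => No.ker hF hL hP w k k' hw hk h h'
  dim := fun _ _ _ w k I S hw hk hkw hI hIS hp => by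
    refine ⟨fun h => ?_, fun h => ?_⟩
    · have hc := No.dim_aux hF hL hP w k I S hw hk hkw hI hIS hp 3 5 ![0, 1, 1, 2, 2, 3, 3, 3, 3]
        h.1 h.2 (by decide +kernel) (by decide +kernel)
      revert hc
      decide +kernel
    · have hc := No.dim_aux hF hL hP w k I S hw hk hkw hI hIS hp 2 6 ![0, 1, 2, 2, 2, 2, 3, 3, 3]
        h.1 h.2 (by decide +kernel) (by decide +kernel)
      revert hc
      decide +kernel
  hyp := fun _ _ _ k S hk hS hp => No.hyp hF hL hP k S hk hS hp

end Pool.Agent.MP_b834b3_ag.G20
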